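import Pool.Agent.LongCyc.Blocks

/-!
# Assembly of a cyclic sequence of blocks into a long cycle
-/

set_option autoImplicit false

namespace Pool.Agent.LongCyc

open Finset

variable {ι : Type*} [DecidableEq ι] [Fintype ι]

/-- increasing segment of an indexed path -/
theorem asm_seg_up {α : Type*} {L : ℕ} (f : Fin L → α) (hf : Function.Injective f) (R : α → α → Prop)
    (hR : ∀ (i : ℕ) (hi : i + 1 < L), R (f ⟨i, by omega⟩) (f ⟨i + 1, hi⟩)) (c : ℕ) :
    ∀ (m : ℕ) (h : c + m < L), ∃ (l : List α) (hl : l ≠ []), l.Nodup ∧ l.length = m + 1 ∧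
      l.head hl = f ⟨c, by omega⟩ ∧ l.getLast hl = f ⟨c + m, h⟩ ∧ l.IsChain R ∧
      ∀ x ∈ l, ∃ i : Fin L, c ≤ i.val ∧ i.val ≤ c + m ∧ x = f i := by
  intro m
  induction m with
  | zero =>
    intro h
    exact ⟨[f ⟨c, by omega⟩], by simp, by simp, by simp, by simp, by simp, by simp,
      by simp only [List.mem_singleton]; rintro x rfl; exact ⟨⟨c, by omega⟩, le_rfl, by simp, rfl⟩⟩
  | succ m ih =>
    intro h
    obtain ⟨l, hl, h1, h2, h3, h4, h5, h6⟩ := ih (by omega)
    refine ⟨l ++ [f ⟨c + (m + 1), h⟩], by simp, ?_, by simp [h2], ?_, by simp, ?_, ?_⟩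
    · rw [List.nodup_append]
      refine ⟨h1, by simp, ?_⟩
      intro a ha b hb hab
      simp only [List.mem_singleton] at hb
      obtain ⟨i, -, hi, rfl⟩ := h6 a ha
      rw [hb] at hab
      have := hf hab
      have := congrArg Fin.val this
      simp only at this
      omega
    · rw [List.head_append_of_ne_nil hl]; exact h3
    · rw [List.isChain_append]
      refine ⟨h5, by simp, ?_⟩
      intro x hx y hy
      rw [List.getLast?_eq_getLast_of_ne_nil hl] at hx
      simp only [Option.mem_def, Option.some.injEq, List.head?_cons] at hx hy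
      subst hx; subst hy
      rw [h4]
      exact hR (c + m) (by omega)
    · intro x hx
      rcases List.mem_append.1 hx with hx | hx
      · obtain ⟨i, a1, a2, a3⟩ := h6 x hx
        exact ⟨i, a1, by omega, a3⟩
      · simp only [List.mem_singleton] at hx
        exact ⟨⟨c + (m + 1), h⟩, by simp, le_rfl, hx⟩

/-- a segment between two indices, in either direction -/
theorem asm_seg {α : Type*} {L : ℕ} (f : Fin L → α) (hf : Function.Injective f) (R : α → α → Prop)
    (hs : ∀ x y, R x y → R y x)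
    (hR : ∀ (i : ℕ) (hi : i + 1 < L), R (f ⟨i, by omega⟩) (f ⟨i + 1, hi⟩)) (c e : Fin L) :
    ∃ (l : List α) (hl : l ≠ []), l.Nodup ∧ l.head hl = f c ∧ l.getLast hl = f e ∧ l.IsChain R ∧
      ∀ x ∈ l, ∃ i : Fin L, x = f i := by
  rcases le_total c.val e.val with h | h
  · obtain ⟨m, hm⟩ := Nat.exists_eq_add_of_le h
    obtain ⟨l, hl, h1, -, h3, h4, h5, h6⟩ := asm_seg_up f hf R hR c.val m (by omega)
    refine ⟨l, hl, h1, h3, ?_, h5, fun x hx => ?_⟩
    · rw [h4]; congr 1; exact Fin.ext hm.symm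
    · obtain ⟨i, -, -, hi⟩ := h6 x hx
      exact ⟨i, hi⟩
  · obtain ⟨m, hm⟩ := Nat.exists_eq_add_of_le h
    obtain ⟨l, hl, h1, -, h3, h4, h5, h6⟩ := asm_seg_up f hf R hR e.val m (by omega)
    refine ⟨l.reverse, by simpa using hl, List.nodup_reverse.2 h1, ?_, ?_, ?_, fun x hx => ?_⟩
    · rw [List.head_reverse, h4]; congr 1; exact Fin.ext hm.symm
    · rw [List.getLast_reverse, h3]
    · rw [List.isChain_reverse]
      exact h5.imp fun a b hab => hs _ _ hab
    · obtain ⟨i, -, -, hi⟩ := h6 x (List.mem_reverse.1 hx)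
      exact ⟨i, hi⟩

omit [DecidableEq ι] in
/-- a connector as a list of vertices -/
theorem asm_conn {G1 G2 : Cube ι → Cube ι → Prop} (hG1 : ∀ x y, G1 x y → G1 y x) {RP MP : Type*}
    {L2 L1 h : ℕ} (S : Blocks G1 RP MP L2 L1 h) :
    ∀ (W : List RP) (hW : W ≠ []), W.Nodup → W.IsChain (fun r r' => Joined G2 (S.rset r) (S.rset r')) →
      ∀ v ∈ S.rset (W.head hW), ∀ u ∈ S.rset (W.getLast hW),
      ∃ (l : List (Cube ι)) (hl : l ≠ []), l.Nodup ∧ l.head hl = v ∧ l.getLast hl = u ∧
        l.IsChain (fun x y => G1 x y ∨ G2 x y) ∧ ∀ x ∈ l, ∃ r ∈ W, x ∈ S.rset r := by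
  have hinj : ∀ r, Function.Injective (S.rp r) := fun r a b hab => by
    have := S.rp_inj (a₁ := (r, a)) (a₂ := (r, b)) hab
    exact (Prod.mk.inj this).2
  have hdis : ∀ r r' x, x ∈ S.rset r → x ∈ S.rset r' → r = r' := by
    intro r r' x h1 h2
    simp only [Blocks.rset, Finset.mem_image, Finset.mem_univ, true_and] at h1 h2
    obtain ⟨a, rfl⟩ := h1
    obtain ⟨b, hb⟩ := h2
    have := S.rp_inj (a₁ := (r', b)) (a₂ := (r, a)) hb
    exact (Prod.mk.inj this).1.symm
  have hseg : ∀ r, ∀ v ∈ S.rset r, ∀ u ∈ S.rset r, ∃ (l : List (Cube ι)) (hl : l ≠ []), l.Nodup ∧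
      l.head hl = v ∧ l.getLast hl = u ∧ l.IsChain (fun x y => G1 x y ∨ G2 x y) ∧
      ∀ x ∈ l, x ∈ S.rset r := by
    intro r v hv u hu
    simp only [Blocks.rset, Finset.mem_image, Finset.mem_univ, true_and] at hv hu
    obtain ⟨a, rfl⟩ := hv
    obtain ⟨b, rfl⟩ := hu
    obtain ⟨l, hl, h1, h2, h3, h4, h5⟩ := asm_seg (S.rp r) (hinj r) G1 hG1 (S.rp_adj r) a b
    refine ⟨l, hl, h1, h2, h3, h4.imp fun x y => Or.inl, fun x hx => ?_⟩
    obtain ⟨i, rfl⟩ := h5 x hx
    simp [Blocks.rset]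
  intro W
  induction W with
  | nil => intro hW; exact absurd rfl hW
  | cons r W ih =>
    intro hW hnd hch v hv u hu
    rcases W with _ | ⟨r', W⟩
    · obtain ⟨l, hl, h1, h2, h3, h4, h5⟩ := hseg r v hv u hu
      exact ⟨l, hl, h1, h2, h3, h4, fun x hx => ⟨r, by simp, h5 x hx⟩⟩
    · rw [List.isChain_cons_cons] at hch
      obtain ⟨⟨p, hp, q, hq, hpq⟩, hch'⟩ := hch
      obtain ⟨l1, hl1, a1, a2, a3, a4, a5⟩ := hseg r v hv p hp
      obtain ⟨l2, hl2, b1, b2, b3, b4, b5⟩ := ih (by simp) (List.nodup_cons.1 hnd).2 hch' q hq u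
        (by simpa using hu)
      refine ⟨l1 ++ l2, by simp [hl1], ?_, ?_, ?_, ?_, ?_⟩
      · rw [List.nodup_append]
        refine ⟨a1, b1, ?_⟩
        intro x hx y hy hxy
        subst hxy
        obtain ⟨r'', hr'', hx'⟩ := b5 x hy
        have := hdis r r'' x (a5 x hx) hx'
        subst this
        exact (List.nodup_cons.1 hnd).1 hr''
      · rw [List.head_append_of_ne_nil hl1]; exact a2
      · rw [List.getLast_append_of_ne_nil _ hl2]; exact b3
      · rw [List.isChain_append]
        refine ⟨a4, b4, ?_⟩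
        intro x hx y hy
        rw [List.getLast?_eq_getLast_of_ne_nil hl1] at hx
        rw [List.head?_eq_some_head hl2] at hy
        simp only [Option.mem_def, Option.some.injEq] at hx hy
        subst hx; subst hy
        rw [a3, b2]
        exact Or.inr hpq
      · intro x hx
        rcases List.mem_append.1 hx with hx | hx
        · exact ⟨r, by simp, a5 x hx⟩
        · obtain ⟨r'', hr'', hx'⟩ := b5 x hx
          exact ⟨r'', List.mem_cons_of_mem _ hr'', hx'⟩

/-- cyclic sequence of lists, flattened -/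
theorem asm_flat {α : Type*} (R : α → α → Prop) (Q : α → α → Prop) (hQR : ∀ x y, Q x y → R x y)
    (k : ℕ) [NeZero k] (B : Fin k → List α)
    (hne : ∀ i, B i ≠ []) (hnd : ∀ i, (B i).Nodup) (hdj : ∀ i j, i ≠ j → List.Disjoint (B i) (B j))
    (hch : ∀ i, (B i).IsChain R) (hQ : ∀ i, Q ((B i).getLast (hne i)) ((B (i + 1)).head (hne (i + 1))))
    (m : ℕ) (hm : ∀ i, m ≤ (B i).length) :
    ∃ (l : List α) (hl : l ≠ []), l.Nodup ∧ k * m ≤ l.length ∧ l.IsChain R ∧
      Q (l.getLast hl) (l.head hl) := by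
  obtain ⟨k, rfl⟩ := Nat.exists_eq_succ_of_ne_zero (NeZero.ne k)
  have hL : List.ofFn B ≠ [] := by simp
  have hmem : ∀ l ∈ List.ofFn B, ∃ i, l = B i := by
    intro l hl
    rw [List.mem_ofFn] at hl
    obtain ⟨i, hi⟩ := hl
    exact ⟨i, hi.symm⟩
  have hnil : [] ∉ List.ofFn B := by
    intro h
    obtain ⟨i, hi⟩ := hmem _ h
    exact hne i hi.symm
  have hhead : (List.ofFn B).head hL = B 0 := by
    rw [List.head_ofFn]; rfl
  have hlast : (List.ofFn B).getLast hL = B (Fin.last k) := by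
    rw [List.getLast_ofFn]; rfl
  have hflat : (List.ofFn B).flatten ≠ [] := by
    rw [List.flatten_ne_nil_iff]
    exact ⟨B 0, by rw [← hhead]; exact List.head_mem hL, hne 0⟩
  refine ⟨(List.ofFn B).flatten, hflat, ?_, ?_, ?_, ?_⟩
  · rw [List.nodup_flatten]
    refine ⟨fun l hl => ?_, ?_⟩
    · obtain ⟨i, rfl⟩ := hmem l hl
      exact hnd i
    · rw [List.pairwise_ofFn]
      intro i j hij
      exact hdj i j (ne_of_lt hij)
  · have h1 : (List.ofFn B).flatten.length = ∑ i, (B i).length := by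
      rw [List.length_flatten, List.map_ofFn, List.sum_ofFn]
      rfl
    rw [h1]
    calc (k + 1) * m = ∑ _i : Fin (k + 1), m := by simp
      _ ≤ _ := Finset.sum_le_sum fun i _ => hm i
  · rw [List.isChain_flatten hnil]
    refine ⟨fun l hl => ?_, ?_⟩
    · obtain ⟨i, rfl⟩ := hmem l hl
      exact hch i
    · rw [List.isChain_iff_getElem]
      intro i hi x hx y hy
      simp only [List.length_ofFn] at hi
      rw [List.getElem_ofFn] at hx hy
      have e : (⟨i, by omega⟩ : Fin (k + 1)) + 1 = ⟨i + 1, hi⟩ := by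
        apply Fin.ext
        rw [Fin.val_add_one_of_lt]
        simp only [Fin.lt_def, Fin.val_last]
        omega
      have h2 := hQ ⟨i, by omega⟩
      rw [List.getLast?_eq_getLast_of_ne_nil (hne _)] at hx
      rw [List.head?_eq_some_head (hne _)] at hy
      simp only [Option.mem_def, Option.some.injEq] at hx hy
      subst hx; subst hy
      apply hQR
      simp only [e] at h2
      exact h2
  · have h1 : (List.ofFn B).flatten.getLast hflat = (B (Fin.last k)).getLast (hne _) := by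
      rw [List.getLast_flatten_eq_getLast_getLast hflat (by rw [hlast]; exact hne _)]
      congr 1
    have h2 : (List.ofFn B).flatten.head hflat = (B 0).head (hne _) := by
      rw [List.head_flatten_eq_head_head hflat (by rw [hhead]; exact hne _)]
      congr 1
    rw [h1, h2]
    have h3 := hQ (Fin.last k)
    have e : Fin.last k + 1 = 0 := Fin.last_add_one k
    simp only [e] at h3
    exact h3

/-- **7.4** assembly: a cyclic sequence of main pieces and disjoint connectors gives a long cycle,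
as a list of vertices without repetition -/
theorem assemble {G1 G2 : Cube ι → Cube ι → Prop} (hG1 : ∀ x y, G1 x y → G1 y x) {RP MP : Type*} [DecidableEq RP]
    {L2 L1 h : ℕ} (S : Blocks G1 RP MP L2 L1 h) (k : ℕ) [NeZero k] (hk : 2 ≤ k) (P : Fin k → MP)
    (W : Fin k → List RP) (hPinj : Function.Injective P)
    (hconn : ∀ i, Connector S G2 (P i) (P (i + 1)) (W i))
    (hdisj : ∀ i j, i ≠ j → List.Disjoint (W i) (W j)) :
    ∃ (l : List (Cube ι)) (hl : l ≠ []), l.Nodup ∧ k * (L1 - 2 * h) ≤ l.length ∧ 3 ≤ l.length ∧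
      l.IsChain (fun x y => G1 x y ∨ G2 x y) ∧ G2 (l.getLast hl) (l.head hl) := by
  have hh := S.hh
  have hhL := S.hhL1
  have hW : ∀ i, W i ≠ [] := fun i => (hconn i).2.1
  -- the joining edges
  have hJ : ∀ i, ∃ (a : Fin L1) (v u : Cube ι) (b : Fin L1), L1 ≤ a.val + h ∧ v ∈ S.rset ((W i).head (hW i)) ∧
      G2 (S.mp (P i) a) v ∧ u ∈ S.rset ((W i).getLast (hW i)) ∧ b.val < h ∧ G2 u (S.mp (P (i + 1)) b) := by
    intro i
    obtain ⟨-, hW0, ⟨p, hp, v, hv, hpv⟩, -, ⟨u, hu, q, hq, huq⟩⟩ := hconn i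
    simp only [Blocks.tport, Blocks.sport, Finset.mem_image, Finset.mem_filter, Finset.mem_univ,
      true_and] at hp hq
    obtain ⟨a, ha, rfl⟩ := hp
    obtain ⟨b, hb, rfl⟩ := hq
    exact ⟨a, v, u, b, ha, hv, hpv, hu, hb, huq⟩
  choose a v u b ha hvm hav hum hb hub using hJ
  have hinj : ∀ p, Function.Injective (S.mp p) := fun p x y hxy => by
    have := S.mp_inj (a₁ := (p, x)) (a₂ := (p, y)) hxy
    exact (Prod.mk.inj this).2
  -- the blocks: main segment followed by the connector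
  have hB : ∀ i, ∃ (l : List (Cube ι)) (hl : l ≠ []), l.Nodup ∧ L1 - 2 * h + 2 ≤ l.length ∧
      l.head hl = S.mp (P (i + 1)) (b i) ∧ l.getLast hl = u (i + 1) ∧
      l.IsChain (fun x y => G1 x y ∨ G2 x y) ∧
      ∀ x ∈ l, (∃ j, x = S.mp (P (i + 1)) j) ∨ ∃ r ∈ W (i + 1), x ∈ S.rset r := by
    intro i
    obtain ⟨m, hm⟩ := Nat.exists_eq_add_of_le (show (b i).val ≤ (a (i + 1)).val by
      have := ha (i + 1); have := hb i; omega)
    have hlt : (b i).val + m < L1 := by have := (a (i + 1)).2; omega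
    obtain ⟨l1, hl1, c1, c2, c3, c4, c5, c6⟩ := asm_seg_up (S.mp (P (i + 1))) (hinj _) G1
      (S.mp_adj _) (b i).val m hlt
    obtain ⟨l2, hl2, d1, d2, d3, d4, d5⟩ := asm_conn (G2 := G2) hG1 S (W (i + 1)) (hW _) (hconn _).1
      (hconn (i + 1)).2.2.2.1 (v (i + 1)) (hvm _) (u (i + 1)) (hum _)
    refine ⟨l1 ++ l2, by simp [hl1], ?_, ?_, ?_, ?_, ?_, ?_⟩
    · rw [List.nodup_append]
      refine ⟨c1, d1, ?_⟩
      intro x hx y hy hxy
      subst hxy
      obtain ⟨j, -, -, rfl⟩ := c6 x hx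
      obtain ⟨r, -, hr⟩ := d5 _ hy
      simp only [Blocks.rset, Finset.mem_image, Finset.mem_univ, true_and] at hr
      obtain ⟨q, hq⟩ := hr
      exact S.disj _ _ _ _ hq
    · rw [List.length_append, c2]
      have := ha (i + 1); have := hb i
      omega
    · rw [List.head_append_of_ne_nil hl1, c3]
    · rw [List.getLast_append_of_ne_nil _ hl2]; exact d3
    · rw [List.isChain_append]
      refine ⟨c5.imp fun x y => Or.inl, d4, ?_⟩
      intro x hx y hy
      rw [List.getLast?_eq_getLast_of_ne_nil hl1] at hx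
      rw [List.head?_eq_some_head hl2] at hy
      simp only [Option.mem_def, Option.some.injEq] at hx hy
      subst hx; subst hy
      rw [c4, d2]
      refine Or.inr ?_
      have e : (⟨(b i).val + m, hlt⟩ : Fin L1) = a (i + 1) := Fin.ext hm.symm
      rw [e]
      exact hav (i + 1)
    · intro x hx
      rcases List.mem_append.1 hx with hx | hx
      · obtain ⟨j, -, -, hj⟩ := c6 x hx
        exact Or.inl ⟨j, hj⟩
      · exact Or.inr (d5 x hx)
  choose B hne hnd hlen hhead hlast hch hmem using hB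
  obtain ⟨l, hl, e1, e2, e3, e4⟩ := asm_flat (fun x y => G1 x y ∨ G2 x y) G2 (fun x y => Or.inr) k B
    hne hnd (by
      intro i j hij x hxi hxj
      have hij' : i + 1 ≠ j + 1 := fun h => hij (add_right_cancel h)
      rcases hmem i x hxi with ⟨p, hp⟩ | ⟨r, hr, hxr⟩
      · rcases hmem j x hxj with ⟨q, hq⟩ | ⟨r', hr', hxr'⟩
        · rw [hp] at hq
          have := S.mp_inj (a₁ := (P (i + 1), p)) (a₂ := (P (j + 1), q)) hq
          exact hij' (hPinj (Prod.mk.inj this).1)
        · simp only [Blocks.rset, Finset.mem_image, Finset.mem_univ, true_and] at hxr'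
          obtain ⟨q, hq⟩ := hxr'
          exact S.disj _ _ _ _ (hq.trans hp)
      · rcases hmem j x hxj with ⟨q, hq⟩ | ⟨r', hr', hxr'⟩
        · simp only [Blocks.rset, Finset.mem_image, Finset.mem_univ, true_and] at hxr
          obtain ⟨p, hp⟩ := hxr
          exact S.disj _ _ _ _ (hp.trans hq)
        · simp only [Blocks.rset, Finset.mem_image, Finset.mem_univ, true_and] at hxr hxr'
          obtain ⟨p, hp⟩ := hxr
          obtain ⟨q, hq⟩ := hxr'
          have := S.rp_inj (a₁ := (r, p)) (a₂ := (r', q)) (hp.trans hq.symm)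
          have hrr := (Prod.mk.inj this).1
          subst hrr
          exact hdisj _ _ hij' hr hr')
    hch (by
      intro i
      rw [hlast i, hhead (i + 1)]
      exact hub (i + 1)) (L1 - 2 * h + 2) hlen
  refine ⟨l, hl, e1, ?_, ?_, e3, e4⟩
  · exact (Nat.mul_le_mul_left k (by omega)).trans e2
  · have : 2 * 2 ≤ k * (L1 - 2 * h + 2) := Nat.mul_le_mul hk (by omega)
    omega

end Pool.Agent.LongCyc
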