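import Mathlib

/-!
# Cutting the orbits of a permutation into blocks of the same length
-/

set_option autoImplicit false

namespace Pool.Agent.LongCyc

open Finset Function

section

variable {V : Type*} [Fintype V]

theorem perm_mem_periodic (π : Equiv.Perm V) (x : V) : x ∈ periodicPts π := by
  rw [mem_periodicPts]
  refine ⟨orderOf π, orderOf_pos π, ?_⟩
  rw [IsPeriodicPt, Equiv.Perm.iterate_eq_pow, pow_orderOf_eq_one]
  exact isFixedPt_id x

theorem perm_period_pos (π : Equiv.Perm V) (x : V) : 0 < minimalPeriod π x :=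
  minimalPeriod_pos_of_mem_periodicPts (perm_mem_periodic π x)

omit [Fintype V] in
theorem perm_pow_mod (π : Equiv.Perm V) (x : V) (n : ℕ) :
    (π ^ (n % minimalPeriod π x)) x = (π ^ n) x := by
  have := iterate_mod_minimalPeriod_eq (f := (π : V → V)) (x := x) (n := n)
  rwa [Equiv.Perm.iterate_eq_pow, Equiv.Perm.iterate_eq_pow] at this

omit [Fintype V] in
theorem perm_pow_inj (π : Equiv.Perm V) (x : V) {i j : ℕ} (hi : i < minimalPeriod π x)
    (hj : j < minimalPeriod π x) (h : (π ^ i) x = (π ^ j) x) : i = j := by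
  rw [← Equiv.Perm.iterate_eq_pow, ← Equiv.Perm.iterate_eq_pow] at h
  exact (iterate_eq_iterate_iff_of_lt_minimalPeriod hi hj).1 h

open Classical in
/-- points on short orbits without points of `D` -/
noncomputable def short (π : Equiv.Perm V) (D : Finset V) (L : ℕ) : Finset V :=
  Finset.univ.filter fun x => (∀ i : ℕ, (π ^ i) x ∉ D) ∧ minimalPeriod π x ≤ L

open Classical in
theorem perm_blocks (π : Equiv.Perm V) (D : Finset V) {l L : ℕ} (hl : 0 < l) (hL : 0 < L) :
    ∃ (K : ℕ) (pt : Fin K → Fin l → V), (Function.Injective fun q : Fin K × Fin l => pt q.1 q.2) ∧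
      (∀ k (i : ℕ) (hi : i + 1 < l), pt k ⟨i + 1, hi⟩ = π (pt k ⟨i, by omega⟩)) ∧
      (∀ k i, pt k i ∉ D) ∧
      (Fintype.card V : ℝ) ≤ l * K +
        l * (2 * D.card + (short π D L).card + Fintype.card V / L) := by
  set O := Quotient (Equiv.Perm.SameCycle.setoid π) with hO
  set N : O → ℕ := fun o => minimalPeriod π o.out with hN
  have hNpos : ∀ o, 0 < N o := fun o => perm_period_pos π _
  -- the orbits of two representatives
  have hout : ∀ (o o' : O) (i j : ℕ), (π ^ i) o.out = (π ^ j) o'.out → o = o' := by
    intro o o' i j h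
    have h1 : Equiv.Perm.SameCycle π o.out o'.out := by
      rw [← Equiv.Perm.sameCycle_pow_left (n := i), h, Equiv.Perm.sameCycle_pow_left]
    have h2 : (Quotient.mk (Equiv.Perm.SameCycle.setoid π) o.out) =
        Quotient.mk (Equiv.Perm.SameCycle.setoid π) o'.out := Quotient.sound h1
    rwa [Quotient.out_eq, Quotient.out_eq] at h2
  -- number of points
  have hcard : Fintype.card V = ∑ o, N o := by
    have hbij : Function.Bijective (fun q : (Σ o : O, Fin (N o)) => (π ^ q.2.val) q.1.out) := by
      constructor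
      · rintro ⟨o, i⟩ ⟨o', i'⟩ h
        have h1 := hout o o' _ _ h
        subst h1
        have h2 := perm_pow_inj π o.out i.isLt i'.isLt h
        rw [Fin.ext h2]
      · intro x
        set o : O := Quotient.mk _ x with ho
        have h1 : Equiv.Perm.SameCycle π o.out x := Quotient.exact (Quotient.out_eq o)
        obtain ⟨n, hn⟩ := h1.exists_nat_pow_eq
        refine ⟨⟨o, ⟨n % N o, Nat.mod_lt _ (hNpos o)⟩⟩, ?_⟩
        show (π ^ (n % minimalPeriod π o.out)) o.out = x
        rw [perm_pow_mod, hn]
    rw [← Fintype.card_of_bijective hbij, Fintype.card_sigma]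
    simp
  -- blocks
  set I := Σ o : O, Fin (N o / l) with hI
  have hlt : ∀ (k : I) (i : Fin l), k.2.val * l + i.val < N k.1 := by
    intro k i
    have h1 : (k.2.val + 1) * l ≤ N k.1 / l * l := Nat.mul_le_mul_right _ k.2.isLt
    have h2 : N k.1 / l * l ≤ N k.1 := Nat.div_mul_le_self _ _
    have := i.isLt
    nlinarith
  set vt : I → Fin l → V := fun k i => (π ^ (k.2.val * l + i.val)) k.1.out with hvt
  have hvinj : Function.Injective fun q : I × Fin l => vt q.1 q.2 := by
    rintro ⟨⟨o, b⟩, i⟩ ⟨⟨o', b'⟩, i'⟩ h
    have h1 := hout o o' _ _ h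
    subst h1
    have h2 : b.val * l + i.val = b'.val * l + i'.val :=
      perm_pow_inj π o.out (hlt ⟨o, b⟩ i) (hlt ⟨o, b'⟩ i') h
    have h3 := i.isLt
    have h4 := i'.isLt
    have hbb : b.val = b'.val := by
      have e1 : (b.val * l + i.val) / l = b.val := by
        rw [mul_comm, Nat.mul_add_div hl, Nat.div_eq_of_lt h3, add_zero]
      have e2 : (b'.val * l + i'.val) / l = b'.val := by
        rw [mul_comm, Nat.mul_add_div hl, Nat.div_eq_of_lt h4, add_zero]
      rw [← e1, ← e2, h2]
    have hii : i.val = i'.val := by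
      rw [hbb] at h2
      omega
    have hb : b = b' := Fin.ext hbb
    subst hb
    rw [Fin.ext hii]
  set J := {k : I // ∀ i, vt k i ∉ D} with hJ
  have hIJ : Fintype.card I ≤ Fintype.card J + D.card := by
    have h1 : Fintype.card {k : I // ¬ ∀ i, vt k i ∉ D} ≤ D.card := by
      have hex : ∀ k : {k : I // ¬ ∀ i, vt k i ∉ D}, ∃ i, vt k.1 i ∈ D := by
        rintro ⟨k, hk⟩
        push Not at hk
        exact hk
      choose g hg using hex
      rw [← Fintype.card_coe D]
      refine Fintype.card_le_of_injective (fun k => (⟨vt k.1 (g k), hg k⟩ : D)) ?_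
      intro k k' h
      rw [Subtype.mk.injEq] at h
      have := hvinj (a₁ := (k.1, g k)) (a₂ := (k'.1, g k')) h
      rw [Prod.mk.injEq] at this
      exact Subtype.ext this.1
    have h2 := Fintype.card_subtype_compl (fun k : I => ∀ i, vt k i ∉ D)
    have h3 := Fintype.card_subtype_le (fun k : I => ∀ i, vt k i ∉ D)
    have h4 : Fintype.card J = Fintype.card {k : I // ∀ i, vt k i ∉ D} := rfl
    omega
  have hcardI : Fintype.card I = ∑ o, N o / l := by
    rw [Fintype.card_sigma]
    simp
  have hOle : (Fintype.card O : ℝ) ≤ D.card + (short π D L).card + Fintype.card V / L := by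
    -- three classes of orbits
    set OA := Finset.univ.filter fun o : O => ∃ i : ℕ, (π ^ i) o.out ∈ D with hOA
    set OB := Finset.univ.filter fun o : O => o.out ∈ short π D L with hOB
    set OC := Finset.univ.filter fun o : O => L < N o with hOC
    have h1 : (Finset.univ : Finset O) ⊆ OA ∪ (OB ∪ OC) := by
      intro o _
      by_cases ha : ∃ i : ℕ, (π ^ i) o.out ∈ D
      · exact Finset.mem_union_left _ (Finset.mem_filter.2 ⟨Finset.mem_univ _, ha⟩)
      · refine Finset.mem_union_right _ ?_
        by_cases hb : L < N o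
        · exact Finset.mem_union_right _ (Finset.mem_filter.2 ⟨Finset.mem_univ _, hb⟩)
        · refine Finset.mem_union_left _ (Finset.mem_filter.2 ⟨Finset.mem_univ _, ?_⟩)
          rw [short, Finset.mem_filter]
          push Not at ha
          exact ⟨Finset.mem_univ _, ha, not_lt.1 hb⟩
    have h2 : OA.card ≤ D.card := by
      have hex : ∀ o : OA, ∃ i : ℕ, (π ^ i) o.1.out ∈ D := fun o => (Finset.mem_filter.1 o.2).2
      choose g hg using hex
      rw [← Fintype.card_coe OA, ← Fintype.card_coe D]
      refine Fintype.card_le_of_injective (fun o => (⟨(π ^ (g o)) o.1.out, hg o⟩ : D)) ?_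
      intro o o' h
      rw [Subtype.mk.injEq] at h
      exact Subtype.ext (hout _ _ _ _ h)
    have h3 : OB.card ≤ (short π D L).card := by
      refine Finset.card_le_card_of_injOn (fun o => o.out)
        (fun o ho => (Finset.mem_filter.1 ho).2) ?_
      intro o _ o' _ h
      exact hout o o' 0 0 h
    have h4 : (OC.card : ℝ) ≤ Fintype.card V / L := by
      rw [le_div_iff₀ (by exact_mod_cast hL)]
      have : OC.card * L ≤ ∑ o, N o := by
        calc OC.card * L = ∑ _o ∈ OC, L := by rw [Finset.sum_const, smul_eq_mul]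
          _ ≤ ∑ o ∈ OC, N o := Finset.sum_le_sum fun o ho => (Finset.mem_filter.1 ho).2.le
          _ ≤ ∑ o, N o := Finset.sum_le_sum_of_subset (Finset.subset_univ _)
      rw [hcard]
      exact_mod_cast this
    have h5 : Fintype.card O ≤ OA.card + (OB.card + OC.card) := by
      calc Fintype.card O = (Finset.univ : Finset O).card := rfl
        _ ≤ (OA ∪ (OB ∪ OC)).card := Finset.card_le_card h1
        _ ≤ OA.card + (OB ∪ OC).card := Finset.card_union_le _ _
        _ ≤ OA.card + (OB.card + OC.card) := Nat.add_le_add_left (Finset.card_union_le _ _) _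
    have h6 : (Fintype.card O : ℝ) ≤ OA.card + (OB.card + OC.card) := by exact_mod_cast h5
    have h7 : (OA.card : ℝ) ≤ D.card := by exact_mod_cast h2
    have h8 : (OB.card : ℝ) ≤ (short π D L).card := by exact_mod_cast h3
    linarith
  refine ⟨Fintype.card J, fun k i => vt ((Fintype.equivFin J).symm k).1 i, ?_, ?_, ?_, ?_⟩
  · rintro ⟨k, i⟩ ⟨k', i'⟩ h
    have := hvinj (a₁ := (((Fintype.equivFin J).symm k).1, i))
      (a₂ := (((Fintype.equivFin J).symm k').1, i')) h
    rw [Prod.mk.injEq] at this
    have h2 : k = k' := (Fintype.equivFin J).symm.injective (Subtype.ext this.1)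
    rw [h2, this.2]
  · intro k i hi
    show (π ^ (_ * l + (i + 1))) _ = π ((π ^ (_ * l + i)) _)
    rw [← add_assoc, pow_succ', Equiv.Perm.mul_apply]
  · intro k i
    exact ((Fintype.equivFin J).symm k).2 i
  · have h1 : (Fintype.card V : ℝ) ≤ l * Fintype.card I + l * Fintype.card O := by
      have : Fintype.card V ≤ l * Fintype.card I + l * Fintype.card O := by
        rw [hcard, hcardI, Finset.mul_sum]
        calc ∑ o, N o ≤ ∑ o, (l * (N o / l) + l) := Finset.sum_le_sum fun o _ => by
              have h1 := Nat.mod_lt (N o) hl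
              have h2 := Nat.div_add_mod (N o) l
              omega
          _ = _ := by
              rw [Finset.sum_add_distrib, Finset.sum_const, Finset.card_univ, smul_eq_mul,
                mul_comm l (Fintype.card O)]
      exact_mod_cast this
    have h2 : (Fintype.card I : ℝ) ≤ Fintype.card J + D.card := by exact_mod_cast hIJ
    have hl0 : (0 : ℝ) ≤ l := Nat.cast_nonneg l
    have h3 := mul_le_mul_of_nonneg_left h2 hl0
    have h4 := mul_le_mul_of_nonneg_left hOle hl0
    linarith

end

end Pool.Agent.LongCyc
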