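import Pool.Agent.LongCyc.Match

/-!
# The matching lemma: the percolated cube has a matching that misses few vertices
-/

set_option autoImplicit false

namespace Pool.Agent.LongCyc

open Finset

variable {ι : Type*} [DecidableEq ι] [Fintype ι]

theorem card_bd_le (A : Finset (Cube ι)) : (bd A).card ≤ 2 ^ Fintype.card ι * Fintype.card ι := by
  have h : (bd A).card ≤ (A ×ˢ (Finset.univ : Finset ι)).card := Finset.card_filter_le _ _
  rw [Finset.card_product, Finset.card_univ] at h
  refine h.trans (Nat.mul_le_mul_right _ ?_)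
  refine (Finset.card_le_univ _).trans (le_of_eq ?_)
  simp

/-- `∑_A e^{-q |∂A| / 2}` -/
theorem sum_exp_bd {q : ℝ} (h0 : 0 ≤ q) {D : ℕ} (hD : 0 < D)
    (h36 : 36 * D ≤ 2 ^ Fintype.card ι) (hΛ : 144 ≤ q * Fintype.card ι)
    (hlog : 400 * Real.log (2 ^ Fintype.card ι / D) ≤ q * Fintype.card ι) :
    ∑ A : Finset (Cube ι), Real.exp (-(q * (bd A).card / 2)) ≤
      25 * (2 ^ Fintype.card ι * Fintype.card ι) * Real.exp (q * Fintype.card ι * D / 4) := by
  have hι : 0 < Fintype.card ι := by
    rcases Nat.eq_zero_or_pos (Fintype.card ι) with h | h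
    · rw [h] at hΛ
      norm_num at hΛ
    · exact h
  set δ : ℝ := (Fintype.card ι : ℝ) with hδdef
  have hδ : 0 < δ := by rw [hδdef]; exact_mod_cast hι
  set N : ℝ := 2 ^ Fintype.card ι with hN
  have hN1 : 1 ≤ N := by rw [hN]; exact one_le_pow₀ (by norm_num)
  have hδ1 : 1 ≤ δ := by rw [hδdef]; exact_mod_cast hι
  set Kn : ℕ := 2 ^ Fintype.card ι * Fintype.card ι with hKn
  have hK : (Kn : ℝ) = N * δ := by rw [hKn, hN, hδdef]; push_cast; ring
  have hD0 : (0 : ℝ) < D := by exact_mod_cast hD
  have hN36 : 36 * (D : ℝ) ≤ N := by rw [hN]; exact_mod_cast h36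
  have hlogpos : 0 ≤ Real.log (N / D) := Real.log_nonneg (by rw [le_div_iff₀ hD0]; linarith)
  have hexp0 : 1 ≤ Real.exp (q * δ * D / 4) := Real.one_le_exp (by positivity)
  -- the bound for one value of the boundary
  have hcut : ∀ b : ℝ, 0 < b → δ * D ≤ b → 36 * b ≤ N * δ →
      (((Finset.univ : Finset (Finset (Cube ι))).filter fun A => ((bd A).card : ℝ) ≤ b).card : ℝ) ≤
        8 * Real.exp (q * b / 4) := by
    intro b hb hb1 hb2
    refine (cut_count hι hb hb2).trans ?_
    refine mul_le_mul_of_nonneg_left (Real.exp_le_exp.mpr ?_) (by norm_num)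
    rw [← hN, ← hδdef]
    have h1 : Real.log (N * δ / b) ≤ Real.log (N / D) := by
      apply Real.log_le_log (by positivity)
      rw [div_le_div_iff₀ hb hD0]
      nlinarith
    calc 100 * (b / δ) * Real.log (N * δ / b) ≤ 100 * (b / δ) * Real.log (N / D) :=
          mul_le_mul_of_nonneg_left h1 (by positivity)
      _ = (b / δ) * (400 * Real.log (N / D)) / 4 := by ring
      _ ≤ (b / δ) * (q * δ) / 4 := by
          refine div_le_div_of_nonneg_right ?_ (by norm_num)
          exact mul_le_mul_of_nonneg_left hlog (by positivity)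
      _ = q * b / 4 := by field_simp
  -- splitting
  have hsplit : ∀ A : Finset (Cube ι), Real.exp (-(q * (bd A).card / 2)) ≤
      (if ((bd A).card : ℝ) ≤ δ * D then 1 else 0) +
      (∑ k ∈ Finset.range (Kn + 1), if ((bd A).card : ℝ) ≤ k ∧ δ * D ≤ k ∧ 36 * (k : ℝ) ≤ N * δ
        then Real.exp (-(q * k / 2)) else 0) +
      Real.exp (-(2 * N)) := by
    intro A
    have hx : 0 ≤ ∑ k ∈ Finset.range (Kn + 1), (if ((bd A).card : ℝ) ≤ k ∧ δ * D ≤ k ∧
        36 * (k : ℝ) ≤ N * δ then Real.exp (-(q * k / 2)) else 0) :=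
      Finset.sum_nonneg fun k _ => by split_ifs <;> positivity
    have hy : (0 : ℝ) ≤ (if ((bd A).card : ℝ) ≤ δ * D then 1 else 0) := by split_ifs <;> norm_num
    have hz := Real.exp_pos (-(2 * N))
    by_cases c1 : ((bd A).card : ℝ) ≤ δ * D
    · rw [if_pos c1]
      have : Real.exp (-(q * (bd A).card / 2)) ≤ 1 := Real.exp_le_one_iff.mpr (by
        have : 0 ≤ q * ((bd A).card : ℝ) / 2 := by positivity
        linarith)
      linarith
    · push Not at c1
      by_cases c2 : 36 * ((bd A).card : ℝ) ≤ N * δ
      · have hmem : (bd A).card ∈ Finset.range (Kn + 1) := by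
          rw [Finset.mem_range]
          have := card_bd_le A
          omega
        have h1 := Finset.single_le_sum (f := fun k : ℕ => if ((bd A).card : ℝ) ≤ k ∧ δ * D ≤ k ∧
          36 * (k : ℝ) ≤ N * δ then Real.exp (-(q * k / 2)) else 0)
          (fun k _ => by split_ifs <;> positivity) hmem
        rw [if_pos ⟨le_rfl, c1.le, c2⟩] at h1
        linarith
      · push Not at c2
        have : Real.exp (-(q * (bd A).card / 2)) ≤ Real.exp (-(2 * N)) := by
          apply Real.exp_le_exp.mpr
          have h2 : q * (N * δ) ≤ q * (36 * (bd A).card) := mul_le_mul_of_nonneg_left c2.le h0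
          nlinarith
        linarith
  refine (Finset.sum_le_sum fun A _ => hsplit A).trans ?_
  rw [Finset.sum_add_distrib, Finset.sum_add_distrib]
  have t1 : ∑ A : Finset (Cube ι), (if ((bd A).card : ℝ) ≤ δ * D then (1 : ℝ) else 0) ≤
      8 * Real.exp (q * δ * D / 4) := by
    have h1 := hcut (δ * D) (by positivity) le_rfl (by nlinarith)
    have h2 : ∑ A : Finset (Cube ι), (if ((bd A).card : ℝ) ≤ δ * D then (1 : ℝ) else 0) =
        (((Finset.univ : Finset (Finset (Cube ι))).filter fun A =>
          ((bd A).card : ℝ) ≤ δ * D).card : ℝ) := by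
      rw [Finset.card_filter]
      push_cast
      rfl
    rw [h2]
    refine h1.trans (le_of_eq ?_)
    congr 2
    ring
  have t2 : ∑ A : Finset (Cube ι), ∑ k ∈ Finset.range (Kn + 1),
      (if ((bd A).card : ℝ) ≤ k ∧ δ * D ≤ k ∧ 36 * (k : ℝ) ≤ N * δ
        then Real.exp (-(q * k / 2)) else 0) ≤ (Kn + 1) * 8 := by
    rw [Finset.sum_comm]
    have h1 : ∀ k ∈ Finset.range (Kn + 1), ∑ A : Finset (Cube ι),
        (if ((bd A).card : ℝ) ≤ k ∧ δ * D ≤ k ∧ 36 * (k : ℝ) ≤ N * δ
          then Real.exp (-(q * k / 2)) else 0) ≤ 8 := by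
      intro k _
      by_cases hk : δ * D ≤ k ∧ 36 * (k : ℝ) ≤ N * δ
      · have hk0 : (0 : ℝ) < k := lt_of_lt_of_le (by positivity) hk.1
        have h2 := hcut k hk0 hk.1 hk.2
        have h3 : ∑ A : Finset (Cube ι), (if ((bd A).card : ℝ) ≤ k ∧ δ * D ≤ k ∧
            36 * (k : ℝ) ≤ N * δ then Real.exp (-(q * k / 2)) else 0) =
            (((Finset.univ : Finset (Finset (Cube ι))).filter fun A =>
              ((bd A).card : ℝ) ≤ k).card : ℝ) * Real.exp (-(q * k / 2)) := by
          rw [Finset.card_filter]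
          push_cast
          rw [Finset.sum_mul]
          refine Finset.sum_congr rfl fun A _ => ?_
          by_cases hA : ((bd A).card : ℝ) ≤ k
          · rw [if_pos ⟨hA, hk⟩, if_pos hA, one_mul]
          · rw [if_neg (fun h => hA h.1), if_neg hA, zero_mul]
        rw [h3]
        calc _ ≤ 8 * Real.exp (q * k / 4) * Real.exp (-(q * k / 2)) :=
              mul_le_mul_of_nonneg_right h2 (Real.exp_pos _).le
          _ = 8 * Real.exp (-(q * k / 4)) := by
              rw [mul_assoc, ← Real.exp_add]
              congr 2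
              ring
          _ ≤ 8 * 1 := by
              refine mul_le_mul_of_nonneg_left (Real.exp_le_one_iff.mpr ?_) (by norm_num)
              have : 0 ≤ q * (k : ℝ) / 4 := by positivity
              linarith
          _ = 8 := by norm_num
      · have : ∑ A : Finset (Cube ι), (if ((bd A).card : ℝ) ≤ k ∧ δ * D ≤ k ∧
            36 * (k : ℝ) ≤ N * δ then Real.exp (-(q * k / 2)) else 0) = 0 := by
          refine Finset.sum_eq_zero fun A _ => ?_
          rw [if_neg (fun h => hk h.2)]
        rw [this]
        norm_num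
    calc _ ≤ ∑ k ∈ Finset.range (Kn + 1), (8 : ℝ) := Finset.sum_le_sum h1
      _ = _ := by
        rw [Finset.sum_const, Finset.card_range, nsmul_eq_mul]
        push_cast
        ring
  have t3 : ∑ A : Finset (Cube ι), Real.exp (-(2 * N)) ≤ 1 := by
    rw [Finset.sum_const, Finset.card_univ, nsmul_eq_mul, Fintype.card_finset]
    have h1 : Fintype.card (Cube ι) = 2 ^ Fintype.card ι := by simp
    rw [h1]
    push_cast
    have h2 : ((2 : ℝ) ^ (2 ^ Fintype.card ι)) ≤ Real.exp (2 ^ Fintype.card ι) := by
      have : (2 : ℝ) ≤ Real.exp 1 := by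
        have := Real.add_one_le_exp (1 : ℝ)
        linarith
      calc ((2 : ℝ) ^ (2 ^ Fintype.card ι)) ≤ Real.exp 1 ^ (2 ^ Fintype.card ι) :=
            pow_le_pow_left₀ (by norm_num) this _
        _ = Real.exp (2 ^ Fintype.card ι) := by
            rw [← Real.exp_nat_mul]
            push_cast
            rw [mul_one]
    calc _ ≤ Real.exp N * Real.exp (-(2 * N)) :=
          mul_le_mul_of_nonneg_right h2 (Real.exp_pos _).le
      _ = Real.exp (-N) := by rw [← Real.exp_add]; congr 1; ring
      _ ≤ 1 := Real.exp_le_one_iff.mpr (by linarith)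
  have hK1 : (1 : ℝ) ≤ Kn := by rw [hK]; nlinarith
  have hfin : 8 * Real.exp (q * δ * D / 4) + (Kn + 1) * 8 + 1 ≤
      25 * (N * δ) * Real.exp (q * δ * D / 4) := by
    rw [← hK]
    have h1 := mul_le_mul_of_nonneg_left hexp0 (show (0 : ℝ) ≤ Kn by positivity)
    have h2 := mul_le_mul_of_nonneg_right hK1 (Real.exp_pos (q * δ * D / 4)).le
    nlinarith
  linarith

variable {E : Type*} [Fintype E] [DecidableEq E]

open Classical in
/-- **Matching lemma.** The probability that the open edges contain no matching that misses at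
most `2 D` vertices. -/
theorem matching_prob (ℓ : EdgeLab ι E) {q : ℝ} (h0 : 0 ≤ q) (h1 : q ≤ 1) {D : ℕ} (hD : 0 < D)
    (h36 : 36 * D ≤ 2 ^ Fintype.card ι) (hΛ : 144 ≤ q * Fintype.card ι)
    (hlog : 400 * Real.log (2 ^ Fintype.card ι / D) ≤ q * Fintype.card ι) :
    ∑ H : Finset E, wt q H * (if ∃ m : Cube ι → Cube ι, IsMatch ℓ H m ∧
      (Finset.univ.filter fun x => m x = x).card ≤ 2 * D then 0 else 1) ≤
      25 * (2 ^ Fintype.card ι * Fintype.card ι) * Real.exp (-(q * Fintype.card ι * D / 4)) := by
  set 𝒮 : Finset (Finset (Cube ι)) := Finset.univ.filter fun A =>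
    (A.filter fun x => par x = false).card + D < (A.filter fun x => par x = true).card with h𝒮
  have hunion : ∀ H : Finset E, (if ∃ m : Cube ι → Cube ι, IsMatch ℓ H m ∧
      (Finset.univ.filter fun x => m x = x).card ≤ 2 * D then (0 : ℝ) else 1) ≤
      ∑ A ∈ 𝒮, if Disjoint H (lab ℓ A) then 1 else 0 := by
    intro H
    split_ifs with h
    · exact Finset.sum_nonneg fun A _ => by split_ifs <;> norm_num
    · have : ∃ A ∈ 𝒮, Disjoint H (lab ℓ A) := by
        by_contra hcon
        push Not at hcon
        apply h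
        refine exists_match ℓ H D fun A hA => ?_
        by_contra hlt
        push Not at hlt
        exact hcon A (Finset.mem_filter.mpr ⟨Finset.mem_univ _, hlt⟩) hA
      obtain ⟨A, hA, hdis⟩ := this
      calc (1 : ℝ) = if Disjoint H (lab ℓ A) then 1 else 0 := by rw [if_pos hdis]
        _ ≤ _ := Finset.single_le_sum (f := fun A => if Disjoint H (lab ℓ A) then (1 : ℝ) else 0)
            (fun A _ => by split_ifs <;> norm_num) hA
  calc _ ≤ ∑ H : Finset E, wt q H * ∑ A ∈ 𝒮, (if Disjoint H (lab ℓ A) then (1 : ℝ) else 0) :=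
        Finset.sum_le_sum fun H _ => mul_le_mul_of_nonneg_left (hunion H) (wt_nonneg h0 h1 H)
    _ = ∑ A ∈ 𝒮, (1 - q) ^ (lab ℓ A).card := by
        simp only [Finset.mul_sum]
        rw [Finset.sum_comm]
        exact Finset.sum_congr rfl fun A _ => wt_disjoint q (lab ℓ A)
    _ ≤ ∑ A ∈ 𝒮, Real.exp (-(q * Fintype.card ι * D / 2)) *
          Real.exp (-(q * (bd A).card / 2)) := by
        refine Finset.sum_le_sum fun A hA => ?_
        rw [card_lab]
        have h2 := two_evenBd A
        have h3 := (Finset.mem_filter.mp hA).2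
        have h4 : (1 - q) ^ (evenBd A).card ≤ Real.exp (-(q * (evenBd A).card)) := by
          have : Real.exp (-(q * (evenBd A).card)) = Real.exp (-q) ^ (evenBd A).card := by
            rw [← Real.exp_nat_mul]
            congr 1
            ring
          rw [this]
          exact pow_le_pow_left₀ (by linarith) (by linarith [Real.add_one_le_exp (-q)]) _
        refine h4.trans ?_
        rw [← Real.exp_add]
        apply Real.exp_le_exp.mpr
        have h5 : (bd A).card + Fintype.card ι * D ≤ 2 * (evenBd A).card := by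
          have h6 : Fintype.card ι * ((A.filter fun x => par x = false).card + D) ≤
            Fintype.card ι * (A.filter fun x => par x = true).card :=
            Nat.mul_le_mul_left _ h3.le
          rw [Nat.mul_add] at h6
          omega
        have h6 : ((bd A).card : ℝ) + Fintype.card ι * D ≤ 2 * (evenBd A).card := by
          exact_mod_cast h5
        nlinarith [mul_le_mul_of_nonneg_left h6 h0]
    _ ≤ ∑ A : Finset (Cube ι), Real.exp (-(q * Fintype.card ι * D / 2)) *
          Real.exp (-(q * (bd A).card / 2)) :=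
        Finset.sum_le_sum_of_subset_of_nonneg (Finset.subset_univ _)
          fun A _ _ => by positivity
    _ = Real.exp (-(q * Fintype.card ι * D / 2)) *
          ∑ A : Finset (Cube ι), Real.exp (-(q * (bd A).card / 2)) := by rw [Finset.mul_sum]
    _ ≤ Real.exp (-(q * Fintype.card ι * D / 2)) *
          (25 * (2 ^ Fintype.card ι * Fintype.card ι) * Real.exp (q * Fintype.card ι * D / 4)) :=
        mul_le_mul_of_nonneg_left (sum_exp_bd h0 hD h36 hΛ hlog) (Real.exp_pos _).le
    _ = _ := by
        have : Real.exp (-(q * Fintype.card ι * D / 2)) *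
          (25 * (2 ^ Fintype.card ι * Fintype.card ι) * Real.exp (q * Fintype.card ι * D / 4)) =
          25 * (2 ^ Fintype.card ι * Fintype.card ι) * (Real.exp (-(q * Fintype.card ι * D / 2)) *
            Real.exp (q * Fintype.card ι * D / 4)) := by ring
        rw [this, ← Real.exp_add]
        congr 2
        ring

end Pool.Agent.LongCyc
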