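import Pool.Agent.LongCyc.Perc
import Pool.Agent.LongCyc.CutPerm
import Pool.Agent.LongCyc.MatchProb

/-!
# Base pieces: two matchings give disjoint paths with exactly `l` vertices
-/

set_option autoImplicit false
set_option synthInstance.maxSize 2000

namespace Pool.Agent.LongCyc

open Finset Function

/-! ### Closed words -/

section words

variable {ι : Type*} [DecidableEq ι] [Fintype ι]

/-- position after `n` steps of the walk with directions `w` -/
def wv (x : Cube ι) {N : ℕ} (w : Fin N → ι) (n : ℕ) : Cube ι := fun j =>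
  xor (x j) (decide (Odd (Finset.univ.filter fun i : Fin N => i.val < n ∧ w i = j).card))

omit [Fintype ι] in
theorem wv_zero (x : Cube ι) {N : ℕ} (w : Fin N → ι) : wv x w 0 = x := by
  funext j
  simp [wv]

omit [Fintype ι] in
theorem wv_succ (x : Cube ι) {N : ℕ} (w : Fin N → ι) (n : ℕ) (hn : n < N) :
    wv x w (n + 1) = flip (w ⟨n, hn⟩) (wv x w n) := by
  funext j
  by_cases hj : j = w ⟨n, hn⟩
  · subst hj
    rw [flip_same]
    have : (Finset.univ.filter fun i : Fin N => i.val < n + 1 ∧ w i = w ⟨n, hn⟩) =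
        insert ⟨n, hn⟩ (Finset.univ.filter fun i : Fin N => i.val < n ∧ w i = w ⟨n, hn⟩) := by
      ext i
      simp only [Finset.mem_filter, Finset.mem_univ, true_and, Finset.mem_insert]
      constructor
      · rintro ⟨h1, h2⟩
        rcases Nat.lt_succ_iff_lt_or_eq.1 h1 with h | h
        · exact Or.inr ⟨h, h2⟩
        · exact Or.inl (Fin.ext h)
      · rintro (h | ⟨h1, h2⟩)
        · subst h
          exact ⟨Nat.lt_succ_self n, rfl⟩
        · exact ⟨Nat.lt_succ_of_lt h1, h2⟩
    rw [wv, this, Finset.card_insert_of_notMem (by simp), wv]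
    have hodd : ∀ c : ℕ, decide (Odd (c + 1)) = !decide (Odd c) := by
      intro c
      rw [← decide_not]
      exact decide_eq_decide.2 Nat.odd_add_one
    rw [hodd]
    cases x (w ⟨n, hn⟩) <;> simp
  · have hset : (Finset.univ.filter fun i : Fin N => i.val < n + 1 ∧ w i = j) =
        (Finset.univ.filter fun i : Fin N => i.val < n ∧ w i = j) := ?_
    · rw [flip_of_ne hj, wv, wv, hset]
    ext i
    simp only [Finset.mem_filter, Finset.mem_univ, true_and]
    constructor
    · rintro ⟨h1, h2⟩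
      refine ⟨?_, h2⟩
      rcases Nat.lt_succ_iff_lt_or_eq.1 h1 with h | h
      · exact h
      · exfalso
        apply hj
        rw [← h2]
        congr 1
        exact Fin.ext h
    · rintro ⟨h1, h2⟩
      exact ⟨Nat.lt_succ_of_lt h1, h2⟩

/-- all multiplicities are even -/
def EvenW {N : ℕ} (w : Fin N → ι) : Prop :=
  ∀ j, Even (Finset.univ.filter fun i : Fin N => w i = j).card

omit [Fintype ι] in
theorem evenW_of_closed {x : Cube ι} {N : ℕ} {w : Fin N → ι} (h : wv x w N = x) : EvenW w := by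
  intro j
  have h1 := congrFun h j
  have h2 : (Finset.univ.filter fun i : Fin N => i.val < N ∧ w i = j) =
      Finset.univ.filter fun i : Fin N => w i = j := by
    ext i
    simp
  rw [wv, h2] at h1
  rw [← Nat.not_odd_iff_even]
  intro h3
  rw [decide_eq_true h3] at h1
  cases hx : x j <;> simp [hx] at h1

theorem EvenW.even {N : ℕ} {w : Fin N → ι} (h : EvenW w) : Even N := by
  have h1 : N = ∑ j, (Finset.univ.filter fun i : Fin N => w i = j).card := by
    have := Finset.card_eq_sum_card_fiberwise (s := (Finset.univ : Finset (Fin N)))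
      (t := (Finset.univ : Finset ι)) (f := w) (fun i _ => Finset.mem_univ _)
    simpa using this
  rw [h1]
  exact Finset.even_sum _ fun j _ => h j

open Classical in
/-- number of words with even multiplicities -/
theorem card_evenW (k : ℕ) (hk : 0 < k) :
    (Finset.univ.filter fun w : Fin (2 * k) → ι => EvenW w).card ≤
      Fintype.card ι ^ k * k ^ (2 * k) := by
  have h1 : (Finset.univ.filter fun w : Fin (2 * k) → ι => EvenW w) ⊆
      (Finset.univ : Finset ((Fin k → ι) × (Fin (2 * k) → Fin k))).image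
        fun q i => q.1 (q.2 i) := by
    intro w hw
    rw [Finset.mem_filter] at hw
    have hw := hw.2
    set S := Finset.univ.image w with hS
    -- at most `k` directions
    have h2 : S.card ≤ k := by
      have e1 : 2 * k = ∑ j ∈ S, (Finset.univ.filter fun i : Fin (2 * k) => w i = j).card := by
        have := Finset.card_eq_sum_card_image w (Finset.univ : Finset (Fin (2 * k)))
        simpa using this
      have e2 : ∑ _j ∈ S, 2 ≤ ∑ j ∈ S, (Finset.univ.filter fun i : Fin (2 * k) => w i = j).card := by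
        refine Finset.sum_le_sum fun j hj => ?_
        rw [hS, Finset.mem_image] at hj
        obtain ⟨i, _, hi⟩ := hj
        have h3 : 0 < (Finset.univ.filter fun i : Fin (2 * k) => w i = j).card :=
          Finset.card_pos.2 ⟨i, by simp [hi]⟩
        obtain ⟨c, hc⟩ := hw j
        omega
      rw [Finset.sum_const, smul_eq_mul] at e2
      omega
    have h3 : S.Nonempty := ⟨w ⟨0, by omega⟩, Finset.mem_image_of_mem w (Finset.mem_univ _)⟩
    -- enumerate
    obtain ⟨g, hg⟩ : ∃ g : Fin k → ι, ∀ s ∈ S, ∃ a, g a = s := by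
      obtain ⟨s0, hs0⟩ := h3
      have e := S.equivFin
      refine ⟨fun a => if h : a.val < S.card then (e.symm ⟨a.val, h⟩).1 else s0, fun s hs => ?_⟩
      refine ⟨⟨(e ⟨s, hs⟩).val, (e ⟨s, hs⟩).isLt.trans_le h2⟩, ?_⟩
      dsimp only
      rw [dif_pos (e ⟨s, hs⟩).isLt]
      simp
    have hex : ∀ i : Fin (2 * k), ∃ a, g a = w i := fun i =>
      hg (w i) (Finset.mem_image_of_mem w (Finset.mem_univ _))
    choose h hh using hex
    exact Finset.mem_image.2 ⟨(g, h), Finset.mem_univ _, funext hh⟩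
  refine (Finset.card_le_card h1).trans (Finset.card_image_le.trans (le_of_eq ?_))
  simp

variable {E : Type*} [Fintype E] [DecidableEq E]

/-- there is an open cycle of length `N`, `3 ≤ N ≤ L`, through `x` -/
def OpenCyc (ℓ : EdgeLab ι E) (ω : E → Bool) (L : ℕ) (x : Cube ι) : Prop :=
  ∃ N : ℕ, 3 ≤ N ∧ N ≤ L ∧ ∃ w : Fin N → ι, EvenW w ∧
    (Function.Injective fun i : Fin N => ℓ.e (wv x w i) (w i)) ∧
    ∀ i : Fin N, ω (ℓ.e (wv x w i) (w i)) = true

/-- first moment bound for short open cycles -/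
theorem pr_openCyc {p : ℝ} {h0 : 0 ≤ p} {h1 : p ≤ 1} (ℓ : EdgeLab ι E) (L : ℕ) (x : Cube ι) :
    (bern p h0 h1 E).pr (fun ω => OpenCyc ℓ ω L x) ≤
      ∑ k ∈ Finset.Icc 2 (L / 2), (Fintype.card ι * (k : ℝ) ^ 2 * p ^ 2) ^ k := by
  classical
  have hstep : ∀ ω, OpenCyc ℓ ω L x → ∃ k ∈ Finset.Icc 2 (L / 2), ∃ w ∈
      (Finset.univ.filter fun w : Fin (2 * k) → ι => EvenW w ∧
        Function.Injective fun i : Fin (2 * k) => ℓ.e (wv x w i) (w i)),
      ∀ i : Fin (2 * k), ω (ℓ.e (wv x w i) (w i)) = true := by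
    rintro ω ⟨N, h3, hNL, w, hw, hinj, hop⟩
    obtain ⟨k, hk⟩ := hw.even
    have hk2 : N = 2 * k := by omega
    subst hk2
    refine ⟨k, Finset.mem_Icc.2 ⟨by omega, by omega⟩, w, ?_, hop⟩
    rw [Finset.mem_filter]
    exact ⟨Finset.mem_univ _, hw, hinj⟩
  refine ((bern p h0 h1 E).pr_mono hstep).trans
    (((bern p h0 h1 E).pr_exists _ _).trans ?_)
  refine Finset.sum_le_sum fun k hk => ?_
  have hk2 := (Finset.mem_Icc.1 hk).1
  refine ((bern p h0 h1 E).pr_exists _ _).trans ?_
  have h2 : ∀ w ∈ (Finset.univ.filter fun w : Fin (2 * k) → ι => EvenW w ∧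
      Function.Injective fun i : Fin (2 * k) => ℓ.e (wv x w i) (w i)),
      (bern p h0 h1 E).pr (fun ω => ∀ i : Fin (2 * k), ω (ℓ.e (wv x w i) (w i)) = true) ≤
        p ^ (2 * k) := by
    intro w hw
    rw [Finset.mem_filter] at hw
    have h3 := bern_all (p := p) (h0 := h0) (h1 := h1)
      (Finset.univ.image fun i : Fin (2 * k) => ℓ.e (wv x w i) (w i))
    rw [Finset.card_image_of_injective _ hw.2.2, Finset.card_univ, Fintype.card_fin] at h3
    rw [← h3, FP.pr_eq]
    refine FP.E_mono _ fun ω => ?_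
    split_ifs with h4
    · rw [Finset.prod_eq_one]
      intro e he
      rw [Finset.mem_image] at he
      obtain ⟨i, _, rfl⟩ := he
      rw [if_pos (h4 i)]
    · exact Finset.prod_nonneg fun e _ => by split_ifs <;> norm_num
  refine (Finset.sum_le_sum h2).trans ?_
  rw [Finset.sum_const, nsmul_eq_mul]
  have h4 : ((Finset.univ.filter fun w : Fin (2 * k) → ι => EvenW w ∧
      Function.Injective fun i : Fin (2 * k) => ℓ.e (wv x w i) (w i)).card : ℝ) ≤
      (Fintype.card ι : ℝ) ^ k * (k : ℝ) ^ (2 * k) := by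
    have h5 : (Finset.univ.filter fun w : Fin (2 * k) → ι => EvenW w ∧
        Function.Injective fun i : Fin (2 * k) => ℓ.e (wv x w i) (w i)).card ≤
        (Finset.univ.filter fun w : Fin (2 * k) → ι => EvenW w).card := by
      refine Finset.card_le_card fun w hw => ?_
      rw [Finset.mem_filter] at hw ⊢
      exact ⟨hw.1, hw.2.1⟩
    have h6 := h5.trans (card_evenW (ι := ι) k (by omega))
    exact_mod_cast h6
  calc _ ≤ ((Fintype.card ι : ℝ) ^ k * (k : ℝ) ^ (2 * k)) * p ^ (2 * k) :=
        mul_le_mul_of_nonneg_right h4 (pow_nonneg h0 _)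
    _ = _ := by
        rw [mul_pow, mul_pow, ← pow_mul, ← pow_mul]

end words

/-! ### Unmatched vertices -/

section un

variable {V : Type*}

/-- a matching with `G`-edges, as an involution -/
def IsMat (G : V → V → Prop) (m : V → V) : Prop := (∀ x, m (m x) = x) ∧ ∀ x, m x = x ∨ G x (m x)

variable [Fintype V]

open Classical in
/-- least number of unmatched vertices -/
noncomputable def un (G : V → V → Prop) : ℕ :=
  sInf {k | ∃ m : V → V, IsMat G m ∧ (Finset.univ.filter fun x => m x = x).card = k}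

open Classical in
theorem un_spec (G : V → V → Prop) :
    ∃ m : V → V, IsMat G m ∧ (Finset.univ.filter fun x => m x = x).card = un G := by
  have h : {k | ∃ m : V → V, IsMat G m ∧
      (Finset.univ.filter fun x => m x = x).card = k}.Nonempty :=
    ⟨_, id, ⟨fun x => rfl, fun x => Or.inl rfl⟩, rfl⟩
  exact Nat.sInf_mem h

open Classical in
theorem un_le {G : V → V → Prop} {m : V → V} (h : IsMat G m) :
    un G ≤ (Finset.univ.filter fun x => m x = x).card := Nat.sInf_le ⟨m, h, rfl⟩

theorem un_le_card (G : V → V → Prop) : un G ≤ Fintype.card V := by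
  classical
  have h : IsMat G (id : V → V) := ⟨fun x => rfl, fun x => Or.inl rfl⟩
  exact (un_le h).trans (Finset.card_le_univ _)

end un

/-- expected least number of unmatched vertices -/
noncomputable def Eun (ι : Type*) [DecidableEq ι] [Fintype ι] (p : ℝ) (h0 : 0 ≤ p) (h1 : p ≤ 1) :
    ℝ := (bern p h0 h1 (CE ι)).E fun ω => (un (opn (canE ι) ω) : ℝ)

/-- bound for the unmatched vertices from the matching lemma -/
theorem Eun_le {ι : Type*} [DecidableEq ι] [Fintype ι] {p : ℝ} (h0 : 0 ≤ p) (h1 : p ≤ 1) {D : ℕ}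
    (hD : 0 < D) (h36 : 36 * D ≤ 2 ^ Fintype.card ι) (hΛ : 144 ≤ p * Fintype.card ι)
    (hlog : 400 * Real.log (2 ^ Fintype.card ι / D) ≤ p * Fintype.card ι) :
    Eun ι p h0 h1 ≤ 2 * D + 2 ^ Fintype.card ι * (25 * (2 ^ Fintype.card ι * Fintype.card ι) *
      Real.exp (-(p * Fintype.card ι * D / 4))) := by
  classical
  have h := matching_prob (canE ι) h0 h1 hD h36 hΛ hlog
  rw [← bern_wt (h0 := h0) (h1 := h1) (fun H => if ∃ m : Cube ι → Cube ι, IsMatch (canE ι) H m ∧
      (Finset.univ.filter fun x => m x = x).card ≤ 2 * D then 0 else 1)] at h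
  have h2 : ∀ ω : CE ι → Bool, (un (opn (canE ι) ω) : ℝ) ≤ 2 * D + 2 ^ Fintype.card ι *
      (if ∃ m : Cube ι → Cube ι, IsMatch (canE ι) (Finset.univ.filter fun e => ω e = true) m ∧
        (Finset.univ.filter fun x => m x = x).card ≤ 2 * D then 0 else 1) := by
    intro ω
    split_ifs with hm
    · obtain ⟨m, hm1, hm2⟩ := hm
      have h3 : IsMat (opn (canE ι) ω) m := by
        refine ⟨hm1.invol, fun x => ?_⟩
        rcases hm1.edge x with h | ⟨i, hi, hop⟩
        · exact Or.inl h
        · right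
          exact ⟨i, hi, by simpa using hop⟩
      have h4 := un_le h3
      have h5 : un (opn (canE ι) ω) ≤ 2 * D := by
        refine h4.trans (le_trans (le_of_eq ?_) hm2)
        congr
      have h6 : (un (opn (canE ι) ω) : ℝ) ≤ 2 * D := by exact_mod_cast h5
      linarith
    · have h4 := un_le_card (opn (canE ι) ω)
      have h5 : Fintype.card (Cube ι) = 2 ^ Fintype.card ι := by simp
      rw [h5] at h4
      have h6 : (un (opn (canE ι) ω) : ℝ) ≤ 2 ^ Fintype.card ι := by exact_mod_cast h4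
      have h7 : (0 : ℝ) ≤ 2 * D := by positivity
      linarith
  refine (FP.E_mono _ h2).trans ?_
  rw [FP.E_add, FP.E_const, FP.E_mul_left]
  have h8 := mul_le_mul_of_nonneg_left h (show (0 : ℝ) ≤ 2 ^ Fintype.card ι by positivity)
  linarith

/-! ### The deterministic part -/

section det

variable {κ μ E E' : Type*} [DecidableEq κ] [DecidableEq μ] [Fintype κ] [Fintype μ]

/-- parities of the two coordinates agree -/
def cls (x : Cube (κ ⊕ μ)) : Prop := par (x ∘ Sum.inl) = par (x ∘ Sum.inr)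

theorem cls_flip (i : κ ⊕ μ) (x : Cube (κ ⊕ μ)) : cls (flip i x) ↔ ¬ cls x := by
  unfold cls
  rcases i with i | i
  · rw [flip_inl, jn_inl, jn_inr, par_flip]
    cases par (x ∘ Sum.inl) <;> cases par (x ∘ Sum.inr) <;> simp
  · rw [flip_inr, jn_inl, jn_inr, par_flip]
    cases par (x ∘ Sum.inl) <;> cases par (x ∘ Sum.inr) <;> simp

omit [DecidableEq κ] [Fintype κ] in
theorem xr_false (y : Cube κ) : xr y (fun _ => false) = y := by
  funext i
  simp

open Classical in
/-- the two matchings as a partial injection -/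
theorem exists_succ (ℓ : EdgeLab κ E) (ℓ' : EdgeLab μ E')
    (ω : (Cube μ × E) ⊕ (Cube κ × E') → Bool) :
    ∃ f : Cube (κ ⊕ μ) → Cube (κ ⊕ μ),
      (∀ x, f x ≠ x → ∃ i : κ ⊕ μ, f x = flip i x ∧
        ω ((sumLab ℓ ℓ' fun _ _ => false).e x i) = true ∧ (i.isLeft = true ↔ cls x)) ∧
      (∀ x x', f x ≠ x → f x' ≠ x' → f x = f x' → x = x') ∧
      (Finset.univ.filter fun x => f x = x).card ≤
        ∑ z, un (opn ℓ fun e => ω (Sum.inl (z, e))) +
          ∑ y, un (opn ℓ' fun e => ω (Sum.inr (y, e))) := by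
  choose m hm hmc using fun z : Cube μ => un_spec (opn ℓ fun e => ω (Sum.inl (z, e)))
  choose m' hm' hmc' using fun y : Cube κ => un_spec (opn ℓ' fun e => ω (Sum.inr (y, e)))
  set f : Cube (κ ⊕ μ) → Cube (κ ⊕ μ) := fun x =>
    if cls x then jn (m (x ∘ Sum.inr) (x ∘ Sum.inl)) (x ∘ Sum.inr)
    else jn (x ∘ Sum.inl) (m' (x ∘ Sum.inl) (x ∘ Sum.inr)) with hf
  have hstep : ∀ x, f x ≠ x → ∃ i : κ ⊕ μ, f x = flip i x ∧
      ω ((sumLab ℓ ℓ' fun _ _ => false).e x i) = true ∧ (i.isLeft = true ↔ cls x) := by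
    intro x hx
    by_cases hc : cls x
    · have h1 : f x = jn (m (x ∘ Sum.inr) (x ∘ Sum.inl)) (x ∘ Sum.inr) := by
        rw [hf]
        dsimp only
        rw [if_pos hc]
      have h2 : m (x ∘ Sum.inr) (x ∘ Sum.inl) ≠ x ∘ Sum.inl := by
        intro h
        apply hx
        rw [h1, h, jn_self]
      rcases (hm (x ∘ Sum.inr)).2 (x ∘ Sum.inl) with h3 | ⟨i, h3, h4⟩
      · exact absurd h3 h2
      · refine ⟨Sum.inl i, ?_, ?_, by simpa using hc⟩
        · rw [h1, h3, flip_inl]
        · show ω (Sum.inl (x ∘ Sum.inr, ℓ.e (xr (x ∘ Sum.inl) (fun _ => false)) i)) = true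
          rw [xr_false]
          exact h4
    · have h1 : f x = jn (x ∘ Sum.inl) (m' (x ∘ Sum.inl) (x ∘ Sum.inr)) := by
        rw [hf]
        dsimp only
        rw [if_neg hc]
      have h2 : m' (x ∘ Sum.inl) (x ∘ Sum.inr) ≠ x ∘ Sum.inr := by
        intro h
        apply hx
        rw [h1, h, jn_self]
      rcases (hm' (x ∘ Sum.inl)).2 (x ∘ Sum.inr) with h3 | ⟨i, h3, h4⟩
      · exact absurd h3 h2
      · refine ⟨Sum.inr i, ?_, h4, by simpa using hc⟩
        rw [h1, h3, flip_inr]
  refine ⟨f, hstep, ?_, ?_⟩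
  · intro x x' hx hx' hxx
    obtain ⟨i, hi, _, _⟩ := hstep x hx
    obtain ⟨i', hi', _, _⟩ := hstep x' hx'
    have h1 : cls x ↔ cls x' := by
      have e1 := cls_flip i x
      have e2 := cls_flip i' x'
      rw [← hi, hxx, hi', e2] at e1
      tauto
    by_cases hc : cls x
    · have hc' := h1.1 hc
      rw [hf] at hxx
      dsimp only at hxx
      rw [if_pos hc, if_pos hc'] at hxx
      obtain ⟨h2, h3⟩ := jn_inj hxx
      rw [h3] at h2
      have h4 : x ∘ Sum.inl = x' ∘ Sum.inl := by
        rw [← (hm (x' ∘ Sum.inr)).1 (x ∘ Sum.inl), h2, (hm (x' ∘ Sum.inr)).1]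
      rw [← jn_self x, ← jn_self x', h3, h4]
    · have hc' := fun h => hc (h1.2 h)
      rw [hf] at hxx
      dsimp only at hxx
      rw [if_neg hc, if_neg hc'] at hxx
      obtain ⟨h2, h3⟩ := jn_inj hxx
      rw [h2] at h3
      have h4 : x ∘ Sum.inr = x' ∘ Sum.inr := by
        rw [← (hm' (x' ∘ Sum.inl)).1 (x ∘ Sum.inr), h3, (hm' (x' ∘ Sum.inl)).1]
      rw [← jn_self x, ← jn_self x', h2, h4]
  · -- number of fixed points
    set A := (Finset.univ : Finset (Cube μ)).biUnion fun z =>
      (Finset.univ.filter fun y => m z y = y).image fun y => jn y z with hA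
    set B := (Finset.univ : Finset (Cube κ)).biUnion fun y =>
      (Finset.univ.filter fun z => m' y z = z).image fun z => jn y z with hB
    have h1 : (Finset.univ.filter fun x => f x = x) ⊆ A ∪ B := by
      intro x hx
      rw [Finset.mem_filter] at hx
      have hx := hx.2
      by_cases hc : cls x
      · refine Finset.mem_union_left _ ?_
        rw [hf] at hx
        dsimp only at hx
        rw [if_pos hc] at hx
        rw [hA, Finset.mem_biUnion]
        refine ⟨x ∘ Sum.inr, Finset.mem_univ _, Finset.mem_image.2 ⟨x ∘ Sum.inl, ?_, jn_self x⟩⟩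
        rw [Finset.mem_filter]
        refine ⟨Finset.mem_univ _, ?_⟩
        have := congrArg (fun u : Cube (κ ⊕ μ) => u ∘ Sum.inl) hx
        simpa using this
      · refine Finset.mem_union_right _ ?_
        rw [hf] at hx
        dsimp only at hx
        rw [if_neg hc] at hx
        rw [hB, Finset.mem_biUnion]
        refine ⟨x ∘ Sum.inl, Finset.mem_univ _, Finset.mem_image.2 ⟨x ∘ Sum.inr, ?_, jn_self x⟩⟩
        rw [Finset.mem_filter]
        refine ⟨Finset.mem_univ _, ?_⟩
        have := congrArg (fun u : Cube (κ ⊕ μ) => u ∘ Sum.inr) hx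
        simpa using this
    have h2 : A.card ≤ ∑ z, un (opn ℓ fun e => ω (Sum.inl (z, e))) := by
      refine Finset.card_biUnion_le.trans (Finset.sum_le_sum fun z _ => ?_)
      refine Finset.card_image_le.trans (le_of_eq ?_)
      rw [← hmc z]
      congr
    have h3 : B.card ≤ ∑ y, un (opn ℓ' fun e => ω (Sum.inr (y, e))) := by
      refine Finset.card_biUnion_le.trans (Finset.sum_le_sum fun y _ => ?_)
      refine Finset.card_image_le.trans (le_of_eq ?_)
      rw [← hmc' y]
      congr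
    exact (Finset.card_le_card h1).trans ((Finset.card_union_le _ _).trans (by omega))

open Classical in
/-- **cutting two matchings into paths with exactly `l` vertices** -/
theorem det_base [Fintype E] [Fintype E'] [DecidableEq E] [DecidableEq E']
    (ℓ : EdgeLab κ E) (ℓ' : EdgeLab μ E')
    (ω : (Cube μ × E) ⊕ (Cube κ × E') → Bool) {l L : ℕ} (hl : 0 < l) (hL : 0 < L) :
    (2 : ℝ) ^ (Fintype.card κ + Fintype.card μ) ≤
      l * mx (opn (sumLab ℓ ℓ' fun _ _ => false) ω) l +
      l * (2 * (∑ z, (un (opn ℓ fun e => ω (Sum.inl (z, e))) : ℝ) +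
          ∑ y, (un (opn ℓ' fun e => ω (Sum.inr (y, e))) : ℝ)) +
        (Finset.univ.filter fun x => OpenCyc (sumLab ℓ ℓ' fun _ _ => false) ω L x).card +
        (2 : ℝ) ^ (Fintype.card κ + Fintype.card μ) / L) := by
  obtain ⟨f, hf1, hf2, hf3⟩ := exists_succ ℓ ℓ' ω
  set ℓs := sumLab ℓ ℓ' fun _ _ => false with hℓs
  set D := Finset.univ.filter fun x => f x = x with hD
  obtain ⟨π, hπ⟩ := Equiv.Perm.exists_extending_pair
    (fun x : {x : Cube (κ ⊕ μ) // f x ≠ x} => x.1) (fun x => f x.1) Subtype.val_injective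
    (fun x x' h => Subtype.ext (hf2 x.1 x'.1 x.2 x'.2 h))
  have hπ' : ∀ x, x ∉ D → π x = f x := by
    intro x hx
    have hx' : f x ≠ x := fun h => hx (Finset.mem_filter.2 ⟨Finset.mem_univ _, h⟩)
    exact hπ ⟨x, hx'⟩
  have hstep : ∀ x, x ∉ D → ∃ i : κ ⊕ μ, π x = flip i x ∧ ω (ℓs.e x i) = true ∧
      (i.isLeft = true ↔ cls x) := by
    intro x hx
    have hx' : f x ≠ x := fun h => hx (Finset.mem_filter.2 ⟨Finset.mem_univ _, h⟩)
    rw [hπ' x hx]
    exact hf1 x hx'
  obtain ⟨K, pt, h1, h2, h3, h4⟩ := perm_blocks π D hl hL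
  have hcard : Fintype.card (Cube (κ ⊕ μ)) = 2 ^ (Fintype.card κ + Fintype.card μ) := by simp
  rw [hcard] at h4
  push_cast at h4
  -- the family
  have hfam : IsFam (opn ℓs ω) pt := by
    refine ⟨h1, fun k i hi => ?_⟩
    obtain ⟨j, hj1, hj2, _⟩ := hstep _ (h3 k ⟨i, by omega⟩)
    exact ⟨j, by rw [h2 k i hi, hj1], hj2⟩
  have hK : (K : ℝ) ≤ mx (opn ℓs ω) l := by
    have := hfam.le_mx hl
    rw [Fintype.card_fin] at this
    exact_mod_cast this
  have hDc : (D.card : ℝ) ≤ ∑ z, (un (opn ℓ fun e => ω (Sum.inl (z, e))) : ℝ) +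
      ∑ y, (un (opn ℓ' fun e => ω (Sum.inr (y, e))) : ℝ) := by exact_mod_cast hf3
  -- short orbits are open cycles
  have hshort : short π D L ⊆ Finset.univ.filter fun x => OpenCyc ℓs ω L x := by
    intro x hx
    rw [short, Finset.mem_filter] at hx
    obtain ⟨_, hx1, hx2⟩ := hx
    rw [Finset.mem_filter]
    refine ⟨Finset.mem_univ _, ?_⟩
    set N := minimalPeriod π x with hN
    have hNpos : 0 < N := perm_period_pos π x
    have hper : (π ^ N) x = x := by
      have := iterate_minimalPeriod (f := (π : Cube (κ ⊕ μ) → Cube (κ ⊕ μ))) (x := x)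
      rwa [Equiv.Perm.iterate_eq_pow] at this
    choose d hd using fun i : ℕ => hstep _ (hx1 i)
    have hnext : ∀ i, (π ^ (i + 1)) x = flip (d i) ((π ^ i) x) := by
      intro i
      rw [pow_succ', Equiv.Perm.mul_apply]
      exact (hd i).1
    have hN3 : 3 ≤ N := by
      rcases Nat.lt_or_ge N 3 with h | h
      · exfalso
        have hcases : N = 1 ∨ N = 2 := by omega
        rcases hcases with h5 | h5
        · rw [h5] at hper
          have h6 := hnext 0
          rw [zero_add, hper, pow_zero, Equiv.Perm.one_apply] at h6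
          exact flip_ne _ _ h6.symm
        · rw [h5] at hper
          have h6 := hnext 1
          have h7 := hnext 0
          rw [zero_add] at h7
          rw [h7, show (1 + 1 : ℕ) = 2 from rfl, hper, pow_zero, Equiv.Perm.one_apply] at h6
          have h8 : flip (d 1) x = flip (d 0) x := by
            conv_lhs => rw [h6, flip_flip]
          have h9 : d 1 = d 0 := flip_dir_injective x h8
          have h10 := (hd 0).2.2
          have h11 := (hd 1).2.2
          rw [h7, pow_zero, Equiv.Perm.one_apply, cls_flip, h9] at h11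
          rw [pow_zero, Equiv.Perm.one_apply] at h10
          tauto
      · exact h
    refine ⟨N, hN3, hx2, fun i => d i.val, ?_, ?_, ?_⟩
    · have hwv : ∀ n, n ≤ N → wv x (fun i : Fin N => d i.val) n = (π ^ n) x := by
        intro n
        induction n with
        | zero => intro _; rw [wv_zero]; rfl
        | succ n ih =>
          intro hn
          rw [wv_succ x _ n (by omega), ih (by omega), hnext]
      exact evenW_of_closed (by rw [hwv N le_rfl, hper])
    · have hwv : ∀ n, n ≤ N → wv x (fun i : Fin N => d i.val) n = (π ^ n) x := by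
        intro n
        induction n with
        | zero => intro _; rw [wv_zero]; rfl
        | succ n ih =>
          intro hn
          rw [wv_succ x _ n (by omega), ih (by omega), hnext]
      have hne : ∀ i j : ℕ, i < j → j < N →
          ℓs.e ((π ^ i) x) (d i) ≠ ℓs.e ((π ^ j) x) (d j) := by
        intro i j hij hj h
        obtain ⟨h5, h6⟩ := ℓs.inj _ _ _ _ h
        rcases h6 with h6 | h6
        · have := perm_pow_inj π x (by omega) hj h6
          omega
        · -- `x_i = x_{j+1}` and `x_j = x_{i+1}`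
          have h7 : (π ^ i) x = (π ^ (j + 1)) x := by rw [hnext j, h6, h5]
          have h8 : (π ^ (i + 1)) x = (π ^ j) x := by
            rw [hnext i, h6, h5, flip_flip]
          have h9 := perm_pow_inj π x (by omega) hj h8
          rcases Nat.lt_or_ge (j + 1) N with h10 | h10
          · have := perm_pow_inj π x (by omega) h10 h7
            omega
          · have h11 : j + 1 = N := by omega
            rw [h11, hper] at h7
            have h12 : (π ^ i) x = (π ^ 0) x := by rw [h7]; rfl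
            have := perm_pow_inj π x (by omega) hNpos h12
            omega
      intro i j h
      dsimp only at h
      rw [hwv i.val i.isLt.le, hwv j.val j.isLt.le] at h
      rcases Nat.lt_trichotomy i.val j.val with hlt | heq | hgt
      · exact absurd h (hne _ _ hlt j.isLt)
      · exact Fin.ext heq
      · exact absurd h.symm (hne _ _ hgt i.isLt)
    · have hwv : ∀ n, n ≤ N → wv x (fun i : Fin N => d i.val) n = (π ^ n) x := by
        intro n
        induction n with
        | zero => intro _; rw [wv_zero]; rfl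
        | succ n ih =>
          intro hn
          rw [wv_succ x _ n (by omega), ih (by omega), hnext]
      intro i
      dsimp only
      rw [hwv i.val i.isLt.le]
      exact (hd i.val).2.1
  have hsc : ((short π D L).card : ℝ) ≤
      (Finset.univ.filter fun x => OpenCyc ℓs ω L x).card := by
    exact_mod_cast Finset.card_le_card hshort
  have hl0 : (0 : ℝ) ≤ l := Nat.cast_nonneg l
  have e1 := mul_le_mul_of_nonneg_left hK hl0
  have e2 := mul_le_mul_of_nonneg_left hDc hl0
  have e3 := mul_le_mul_of_nonneg_left hsc hl0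
  nlinarith

end det

/-! ### The base lemma -/

/-- **Base lemma** for numbers of paths -/
theorem Emx_base (κ μ : Type*) [DecidableEq κ] [DecidableEq μ] [Fintype κ] [Fintype μ]
    {p : ℝ} (h0 : 0 ≤ p) (h1 : p ≤ 1) {l L : ℕ} (hl : 0 < l) (hL : 0 < L) :
    (2 : ℝ) ^ (Fintype.card κ + Fintype.card μ) ≤ l * Emx (κ ⊕ μ) p h0 h1 l +
      l * (2 * (2 ^ Fintype.card μ * Eun κ p h0 h1 + 2 ^ Fintype.card κ * Eun μ p h0 h1) +
        2 ^ (Fintype.card κ + Fintype.card μ) * ∑ k ∈ Finset.Icc 2 (L / 2),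
          (((Fintype.card κ + Fintype.card μ : ℕ) : ℝ) * (k : ℝ) ^ 2 * p ^ 2) ^ k +
        2 ^ (Fintype.card κ + Fintype.card μ) / L) := by
  classical
  set ET := (Cube μ × CE κ) ⊕ (Cube κ × CE μ) with hET
  set P := bern p h0 h1 ((Cube μ × CE κ) ⊕ (Cube κ × CE μ)) with hP
  set ℓs := sumLab (canE κ) (canE μ) fun _ _ => false with hℓs
  have hdet := fun ω => det_base (canE κ) (canE μ) ω hl hL
  have hE := P.le_E_of_le hdet
  refine hE.trans ?_
  rw [FP.E_add, FP.E_mul_left, FP.E_mul_left, FP.E_add, FP.E_add, FP.E_mul_left, FP.E_add,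
    FP.E_const, FP.E_sum, FP.E_sum]
  have e1 : P.E (fun ω => (mx (opn ℓs ω) l : ℝ)) = Emx (κ ⊕ μ) p h0 h1 l := Emx_eq ℓs l
  have e2 : ∀ z : Cube μ, P.E (fun ω => (un (opn (canE κ) fun e => ω (Sum.inl (z, e))) : ℝ)) =
      Eun κ p h0 h1 := by
    intro z
    have h := bern_comap (p := p) (h0 := h0) (h1 := h1)
      (fun e : CE κ => (Sum.inl (z, e) : (Cube μ × CE κ) ⊕ (Cube κ × CE μ)))
      (fun e e' h => by simpa using h) (fun ω => (un (opn (canE κ) ω) : ℝ))
    exact h
  have e3 : ∀ y : Cube κ, P.E (fun ω => (un (opn (canE μ) fun e => ω (Sum.inr (y, e))) : ℝ)) =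
      Eun μ p h0 h1 := by
    intro y
    have h := bern_comap (p := p) (h0 := h0) (h1 := h1)
      (fun e : CE μ => (Sum.inr (y, e) : (Cube μ × CE κ) ⊕ (Cube κ × CE μ)))
      (fun e e' h => by simpa using h) (fun ω => (un (opn (canE μ) ω) : ℝ))
    exact h
  have e4 : P.E (fun ω => ((Finset.univ.filter fun x => OpenCyc ℓs ω L x).card : ℝ)) ≤
      2 ^ (Fintype.card κ + Fintype.card μ) * ∑ k ∈ Finset.Icc 2 (L / 2),
        (((Fintype.card κ + Fintype.card μ : ℕ) : ℝ) * (k : ℝ) ^ 2 * p ^ 2) ^ k := by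
    have h2 : ∀ ω, ((Finset.univ.filter fun x => OpenCyc ℓs ω L x).card : ℝ) =
        ∑ x, if OpenCyc ℓs ω L x then (1 : ℝ) else 0 := by
      intro ω
      rw [Finset.sum_boole]
    rw [FP.E_congr _ h2, FP.E_sum]
    have h3 : ∀ x : Cube (κ ⊕ μ), P.E (fun ω => if OpenCyc ℓs ω L x then (1 : ℝ) else 0) ≤
        ∑ k ∈ Finset.Icc 2 (L / 2),
          (((Fintype.card κ + Fintype.card μ : ℕ) : ℝ) * (k : ℝ) ^ 2 * p ^ 2) ^ k := by
      intro x
      have h4 := pr_openCyc (p := p) (h0 := h0) (h1 := h1) ℓs L x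
      rw [FP.pr_eq, Fintype.card_sum] at h4
      exact h4
    calc ∑ x : Cube (κ ⊕ μ), P.E (fun ω => if OpenCyc ℓs ω L x then (1 : ℝ) else 0)
        ≤ ∑ _x : Cube (κ ⊕ μ), ∑ k ∈ Finset.Icc 2 (L / 2),
          (((Fintype.card κ + Fintype.card μ : ℕ) : ℝ) * (k : ℝ) ^ 2 * p ^ 2) ^ k :=
          Finset.sum_le_sum fun x _ => h3 x
      _ = _ := by
          rw [Finset.sum_const, Finset.card_univ, nsmul_eq_mul]
          congr 1
          simp
  have hl0 : (0 : ℝ) ≤ l := Nat.cast_nonneg l
  rw [e1]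
  simp only [e2, e3, Finset.sum_const, Finset.card_univ, nsmul_eq_mul]
  have h5 := mul_le_mul_of_nonneg_left e4 hl0
  have c1 : ((Fintype.card (Cube μ) : ℕ) : ℝ) = 2 ^ Fintype.card μ := by simp
  have c2 : ((Fintype.card (Cube κ) : ℕ) : ℝ) = 2 ^ Fintype.card κ := by simp
  rw [c1, c2]
  nlinarith

/-- **Base lemma.** -/
theorem nu_base {p : ℝ} (h0 : 0 ≤ p) (h1 : p ≤ 1) {a b l L : ℕ} (hl : 0 < l) (hL : 0 < L) :
    1 - l * (2 * (Eun (Fin a) p h0 h1 / 2 ^ a + Eun (Fin b) p h0 h1 / 2 ^ b) +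
      ∑ k ∈ Finset.Icc 2 (L / 2), (((a + b : ℕ) : ℝ) * (k : ℝ) ^ 2 * p ^ 2) ^ k + 1 / L) ≤
      nu p h0 h1 (a + b) l := by
  have h := Emx_base (Fin a) (Fin b) h0 h1 hl hL
  simp only [Fintype.card_fin] at h
  have h2 : nu p h0 h1 (a + b) l = Emx (Fin a ⊕ Fin b) p h0 h1 l * l / 2 ^ (a + b) := by
    have h3 := nuI_eq_nu (ι := Fin a ⊕ Fin b) (p := p) (h0 := h0) (h1 := h1) hl
    rw [Fintype.card_sum, Fintype.card_fin, Fintype.card_fin] at h3
    rw [← h3, nuI, Fintype.card_sum, Fintype.card_fin, Fintype.card_fin]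
  rw [h2, le_div_iff₀ (by positivity)]
  have e1 : (2 : ℝ) ^ (a + b) = 2 ^ a * 2 ^ b := pow_add _ _ _
  have e2 : (1 - l * (2 * (Eun (Fin a) p h0 h1 / 2 ^ a + Eun (Fin b) p h0 h1 / 2 ^ b) +
      ∑ k ∈ Finset.Icc 2 (L / 2), (((a + b : ℕ) : ℝ) * (k : ℝ) ^ 2 * p ^ 2) ^ k + 1 / L)) *
      (2 : ℝ) ^ (a + b) = 2 ^ (a + b) -
      l * (2 * (2 ^ b * Eun (Fin a) p h0 h1 + 2 ^ a * Eun (Fin b) p h0 h1) +
        2 ^ (a + b) * ∑ k ∈ Finset.Icc 2 (L / 2),
          (((a + b : ℕ) : ℝ) * (k : ℝ) ^ 2 * p ^ 2) ^ k + 2 ^ (a + b) / L) := by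
    generalize ∑ k ∈ Finset.Icc 2 (L / 2), (((a + b : ℕ) : ℝ) * (k : ℝ) ^ 2 * p ^ 2) ^ k = ψ
    rw [e1]
    field_simp
  rw [e2]
  linarith

end Pool.Agent.LongCyc
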