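import Mathlib

/-!
# Edge isoperimetry in the cube `ι → Bool`

`flip i x` changes the coordinate `i`; `bd A` is the set of pairs `(x, i)` with `x ∈ A` and
`flip i x ∉ A`, i.e. the edge boundary of `A` (each boundary edge is counted once).
-/

set_option autoImplicit false

namespace Pool.Agent.LongCyc

open Finset

/-- the vertices of the cube -/
abbrev Cube (ι : Type*) := ι → Bool

variable {ι : Type*} [DecidableEq ι]

/-- the neighbour in direction `i` -/
def flip (i : ι) (x : Cube ι) : Cube ι := Function.update x i (!x i)

@[simp] theorem flip_same (i : ι) (x : Cube ι) : flip i x i = !x i := by simp [flip]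

@[simp] theorem flip_of_ne {i j : ι} (h : j ≠ i) (x : Cube ι) : flip i x j = x j := by
  simp [flip, h]

@[simp] theorem flip_flip (i : ι) (x : Cube ι) : flip i (flip i x) = x := by
  funext j
  by_cases h : j = i
  · subst h; simp
  · simp [h]

theorem flip_ne (i : ι) (x : Cube ι) : flip i x ≠ x := by
  intro h
  have := congrFun h i
  simp at this

theorem flip_injective (i : ι) : Function.Injective (flip i : Cube ι → Cube ι) := by
  intro x y h
  rw [← flip_flip i x, h, flip_flip]

theorem flip_dir_injective (x : Cube ι) : Function.Injective (fun i => flip i x) := by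
  intro i j h
  by_contra hij
  have := congrFun h i
  simp [flip, Function.update_of_ne hij] at this

theorem flip_comm (i j : ι) (x : Cube ι) : flip i (flip j x) = flip j (flip i x) := by
  funext k
  by_cases h1 : k = i
  · subst h1
    by_cases h2 : k = j
    · subst h2; simp
    · simp [h2]
  · by_cases h2 : k = j
    · subst h2; simp [h1]
    · simp [h1, h2]

/-- the entropy inequality behind edge isoperimetry -/
theorem entropy_ineq {a b M : ℝ} (ha : 0 ≤ a) (hb : 0 ≤ b) (hM : 0 < M) :
    (a + b) * Real.log (2 * M / (a + b)) ≤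
      a * Real.log (M / a) + b * Real.log (M / b) + Real.log 2 * |a - b| := by
  wlog hab : b ≤ a generalizing a b with H
  · have := H hb ha (by linarith)
    rw [add_comm b a, abs_sub_comm] at this
    linarith
  rw [abs_of_nonneg (by linarith)]
  rcases hb.eq_or_lt with rfl | hb0
  · rcases ha.eq_or_lt with rfl | ha0
    · simp
    · rw [add_zero, sub_zero, zero_mul, add_zero, mul_div_assoc, Real.log_mul (by norm_num)
        (by positivity)]
      linarith
  have ha0 : 0 < a := by linarith
  have hs : 0 < a + b := by linarith
  -- concavity of the binary entropy on `[0, 1/2]`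
  have hx0 : 0 ≤ b / (a + b) := by positivity
  have hx1 : b / (a + b) ≤ 1 / 2 := by
    rw [div_le_div_iff₀ hs (by norm_num)]
    linarith
  have hconc := Real.strictConcave_binEntropy.concaveOn.2
    (show (0 : ℝ) ∈ Set.Icc 0 1 by norm_num) (show (2⁻¹ : ℝ) ∈ Set.Icc 0 1 by norm_num)
    (show 0 ≤ 1 - 2 * (b / (a + b)) by linarith) (show 0 ≤ 2 * (b / (a + b)) by linarith)
    (by ring)
  simp only [smul_eq_mul, Real.binEntropy_zero, Real.binEntropy_two_inv, mul_zero, zero_add] at hconc
  have e1 : 2 * (b / (a + b)) * 2⁻¹ = b / (a + b) := by ring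
  rw [e1] at hconc
  have e2 : 1 - b / (a + b) = a / (a + b) := by field_simp; ring
  unfold Real.binEntropy at hconc
  rw [e2, inv_div, inv_div] at hconc
  have e3 : Real.log ((a + b) / b) = Real.log (a + b) - Real.log b :=
    Real.log_div hs.ne' hb0.ne'
  have e4 : Real.log ((a + b) / a) = Real.log (a + b) - Real.log a :=
    Real.log_div hs.ne' ha0.ne'
  have e5 : Real.log (2 * M / (a + b)) = Real.log 2 + Real.log M - Real.log (a + b) := by
    rw [Real.log_div (by positivity) hs.ne', Real.log_mul (by norm_num) hM.ne']
  rw [e5, Real.log_div hM.ne' ha0.ne', Real.log_div hM.ne' hb0.ne']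
  rw [e3, e4] at hconc
  have h6 := mul_le_mul_of_nonneg_left hconc hs.le
  have e6 : (a + b) * (2 * (b / (a + b)) * Real.log 2) = 2 * b * Real.log 2 := by
    field_simp
  have e7 : (a + b) * (b / (a + b) * (Real.log (a + b) - Real.log b) +
      a / (a + b) * (Real.log (a + b) - Real.log a)) =
      b * (Real.log (a + b) - Real.log b) + a * (Real.log (a + b) - Real.log a) := by
    field_simp
  rw [e6, e7] at h6
  nlinarith

variable [Fintype ι]

/-- boundary of `A` in the directions of `D` -/
def bdD (D : Finset ι) (A : Finset (Cube ι)) : Finset (Cube ι × ι) :=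
  (A ×ˢ D).filter fun p => flip p.2 p.1 ∉ A

theorem iso_aux (D : Finset ι) : ∀ A : Finset (Cube ι), (∀ x ∈ A, ∀ y ∈ A, ∀ j ∉ D, x j = y j) →
    (A.card : ℝ) * Real.log (2 ^ D.card / A.card) ≤ Real.log 2 * (bdD D A).card := by
  induction D using Finset.induction_on with
  | empty =>
    intro A hA
    have h1 : A.card ≤ 1 := by
      rw [Finset.card_le_one]
      intro x hx y hy
      funext j
      exact hA x hx y hy j (Finset.notMem_empty j)
    have h2 : (A.card : ℝ) * Real.log (2 ^ (∅ : Finset ι).card / A.card) = 0 := by
      rcases Nat.le_one_iff_eq_zero_or_eq_one.mp h1 with h | h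
      · rw [h]; simp
      · rw [h]; simp
    rw [h2]
    exact mul_nonneg (Real.log_nonneg (by norm_num)) (by positivity)
  | insert j D hj ih =>
    intro A hA
    set A0 := A.filter (fun x => x j = false) with hA0
    set A1 := A.filter (fun x => x j = true) with hA1
    have hcard : A.card = A0.card + A1.card := by
      rw [hA0, hA1, ← Finset.card_filter_add_card_filter_not (s := A) (fun x => x j = false)]
      simp
    have hD : ∀ x ∈ A, ∀ y ∈ A, x j = y j → ∀ k ∉ D, x k = y k := by
      intro x hx y hy hxy k hk
      by_cases hkj : k = j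
      · subst hkj; exact hxy
      · exact hA x hx y hy k (by simp [hkj, hk])
    have h0 := ih A0 (fun x hx y hy => hD x (Finset.mem_filter.mp hx).1 y (Finset.mem_filter.mp hy).1
      (by rw [(Finset.mem_filter.mp hx).2, (Finset.mem_filter.mp hy).2]))
    have h1 := ih A1 (fun x hx y hy => hD x (Finset.mem_filter.mp hx).1 y (Finset.mem_filter.mp hy).1
      (by rw [(Finset.mem_filter.mp hx).2, (Finset.mem_filter.mp hy).2]))
    have hent := entropy_ineq (a := A0.card) (b := A1.card) (M := 2 ^ D.card) (by positivity)
      (by positivity) (by positivity)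
    -- the boundary of `A`
    set B := (A.filter fun x => flip j x ∉ A).image fun x => (x, j) with hB
    have hsub : (bdD D A0 ∪ bdD D A1) ∪ B ⊆ bdD (insert j D) A := by
      intro p hp
      rcases Finset.mem_union.mp hp with hp | hp
      · have hp' : ∃ b, p ∈ bdD D (A.filter fun x => x j = b) := by
          rcases Finset.mem_union.mp hp with hp | hp
          · exact ⟨false, hp⟩
          · exact ⟨true, hp⟩
        obtain ⟨b, hb⟩ := hp'
        simp only [bdD, Finset.mem_filter, Finset.mem_product, not_and] at hb
        obtain ⟨⟨⟨hpA, hpb⟩, hpD⟩, hpf⟩ := hb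
        simp only [bdD, Finset.mem_filter, Finset.mem_product]
        refine ⟨⟨hpA, Finset.mem_insert_of_mem hpD⟩, fun hcon => hpf hcon ?_⟩
        rw [flip_of_ne]
        · exact hpb
        · rintro rfl
          exact hj hpD
      · obtain ⟨x, hx, rfl⟩ := Finset.mem_image.mp hp
        simp only [Finset.mem_filter] at hx
        simp only [bdD, Finset.mem_filter, Finset.mem_product]
        exact ⟨⟨hx.1, Finset.mem_insert_self _ _⟩, hx.2⟩
    have hdis1 : Disjoint (bdD D A0) (bdD D A1) := by
      rw [Finset.disjoint_left]
      intro p hp hq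
      simp only [bdD, Finset.mem_filter, Finset.mem_product, hA0, hA1] at hp hq
      have := hp.1.1.2
      rw [hq.1.1.2] at this
      exact absurd this (by decide)
    have hdis2 : Disjoint (bdD D A0 ∪ bdD D A1) B := by
      rw [Finset.disjoint_left]
      intro p hp hq
      obtain ⟨x, hx, rfl⟩ := Finset.mem_image.mp hq
      rcases Finset.mem_union.mp hp with hp | hp <;>
      · simp only [bdD, Finset.mem_filter, Finset.mem_product] at hp
        exact hj hp.1.2
    have hle := Finset.card_le_card hsub
    rw [Finset.card_union_of_disjoint hdis2, Finset.card_union_of_disjoint hdis1] at hle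
    have hBcard : B.card = (A.filter fun x => flip j x ∉ A).card := by
      refine Finset.card_image_of_injective _ fun x y h => ?_
      exact (Prod.mk.inj h).1
    have hB0 : A0.card ≤ A1.card + B.card := by
      rw [hBcard]
      have : A0 ⊆ (A1.image (flip j)) ∪ (A.filter fun x => flip j x ∉ A) := by
        intro x hx
        have hx' := Finset.mem_filter.mp hx
        by_cases hf : flip j x ∈ A
        · refine Finset.mem_union_left _ (Finset.mem_image.mpr ⟨flip j x, ?_, flip_flip j x⟩)
          refine Finset.mem_filter.mpr ⟨hf, ?_⟩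
          simp [hx'.2]
        · exact Finset.mem_union_right _ (Finset.mem_filter.mpr ⟨hx'.1, hf⟩)
      calc A0.card ≤ _ := Finset.card_le_card this
        _ ≤ _ := Finset.card_union_le _ _
        _ ≤ _ := Nat.add_le_add_right Finset.card_image_le _
    have hB1 : A1.card ≤ A0.card + B.card := by
      rw [hBcard]
      have : A1 ⊆ (A0.image (flip j)) ∪ (A.filter fun x => flip j x ∉ A) := by
        intro x hx
        have hx' := Finset.mem_filter.mp hx
        by_cases hf : flip j x ∈ A
        · refine Finset.mem_union_left _ (Finset.mem_image.mpr ⟨flip j x, ?_, flip_flip j x⟩)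
          refine Finset.mem_filter.mpr ⟨hf, ?_⟩
          simp [hx'.2]
        · exact Finset.mem_union_right _ (Finset.mem_filter.mpr ⟨hx'.1, hf⟩)
      calc A1.card ≤ _ := Finset.card_le_card this
        _ ≤ _ := Finset.card_union_le _ _
        _ ≤ _ := Nat.add_le_add_right Finset.card_image_le _
    have habs : |(A0.card : ℝ) - A1.card| ≤ B.card := by
      rw [abs_le]
      constructor
      · have : (A1.card : ℝ) ≤ A0.card + B.card := by exact_mod_cast hB1
        linarith
      · have : (A0.card : ℝ) ≤ A1.card + B.card := by exact_mod_cast hB0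
        linarith
    have hlog2 : 0 ≤ Real.log 2 := Real.log_nonneg (by norm_num)
    rw [Finset.card_insert_of_notMem hj, pow_succ, mul_comm ((2 : ℝ) ^ D.card) 2, hcard]
    push_cast
    have hle' : ((bdD D A0).card : ℝ) + (bdD D A1).card + B.card ≤ (bdD (insert j D) A).card := by
      exact_mod_cast hle
    have h3 := mul_le_mul_of_nonneg_left hle' hlog2
    have h4 := mul_le_mul_of_nonneg_left habs hlog2
    linarith

/-- the edge boundary of `A` -/
def bd (A : Finset (Cube ι)) : Finset (Cube ι × ι) := bdD Finset.univ A

theorem mem_bd {A : Finset (Cube ι)} {p : Cube ι × ι} : p ∈ bd A ↔ p.1 ∈ A ∧ flip p.2 p.1 ∉ A := by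
  simp [bd, bdD]

/-- **Edge isoperimetry** -/
theorem edge_iso (A : Finset (Cube ι)) :
    (A.card : ℝ) * Real.log (2 ^ Fintype.card ι / A.card) ≤ Real.log 2 * (bd A).card :=
  iso_aux Finset.univ A (fun _ _ _ _ j hj => absurd (Finset.mem_univ j) hj)

theorem bd_compl_card (A : Finset (Cube ι)) : (bd Aᶜ).card = (bd A).card := by
  refine Finset.card_bij (fun p _ => (flip p.2 p.1, p.2)) ?_ ?_ ?_
  · intro p hp
    rw [mem_bd] at hp ⊢
    simp only [Finset.mem_compl, not_not] at hp
    refine ⟨hp.2, ?_⟩
    simp only [flip_flip]
    exact hp.1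
  · rintro ⟨x, i⟩ _ ⟨y, j⟩ _ h
    obtain ⟨h1, h2⟩ := Prod.mk.inj h
    simp only at h1 h2
    subst h2
    rw [flip_injective i h1]
  · rintro ⟨x, i⟩ hp
    rw [mem_bd] at hp
    simp only at hp
    refine ⟨(flip i x, i), ?_, ?_⟩
    · rw [mem_bd]
      simp only [Finset.mem_compl, flip_flip, not_not]
      exact ⟨hp.2, hp.1⟩
    · simp

/-- a nonempty set of at most half of the vertices has at least as many boundary edges as vertices -/
theorem card_le_bd (A : Finset (Cube ι)) (hA : 2 * A.card ≤ 2 ^ Fintype.card ι) :
    A.card ≤ (bd A).card := by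
  rcases A.eq_empty_or_nonempty with rfl | hne
  · simp
  have h := edge_iso A
  have hpos : (0 : ℝ) < A.card := by exact_mod_cast hne.card_pos
  have h1 : Real.log 2 ≤ Real.log (2 ^ Fintype.card ι / A.card) := by
    apply Real.log_le_log (by norm_num)
    rw [le_div_iff₀ hpos]
    exact_mod_cast hA
  have hl : 0 < Real.log 2 := Real.log_pos (by norm_num)
  have h2 : (A.card : ℝ) * Real.log 2 ≤ Real.log 2 * (bd A).card :=
    (mul_le_mul_of_nonneg_left h1 hpos.le).trans h
  rw [mul_comm] at h2
  exact_mod_cast le_of_mul_le_mul_left h2 hl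

end Pool.Agent.LongCyc
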