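import Mathlib
import Pool.Agent.LongCyc.Iso

/-!
# Stage 6 (giant): definitions (blocks, ports, connectors)
-/

set_option autoImplicit false

namespace Pool.Agent.LongCyc

open Finset

variable {ι : Type*} [DecidableEq ι] [Fintype ι]

/-- ordered cube edges from `A` to `B` (counted once from the side of `A`) -/
def mix (A B : Finset (Cube ι)) : Finset (Cube ι × ι) :=
  (A ×ˢ Finset.univ).filter fun p => flip p.2 p.1 ∈ B

/-- the point `x` is good for the reservoir `R` -/
def GoodPt (Zd : Finset ι) (T : ℕ) (R : Finset (Cube ι)) (x : Cube ι) : Prop :=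
  (∀ i ∈ Zd, ∀ j ∈ Zd, T ≤ (Zd.filter fun k =>
      flip k x ∈ R ∧ flip i (flip k x) ∈ R ∧ flip j (flip k x) ∈ R).card) ∧
  (∀ k : ι, T ≤ (Zd.filter fun j => flip j x ∈ R ∧ flip k (flip j x) ∈ R).card)

/-- A system of blocks: reservoir pieces `rp r` (paths with `L2` vertices) and main pieces `mp P` (paths with
`L1` vertices), consecutive vertices are related by `G1`. -/
structure Blocks (G1 : Cube ι → Cube ι → Prop) (RP MP : Type*) (L2 L1 h : ℕ) where
  rp : RP → Fin L2 → Cube ι
  mp : MP → Fin L1 → Cube ι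
  rp_inj : Function.Injective fun q : RP × Fin L2 => rp q.1 q.2
  mp_inj : Function.Injective fun q : MP × Fin L1 => mp q.1 q.2
  disj : ∀ r i P j, rp r i ≠ mp P j
  rp_adj : ∀ r (i : ℕ) (hi : i + 1 < L2), G1 (rp r ⟨i, by omega⟩) (rp r ⟨i + 1, hi⟩)
  mp_adj : ∀ P (i : ℕ) (hi : i + 1 < L1), G1 (mp P ⟨i, by omega⟩) (mp P ⟨i + 1, hi⟩)
  hL2 : 0 < L2
  hh : 0 < h
  hhL1 : 2 * h ≤ L1

namespace Blocks

variable {G1 : Cube ι → Cube ι → Prop} {RP MP : Type*} {L2 L1 h : ℕ}

/-- vertices of a reservoir piece -/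
def rset (S : Blocks G1 RP MP L2 L1 h) (r : RP) : Finset (Cube ι) := Finset.univ.image (S.rp r)

/-- the port `s(P)` : first `h` vertices -/
def sport (S : Blocks G1 RP MP L2 L1 h) (P : MP) : Finset (Cube ι) :=
  (Finset.univ.filter fun i : Fin L1 => i.val < h).image (S.mp P)

/-- the port `t(P)` : last `h` vertices -/
def tport (S : Blocks G1 RP MP L2 L1 h) (P : MP) : Finset (Cube ι) :=
  (Finset.univ.filter fun i : Fin L1 => L1 ≤ i.val + h).image (S.mp P)

/-- the vertex sets of the blocks: reservoir pieces, start ports, end ports -/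
def bset (S : Blocks G1 RP MP L2 L1 h) : RP ⊕ (MP ⊕ MP) → Finset (Cube ι)
  | Sum.inl r => S.rset r
  | Sum.inr (Sum.inl P) => S.sport P
  | Sum.inr (Sum.inr P) => S.tport P

end Blocks

/-- two vertex sets are joined by a sprinkled edge -/
def Joined (G2 : Cube ι → Cube ι → Prop) (A B : Finset (Cube ι)) : Prop :=
  ∃ u ∈ A, ∃ v ∈ B, G2 u v

/-- a connector from the end port of `P` to the start port of `P'` through the reservoir pieces in the list -/
def Connector {G1 : Cube ι → Cube ι → Prop} {RP MP : Type*} {L2 L1 h : ℕ}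
    (S : Blocks G1 RP MP L2 L1 h) (G2 : Cube ι → Cube ι → Prop) (P P' : MP) (W : List RP) : Prop :=
  W.Nodup ∧ ∃ hW : W ≠ [], Joined G2 (S.tport P) (S.rset (W.head hW)) ∧
    W.IsChain (fun r r' => Joined G2 (S.rset r) (S.rset r')) ∧
    Joined G2 (S.rset (W.getLast hW)) (S.sport P')

end Pool.Agent.LongCyc
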