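import Mathlib
import Pool.Agent.LongCyc.Blocks

/-!
# Isoperimetry of the reservoir
-/

set_option autoImplicit false

namespace Pool.Agent.LongCyc

open Finset

variable {ι : Type*} [DecidableEq ι] [Fintype ι]

/-- number of neighbours of `x` in the directions of `Zd` which lie in `A` -/
def nb (Zd : Finset ι) (A : Finset (Cube ι)) (x : Cube ι) : ℕ := (Zd.filter fun i => flip i x ∈ A).card

/-- mixed edges in direction `k` -/
def mixk (A A' : Finset (Cube ι)) (k : ι) : ℕ := (A.filter fun u => flip k u ∈ A').card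

theorem sum_mixk (A A' : Finset (Cube ι)) : ∑ k, mixk A A' k = (mix A A').card := by
  unfold mixk mix
  rw [Finset.card_filter, Finset.sum_product_right]
  refine Finset.sum_congr rfl fun k _ => ?_
  rw [Finset.card_filter]

theorem sum_mixk_le (Zd : Finset ι) (A A' : Finset (Cube ι)) : ∑ k ∈ Zd, mixk A A' k ≤ (mix A A').card := by
  rw [← sum_mixk]
  exact Finset.sum_le_sum_of_subset (Finset.subset_univ _)

theorem card_filter_comp (f : Cube ι → Cube ι) (hf : Function.Injective f) (Q : Cube ι → Prop) [DecidablePred Q] :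
    (Finset.univ.filter fun x => Q (f x)).card ≤ (Finset.univ.filter fun u => Q u).card := by
  refine Finset.card_le_card_of_injOn f ?_ (hf.injOn)
  intro x hx
  simp only [Finset.coe_filter, Finset.mem_univ, true_and, Set.mem_ofPred_eq] at hx ⊢
  exact hx

theorem sum_nb (Zd : Finset ι) (A : Finset (Cube ι)) : ∑ x, nb Zd A x = Zd.card * A.card := by
  unfold nb
  have h1 : ∀ x : Cube ι, (Zd.filter fun i => flip i x ∈ A).card = ∑ i ∈ Zd, if flip i x ∈ A then 1 else 0 := by
    intro x; rw [Finset.card_filter]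
  simp only [h1]
  rw [Finset.sum_comm]
  have h2 : ∀ i ∈ Zd, ∑ x : Cube ι, (if flip i x ∈ A then 1 else 0) = A.card := by
    intro i _
    rw [← Finset.card_filter]
    refine Finset.card_bij (fun x _ => flip i x) ?_ ?_ ?_
    · intro x hx
      exact (Finset.mem_filter.mp hx).2
    · intro x _ y _ h
      exact flip_injective i h
    · intro y hy
      exact ⟨flip i y, by simp [hy], flip_flip i y⟩
  rw [Finset.sum_congr rfl h2, Finset.sum_const, smul_eq_mul]

/-- the walks of length four -/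
theorem walk_count (Zd : Finset ι) (R A A' D : Finset (Cube ι))
    (hR : ∀ x, x ∈ R → x ∈ A ∨ x ∈ A' ∨ x ∈ D) (i j k : ι) :
    (Finset.univ.filter fun x : Cube ι => flip i x ∈ A ∧ flip j x ∈ A' ∧ flip k x ∈ R ∧
      flip i (flip k x) ∈ R ∧ flip j (flip k x) ∈ R).card ≤
      2 * mixk A A' k + mixk A A' i + mixk A A' j + 3 * D.card := by
  classical
  have hsub : (Finset.univ.filter fun x : Cube ι => flip i x ∈ A ∧ flip j x ∈ A' ∧ flip k x ∈ R ∧
      flip i (flip k x) ∈ R ∧ flip j (flip k x) ∈ R) ⊆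
      ((((((Finset.univ.filter fun x : Cube ι => flip i x ∈ A ∧ flip k (flip i x) ∈ A') ∪
      (Finset.univ.filter fun x : Cube ι => flip i (flip k x) ∈ A ∧ flip i (flip i (flip k x)) ∈ A')) ∪
      (Finset.univ.filter fun x : Cube ι => flip k x ∈ A ∧ flip j (flip k x) ∈ A')) ∪
      (Finset.univ.filter fun x : Cube ι => flip j (flip k x) ∈ A ∧ flip k (flip j (flip k x)) ∈ A')) ∪
      (Finset.univ.filter fun x : Cube ι => flip i (flip k x) ∈ D)) ∪
      (Finset.univ.filter fun x : Cube ι => flip k x ∈ D)) ∪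
      (Finset.univ.filter fun x : Cube ι => flip j (flip k x) ∈ D) := by
    intro x hx
    simp only [Finset.mem_filter, Finset.mem_univ, true_and] at hx
    obtain ⟨h1, h2, h3, h4, h5⟩ := hx
    simp only [Finset.mem_union, Finset.mem_filter, Finset.mem_univ, true_and]
    have e1 : flip k (flip i x) = flip i (flip k x) := flip_comm _ _ _
    have e2 : flip i (flip i (flip k x)) = flip k x := flip_flip _ _
    have e3 : flip k (flip j (flip k x)) = flip j x := by
      rw [flip_comm j k, flip_flip]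
    rw [e1, e2, e3]
    rcases hR _ h3 with h3 | h3 | h3 <;> rcases hR _ h4 with h4 | h4 | h4 <;>
      rcases hR _ h5 with h5 | h5 | h5 <;> tauto
  have c1 : (Finset.univ.filter fun x : Cube ι => flip i x ∈ A ∧ flip k (flip i x) ∈ A').card ≤ mixk A A' k := by
    refine (card_filter_comp (flip i) (flip_injective i) (fun u => u ∈ A ∧ flip k u ∈ A')).trans ?_
    rw [mixk, Finset.filter_and]
    refine Finset.card_le_card ?_
    intro u; simp
  have c2 : (Finset.univ.filter fun x : Cube ι => flip i (flip k x) ∈ A ∧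
      flip i (flip i (flip k x)) ∈ A').card ≤ mixk A A' i := by
    refine (card_filter_comp (fun x => flip i (flip k x))
      ((flip_injective i).comp (flip_injective k)) (fun u => u ∈ A ∧ flip i u ∈ A')).trans ?_
    rw [mixk, Finset.filter_and]
    refine Finset.card_le_card ?_
    intro u; simp
  have c3 : (Finset.univ.filter fun x : Cube ι => flip k x ∈ A ∧ flip j (flip k x) ∈ A').card ≤ mixk A A' j := by
    refine (card_filter_comp (flip k) (flip_injective k) (fun u => u ∈ A ∧ flip j u ∈ A')).trans ?_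
    rw [mixk, Finset.filter_and]
    refine Finset.card_le_card ?_
    intro u; simp
  have c4 : (Finset.univ.filter fun x : Cube ι => flip j (flip k x) ∈ A ∧
      flip k (flip j (flip k x)) ∈ A').card ≤ mixk A A' k := by
    refine (card_filter_comp (fun x => flip j (flip k x))
      ((flip_injective j).comp (flip_injective k)) (fun u => u ∈ A ∧ flip k u ∈ A')).trans ?_
    rw [mixk, Finset.filter_and]
    refine Finset.card_le_card ?_
    intro u; simp
  have c5 : (Finset.univ.filter fun x : Cube ι => flip i (flip k x) ∈ D).card ≤ D.card := by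
    refine (card_filter_comp (fun x => flip i (flip k x))
      ((flip_injective i).comp (flip_injective k)) (fun u => u ∈ D)).trans ?_
    refine Finset.card_le_card ?_
    intro u; simp
  have c6 : (Finset.univ.filter fun x : Cube ι => flip k x ∈ D).card ≤ D.card := by
    refine (card_filter_comp (flip k) (flip_injective k) (fun u => u ∈ D)).trans ?_
    refine Finset.card_le_card ?_
    intro u; simp
  have c7 : (Finset.univ.filter fun x : Cube ι => flip j (flip k x) ∈ D).card ≤ D.card := by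
    refine (card_filter_comp (fun x => flip j (flip k x))
      ((flip_injective j).comp (flip_injective k)) (fun u => u ∈ D)).trans ?_
    refine Finset.card_le_card ?_
    intro u; simp
  have hle := Finset.card_le_card hsub
  have u1 := Finset.card_union_le (((((((Finset.univ.filter fun x : Cube ι => flip i x ∈ A ∧ flip k (flip i x) ∈ A') ∪
      (Finset.univ.filter fun x : Cube ι => flip i (flip k x) ∈ A ∧ flip i (flip i (flip k x)) ∈ A')) ∪
      (Finset.univ.filter fun x : Cube ι => flip k x ∈ A ∧ flip j (flip k x) ∈ A')) ∪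
      (Finset.univ.filter fun x : Cube ι => flip j (flip k x) ∈ A ∧ flip k (flip j (flip k x)) ∈ A')) ∪
      (Finset.univ.filter fun x : Cube ι => flip i (flip k x) ∈ D)) ∪
      (Finset.univ.filter fun x : Cube ι => flip k x ∈ D)))
      (Finset.univ.filter fun x : Cube ι => flip j (flip k x) ∈ D)
  have u2 := Finset.card_union_le ((((((Finset.univ.filter fun x : Cube ι => flip i x ∈ A ∧ flip k (flip i x) ∈ A') ∪
      (Finset.univ.filter fun x : Cube ι => flip i (flip k x) ∈ A ∧ flip i (flip i (flip k x)) ∈ A')) ∪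
      (Finset.univ.filter fun x : Cube ι => flip k x ∈ A ∧ flip j (flip k x) ∈ A')) ∪
      (Finset.univ.filter fun x : Cube ι => flip j (flip k x) ∈ A ∧ flip k (flip j (flip k x)) ∈ A')) ∪
      (Finset.univ.filter fun x : Cube ι => flip i (flip k x) ∈ D)))
      (Finset.univ.filter fun x : Cube ι => flip k x ∈ D)
  have u3 := Finset.card_union_le (((((Finset.univ.filter fun x : Cube ι => flip i x ∈ A ∧ flip k (flip i x) ∈ A') ∪
      (Finset.univ.filter fun x : Cube ι => flip i (flip k x) ∈ A ∧ flip i (flip i (flip k x)) ∈ A')) ∪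
      (Finset.univ.filter fun x : Cube ι => flip k x ∈ A ∧ flip j (flip k x) ∈ A')) ∪
      (Finset.univ.filter fun x : Cube ι => flip j (flip k x) ∈ A ∧ flip k (flip j (flip k x)) ∈ A')))
      (Finset.univ.filter fun x : Cube ι => flip i (flip k x) ∈ D)
  have u4 := Finset.card_union_le ((((Finset.univ.filter fun x : Cube ι => flip i x ∈ A ∧ flip k (flip i x) ∈ A') ∪
      (Finset.univ.filter fun x : Cube ι => flip i (flip k x) ∈ A ∧ flip i (flip i (flip k x)) ∈ A')) ∪
      (Finset.univ.filter fun x : Cube ι => flip k x ∈ A ∧ flip j (flip k x) ∈ A')))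
      (Finset.univ.filter fun x : Cube ι => flip j (flip k x) ∈ A ∧ flip k (flip j (flip k x)) ∈ A')
  have u5 := Finset.card_union_le (((Finset.univ.filter fun x : Cube ι => flip i x ∈ A ∧ flip k (flip i x) ∈ A') ∪
      (Finset.univ.filter fun x : Cube ι => flip i (flip k x) ∈ A ∧ flip i (flip i (flip k x)) ∈ A')))
      (Finset.univ.filter fun x : Cube ι => flip k x ∈ A ∧ flip j (flip k x) ∈ A')
  have u6 := Finset.card_union_le ((Finset.univ.filter fun x : Cube ι => flip i x ∈ A ∧ flip k (flip i x) ∈ A'))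
      (Finset.univ.filter fun x : Cube ι => flip i (flip k x) ∈ A ∧ flip i (flip i (flip k x)) ∈ A')
  omega

/-- counting the walks of length four: at good points there are many -/
theorem sum_prod_le (Zd : Finset ι) (T : ℕ) (R A A' D Bad : Finset (Cube ι))
    (hR : ∀ x, x ∈ R → x ∈ A ∨ x ∈ A' ∨ x ∈ D)
    (hgood : ∀ x, x ∉ Bad → GoodPt Zd T R x) :
    ∑ x ∈ Badᶜ, nb Zd A x * nb Zd A' x * T ≤
      4 * Zd.card ^ 2 * (mix A A').card + 3 * Zd.card ^ 3 * D.card := by
  classical
  -- the number of walks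
  set Wn : Cube ι → ι → ι → ι → ℕ := fun x i j k => if flip i x ∈ A ∧ flip j x ∈ A' ∧ flip k x ∈ R ∧
      flip i (flip k x) ∈ R ∧ flip j (flip k x) ∈ R then 1 else 0 with hWn
  have h1 : ∀ x ∈ Badᶜ, nb Zd A x * nb Zd A' x * T ≤ ∑ i ∈ Zd, ∑ j ∈ Zd, ∑ k ∈ Zd, Wn x i j k := by
    intro x hx
    have hg := (hgood x (by simpa using hx)).1
    have h2 : ∀ i ∈ Zd, ∀ j ∈ Zd, (if flip i x ∈ A then 1 else 0) * (if flip j x ∈ A' then 1 else 0) * T ≤
        ∑ k ∈ Zd, Wn x i j k := by
      intro i hi j hj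
      by_cases ha : flip i x ∈ A
      · by_cases hb : flip j x ∈ A'
        · rw [if_pos ha, if_pos hb, one_mul, one_mul]
          refine (hg i hi j hj).trans ?_
          rw [Finset.card_filter]
          refine Finset.sum_le_sum fun k _ => ?_
          simp only [hWn]
          split_ifs with h3 h4 h4 <;> first | rfl | exact Nat.zero_le _ | skip
          exact absurd ⟨ha, hb, h3.1, h3.2.1, h3.2.2⟩ h4
        · rw [if_neg hb]; simp
      · rw [if_neg ha]; simp
    have h3 : nb Zd A x * nb Zd A' x * T = ∑ i ∈ Zd, ∑ j ∈ Zd,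
        (if flip i x ∈ A then 1 else 0) * (if flip j x ∈ A' then 1 else 0) * T := by
      unfold nb
      rw [Finset.card_filter, Finset.card_filter, Finset.sum_mul_sum, Finset.sum_mul]
      refine Finset.sum_congr rfl fun i _ => ?_
      rw [Finset.sum_mul]
    rw [h3]
    exact Finset.sum_le_sum fun i hi => Finset.sum_le_sum fun j hj => h2 i hi j hj
  refine (Finset.sum_le_sum h1).trans ?_
  refine (Finset.sum_le_sum_of_subset (Finset.subset_univ Badᶜ)).trans ?_
  have h4 : ∑ x : Cube ι, ∑ i ∈ Zd, ∑ j ∈ Zd, ∑ k ∈ Zd, Wn x i j k =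
      ∑ i ∈ Zd, ∑ j ∈ Zd, ∑ k ∈ Zd, ∑ x : Cube ι, Wn x i j k := by
    rw [Finset.sum_comm]
    refine Finset.sum_congr rfl fun i _ => ?_
    rw [Finset.sum_comm]
    refine Finset.sum_congr rfl fun j _ => ?_
    rw [Finset.sum_comm]
  rw [h4]
  have h5 : ∀ i ∈ Zd, ∀ j ∈ Zd, ∀ k ∈ Zd, ∑ x : Cube ι, Wn x i j k ≤
      2 * mixk A A' k + mixk A A' i + mixk A A' j + 3 * D.card := by
    intro i _ j _ k _
    simp only [hWn]
    rw [← Finset.card_filter]
    exact walk_count Zd R A A' D hR i j k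
  refine (Finset.sum_le_sum fun i hi => Finset.sum_le_sum fun j hj => Finset.sum_le_sum fun k hk =>
    h5 i hi j hj k hk).trans ?_
  have h6 := sum_mixk_le Zd A A'
  have h7 : ∑ i ∈ Zd, ∑ j ∈ Zd, ∑ k ∈ Zd, (2 * mixk A A' k + mixk A A' i + mixk A A' j + 3 * D.card) =
      4 * Zd.card ^ 2 * ∑ k ∈ Zd, mixk A A' k + 3 * Zd.card ^ 3 * D.card := by
    simp only [Finset.sum_add_distrib, Finset.sum_const, smul_eq_mul, ← Finset.mul_sum]
    ring
  rw [h7]
  exact Nat.add_le_add_right (Nat.mul_le_mul_left _ h6) _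

/-- a good point has many neighbours in the reservoir -/
theorem nb_ge (Zd : Finset ι) (T : ℕ) (R A A' D : Finset (Cube ι))
    (hR : ∀ x, x ∈ R → x ∈ A ∨ x ∈ A' ∨ x ∈ D) (hZd : Zd.Nonempty) {x : Cube ι}
    (hg : GoodPt Zd T R x) : T ≤ nb Zd A x + nb Zd A' x + nb Zd D x := by
  classical
  obtain ⟨i, hi⟩ := hZd
  refine (hg.1 i hi i hi).trans ?_
  unfold nb
  have hsub : (Zd.filter fun k => flip k x ∈ R ∧ flip i (flip k x) ∈ R ∧ flip i (flip k x) ∈ R) ⊆
      ((Zd.filter fun k => flip k x ∈ A) ∪ (Zd.filter fun k => flip k x ∈ A')) ∪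
        (Zd.filter fun k => flip k x ∈ D) := by
    intro k hk
    simp only [Finset.mem_filter, Finset.mem_union] at hk ⊢
    rcases hR _ hk.2.1 with h | h | h
    · exact Or.inl (Or.inl ⟨hk.1, h⟩)
    · exact Or.inl (Or.inr ⟨hk.1, h⟩)
    · exact Or.inr ⟨hk.1, h⟩
  refine (Finset.card_le_card hsub).trans ((Finset.card_union_le _ _).trans ?_)
  exact Nat.add_le_add_right (Finset.card_union_le _ _) _

theorem mul_min_le {a b c T : ℕ} (h1 : T ≤ a + b + c) (h2 : 8 * c < T) :
    7 * T ^ 2 * min a b ≤ 16 * (a * b * T) := by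
  have key : ∀ u v : ℕ, T ≤ u + v + c → u ≤ v → 7 * T ^ 2 * u ≤ 16 * (u * v * T) := by
    intro u v h h'
    have h3 : 7 * T ≤ 16 * v := by omega
    calc 7 * T ^ 2 * u = (7 * T) * (T * u) := by ring
      _ ≤ (16 * v) * (T * u) := Nat.mul_le_mul_right _ h3
      _ = 16 * (u * v * T) := by ring
  rcases le_total a b with h | h
  · rw [min_eq_left h]; exact key a b h1 h
  · rw [min_eq_right h]
    have := key b a (by omega) h
    rw [mul_comm a b]; exact this

/-- a nice boundary pair of the majority set has many parallel mixed edges -/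
theorem nice_pair (Zd : Finset ι) (T : ℕ) (R A A' D : Finset (Cube ι))
    (hR : ∀ x, x ∈ R → x ∈ A ∨ x ∈ A' ∨ x ∈ D) {x : Cube ι} {k : ι}
    (hg : GoodPt Zd T R x) (h1 : 8 * nb Zd A' x < T) (h2 : 8 * nb Zd D x < T)
    (h3 : 8 * nb Zd A (flip k x) < T) (h4 : 8 * nb Zd D (flip k x) < T) :
    T ≤ 2 * (Zd.filter fun j => flip j x ∈ A ∧ flip k (flip j x) ∈ A').card := by
  classical
  have hg2 := hg.2 k
  have hsub : (Zd.filter fun j => flip j x ∈ R ∧ flip k (flip j x) ∈ R) ⊆
      ((((Zd.filter fun j => flip j x ∈ A ∧ flip k (flip j x) ∈ A') ∪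
      (Zd.filter fun j => flip j x ∈ A')) ∪ (Zd.filter fun j => flip j x ∈ D)) ∪
      (Zd.filter fun j => flip j (flip k x) ∈ A)) ∪ (Zd.filter fun j => flip j (flip k x) ∈ D) := by
    intro j hj
    simp only [Finset.mem_filter, Finset.mem_union] at hj ⊢
    have e : flip j (flip k x) = flip k (flip j x) := flip_comm _ _ _
    rw [e]
    rcases hR _ hj.2.1 with h | h | h <;> rcases hR _ hj.2.2 with h' | h' | h' <;> tauto
  have hle := Finset.card_le_card hsub
  have u1 := Finset.card_union_le ((((Zd.filter fun j => flip j x ∈ A ∧ flip k (flip j x) ∈ A') ∪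
      (Zd.filter fun j => flip j x ∈ A')) ∪ (Zd.filter fun j => flip j x ∈ D)) ∪
      (Zd.filter fun j => flip j (flip k x) ∈ A)) (Zd.filter fun j => flip j (flip k x) ∈ D)
  have u2 := Finset.card_union_le (((Zd.filter fun j => flip j x ∈ A ∧ flip k (flip j x) ∈ A') ∪
      (Zd.filter fun j => flip j x ∈ A')) ∪ (Zd.filter fun j => flip j x ∈ D))
      (Zd.filter fun j => flip j (flip k x) ∈ A)
  have u3 := Finset.card_union_le ((Zd.filter fun j => flip j x ∈ A ∧ flip k (flip j x) ∈ A') ∪
      (Zd.filter fun j => flip j x ∈ A')) (Zd.filter fun j => flip j x ∈ D)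
  have u4 := Finset.card_union_le (Zd.filter fun j => flip j x ∈ A ∧ flip k (flip j x) ∈ A')
      (Zd.filter fun j => flip j x ∈ A')
  unfold nb at h1 h2 h3 h4
  omega

/-- the parallel mixed edges are counted `Zd.card` times -/
theorem sum_parallel (Zd : Finset ι) (A A' : Finset (Cube ι)) (B : Finset (Cube ι × ι)) :
    ∑ p ∈ B, (Zd.filter fun j => flip j p.1 ∈ A ∧ flip p.2 (flip j p.1) ∈ A').card ≤
      Zd.card * (mix A A').card := by
  classical
  refine (Finset.sum_le_sum_of_subset (Finset.subset_univ B)).trans ?_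
  rw [Fintype.sum_prod_type_right]
  have h1 : ∀ k : ι, ∑ x : Cube ι, (Zd.filter fun j => flip j x ∈ A ∧ flip k (flip j x) ∈ A').card ≤
      Zd.card * mixk A A' k := by
    intro k
    have h2 : ∀ x : Cube ι, (Zd.filter fun j => flip j x ∈ A ∧ flip k (flip j x) ∈ A').card =
        ∑ j ∈ Zd, if flip j x ∈ A ∧ flip k (flip j x) ∈ A' then 1 else 0 := by
      intro x; rw [Finset.card_filter]
    simp only [h2]
    rw [Finset.sum_comm]
    have h3 : ∀ j ∈ Zd, ∑ x : Cube ι, (if flip j x ∈ A ∧ flip k (flip j x) ∈ A' then 1 else 0) ≤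
        mixk A A' k := by
      intro j _
      rw [← Finset.card_filter]
      refine (card_filter_comp (flip j) (flip_injective j) (fun u => u ∈ A ∧ flip k u ∈ A')).trans ?_
      rw [mixk, Finset.filter_and]
      refine Finset.card_le_card ?_
      intro u; simp
    refine (Finset.sum_le_sum h3).trans ?_
    rw [Finset.sum_const, smul_eq_mul]
  refine (Finset.sum_le_sum fun k _ => h1 k).trans ?_
  rw [← Finset.mul_sum, sum_mixk]

/-- **7.1** isoperimetry of the reservoir -/
theorem reservoir_iso (Zd : Finset ι) (T : ℕ) (hT : 0 < T) (R A A' D Bad : Finset (Cube ι))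
    (hR : ∀ x, x ∈ R → x ∈ A ∨ x ∈ A' ∨ x ∈ D)
    (hgood : ∀ x, x ∉ Bad → GoodPt Zd T R x) (hZd : Zd.Nonempty)
    (S : ℝ) (hS : 7 * (T : ℝ) ^ 2 * S = 16 * (4 * (Zd.card : ℝ) ^ 2 * (mix A A').card + 3 * (Zd.card : ℝ) ^ 3 * D.card))
    (X1 : ℝ) (hX1 : X1 = Bad.card + 8 * Zd.card * D.card / T)
    (Bd : ℝ) (hBd : Bd = 2 * Zd.card * (mix A A').card / T + 2 * Fintype.card ι * (X1 + 8 * S / T)) :
    Zd.card * min (A.card : ℝ) A'.card ≤ Zd.card * Bd + Zd.card * X1 + S := by
  classical
  have hTr : (0 : ℝ) < T := by exact_mod_cast hT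
  -- the exceptional sets
  set F1 : Finset (Cube ι) := Bad ∪ (Finset.univ.filter fun x => T ≤ 8 * nb Zd D x) with hF1
  have hF1c : ((F1.card : ℕ) : ℝ) ≤ X1 := by
    have h1 : T * (Finset.univ.filter fun x => T ≤ 8 * nb Zd D x).card ≤ 8 * (Zd.card * D.card) := by
      rw [← sum_nb, Finset.mul_sum, mul_comm, ← smul_eq_mul, ← Finset.sum_const]
      refine (Finset.sum_le_sum fun x hx => (Finset.mem_filter.mp hx).2).trans ?_
      exact Finset.sum_le_sum_of_subset (Finset.filter_subset _ _)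
    have h2 : (F1.card : ℝ) ≤ Bad.card + (Finset.univ.filter fun x => T ≤ 8 * nb Zd D x).card := by
      exact_mod_cast Finset.card_union_le _ _
    have h3 : (((Finset.univ.filter fun x => T ≤ 8 * nb Zd D x).card : ℕ) : ℝ) ≤
        8 * Zd.card * D.card / T := by
      rw [le_div_iff₀ hTr]
      have : ((T * (Finset.univ.filter fun x => T ≤ 8 * nb Zd D x).card : ℕ) : ℝ) ≤
          ((8 * (Zd.card * D.card) : ℕ) : ℝ) := by exact_mod_cast h1
      push_cast at this
      linarith
    rw [hX1]; linarith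
  have hout : ∀ x, x ∉ F1 → GoodPt Zd T R x ∧ 8 * nb Zd D x < T := by
    intro x hx
    simp only [hF1, Finset.mem_union, Finset.mem_filter, Finset.mem_univ, true_and, not_or, not_le] at hx
    exact ⟨hgood x hx.1, hx.2⟩
  have hmu : ((∑ x ∈ F1ᶜ, min (nb Zd A x) (nb Zd A' x) : ℕ) : ℝ) ≤ S := by
    have h1 : ∀ x ∈ F1ᶜ, 7 * T ^ 2 * min (nb Zd A x) (nb Zd A' x) ≤ 16 * (nb Zd A x * nb Zd A' x * T) := by
      intro x hx
      obtain ⟨h2, h3⟩ := hout x (by simpa using hx)
      exact mul_min_le (nb_ge Zd T R A A' D hR hZd h2) h3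
    have h2 := Finset.sum_le_sum h1
    rw [← Finset.mul_sum, ← Finset.mul_sum] at h2
    have h3 : ∑ x ∈ F1ᶜ, nb Zd A x * nb Zd A' x * T ≤ ∑ x ∈ Badᶜ, nb Zd A x * nb Zd A' x * T := by
      refine Finset.sum_le_sum_of_subset ?_
      intro x hx
      simp only [Finset.mem_compl] at hx ⊢
      exact fun h => hx (Finset.mem_union_left _ h)
    have h4 := sum_prod_le Zd T R A A' D Bad hR hgood
    have h5 : 7 * T ^ 2 * ∑ x ∈ F1ᶜ, min (nb Zd A x) (nb Zd A' x) ≤
        16 * (4 * Zd.card ^ 2 * (mix A A').card + 3 * Zd.card ^ 3 * D.card) :=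
      h2.trans (Nat.mul_le_mul_left _ (h3.trans h4))
    have h6 : ((7 * T ^ 2 * ∑ x ∈ F1ᶜ, min (nb Zd A x) (nb Zd A' x) : ℕ) : ℝ) ≤
        ((16 * (4 * Zd.card ^ 2 * (mix A A').card + 3 * Zd.card ^ 3 * D.card) : ℕ) : ℝ) := by
      exact_mod_cast h5
    have h7 : 7 * (T : ℝ) ^ 2 * ((∑ x ∈ F1ᶜ, min (nb Zd A x) (nb Zd A' x) : ℕ) : ℝ) ≤
        7 * (T : ℝ) ^ 2 * S := by
      rw [hS]
      push_cast at h6 ⊢
      linarith
    exact le_of_mul_le_mul_left h7 (by positivity)
  have hS0 : 0 ≤ S := le_trans (by positivity) hmu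
  set F2 : Finset (Cube ι) := F1 ∪ (F1ᶜ.filter fun x => T ≤ 8 * min (nb Zd A x) (nb Zd A' x)) with hF2
  have hF2c : ((F2.card : ℕ) : ℝ) ≤ X1 + 8 * S / T := by
    have h1 : T * (F1ᶜ.filter fun x => T ≤ 8 * min (nb Zd A x) (nb Zd A' x)).card ≤
        8 * ∑ x ∈ F1ᶜ, min (nb Zd A x) (nb Zd A' x) := by
      rw [Finset.mul_sum, mul_comm, ← smul_eq_mul, ← Finset.sum_const]
      refine (Finset.sum_le_sum fun x hx => (Finset.mem_filter.mp hx).2).trans ?_
      exact Finset.sum_le_sum_of_subset (Finset.filter_subset _ _)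
    have h2 : (F2.card : ℝ) ≤ F1.card + (F1ᶜ.filter fun x => T ≤ 8 * min (nb Zd A x) (nb Zd A' x)).card := by
      exact_mod_cast Finset.card_union_le _ _
    have h3 : (((F1ᶜ.filter fun x => T ≤ 8 * min (nb Zd A x) (nb Zd A' x)).card : ℕ) : ℝ) ≤ 8 * S / T := by
      rw [le_div_iff₀ hTr]
      have : ((T * (F1ᶜ.filter fun x => T ≤ 8 * min (nb Zd A x) (nb Zd A' x)).card : ℕ) : ℝ) ≤
          ((8 * ∑ x ∈ F1ᶜ, min (nb Zd A x) (nb Zd A' x) : ℕ) : ℝ) := by exact_mod_cast h1
      push_cast at this hmu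
      linarith
    linarith
  -- the majority set
  set Ah : Finset (Cube ι) := Finset.univ.filter fun x => nb Zd A' x < nb Zd A x with hAh
  have hbd : ((bd Ah).card : ℝ) ≤ Bd := by
    set nice : Finset (Cube ι × ι) := (bd Ah).filter fun p => p.1 ∉ F2 ∧ flip p.2 p.1 ∉ F2 with hnice
    have h1 : T * nice.card ≤ 2 * (Zd.card * (mix A A').card) := by
      have h2 : ∀ p ∈ nice, T ≤ 2 * (Zd.filter fun j => flip j p.1 ∈ A ∧ flip p.2 (flip j p.1) ∈ A').card := by
        intro p hp
        rw [hnice, Finset.mem_filter, mem_bd] at hp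
        obtain ⟨⟨hp1, hp2⟩, hp3, hp4⟩ := hp
        simp only [hAh, Finset.mem_filter, Finset.mem_univ, true_and, not_lt] at hp1 hp2
        have q3 : p.1 ∉ F1 := fun h => hp3 (Finset.mem_union_left _ h)
        have q4 : flip p.2 p.1 ∉ F1 := fun h => hp4 (Finset.mem_union_left _ h)
        have r3 : 8 * min (nb Zd A p.1) (nb Zd A' p.1) < T := by
          by_contra hcon
          exact hp3 (Finset.mem_union_right _ (Finset.mem_filter.mpr
            ⟨by simpa using q3, not_lt.mp hcon⟩))
        have r4 : 8 * min (nb Zd A (flip p.2 p.1)) (nb Zd A' (flip p.2 p.1)) < T := by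
          by_contra hcon
          exact hp4 (Finset.mem_union_right _ (Finset.mem_filter.mpr
            ⟨by simpa using q4, not_lt.mp hcon⟩))
        rw [min_eq_right hp1.le] at r3
        rw [min_eq_left hp2] at r4
        exact nice_pair Zd T R A A' D hR (hout _ q3).1 r3 (hout _ q3).2 r4 (hout _ q4).2
      calc T * nice.card = ∑ p ∈ nice, T := by rw [Finset.sum_const, smul_eq_mul, mul_comm]
        _ ≤ ∑ p ∈ nice, 2 * (Zd.filter fun j => flip j p.1 ∈ A ∧ flip p.2 (flip j p.1) ∈ A').card :=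
            Finset.sum_le_sum h2
        _ = 2 * ∑ p ∈ nice, (Zd.filter fun j => flip j p.1 ∈ A ∧ flip p.2 (flip j p.1) ∈ A').card := by
            rw [Finset.mul_sum]
        _ ≤ _ := Nat.mul_le_mul_left _ (sum_parallel Zd A A' nice)
    have h3 : (bd Ah).card ≤ nice.card + 2 * (Fintype.card ι * F2.card) := by
      have hsub : bd Ah ⊆ nice ∪ ((F2 ×ˢ Finset.univ) ∪ (F2 ×ˢ Finset.univ).image fun p => (flip p.2 p.1, p.2)) := by
        intro p hp
        by_cases hp1 : p.1 ∈ F2
        · exact Finset.mem_union_right _ (Finset.mem_union_left _ (by simp [hp1]))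
        · by_cases hp2 : flip p.2 p.1 ∈ F2
          · refine Finset.mem_union_right _ (Finset.mem_union_right _ (Finset.mem_image.mpr
              ⟨(flip p.2 p.1, p.2), by simp [hp2], ?_⟩))
            simp
          · exact Finset.mem_union_left _ (Finset.mem_filter.mpr ⟨hp, hp1, hp2⟩)
      have e1 := Finset.card_le_card hsub
      have e2 := Finset.card_union_le nice ((F2 ×ˢ (Finset.univ : Finset ι)) ∪
        (F2 ×ˢ (Finset.univ : Finset ι)).image fun p => (flip p.2 p.1, p.2))
      have e3 := Finset.card_union_le (F2 ×ˢ (Finset.univ : Finset ι))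
        ((F2 ×ˢ (Finset.univ : Finset ι)).image fun p => (flip p.2 p.1, p.2))
      have e4 : ((F2 ×ˢ (Finset.univ : Finset ι)).image fun p => (flip p.2 p.1, p.2)).card ≤
        (F2 ×ˢ (Finset.univ : Finset ι)).card := Finset.card_image_le
      have e5 : (F2 ×ˢ (Finset.univ : Finset ι)).card = Fintype.card ι * F2.card := by
        rw [Finset.card_product, Finset.card_univ, mul_comm]
      omega
    have h4 : ((nice.card : ℕ) : ℝ) ≤ 2 * Zd.card * (mix A A').card / T := by
      rw [le_div_iff₀ hTr]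
      have : ((T * nice.card : ℕ) : ℝ) ≤ ((2 * (Zd.card * (mix A A').card) : ℕ) : ℝ) := by exact_mod_cast h1
      push_cast at this
      linarith
    have h5 : ((bd Ah).card : ℝ) ≤ nice.card + 2 * (Fintype.card ι * F2.card) := by exact_mod_cast h3
    have h6 : (2 : ℝ) * (Fintype.card ι * F2.card) ≤ 2 * Fintype.card ι * (X1 + 8 * S / T) := by
      rw [mul_assoc]
      exact mul_le_mul_of_nonneg_left (mul_le_mul_of_nonneg_left hF2c (by positivity)) (by norm_num)
    rw [hBd]; linarith
  -- one of the two sides is small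
  have hcard : Fintype.card (Cube ι) = 2 ^ Fintype.card ι := by simp [Cube]
  have hcase : Ah.card ≤ (bd Ah).card ∨ Ahᶜ.card ≤ (bd Ah).card := by
    rcases le_total (2 * Ah.card) (2 ^ Fintype.card ι) with h | h
    · exact Or.inl (card_le_bd Ah h)
    · right
      rw [← bd_compl_card]
      apply card_le_bd
      rw [Finset.card_compl, hcard]
      omega
  -- summing the number of neighbours
  have hfin : ∀ (A1 A2 : Finset (Cube ι)) (C : Finset (Cube ι)), (C.card : ℝ) ≤ Bd →
      (∀ x, x ∉ C → nb Zd A1 x ≤ nb Zd A2 x) →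
      (∀ x, min (nb Zd A1 x) (nb Zd A2 x) = min (nb Zd A x) (nb Zd A' x)) →
      Zd.card * (A1.card : ℝ) ≤ Zd.card * Bd + Zd.card * X1 + S := by
    intro A1 A2 C hC hle hmin
    have hnbc : ∀ x, nb Zd A1 x ≤ Zd.card := fun x => Finset.card_filter_le _ _
    have h1 : ∑ x, nb Zd A1 x ≤ ∑ x ∈ C, Zd.card + ∑ x ∈ F1, Zd.card +
        ∑ x ∈ F1ᶜ, min (nb Zd A x) (nb Zd A' x) := by
      have h2 : ∀ x : Cube ι, nb Zd A1 x ≤ (if x ∈ C then Zd.card else 0) + (if x ∈ F1 then Zd.card else 0) +
          (if x ∈ F1ᶜ then min (nb Zd A x) (nb Zd A' x) else 0) := by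
        intro x
        by_cases hx : x ∈ C
        · rw [if_pos hx]
          have := hnbc x
          omega
        · by_cases hx1 : x ∈ F1
          · rw [if_pos hx1]
            have := hnbc x
            omega
          · have hx2 : x ∈ F1ᶜ := by simpa using hx1
            rw [if_pos hx2, ← hmin x, min_eq_left (hle x hx)]
            omega
      refine (Finset.sum_le_sum fun x _ => h2 x).trans ?_
      rw [Finset.sum_add_distrib, Finset.sum_add_distrib, Finset.sum_ite_mem, Finset.sum_ite_mem,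
        Finset.sum_ite_mem, Finset.univ_inter, Finset.univ_inter, Finset.univ_inter]
    rw [sum_nb, Finset.sum_const, Finset.sum_const, smul_eq_mul, smul_eq_mul] at h1
    have h3 : ((Zd.card * A1.card : ℕ) : ℝ) ≤ ((C.card * Zd.card + F1.card * Zd.card +
        ∑ x ∈ F1ᶜ, min (nb Zd A x) (nb Zd A' x) : ℕ) : ℝ) := by exact_mod_cast h1
    have h4 : ((C.card * Zd.card + F1.card * Zd.card + ∑ x ∈ F1ᶜ, min (nb Zd A x) (nb Zd A' x) : ℕ) : ℝ) =
        (C.card : ℝ) * Zd.card + F1.card * Zd.card + ((∑ x ∈ F1ᶜ, min (nb Zd A x) (nb Zd A' x) : ℕ) : ℝ) := by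
      push_cast; ring
    rw [h4] at h3
    have h5 : (C.card : ℝ) * Zd.card ≤ Bd * Zd.card := mul_le_mul_of_nonneg_right hC (by positivity)
    have h6 : (F1.card : ℝ) * Zd.card ≤ X1 * Zd.card := mul_le_mul_of_nonneg_right hF1c (by positivity)
    push_cast at h3 ⊢
    push_cast at hmu
    linarith
  have hZ0 : (0 : ℝ) ≤ Zd.card := by positivity
  rcases hcase with h | h
  · have h1 : ((Ah.card : ℕ) : ℝ) ≤ Bd := le_trans (by exact_mod_cast h) hbd
    have h2 := hfin A A' Ah h1 (fun x hx => by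
      simp only [hAh, Finset.mem_filter, Finset.mem_univ, true_and, not_lt] at hx
      exact hx) (fun x => rfl)
    exact (mul_le_mul_of_nonneg_left (min_le_left _ _) hZ0).trans h2
  · have h1 : ((Ahᶜ.card : ℕ) : ℝ) ≤ Bd := le_trans (by exact_mod_cast h) hbd
    have h2 := hfin A' A Ahᶜ h1 (fun x hx => by
      simp only [hAh, Finset.mem_compl, Finset.mem_filter, Finset.mem_univ, true_and, not_not] at hx
      exact hx.le) (fun x => min_comm _ _)
    exact (mul_le_mul_of_nonneg_left (min_le_right _ _) hZ0).trans h2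

end Pool.Agent.LongCyc
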