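import Mathlib
import Pool.Agent.LongCyc.Res

/-!
# Short connectors exist
-/

set_option autoImplicit false
set_option linter.unusedSectionVars false

namespace Pool.Agent.LongCyc

open Finset

variable {ι : Type*} [DecidableEq ι] [Fintype ι]

theorem mix_card_le (X Y : Finset (Cube ι)) : (mix X Y).card ≤ Fintype.card ι * Y.card := by
  classical
  have h1 : (mix X Y).card ≤ (Y ×ˢ (Finset.univ : Finset ι)).card := by
    refine Finset.card_le_card_of_injOn (fun p => (flip p.2 p.1, p.2)) ?_ ?_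
    · intro p hp
      simp only [mix, Finset.coe_filter, Finset.mem_product, Finset.mem_univ, and_true, Set.mem_ofPred_eq] at hp
      simp [hp.2]
    · rintro ⟨x, i⟩ _ ⟨y, j⟩ _ h
      obtain ⟨h1, h2⟩ := Prod.mk.inj h
      simp only at h1 h2
      subst h2
      rw [flip_injective i h1]
  rw [Finset.card_product, Finset.card_univ, mul_comm] at h1
  exact h1

theorem mix_union_le (X Y Y' : Finset (Cube ι)) : (mix X (Y ∪ Y')).card ≤ (mix X Y).card + (mix X Y').card := by
  classical
  have : mix X (Y ∪ Y') ⊆ mix X Y ∪ mix X Y' := by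
    intro p hp
    simp only [mix, Finset.mem_filter, Finset.mem_union] at hp ⊢
    tauto
  exact (Finset.card_le_card this).trans (Finset.card_union_le _ _)

theorem mix_mono (X : Finset (Cube ι)) {Y Y' : Finset (Cube ι)} (h : Y ⊆ Y') :
    (mix X Y).card ≤ (mix X Y').card := by
  refine Finset.card_le_card fun p hp => ?_
  simp only [mix, Finset.mem_filter] at hp ⊢
  exact ⟨hp.1, h hp.2⟩

/-- many edges between a set of good points and the reservoir -/
theorem mix_ge (Zd : Finset ι) (T : ℕ) (R Bad X : Finset (Cube ι))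
    (hgood : ∀ x, x ∉ Bad → GoodPt Zd T R x) (hZd : Zd.Nonempty) :
    X.card * T ≤ (mix X R).card + Bad.card * T := by
  classical
  have h1 : (X \ Bad).card * T ≤ (mix X R).card := by
    calc (X \ Bad).card * T = ∑ x ∈ X \ Bad, T := by rw [Finset.sum_const, smul_eq_mul]
      _ ≤ ∑ x ∈ X \ Bad, ((Finset.univ : Finset ι).filter fun i => flip i x ∈ R).card := by
          refine Finset.sum_le_sum fun x hx => ?_
          obtain ⟨i, hi⟩ := hZd
          refine ((hgood x (Finset.mem_sdiff.mp hx).2).1 i hi i hi).trans (Finset.card_le_card ?_)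
          intro k hk
          simp only [Finset.mem_filter, Finset.mem_univ, true_and] at hk ⊢
          exact hk.2.1
      _ ≤ ∑ x ∈ X, ((Finset.univ : Finset ι).filter fun i => flip i x ∈ R).card :=
          Finset.sum_le_sum_of_subset Finset.sdiff_subset
      _ = (mix X R).card := by
          unfold mix
          rw [Finset.card_filter, Finset.sum_product]
          refine Finset.sum_congr rfl fun x _ => ?_
          rw [Finset.card_filter]
  have h2 : X.card ≤ (X \ Bad).card + Bad.card := by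
    have := Finset.le_card_sdiff Bad X
    omega
  calc X.card * T ≤ ((X \ Bad).card + Bad.card) * T := Nat.mul_le_mul_right _ h2
    _ = (X \ Bad).card * T + Bad.card * T := by ring
    _ ≤ _ := Nat.add_le_add_right h1 _

/-- **(C2)** the reservoir cannot be cut into two large parts with few edges between them -/
theorem reservoir_cut (Zd : Finset ι) (T d n : ℕ) (hd : Fintype.card ι = d) (hd0 : 100 ≤ d)
    (hT : d ≤ T * T) (hZd : d ≤ 2 * Zd.card) (R A A' D Bad : Finset (Cube ι))
    (hR : ∀ x, x ∈ R → x ∈ A ∨ x ∈ A' ∨ x ∈ D)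
    (hgood : ∀ x, x ∉ Bad → GoodPt Zd T R x)
    (hBad : Bad.card * d ^ 8 ≤ n) (hD : D.card * d ^ 9 ≤ 2 * n) (hn : 0 < n)
    (hmix : (mix A A').card * d ^ 8 < n) : min A.card A'.card * d ^ 3 < n := by
  have hT0 : 0 < T := by
    rcases Nat.eq_zero_or_pos T with h | h
    · subst h; omega
    · exact h
  have hZn : Zd.Nonempty := by
    rw [← Finset.card_pos]; omega
  have hTr : (1 : ℝ) ≤ T := by exact_mod_cast hT0
  have hdr : (100 : ℝ) ≤ d := by exact_mod_cast hd0
  have hd1 : (0 : ℝ) < d := by linarith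
  have hTT : (d : ℝ) ≤ (T : ℝ) ^ 2 := by rw [sq]; exact_mod_cast hT
  have hδ1 : (Zd.card : ℝ) ≤ d := by
    have : Zd.card ≤ Fintype.card ι := Finset.card_le_univ _
    rw [hd] at this
    exact_mod_cast this
  have hδ2 : (d : ℝ) ≤ 2 * Zd.card := by exact_mod_cast hZd
  have hδ0 : (0 : ℝ) < Zd.card := by linarith
  have he1 : ((mix A A').card : ℝ) ≤ (n : ℝ) / d ^ 8 := by
    rw [le_div_iff₀ (by positivity)]
    exact_mod_cast hmix.le
  have hBad1 : (Bad.card : ℝ) ≤ (n : ℝ) / d ^ 8 := by
    rw [le_div_iff₀ (by positivity)]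
    exact_mod_cast hBad
  have hD1 : (D.card : ℝ) ≤ 2 * (n : ℝ) / d ^ 9 := by
    rw [le_div_iff₀ (by positivity)]
    exact_mod_cast hD
  have hN0 : (0 : ℝ) < (n : ℝ) := by exact_mod_cast hn
  set e : ℝ := ((mix A A').card : ℝ) with he
  set δ : ℝ := (Zd.card : ℝ) with hδ
  set N : ℝ := (n : ℝ) with hN
  have he0 : 0 ≤ e := by positivity
  set S : ℝ := 16 * (4 * δ ^ 2 * e + 3 * δ ^ 3 * D.card) / (7 * (T : ℝ) ^ 2) with hSdef
  set X1 : ℝ := Bad.card + 8 * δ * D.card / T with hX1
  set Bd : ℝ := 2 * δ * e / T + 2 * Fintype.card ι * (X1 + 8 * S / T) with hBd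
  have hmain := reservoir_iso Zd T hT0 R A A' D Bad hR hgood hZn S
    (by rw [hSdef]; field_simp; rw [hδ, he]; ring) X1 hX1 Bd hBd
  have hd' : (Fintype.card ι : ℝ) = d := by exact_mod_cast hd
  have hS1 : S ≤ 23 * N / d ^ 7 := by
    have h1 : 4 * δ ^ 2 * e ≤ 4 * d ^ 2 * (N / d ^ 8) := by
      apply mul_le_mul _ he1 he0 (by positivity)
      nlinarith
    have h2 : 3 * δ ^ 3 * D.card ≤ 3 * d ^ 3 * (2 * N / d ^ 9) := by
      apply mul_le_mul _ hD1 (by positivity) (by positivity)
      have : δ ^ 3 ≤ (d : ℝ) ^ 3 := pow_le_pow_left₀ hδ0.le hδ1 3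
      linarith
    have h3 : 4 * (d : ℝ) ^ 2 * (N / d ^ 8) + 3 * d ^ 3 * (2 * N / d ^ 9) = 10 * N / d ^ 6 := by
      field_simp; ring
    rw [hSdef, div_le_iff₀ (by positivity)]
    have h4 : 23 * N / (d : ℝ) ^ 7 * (7 * (T : ℝ) ^ 2) ≥ 23 * N / (d : ℝ) ^ 7 * (7 * d) := by
      apply mul_le_mul_of_nonneg_left _ (by positivity)
      linarith
    have h5 : 23 * N / (d : ℝ) ^ 7 * (7 * d) = 161 * N / d ^ 6 := by
      field_simp; ring
    have h6 : 16 * (10 * N / (d : ℝ) ^ 6) ≤ 161 * N / d ^ 6 := by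
      rw [← mul_div_assoc]
      apply div_le_div_of_nonneg_right _ (by positivity)
      linarith
    linarith
  have hS0 : 0 ≤ S := by positivity
  have hX11 : X1 ≤ 17 * N / d ^ 8 := by
    have h1 : 8 * δ * D.card / T ≤ 8 * δ * D.card := div_le_self (by positivity) hTr
    have h2 : 8 * δ * D.card ≤ 8 * d * (2 * N / d ^ 9) := by
      apply mul_le_mul _ hD1 (by positivity) (by positivity)
      linarith
    have h3 : 8 * (d : ℝ) * (2 * N / d ^ 9) = 16 * N / d ^ 8 := by field_simp; ring
    have h4 : N / (d : ℝ) ^ 8 + 16 * N / d ^ 8 = 17 * N / d ^ 8 := by ring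
    rw [hX1]; linarith
  have hX10 : 0 ≤ X1 := by positivity
  have hBd1 : Bd ≤ 500 * N / d ^ 6 := by
    have h1 : 2 * δ * e / T ≤ 2 * δ * e := div_le_self (by positivity) hTr
    have h2 : 2 * δ * e ≤ 2 * d * (N / d ^ 8) := by
      apply mul_le_mul _ he1 he0 (by positivity)
      linarith
    have h3 : 8 * S / T ≤ 8 * S := div_le_self (by positivity) hTr
    have h4 : 2 * (d : ℝ) * (X1 + 8 * S / T) ≤ 2 * d * (17 * N / d ^ 8 + 8 * (23 * N / d ^ 7)) := by
      apply mul_le_mul_of_nonneg_left _ (by positivity)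
      linarith
    have h5 : 2 * (d : ℝ) * (N / d ^ 8) + 2 * d * (17 * N / d ^ 8 + 8 * (23 * N / d ^ 7)) =
        36 * N / d ^ 7 + 368 * N / d ^ 6 := by
      field_simp; ring
    have h6 : 36 * N / (d : ℝ) ^ 7 ≤ N / d ^ 6 := by
      rw [div_le_div_iff₀ (by positivity) (by positivity)]
      have : 36 * N * (d : ℝ) ^ 6 ≤ d * (N * d ^ 6) := by
        rw [mul_assoc]; exact mul_le_mul_of_nonneg_right (by linarith) (by positivity)
      calc 36 * N * (d : ℝ) ^ 6 ≤ d * (N * d ^ 6) := this
        _ = N * d ^ 7 := by ring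
    have h7 : N / (d : ℝ) ^ 6 + 368 * N / d ^ 6 ≤ 500 * N / d ^ 6 := by
      rw [← add_div]
      apply div_le_div_of_nonneg_right _ (by positivity)
      linarith
    rw [hBd, hd']; linarith
  have h1 : δ * min (A.card : ℝ) A'.card ≤ δ * (500 * N / d ^ 6) + δ * (17 * N / d ^ 8) + 23 * N / d ^ 7 := by
    have h2 := mul_le_mul_of_nonneg_left hBd1 hδ0.le
    have h3 := mul_le_mul_of_nonneg_left hX11 hδ0.le
    linarith
  have h2 : 23 * N / (d : ℝ) ^ 7 ≤ δ * (46 * N / d ^ 8) := by
    have : (d : ℝ) / 2 * (46 * N / d ^ 8) ≤ δ * (46 * N / d ^ 8) :=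
      mul_le_mul_of_nonneg_right (by linarith) (by positivity)
    have h3 : (d : ℝ) / 2 * (46 * N / d ^ 8) = 23 * N / d ^ 7 := by field_simp; ring
    linarith
  have h3 : δ * min (A.card : ℝ) A'.card ≤ δ * (600 * N / d ^ 6) := by
    have h4 : δ * (500 * N / d ^ 6) + δ * (17 * N / d ^ 8) + δ * (46 * N / d ^ 8) ≤ δ * (600 * N / d ^ 6) := by
      rw [← mul_add, ← mul_add]
      apply mul_le_mul_of_nonneg_left _ hδ0.le
      have h5 : 17 * N / (d : ℝ) ^ 8 + 46 * N / d ^ 8 ≤ 100 * N / d ^ 6 := by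
        rw [← add_div, div_le_div_iff₀ (by positivity) (by positivity)]
        have h6 : (d : ℝ) ^ 6 ≤ d ^ 8 := pow_le_pow_right₀ (by linarith) (by norm_num)
        have h7 : (17 * N + 46 * N) * (d : ℝ) ^ 6 ≤ (100 * N) * d ^ 6 :=
          mul_le_mul_of_nonneg_right (by linarith) (by positivity)
        have h8 : (100 * N) * (d : ℝ) ^ 6 ≤ 100 * N * d ^ 8 :=
          mul_le_mul_of_nonneg_left h6 (by positivity)
        linarith
      have h6 : 500 * N / (d : ℝ) ^ 6 + 100 * N / d ^ 6 = 600 * N / d ^ 6 := by ring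
      linarith
    linarith
  have h4 : min (A.card : ℝ) A'.card ≤ 600 * N / d ^ 6 := le_of_mul_le_mul_left h3 hδ0
  have h5 : 600 * N / (d : ℝ) ^ 6 * d ^ 3 < N := by
    have h6 : 600 * N / (d : ℝ) ^ 6 * d ^ 3 = N * (600 / d ^ 3) := by field_simp
    have h7 : (600 : ℝ) / d ^ 3 < 1 := by
      rw [div_lt_one (by positivity)]
      nlinarith [pow_le_pow_left₀ (by norm_num) hdr 3]
    rw [h6]
    nlinarith
  have h6 : min (A.card : ℝ) A'.card * d ^ 3 < N :=
    lt_of_le_of_lt (mul_le_mul_of_nonneg_right h4 (by positivity)) h5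
  have h7 : ((min A.card A'.card * d ^ 3 : ℕ) : ℝ) < (n : ℝ) := by
    push_cast
    exact h6
  exact_mod_cast h7

section Reach

variable {G1 G2 : Cube ι → Cube ι → Prop} {RP MP : Type*} [Fintype RP] [DecidableEq RP]
  [Fintype MP] [DecidableEq MP] {L2 L1 h : ℕ}

open Classical in
/-- pieces outside `D` which can be reached from the end ports of `AA` in at most `i + 1` steps -/
noncomputable def reach (S : Blocks G1 RP MP L2 L1 h) (G2 : Cube ι → Cube ι → Prop) (D : Finset RP)
    (AA : Finset MP) : ℕ → Finset RP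
  | 0 => Finset.univ.filter fun r => r ∉ D ∧ ∃ P ∈ AA, Joined G2 (S.tport P) (S.rset r)
  | i + 1 => reach S G2 D AA i ∪
      Finset.univ.filter fun r => r ∉ D ∧ ∃ r' ∈ reach S G2 D AA i, Joined G2 (S.rset r') (S.rset r)

theorem reach_mono (S : Blocks G1 RP MP L2 L1 h) (G2 : Cube ι → Cube ι → Prop) (D : Finset RP)
    (AA : Finset MP) {i j : ℕ} (hij : i ≤ j) : reach S G2 D AA i ⊆ reach S G2 D AA j := by
  induction j, hij using Nat.le_induction with
  | base => exact Finset.Subset.refl _
  | succ j _ ih =>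
    refine ih.trans ?_
    intro r hr
    simp only [reach]
    exact Finset.mem_union_left _ hr

theorem reach_list (S : Blocks G1 RP MP L2 L1 h) (G2 : Cube ι → Cube ι → Prop) (D : Finset RP)
    (AA : Finset MP) : ∀ (i : ℕ) (r : RP), r ∈ reach S G2 D AA i →
    ∃ W : List RP, W.Nodup ∧ ∃ hW : W ≠ [], (∃ P ∈ AA, Joined G2 (S.tport P) (S.rset (W.head hW))) ∧
      W.IsChain (fun r r' => Joined G2 (S.rset r) (S.rset r')) ∧ W.getLast hW = r ∧ W.length ≤ i + 1 ∧
      ∀ r' ∈ W, r' ∈ reach S G2 D AA i ∧ r' ∉ D := by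
  intro i
  induction i with
  | zero =>
    intro r hr
    have hr' := hr
    simp only [reach, Finset.mem_filter, Finset.mem_univ, true_and] at hr'
    refine ⟨[r], by simp, by simp, ?_, by simp, by simp, by simp, ?_⟩
    · simpa using hr'.2
    · intro r' h'
      rw [List.mem_singleton] at h'
      subst h'
      exact ⟨hr, hr'.1⟩
  | succ i ih =>
    intro r hr
    by_cases hri : r ∈ reach S G2 D AA i
    · obtain ⟨W, h1, hW, h2, h3, h4, h5, h6⟩ := ih r hri
      exact ⟨W, h1, hW, h2, h3, h4, by omega, fun r' h' =>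
        ⟨reach_mono S G2 D AA (Nat.le_succ i) (h6 r' h').1, (h6 r' h').2⟩⟩
    · have hr' := hr
      simp only [reach, Finset.mem_union, Finset.mem_filter, Finset.mem_univ, true_and] at hr'
      rcases hr' with hr' | ⟨hrD, r1, hr1, hj⟩
      · exact absurd hr' hri
      obtain ⟨W, h1, hW, h2, h3, h4, h5, h6⟩ := ih r1 hr1
      refine ⟨W ++ [r], ?_, by simp, ?_, ?_, by simp, by simp; omega, ?_⟩
      · rw [List.nodup_append]
        refine ⟨h1, by simp, ?_⟩
        intro a ha b hb
        rw [List.mem_singleton] at hb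
        subst hb
        rintro rfl
        exact hri (h6 a ha).1
      · rw [List.head_append_of_ne_nil hW]
        exact h2
      · rw [List.isChain_append]
        refine ⟨h3, by simp, ?_⟩
        intro x hx y hy
        rw [List.getLast?_eq_some_getLast hW, Option.mem_some_iff] at hx
        simp only [List.head?_cons, Option.mem_some_iff] at hy
        subst hx hy
        rw [h4]; exact hj
      · intro r' h'
        rw [List.mem_append, List.mem_singleton] at h'
        rcases h' with h' | h'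
        · exact ⟨reach_mono S G2 D AA (Nat.le_succ i) (h6 r' h').1, (h6 r' h').2⟩
        · subst h'
          exact ⟨hr, hrD⟩

theorem rset_card (S : Blocks G1 RP MP L2 L1 h) (r : RP) : (S.rset r).card = L2 := by
  unfold Blocks.rset
  rw [Finset.card_image_of_injective, Finset.card_univ, Fintype.card_fin]
  intro i j hij
  have := @S.rp_inj (r, i) (r, j) hij
  exact (Prod.mk.inj this).2

theorem rset_disj (S : Blocks G1 RP MP L2 L1 h) {r r' : RP} (hr : r ≠ r') :
    Disjoint (S.rset r) (S.rset r') := by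
  rw [Finset.disjoint_left]
  intro x hx hx'
  simp only [Blocks.rset, Finset.mem_image, Finset.mem_univ, true_and] at hx hx'
  obtain ⟨i, rfl⟩ := hx
  obtain ⟨j, hj⟩ := hx'
  have := @S.rp_inj (r', j) (r, i) hj
  exact hr (Prod.mk.inj this).1.symm

theorem union_rset_card (S : Blocks G1 RP MP L2 L1 h) (X : Finset RP) :
    (X.biUnion S.rset).card = X.card * L2 := by
  rw [Finset.card_biUnion (fun r _ r' _ hrr => rset_disj S hrr)]
  rw [Finset.sum_congr rfl fun r _ => rset_card S r, Finset.sum_const, smul_eq_mul]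

theorem card_last (L h : ℕ) (hh : 2 * h ≤ L) :
    (Finset.univ.filter fun i : Fin L => L ≤ i.val + h).card = h := by
  have : (Finset.univ.filter fun i : Fin L => L ≤ i.val + h).image (fun i => i.val) =
      Finset.Ico (L - h) L := by
    ext k
    simp only [Finset.mem_image, Finset.mem_filter, Finset.mem_univ, true_and, Finset.mem_Ico]
    constructor
    · rintro ⟨i, hi, rfl⟩
      have := i.isLt
      omega
    · rintro ⟨h1, h2⟩
      exact ⟨⟨k, h2⟩, by simp; omega, rfl⟩
  rw [← Finset.card_image_of_injective _ Fin.val_injective, this, Nat.card_Ico]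
  omega

theorem card_first (L h : ℕ) (hh : 2 * h ≤ L) :
    (Finset.univ.filter fun i : Fin L => i.val < h).card = h := by
  have : (Finset.univ.filter fun i : Fin L => i.val < h).image (fun i => i.val) = Finset.range h := by
    ext k
    simp only [Finset.mem_image, Finset.mem_filter, Finset.mem_univ, true_and, Finset.mem_range]
    constructor
    · rintro ⟨i, hi, rfl⟩
      exact hi
    · intro h1
      exact ⟨⟨k, by omega⟩, h1, rfl⟩
  rw [← Finset.card_image_of_injective _ Fin.val_injective, this, Finset.card_range]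

theorem tport_card (S : Blocks G1 RP MP L2 L1 h) (P : MP) : (S.tport P).card = h := by
  unfold Blocks.tport
  rw [Finset.card_image_of_injective]
  · exact card_last L1 h S.hhL1
  · intro i j hij
    have := @S.mp_inj (P, i) (P, j) hij
    exact (Prod.mk.inj this).2

theorem sport_card (S : Blocks G1 RP MP L2 L1 h) (P : MP) : (S.sport P).card = h := by
  unfold Blocks.sport
  rw [Finset.card_image_of_injective]
  · exact card_first L1 h S.hhL1
  · intro i j hij
    have := @S.mp_inj (P, i) (P, j) hij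
    exact (Prod.mk.inj this).2

theorem union_tport_card (S : Blocks G1 RP MP L2 L1 h) (X : Finset MP) :
    (X.biUnion S.tport).card = X.card * h := by
  rw [Finset.card_biUnion]
  · rw [Finset.sum_congr rfl fun r _ => tport_card S r, Finset.sum_const, smul_eq_mul]
  · intro P _ P' _ hPP
    refine Finset.disjoint_left.mpr ?_
    intro x hx hx'
    simp only [Blocks.tport, Finset.mem_image, Finset.mem_filter, Finset.mem_univ, true_and] at hx hx'
    obtain ⟨i, _, rfl⟩ := hx
    obtain ⟨j, _, hj⟩ := hx'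
    have := @S.mp_inj (P', j) (P, i) hj
    exact hPP (Prod.mk.inj this).1.symm

theorem union_sport_card (S : Blocks G1 RP MP L2 L1 h) (X : Finset MP) :
    (X.biUnion S.sport).card = X.card * h := by
  rw [Finset.card_biUnion]
  · rw [Finset.sum_congr rfl fun r _ => sport_card S r, Finset.sum_const, smul_eq_mul]
  · intro P _ P' _ hPP
    refine Finset.disjoint_left.mpr ?_
    intro x hx hx'
    simp only [Blocks.sport, Finset.mem_image, Finset.mem_filter, Finset.mem_univ, true_and] at hx hx'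
    obtain ⟨i, _, rfl⟩ := hx
    obtain ⟨j, _, hj⟩ := hx'
    have := @S.mp_inj (P', j) (P, i) hj
    exact hPP (Prod.mk.inj this).1.symm

/-- a large set of vertices (a union of ports) which sends few edges to the part `Y` of the reservoir must
leave much of the reservoir outside of `Y`: numeric contradiction -/
theorem port_contra (Zd : Finset ι) (T d n : ℕ) (hd : Fintype.card ι = d) (hd0 : 100 ≤ d)
    (hT : d ≤ T * T) (R Bad X Y Dv A : Finset (Cube ι))
    (hR : ∀ x, x ∈ R → x ∈ Y ∨ x ∈ Dv ∨ x ∈ A)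
    (hgood : ∀ x, x ∉ Bad → GoodPt Zd T R x) (hZd : Zd.Nonempty)
    (hBad : Bad.card * d ^ 8 ≤ n) (hn : 0 < n) (hX : n ≤ X.card * d ^ 2)
    (hDv : Dv.card * d ^ 9 ≤ 2 * n) (hA : A.card * d ^ 3 < n)
    (hXY : (mix X Y).card * d ^ 8 < n) : False := by
  classical
  have h1 := mix_ge Zd T R Bad X hgood hZd
  have h2 : (mix X R).card ≤ (mix X Y).card + d * Dv.card + d * A.card := by
    have hs : R ⊆ (Y ∪ Dv) ∪ A := by
      intro x hx
      simp only [Finset.mem_union]
      rcases hR x hx with h | h | h <;> tauto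
    have e1 := mix_mono X hs
    have e2 := mix_union_le X (Y ∪ Dv) A
    have e3 := mix_union_le X Y Dv
    have e4 := mix_card_le X Dv
    have e5 := mix_card_le X A
    rw [hd] at e4 e5
    omega
  have hT2 : 10 ≤ T := by
    by_contra hcon
    have : T * T ≤ 9 * 9 := Nat.mul_le_mul (by omega) (by omega)
    omega
  have hTd : (10 : ℝ) ≤ T := by exact_mod_cast hT2
  have hdr : (100 : ℝ) ≤ d := by exact_mod_cast hd0
  have hd1 : (0 : ℝ) < d := by linarith
  have g1 : (n : ℝ) / d ^ 2 ≤ X.card := by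
    rw [div_le_iff₀ (by positivity)]; exact_mod_cast hX
  have g2 : (Bad.card : ℝ) ≤ (n : ℝ) / d ^ 8 := by
    rw [le_div_iff₀ (by positivity)]; exact_mod_cast hBad
  have g3 : (Dv.card : ℝ) ≤ 2 * (n : ℝ) / d ^ 9 := by
    rw [le_div_iff₀ (by positivity)]; exact_mod_cast hDv
  have g4 : (A.card : ℝ) ≤ (n : ℝ) / d ^ 3 := by
    rw [le_div_iff₀ (by positivity)]; exact_mod_cast hA.le
  have g5 : ((mix X Y).card : ℝ) ≤ (n : ℝ) / d ^ 8 := by
    rw [le_div_iff₀ (by positivity)]; exact_mod_cast hXY.le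
  have g6 : (X.card : ℝ) * T ≤ (mix X Y).card + d * Dv.card + d * A.card + Bad.card * T := by
    exact_mod_cast (h1.trans (Nat.add_le_add_right h2 _))
  have hN0 : (0 : ℝ) < n := by exact_mod_cast hn
  set N : ℝ := (n : ℝ)
  set Tr : ℝ := (T : ℝ)
  have k1 : N / d ^ 2 * Tr ≤ (X.card : ℝ) * Tr := mul_le_mul_of_nonneg_right g1 (by positivity)
  have k2 : (Bad.card : ℝ) * Tr ≤ N / d ^ 8 * Tr := mul_le_mul_of_nonneg_right g2 (by positivity)
  have k3 : (d : ℝ) * Dv.card ≤ d * (2 * N / d ^ 9) := mul_le_mul_of_nonneg_left g3 (by positivity)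
  have k4 : (d : ℝ) * A.card ≤ d * (N / d ^ 3) := mul_le_mul_of_nonneg_left g4 (by positivity)
  have k5 : (d : ℝ) * (2 * N / d ^ 9) = 2 * N / d ^ 8 := by field_simp
  have k6 : (d : ℝ) * (N / d ^ 3) = N / d ^ 2 := by field_simp
  have k7 : N / (d : ℝ) ^ 8 ≤ N / d ^ 2 * (1 / 100) := by
    rw [mul_one_div, div_div]
    apply div_le_div_of_nonneg_left hN0.le (by positivity)
    have : (d : ℝ) ^ 2 * 100 ≤ d ^ 2 * d := mul_le_mul_of_nonneg_left hdr (by positivity)
    have h3 : (d : ℝ) ^ 2 * d = d ^ 3 := by ring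
    have h4 : (d : ℝ) ^ 3 ≤ d ^ 8 := pow_le_pow_right₀ (by linarith) (by norm_num)
    linarith
  have k8 : 0 < N / (d : ℝ) ^ 2 := by positivity
  set M : ℝ := N / (d : ℝ) ^ 2
  have k9 : 2 * N / (d : ℝ) ^ 8 = 2 * (N / d ^ 8) := by ring
  have k10 : M * Tr ≤ 3 * (M * (1 / 100)) + M + M * (1 / 100) * Tr := by
    have : N / (d : ℝ) ^ 8 * Tr ≤ M * (1 / 100) * Tr := mul_le_mul_of_nonneg_right k7 (by positivity)
    linarith
  nlinarith

/-- **7.2** short connectors exist between any two large families of main pieces (`n = 2^d`) -/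
theorem connector_exists (hG2 : ∀ x y, G2 x y → G2 y x)
    (S : Blocks G1 RP MP L2 L1 h) (d n T : ℕ) (hd : Fintype.card ι = d) (hn : n = 2 ^ d)
    (hd0 : 100 ≤ d) (hT : d ≤ T * T)
    (Zd : Finset ι) (hZd : d ≤ 2 * Zd.card) (Bad : Finset (Cube ι))
    (hBad : Bad.card * d ^ 8 ≤ n)
    (hgood : ∀ x, x ∉ Bad → GoodPt Zd T (Finset.univ.biUnion S.rset) x)
    (hsprinkle : ∀ X X' : Finset (RP ⊕ (MP ⊕ MP)), Disjoint X X' →
      n ≤ (mix (X.biUnion S.bset) (X'.biUnion S.bset)).card * d ^ 8 →
      ∃ b ∈ X, ∃ b' ∈ X', Joined G2 (S.bset b) (S.bset b'))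
    (hN1 : n ≤ Fintype.card MP * h * d)
    (D : Finset RP) (hD : D.card * L2 * d ^ 9 ≤ n)
    (AA BB : Finset MP) (hAA : Fintype.card MP ≤ AA.card * d) (hBB : Fintype.card MP ≤ BB.card * d) :
    ∃ P ∈ AA, ∃ P' ∈ BB, ∃ W : List RP, Connector S G2 P P' W ∧ W.length ≤ d ^ 9 + 1 ∧ ∀ r ∈ W, r ∉ D := by
  classical
  by_contra hcon
  have hn0 : 0 < n := by rw [hn]; positivity
  have hZn : Zd.Nonempty := by rw [← Finset.card_pos]; omega
  -- no reached piece is joined to a start port of `BB`
  have hno : ∀ i, i ≤ d ^ 9 → ∀ r ∈ reach S G2 D AA i, ∀ P' ∈ BB, ¬ Joined G2 (S.rset r) (S.sport P') := by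
    intro i hi r hr P' hP' hj
    obtain ⟨W, h1, hW, ⟨P, hP, h2⟩, h3, h4, h5, h6⟩ := reach_list S G2 D AA i r hr
    exact hcon ⟨P, hP, P', hP', W, ⟨h1, hW, h2, h3, by rw [h4]; exact hj⟩, by omega, fun r' h' => (h6 r' h').2⟩
  -- a small layer
  have hRP : Fintype.card RP * L2 ≤ n := by
    have h1 := Fintype.card_le_of_injective _ S.rp_inj
    rw [Fintype.card_prod, Fintype.card_fin] at h1
    rw [hn, ← hd]
    simpa [Cube] using h1
  obtain ⟨i, hi, hlayer⟩ : ∃ i, i < d ^ 9 ∧
      (reach S G2 D AA (i + 1) \ reach S G2 D AA i).card * L2 * d ^ 9 ≤ n := by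
    by_contra hc
    push Not at hc
    have h1 : ∀ j, j ≤ d ^ 9 → j * (n + 1) ≤ (reach S G2 D AA j).card * L2 * d ^ 9 := by
      intro j
      induction j with
      | zero => intro _; simp
      | succ j ih =>
        intro hj
        have h2 := ih (by omega)
        have h3 := hc j (by omega)
        have h4 : (reach S G2 D AA (j + 1)).card =
            (reach S G2 D AA (j + 1) \ reach S G2 D AA j).card + (reach S G2 D AA j).card := by
          rw [Finset.card_sdiff_add_card_eq_card (reach_mono S G2 D AA (Nat.le_succ j))]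
        rw [h4]
        calc (j + 1) * (n + 1) = (n + 1) + j * (n + 1) := by ring
          _ ≤ (reach S G2 D AA (j + 1) \ reach S G2 D AA j).card * L2 * d ^ 9 +
              (reach S G2 D AA j).card * L2 * d ^ 9 := Nat.add_le_add h3 h2
          _ = _ := by ring
    have h2 := h1 (d ^ 9) le_rfl
    have h3 : (reach S G2 D AA (d ^ 9)).card * L2 ≤ n :=
      (Nat.mul_le_mul_right _ (Finset.card_le_univ _)).trans hRP
    have h4 : d ^ 9 * (n + 1) ≤ n * d ^ 9 := h2.trans (Nat.mul_le_mul_right _ h3)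
    have h5 : 0 < d ^ 9 := by positivity
    nlinarith
  set RA := reach S G2 D AA i with hRA
  set B := reach S G2 D AA (i + 1) \ RA with hB
  set RA' : Finset RP := Finset.univ \ ((D ∪ B) ∪ RA) with hRA'
  set A := RA.biUnion S.rset with hA
  set A' := RA'.biUnion S.rset with hA'
  set Dv := (D ∪ B).biUnion S.rset with hDv
  have hpart : ∀ x, x ∈ Finset.univ.biUnion S.rset → x ∈ A ∨ x ∈ A' ∨ x ∈ Dv := by
    intro x hx
    rw [Finset.mem_biUnion] at hx
    obtain ⟨r, _, hr⟩ := hx
    by_cases h1 : r ∈ RA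
    · exact Or.inl (Finset.mem_biUnion.mpr ⟨r, h1, hr⟩)
    · by_cases h2 : r ∈ D ∪ B
      · exact Or.inr (Or.inr (Finset.mem_biUnion.mpr ⟨r, h2, hr⟩))
      · refine Or.inr (Or.inl (Finset.mem_biUnion.mpr ⟨r, ?_, hr⟩))
        rw [hRA']
        simp only [Finset.mem_sdiff, Finset.mem_univ, true_and, Finset.mem_union, not_or] at h2 ⊢
        exact ⟨h2, h1⟩
  have hDv1 : Dv.card * d ^ 9 ≤ 2 * n := by
    rw [hDv, union_rset_card]
    have h1 : (D ∪ B).card ≤ D.card + B.card := Finset.card_union_le _ _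
    calc (D ∪ B).card * L2 * d ^ 9 ≤ (D.card + B.card) * L2 * d ^ 9 := by gcongr
      _ = D.card * L2 * d ^ 9 + B.card * L2 * d ^ 9 := by ring
      _ ≤ n + n := Nat.add_le_add hD hlayer
      _ = 2 * n := by ring
  -- the unions of blocks
  have himg : ∀ X : Finset RP, (X.image (Sum.inl : RP → RP ⊕ (MP ⊕ MP))).biUnion S.bset = X.biUnion S.rset := by
    intro X; rw [Finset.image_biUnion]; rfl
  have himt : ∀ X : Finset MP, (X.image (fun P => (Sum.inr (Sum.inr P) : RP ⊕ (MP ⊕ MP)))).biUnion S.bset =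
      X.biUnion S.tport := by
    intro X; rw [Finset.image_biUnion]; rfl
  have hims : ∀ X : Finset MP, (X.image (fun P => (Sum.inr (Sum.inl P) : RP ⊕ (MP ⊕ MP)))).biUnion S.bset =
      X.biUnion S.sport := by
    intro X; rw [Finset.image_biUnion]; rfl
  have hAA' : (mix A A').card * d ^ 8 < n := by
    by_contra hc
    push Not at hc
    have h1 := hsprinkle (RA.image Sum.inl) (RA'.image Sum.inl) ?_ ?_
    · obtain ⟨b, hb, b', hb', hj⟩ := h1
      obtain ⟨r, hr, rfl⟩ := Finset.mem_image.mp hb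
      obtain ⟨r', hr', rfl⟩ := Finset.mem_image.mp hb'
      rw [hRA'] at hr'
      simp only [Finset.mem_sdiff, Finset.mem_univ, true_and, Finset.mem_union, not_or, hB, not_and,
        not_not] at hr'
      apply hr'.2
      apply hr'.1.2
      simp only [reach, Finset.mem_union, Finset.mem_filter, Finset.mem_univ, true_and]
      exact Or.inr ⟨hr'.1.1, r, hr, hj⟩
    · rw [Finset.disjoint_left]
      intro b hb hb'
      obtain ⟨r, hr, rfl⟩ := Finset.mem_image.mp hb
      obtain ⟨r', hr', he⟩ := Finset.mem_image.mp hb'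
      rw [Sum.inl.injEq] at he
      subst he
      rw [hRA'] at hr'
      simp only [Finset.mem_sdiff, Finset.mem_univ, true_and, Finset.mem_union, not_or] at hr'
      exact hr'.2 hr
    · rw [himg, himg]; exact hc
  have hcut := reservoir_cut Zd T d n hd hd0 hT hZd (Finset.univ.biUnion S.rset) A A' Dv Bad hpart hgood
    hBad hDv1 hn0 hAA'
  have hXlarge : ∀ X : Finset MP, Fintype.card MP ≤ X.card * d → n ≤ X.card * h * d ^ 2 := by
    intro X hX
    calc n ≤ Fintype.card MP * h * d := hN1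
      _ ≤ (X.card * d) * h * d := by gcongr
      _ = X.card * h * d ^ 2 := by ring
  rcases le_total A.card A'.card with hle | hle
  · -- few reached vertices
    rw [min_eq_left hle] at hcut
    set Y := (Finset.univ \ (D ∪ RA)).biUnion S.rset with hY
    have hmixY : (mix (AA.biUnion S.tport) Y).card * d ^ 8 < n := by
      by_contra hc
      push Not at hc
      have h1 := hsprinkle (AA.image (fun P => Sum.inr (Sum.inr P))) ((Finset.univ \ (D ∪ RA)).image Sum.inl) ?_ ?_
      · obtain ⟨b, hb, b', hb', hj⟩ := h1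
        obtain ⟨P, hP, rfl⟩ := Finset.mem_image.mp hb
        obtain ⟨r', hr', rfl⟩ := Finset.mem_image.mp hb'
        simp only [Finset.mem_sdiff, Finset.mem_univ, true_and, Finset.mem_union, not_or] at hr'
        apply hr'.2
        apply reach_mono S G2 D AA (Nat.zero_le i)
        simp only [reach, Finset.mem_filter, Finset.mem_univ, true_and]
        exact ⟨hr'.1, P, hP, hj⟩
      · rw [Finset.disjoint_left]
        intro b hb hb'
        obtain ⟨r, hr, rfl⟩ := Finset.mem_image.mp hb
        obtain ⟨r', hr', he⟩ := Finset.mem_image.mp hb'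
        exact absurd he (by simp)
      · rw [himg, himt]; exact hc
    refine port_contra Zd T d n hd hd0 hT (Finset.univ.biUnion S.rset) Bad (AA.biUnion S.tport) Y Dv A ?_ hgood
      hZn hBad hn0 ?_ hDv1 hcut hmixY
    · intro x hx
      rw [Finset.mem_biUnion] at hx
      obtain ⟨r, _, hr⟩ := hx
      by_cases h1 : r ∈ RA
      · exact Or.inr (Or.inr (Finset.mem_biUnion.mpr ⟨r, h1, hr⟩))
      · by_cases h2 : r ∈ D
        · exact Or.inr (Or.inl (Finset.mem_biUnion.mpr ⟨r, Finset.mem_union_left _ h2, hr⟩))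
        · exact Or.inl (Finset.mem_biUnion.mpr ⟨r, by simp [h1, h2], hr⟩)
    · rw [union_tport_card]; exact hXlarge AA hAA
  · rw [min_eq_right hle] at hcut
    have hmixY : (mix (BB.biUnion S.sport) A).card * d ^ 8 < n := by
      by_contra hc
      push Not at hc
      have h1 := hsprinkle (BB.image (fun P => Sum.inr (Sum.inl P))) (RA.image Sum.inl) ?_ ?_
      · obtain ⟨b, hb, b', hb', hj⟩ := h1
        obtain ⟨P, hP, rfl⟩ := Finset.mem_image.mp hb
        obtain ⟨r', hr', rfl⟩ := Finset.mem_image.mp hb'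
        obtain ⟨u, hu, v, hv, huv⟩ := hj
        exact hno i hi.le r' hr' P hP ⟨v, hv, u, hu, hG2 _ _ huv⟩
      · rw [Finset.disjoint_left]
        intro b hb hb'
        obtain ⟨r, hr, rfl⟩ := Finset.mem_image.mp hb
        obtain ⟨r', hr', he⟩ := Finset.mem_image.mp hb'
        exact absurd he (by simp)
      · rw [himg, hims]; exact hc
    refine port_contra Zd T d n hd hd0 hT (Finset.univ.biUnion S.rset) Bad (BB.biUnion S.sport) A Dv A' ?_ hgood
      hZn hBad hn0 ?_ hDv1 hcut hmixY
    · intro x hx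
      rcases hpart x hx with h1 | h1 | h1
      · exact Or.inl h1
      · exact Or.inr (Or.inr h1)
      · exact Or.inr (Or.inl h1)
    · rw [union_sport_card]; exact hXlarge BB hBB

end Reach

end Pool.Agent.LongCyc
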