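import Pool.Agent.LongCyc.Final1

/-!
# From the non-asymptotic core to the asymptotic theorem (sparse regime)
-/

set_option autoImplicit false

namespace Pool.Agent.LongCyc

open Finset Filter Topology

/-- there is a long open cycle, list version -/
def LCyc {d : ℕ} (ω : CE (Fin d) → Bool) (L : ℝ) : Prop :=
  ∃ (l : List (Cube (Fin d))) (hl : l ≠ []), l.Nodup ∧ 3 ≤ l.length ∧
    l.IsChain (opn (canE (Fin d)) ω) ∧ opn (canE (Fin d)) ω (l.getLast hl) (l.head hl) ∧
    L ≤ (l.length : ℝ)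

theorem LCyc.mono {d : ℕ} {ω ω' : CE (Fin d) → Bool} {L L' : ℝ} (hω : ∀ e, ω e = true → ω' e = true)
    (hL : L' ≤ L) (h : LCyc ω L) : LCyc ω' L' := by
  obtain ⟨l, hl, h1, h2, h3, h4, h5⟩ := h
  exact ⟨l, hl, h1, h2, h3.imp fun a b hab => opn_mono hω hab, opn_mono hω h4, hL.trans h5⟩

theorem LCyc.hasCycleGe {d : ℕ} {ω : CE (Fin d) → Bool} {L : ℝ} (h : LCyc ω L) :
    HasCycleGe (ogr ω) L := by
  obtain ⟨l, hl, h1, h2, h3, h4, h5⟩ := h
  exact hasCycleGe_of_list l hl h1 h2 h3 h4 h5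

/-- **The non-asymptotic core** of the sparse regime: `E` is the reciprocal of the error. -/
def SparseCore : Prop :=
  ∃ c1 : ℝ, 0 < c1 ∧ ∃ E0 d0 : ℕ, ∀ (d E : ℕ) (p : ℝ) (h0 : 0 ≤ p) (h1 : p ≤ 1),
    d0 ≤ d → E0 ≤ E → E ^ 40 ≤ d → p ^ 10 * (d : ℝ) ^ 9 ≤ 1 → 7 * Real.log E + 6 ≤ c1 * (p * d) →
    1 - 1 / (d : ℝ) ≤
      (bern p h0 h1 (CE (Fin d))).pr fun ω => LCyc ω ((1 - 20 / (E : ℝ)) * 2 ^ d)

/-- the uniform form -/
theorem sparse_uniform (hcore : SparseCore) : ∃ c0 : ℝ, 0 < c0 ∧ ∃ C0 : ℝ, 0 < C0 ∧ ∃ d1 : ℕ,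
    ∀ d : ℕ, d1 ≤ d → ∀ p : ℝ, 0 ≤ p → p ≤ 1 → C0 ≤ p * d →
      1 - 1 / (d : ℝ) ≤ percProb (hypercube d) p fun H =>
        HasCycleGe H ((1 - Real.exp (-c0 * min (p * d) (Real.log d))) * 2 ^ d) := by
  obtain ⟨c1, hc1, E0, d0, hcore⟩ := hcore
  set c : ℝ := min (1 / 40) (c1 / 14) with hc
  have hcpos : 0 < c := by
    rw [hc]
    exact lt_min (by norm_num) (by linarith)
  have hc40 : 40 * c ≤ 1 := by
    have : c ≤ 1 / 40 := min_le_left _ _
    linarith
  have hc14 : 14 * c ≤ c1 := by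
    have : c ≤ c1 / 14 := min_le_right _ _
    linarith
  set C0 : ℝ := (E0 + 1) / c + 78 / c + 12 / c1 with hC0
  have hC0pos : 0 < C0 := by positivity
  -- `log d ≥ C0` and `(log d)^10 ≤ d` eventually
  have hlog : ∀ᶠ d : ℕ in atTop, C0 ≤ Real.log d :=
    (Real.tendsto_log_atTop.comp tendsto_natCast_atTop_atTop).eventually_ge_atTop C0
  have hlog10 : ∀ᶠ d : ℕ in atTop, Real.log d ^ 10 ≤ (d : ℝ) := by
    have h1 : (fun x : ℝ => Real.log x ^ 10) =o[atTop] id := Real.isLittleO_pow_log_id_atTop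
    have h2 := h1.bound (show (0 : ℝ) < 1 by norm_num)
    have h3 := tendsto_natCast_atTop_atTop (R := ℝ) |>.eventually h2
    filter_upwards [h3, eventually_ge_atTop 1] with d hd hd1
    have hl : 0 ≤ Real.log d := Real.log_natCast_nonneg d
    simpa [abs_of_nonneg hl] using hd
  obtain ⟨d1, hd1⟩ := eventually_atTop.1
    (hlog.and (hlog10.and ((eventually_ge_atTop d0).and (eventually_ge_atTop 1))))
  refine ⟨c / 2, by positivity, C0, hC0pos, d1, ?_⟩
  intro d hd p hp0 hp1 hpC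
  obtain ⟨h1, h2, h3, h4⟩ := hd1 d hd
  have hdpos : (0 : ℝ) < d := by exact_mod_cast h4
  set lam : ℝ := min (p * d) (Real.log d) with hlam
  have hlamC : C0 ≤ lam := le_min hpC h1
  have hlampos : 0 < lam := hC0pos.trans_le hlamC
  set p' : ℝ := lam / d with hp'
  have hp'0 : 0 ≤ p' := by positivity
  have hp'p : p' ≤ p := by
    rw [hp', div_le_iff₀ hdpos]
    exact min_le_left _ _
  have hp'1 : p' ≤ 1 := hp'p.trans hp1
  have hp'd : p' * d = lam := by
    rw [hp']
    field_simp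
  set E : ℕ := ⌊Real.exp (c * lam)⌋₊ with hE
  have hElt : Real.exp (c * lam) < E + 1 := Nat.lt_floor_add_one _
  have hEle : (E : ℝ) ≤ Real.exp (c * lam) := Nat.floor_le (Real.exp_pos _).le
  have hclam : (E0 : ℝ) + 1 + 78 ≤ c * lam := by
    have : c * C0 ≤ c * lam := mul_le_mul_of_nonneg_left hlamC hcpos.le
    have h5 : c * C0 = E0 + 1 + 78 + c * (12 / c1) := by
      rw [hC0]
      field_simp
    have h6 : 0 ≤ c * (12 / c1) := by positivity
    linarith
  have hexp : c * lam + 1 ≤ Real.exp (c * lam) := Real.add_one_le_exp _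
  have hE0 : E0 ≤ E := by
    have : (E0 : ℝ) < E + 1 := by linarith
    have h5 : E0 < E + 1 := by exact_mod_cast this
    omega
  have hEpos : (1 : ℝ) ≤ E := by
    have : (1 : ℝ) < E + 1 := by
      have h5 : (0 : ℝ) ≤ E0 := Nat.cast_nonneg _
      linarith
    have h5 : 1 < E + 1 := by exact_mod_cast this
    have h6 : 1 ≤ E := by omega
    exact_mod_cast h6
  have hE40 : E ^ 40 ≤ d := by
    have h5 : ((E ^ 40 : ℕ) : ℝ) ≤ d := by
      push_cast
      calc (E : ℝ) ^ 40 ≤ Real.exp (c * lam) ^ 40 := pow_le_pow_left₀ (Nat.cast_nonneg _) hEle _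
        _ = Real.exp (40 * c * lam) := by
            rw [← Real.exp_nat_mul]
            congr 1
            push_cast
            ring
        _ ≤ Real.exp (Real.log d) := by
            apply Real.exp_le_exp.2
            calc 40 * c * lam ≤ 1 * lam := mul_le_mul_of_nonneg_right hc40 hlampos.le
              _ = lam := one_mul _
              _ ≤ Real.log d := min_le_right _ _
        _ = d := Real.exp_log hdpos
    exact_mod_cast h5
  have hp10 : p' ^ 10 * (d : ℝ) ^ 9 ≤ 1 := by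
    have h5 : p' ^ 10 * (d : ℝ) ^ 9 = lam ^ 10 / d := by
      rw [hp']
      field_simp
    rw [h5, div_le_one hdpos]
    refine le_trans (pow_le_pow_left₀ hlampos.le (min_le_right _ _) _) h2
  have hlogE : 7 * Real.log E + 6 ≤ c1 * (p' * d) := by
    rw [hp'd]
    have h5 : Real.log E ≤ c * lam := by
      rw [← Real.log_exp (c * lam)]
      exact Real.log_le_log (by linarith) hEle
    have h6 : 12 ≤ c1 * lam := by
      have h7 : c1 * C0 ≤ c1 * lam := mul_le_mul_of_nonneg_left hlamC hc1.le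
      have h8 : c1 * C0 = c1 * ((E0 + 1) / c + 78 / c) + 12 := by
        rw [hC0]
        field_simp
      have h9 : 0 ≤ c1 * ((E0 + 1) / c + 78 / c) := by positivity
      linarith
    have h7 : 14 * c * lam ≤ c1 * lam := mul_le_mul_of_nonneg_right hc14 hlampos.le
    linarith
  have hmain := hcore d E p' hp'0 hp'1 h3 hE0 hE40 hp10 hlogE
  have hloss : 20 / (E : ℝ) ≤ Real.exp (-(c / 2) * lam) := by
    have h5 : Real.exp (c * lam) ≤ 2 * E := by linarith
    have h6 : 40 ≤ Real.exp (c / 2 * lam) := by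
      have := Real.add_one_le_exp (c / 2 * lam)
      have h7 : (0 : ℝ) ≤ E0 := Nat.cast_nonneg _
      linarith
    have h7 : Real.exp (c * lam) = Real.exp (c / 2 * lam) * Real.exp (c / 2 * lam) := by
      rw [← Real.exp_add]
      congr 1
      ring
    have h8 : Real.exp (-(c / 2) * lam) * Real.exp (c / 2 * lam) = 1 := by
      rw [← Real.exp_add]
      simp
    rw [div_le_iff₀ (by linarith)]
    have h9 : 0 < Real.exp (-(c / 2) * lam) := Real.exp_pos _
    have h10 : 0 < Real.exp (c / 2 * lam) := Real.exp_pos _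
    have h11 : 2 * (Real.exp (-(c / 2) * lam) * E) ≥ Real.exp (c / 2 * lam) := by
      calc 2 * (Real.exp (-(c / 2) * lam) * E) = Real.exp (-(c / 2) * lam) * (2 * E) := by ring
        _ ≥ Real.exp (-(c / 2) * lam) * Real.exp (c * lam) := mul_le_mul_of_nonneg_left h5 h9.le
        _ = (Real.exp (-(c / 2) * lam) * Real.exp (c / 2 * lam)) * Real.exp (c / 2 * lam) := by
            rw [h7]; ring
        _ = _ := by rw [h8, one_mul]
    linarith
  rw [percProb_eq hp0 hp1]
  refine hmain.trans ?_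
  refine (bern_pr_mono (hp0 := hp'0) (hp1 := hp'1) (hr0 := hp0) (hr1 := hp1) hp'p
    fun ω ω' h hA => hA.mono h le_rfl).trans ?_
  refine FP.pr_mono _ fun ω h => LCyc.hasCycleGe (h.mono (fun _ h => h) ?_)
  refine mul_le_mul_of_nonneg_right ?_ (by positivity)
  rw [hp'd] at *
  linarith

/-- the sequence form -/
theorem sparse_final (hcore : SparseCore) : ∃ c0 : ℝ, 0 < c0 ∧ ∃ C0 : ℝ, 0 < C0 ∧
    ∀ p : ℕ → ℝ, (∀ d, 0 ≤ p d ∧ p d ≤ 1) → (∀ᶠ d in atTop, C0 ≤ p d * d) →
      Tendsto (fun d => percProb (hypercube d) (p d) fun H =>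
        HasCycleGe H ((1 - Real.exp (-c0 * min (p d * d) (Real.log d))) * 2 ^ d)) atTop (𝓝 1) := by
  obtain ⟨c0, hc0, C0, hC0, d1, h⟩ := sparse_uniform hcore
  refine ⟨c0, hc0, C0, hC0, fun p hp hpC => ?_⟩
  have h1 : Tendsto (fun d : ℕ => 1 - 1 / (d : ℝ)) atTop (𝓝 1) := by
    have := tendsto_one_div_atTop_nhds_zero_nat (𝕜 := ℝ)
    simpa using this.const_sub 1
  refine tendsto_of_tendsto_of_tendsto_of_le_of_le' h1 tendsto_const_nhds ?_ ?_
  · filter_upwards [hpC, eventually_ge_atTop d1] with d hd hdd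
    exact h d hdd (p d) (hp d).1 (hp d).2 hd
  · filter_upwards with d
    rw [percProb_eq (hp d).1 (hp d).2]
    exact FP.pr_le_one _ _

end Pool.Agent.LongCyc
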