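import Pool.Agent.LongCyc.Stage2
import Pool.Agent.LongCyc.Final2

/-!
# The non-asymptotic core from the covering densities
-/

set_option autoImplicit false
set_option linter.unusedSectionVars false

namespace Pool.Agent.LongCyc

open Finset

/-- transport of a long cycle along an injective map -/
theorem HasCyc.map {V V' : Type*} {G : V → V → Prop} {G' : V' → V' → Prop} {N : ℝ} (h : HasCyc G N)
    (f : V → V') (hf : Function.Injective f) (hG : ∀ x y, G x y → G' (f x) (f y)) : HasCyc G' N := by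
  obtain ⟨l, hl, h1, h2, h3, h4, h5⟩ := h
  refine ⟨l.map f, by simpa using hl, h1.map hf, by simpa using h2, by simpa using h3, ?_, ?_⟩
  · rw [List.isChain_map]
    exact h4.imp hG
  · rw [List.getLast_map, List.head_map]
    exact hG _ _ h5

/-- the probability of a long cycle does not depend on the index type -/
theorem pr_hasCyc_equiv {ι ι' : Type*} [DecidableEq ι] [Fintype ι] [DecidableEq ι'] [Fintype ι']
    (e : ι ≃ ι') {p : ℝ} {h0 : 0 ≤ p} {h1 : p ≤ 1} (N : ℝ) :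
    (bern p h0 h1 (CE ι)).pr (fun ω => HasCyc (opn (canE ι) ω) N) ≤
      (bern p h0 h1 (CE ι')).pr (fun ω => HasCyc (opn (canE ι') ω) N) := by
  classical
  rw [FP.pr_eq, FP.pr_eq]
  rw [← E_opn ((canE ι').trans e) (fun G => if HasCyc G N then (1 : ℝ) else 0)]
  refine FP.E_mono _ fun ω => ?_
  by_cases h : HasCyc (opn ((canE ι').trans e) ω) N
  · rw [if_pos h, if_pos]
    refine h.map (fun x => x ∘ e.symm) ?_ ?_
    · intro x y hxy
      funext i
      have := congrFun hxy (e i)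
      simpa using this
    · intro x y hxy
      exact (opn_trans (canE ι') e ω x y).mp hxy
  · rw [if_neg h]
    split_ifs <;> norm_num

/-- union of two percolations -/
theorem pr_union_le {ι : Type*} [DecidableEq ι] [Fintype ι] {p : ℝ} (h0 : 0 ≤ p) (h1 : p ≤ 1)
    (hh0 : 0 ≤ p / 2) (hh1 : p / 2 ≤ 1) (N : ℝ) :
    ((bern (p / 2) hh0 hh1 (CE ι)).E fun ω1 => (bern (p / 2) hh0 hh1 (CE ι)).pr fun ω2 =>
        HasCyc (fun x y => opn (canE ι) ω1 x y ∨ opn (canE ι) ω2 x y) N) ≤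
      (bern p h0 h1 (CE ι)).pr fun ω => HasCyc (opn (canE ι) ω) N := by
  classical
  have hr0 : 0 ≤ 1 - (1 - p / 2) * (1 - p / 2) := by nlinarith
  have hr1 : 1 - (1 - p / 2) * (1 - p / 2) ≤ 1 := by nlinarith
  have hrp : 1 - (1 - p / 2) * (1 - p / 2) ≤ p := by nlinarith
  refine le_trans ?_ (bern_pr_mono (hp0 := hr0) (hp1 := hr1) (hr0 := h0) (hr1 := h1) hrp
    (A := fun ω => HasCyc (opn (canE ι) ω) N) ?_)
  · rw [FP.pr_eq, ← bern_or hh0 hh1 hh0 hh1 hr0 hr1 (by ring)]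
    refine FP.E_mono _ fun ω1 => ?_
    rw [FP.pr_eq]
    refine FP.E_mono _ fun ω2 => ?_
    have hiff : (HasCyc (fun x y => opn (canE ι) ω1 x y ∨ opn (canE ι) ω2 x y) N) →
        HasCyc (opn (canE ι) fun e => ω1 e || ω2 e) N := by
      intro h
      refine h.mono ?_ le_rfl
      rintro x y (hxy | hxy)
      · exact opn_mono (fun e he => by simp [he]) hxy
      · exact opn_mono (fun e he => by simp [he]) hxy
    split_ifs with c1 c2 c2
    · exact le_rfl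
    · exact absurd (hiff c1) c2
    · norm_num
    · exact le_rfl
  · intro ω ω' hω h
    exact h.mono (fun x y => opn_mono hω) le_rfl

theorem two_pow_ge {d : ℕ} (hd : 10 ^ 14 ≤ d) : (d : ℝ) ^ 40 ≤ 2 ^ d := by
  have hdr : (10 : ℝ) ^ 14 ≤ d := by exact_mod_cast hd
  set s := Real.sqrt d with hs
  have hs2 : s ^ 2 = d := Real.sq_sqrt (by linarith)
  have hs7 : (10 : ℝ) ^ 7 ≤ s := by
    rw [hs]
    apply Real.le_sqrt_of_sq_le
    calc ((10 : ℝ) ^ 7) ^ 2 = 10 ^ 14 := by norm_num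
      _ ≤ (d : ℝ) := hdr
  have hs0 : 0 < s := by linarith [show (0 : ℝ) < 10 ^ 7 by norm_num]
  have hlog : Real.log d ≤ 2 * s := by
    rw [← hs2, Real.log_pow]
    push_cast
    have := Real.log_le_sub_one_of_pos hs0
    linarith
  have h2 : (0.69 : ℝ) ≤ Real.log 2 := by
    have := Real.log_two_gt_d9
    linarith
  have hd0 : (0 : ℝ) < d := by linarith [show (0 : ℝ) < 10 ^ 14 by norm_num]
  have h3 : Real.log ((d : ℝ) ^ 40) ≤ Real.log (2 ^ d) := by
    rw [Real.log_pow, Real.log_pow]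
    push_cast
    have h4 : (d : ℝ) * Real.log 2 = s ^ 2 * Real.log 2 := by rw [hs2]
    rw [h4]
    have h5 : s ^ 2 * 0.69 ≤ s ^ 2 * Real.log 2 := mul_le_mul_of_nonneg_left h2 (by positivity)
    nlinarith
  exact (Real.log_le_log_iff (by positivity) (by positivity)).mp h3

/-- numeric bound for the bad points -/
theorem err1_bound {d E T μ κ : ℕ} (hd : 10 ^ 14 ≤ d) (hE : 1 ≤ E) (hEd : E ^ 40 ≤ d)
    (hT : T = Nat.sqrt d + 1) (hμ : d ≤ 2 * μ) (hκμ : κ + μ = d) :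
    ((μ : ℝ) ^ 2 + κ) * Real.exp (T - (1 - Real.exp (-1)) * (1 / (2 * E)) ^ 3 * (μ - 2)) * d ^ 8 ≤
      1 / (3 * d) := by
  have hdr : (10 : ℝ) ^ 14 ≤ d := by exact_mod_cast hd
  have hd0 : (0 : ℝ) < d := by linarith [show (0 : ℝ) < 10 ^ 14 by norm_num]
  set s := Real.sqrt d with hs
  have hs2 : s ^ 2 = d := Real.sq_sqrt hd0.le
  have hs7 : (10 : ℝ) ^ 7 ≤ s := by
    rw [hs]
    apply Real.le_sqrt_of_sq_le
    calc ((10 : ℝ) ^ 7) ^ 2 = 10 ^ 14 := by norm_num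
      _ ≤ (d : ℝ) := hdr
  have hs0 : 0 < s := by linarith [show (0 : ℝ) < 10 ^ 7 by norm_num]
  have hEr : (1 : ℝ) ≤ E := by exact_mod_cast hE
  -- `E^3 ≤ sqrt s`
  set t := Real.sqrt s with ht
  have ht2 : t ^ 2 = s := Real.sq_sqrt hs0.le
  have ht0 : 0 < t := Real.sqrt_pos.mpr hs0
  have ht3 : 3000 ≤ t := by
    rw [ht]
    apply Real.le_sqrt_of_sq_le
    calc (3000 : ℝ) ^ 2 ≤ 10 ^ 7 := by norm_num
      _ ≤ s := hs7
  have hE12 : ((E : ℝ) ^ 3) ^ 4 ≤ t ^ 4 := by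
    have e1 : t ^ 4 = (d : ℝ) := by
      calc t ^ 4 = (t ^ 2) ^ 2 := by ring
        _ = (d : ℝ) := by rw [ht2, hs2]
    rw [e1]
    calc ((E : ℝ) ^ 3) ^ 4 = (E : ℝ) ^ 12 := by ring
      _ ≤ (E : ℝ) ^ 40 := pow_le_pow_right₀ hEr (by norm_num)
      _ ≤ (d : ℝ) := by exact_mod_cast hEd
  have hE3 : (E : ℝ) ^ 3 ≤ t := le_of_pow_le_pow_left₀ (by norm_num) ht0.le hE12
  have hc : (1 : ℝ) / 2 ≤ 1 - Real.exp (-1) := by
    have h1 : (2 : ℝ) ≤ Real.exp 1 := by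
      have := Real.add_one_le_exp (1 : ℝ); linarith
    have h2 : Real.exp (-1) ≤ 1 / 2 := by
      rw [Real.exp_neg, ← one_div]
      exact div_le_div_of_nonneg_left (by norm_num) (by norm_num) h1
    linarith
  have hμr : (d : ℝ) ≤ 2 * μ := by exact_mod_cast hμ
  have hμd : (μ : ℝ) ≤ d := by
    have : μ ≤ d := by omega
    exact_mod_cast this
  have hκd : (κ : ℝ) ≤ d := by
    have : κ ≤ d := by omega
    exact_mod_cast this
  have hE0 : (0 : ℝ) < E := by linarith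
  -- the exponent
  have hexp : s ^ 2 / (64 * t) ≤ (1 - Real.exp (-1)) * (1 / (2 * E)) ^ 3 * (μ - 2) := by
    have e1 : (1 / (2 * (E : ℝ))) ^ 3 = 1 / (8 * E ^ 3) := by
      rw [one_div_pow]; ring
    have e2 : 1 / (8 * t) ≤ (1 / (2 * (E : ℝ))) ^ 3 := by
      rw [e1]
      exact div_le_div_of_nonneg_left (by norm_num) (by positivity) (by linarith)
    have e3 : s ^ 2 / 4 ≤ (μ : ℝ) - 2 := by
      rw [hs2]; linarith
    have e4 : 1 / 2 * (1 / (8 * t)) ≤ (1 - Real.exp (-1)) * (1 / (2 * (E : ℝ))) ^ 3 :=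
      mul_le_mul hc e2 (by positivity) (by linarith)
    calc s ^ 2 / (64 * t) = 1 / 2 * (1 / (8 * t)) * (s ^ 2 / 4) := by field_simp; ring
      _ ≤ _ := mul_le_mul e4 e3 (by positivity) (by
        have : 0 ≤ 1 / 2 * (1 / (8 * t)) := by positivity
        linarith)
  have hTs : (T : ℝ) ≤ s + 1 := by
    rw [hT]
    push_cast
    have : ((Nat.sqrt d : ℕ) : ℝ) ≤ s := Real.nat_sqrt_le_real_sqrt
    linarith
  have hst : s ^ 2 / (64 * t) = s * t / 64 := by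
    rw [← ht2]; field_simp
  rw [hst] at hexp
  have hlog : Real.log d ≤ 2 * s := by
    rw [← hs2, Real.log_pow]
    push_cast
    have := Real.log_le_sub_one_of_pos hs0
    linarith
  have hpoly : 6 * (d : ℝ) ^ 11 ≤ Real.exp (2 + 22 * s) := by
    have e1 : (d : ℝ) ^ 11 ≤ Real.exp (22 * s) := by
      have : (d : ℝ) ^ 11 = Real.exp (11 * Real.log d) := by
        rw [mul_comm, Real.exp_mul, Real.exp_log hd0]
        exact_mod_cast rfl
      rw [this]
      exact Real.exp_le_exp.mpr (by linarith)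
    have e2 : (6 : ℝ) ≤ Real.exp 2 := by
      have h1 : (2.7 : ℝ) ≤ Real.exp 1 := by
        have := Real.exp_one_gt_d9; linarith
      have h2 : Real.exp 2 = Real.exp 1 * Real.exp 1 := by rw [← Real.exp_add]; norm_num
      rw [h2]; nlinarith
    rw [Real.exp_add]
    exact mul_le_mul e2 e1 (by positivity) (Real.exp_pos _).le
  have hsum : (μ : ℝ) ^ 2 + κ ≤ 2 * d ^ 2 := by
    have e1 : (μ : ℝ) ^ 2 ≤ d ^ 2 := pow_le_pow_left₀ (by positivity) hμd 2
    have e2 : (κ : ℝ) ≤ d ^ 2 := by nlinarith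
    linarith
  have hfin : Real.exp (T - (1 - Real.exp (-1)) * (1 / (2 * E)) ^ 3 * (μ - 2)) ≤
      Real.exp (-(2 + 22 * s)) := by
    apply Real.exp_le_exp.mpr
    have : 2 + 22 * s + s + 1 ≤ s * t / 64 := by
      have : s * 3000 ≤ s * t := mul_le_mul_of_nonneg_left ht3 hs0.le
      linarith
    linarith
  have h1 : ((μ : ℝ) ^ 2 + κ) * Real.exp (T - (1 - Real.exp (-1)) * (1 / (2 * E)) ^ 3 * (μ - 2)) * d ^ 8 ≤
      (2 * d ^ 2) * Real.exp (-(2 + 22 * s)) * d ^ 8 := by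
    apply mul_le_mul_of_nonneg_right _ (by positivity)
    exact mul_le_mul hsum hfin (Real.exp_pos _).le (by positivity)
  refine h1.trans ?_
  rw [le_div_iff₀ (by positivity)]
  have h2 : (2 * (d : ℝ) ^ 2) * Real.exp (-(2 + 22 * s)) * d ^ 8 * (3 * d) =
      6 * (d : ℝ) ^ 11 * Real.exp (-(2 + 22 * s)) := by ring
  rw [h2]
  calc 6 * (d : ℝ) ^ 11 * Real.exp (-(2 + 22 * s)) ≤ Real.exp (2 + 22 * s) * Real.exp (-(2 + 22 * s)) :=
        mul_le_mul_of_nonneg_right hpoly (Real.exp_pos _).le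
    _ = 1 := by rw [← Real.exp_add]; simp

/-- **the core from the covering densities** -/
theorem core_glue {d E m L : ℕ} {p : ℝ} (h0 : 0 ≤ p) (h1 : p ≤ 1) (hh0 : 0 ≤ p / 2) (hh1 : p / 2 ≤ 1)
    (hd : 10 ^ 14 ≤ d) (hE : 20 ≤ E) (hEd : E ^ 40 ≤ d) (hp : 100 ≤ p * d) (hm : 2 * m ≤ d)
    (hL : d ^ 31 ≤ L) (hν : 1 - 4 / (E : ℝ) ≤ nu (p / 2) hh0 hh1 m L) :
    1 - 1 / (d : ℝ) ≤
      (bern p h0 h1 (CE (Fin d))).pr fun ω => HasCyc (opn (canE (Fin d)) ω) ((1 - 20 / (E : ℝ)) * 2 ^ d) := by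
  have hdr : (10 : ℝ) ^ 14 ≤ d := by exact_mod_cast hd
  have hd0 : (0 : ℝ) < d := by linarith [show (0 : ℝ) < 10 ^ 14 by norm_num]
  have hd1 : 0 < d := by omega
  have hEr : (20 : ℝ) ≤ E := by exact_mod_cast hE
  have hE0 : (0 : ℝ) < E := by linarith
  have hEd2 : (E : ℝ) ^ 2 ≤ d := by
    calc (E : ℝ) ^ 2 ≤ (E : ℝ) ^ 40 := pow_le_pow_right₀ (by linarith) (by norm_num)
      _ ≤ d := by exact_mod_cast hEd
  have hEd' : (20 : ℝ) * E ≤ d := by nlinarith
  have hEdn : 20 * E ≤ d := by exact_mod_cast hEd'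
  have hpow := two_pow_ge hd
  have hinvE : 1 / (d : ℝ) ≤ 1 / E * (1 / 20) := by
    rw [one_div_mul_one_div]
    exact div_le_div_of_nonneg_left (by norm_num) (by positivity) (by linarith)
  have hE1 : 0 < 1 / (E : ℝ) := by positivity
  have hE20 : 1 / (E : ℝ) ≤ 1 / 20 := div_le_div_of_nonneg_left (by norm_num) (by norm_num) hEr
  -- covering densities for `d^29` and `d^10`
  have hcut : ∀ k, k ≤ 29 → 1 - 5 / (E : ℝ) ≤ nuI (Fin m) (p / 2) hh0 hh1 (d ^ k) := by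
    intro k hk
    have hle : d ^ k ≤ L := (Nat.pow_le_pow_right hd1 (by omega)).trans hL
    have hc := nu_cut (p := p / 2) (h0 := hh0) (h1 := hh1) m (L := L) (L' := d ^ k) (by positivity) hle
    have hr : ((d ^ k : ℕ) : ℝ) / L ≤ 1 / d := by
      have hL0 : (0 : ℝ) < L := by
        have : 0 < L := lt_of_lt_of_le (by positivity) hL
        exact_mod_cast this
      rw [div_le_div_iff₀ hL0 hd0]
      have : d ^ k * d ≤ 1 * L := by
        calc d ^ k * d = d ^ (k + 1) := by ring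
          _ ≤ d ^ 31 := Nat.pow_le_pow_right hd1 (by omega)
          _ ≤ L := hL
          _ = 1 * L := (one_mul L).symm
      exact_mod_cast this
    have hnn := nu_nonneg (p := p / 2) (h0 := hh0) (h1 := hh1) m L
    have hn1 := nu_le_one (p := p / 2) (h0 := hh0) (h1 := hh1) m L
    have e1 : nu (p / 2) hh0 hh1 m L * (1 - 1 / d) ≤ nu (p / 2) hh0 hh1 m (d ^ k) :=
      le_trans (mul_le_mul_of_nonneg_left (by linarith) hnn) hc
    have e2 : nuI (Fin m) (p / 2) hh0 hh1 (d ^ k) = nu (p / 2) hh0 hh1 m (d ^ k) := rfl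
    rw [e2]
    have e3 : nu (p / 2) hh0 hh1 m L * (1 / d) ≤ 1 / d := by
      have : nu (p / 2) hh0 hh1 m L * (1 / (d : ℝ)) ≤ 1 * (1 / d) :=
        mul_le_mul_of_nonneg_right hn1 (by positivity)
      linarith
    have e4 : (4 : ℝ) / E = 4 * (1 / E) := by ring
    have e5 : (5 : ℝ) / E = 5 * (1 / E) := by ring
    rw [e5]
    rw [e4] at hν
    nlinarith
  have hnr : (((2 ^ d : ℕ) : ℕ) : ℝ) = 2 ^ d := by push_cast; rfl
  have hn40 : (d : ℝ) ^ 40 ≤ ((2 ^ d : ℕ) : ℝ) := by rw [hnr]; exact hpow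
  set n : ℝ := ((2 ^ d : ℕ) : ℝ) with hn
  have hn0 : 0 < n := lt_of_lt_of_le (by positivity) hn40
  have hd1r : (1 : ℝ) ≤ d := by linarith [show (1 : ℝ) ≤ 10 ^ 14 by norm_num]
  have h7E : (7 : ℝ) / E = 7 * (1 / E) := by ring
  have hbig : 100 * (d : ℝ) ^ 29 ≤ (1 - 7 / (E : ℝ)) * n := by
    rw [h7E]
    have e1 : 200 * (d : ℝ) ^ 29 ≤ (d : ℝ) ^ 40 := by
      have : (d : ℝ) ^ 40 = d ^ 10 * d * d ^ 29 := by ring
      rw [this]
      apply mul_le_mul_of_nonneg_right _ (by positivity)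
      have h10 : (1 : ℝ) ≤ d ^ 10 := one_le_pow₀ hd1r
      have : (200 : ℝ) ≤ d := by linarith [show (200 : ℝ) ≤ 10 ^ 14 by norm_num]
      nlinarith
    nlinarith
  -- stage 2
  have hst := stage2 (κ := Fin m) (μ := Fin (d - m)) d (2 ^ d) (Nat.sqrt d + 1) E
    (by rw [Fintype.card_fin, Fintype.card_fin]; omega) rfl (by omega)
    (Nat.lt_succ_sqrt d).le (by rw [Fintype.card_fin]; omega) hE (by omega)
    hh0 hh1 hh0 hh1 (hcut 29 le_rfl) (by
      have := hcut 10 (by norm_num)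
      have e5 : (5 : ℝ) / E = 5 * (1 / E) := by ring
      rw [e5] at this
      linarith) hbig
  have hun := pr_union_le (ι := Fin m ⊕ Fin (d - m)) h0 h1 hh0 hh1
    (((1 - 7 / (E : ℝ)) - 4 / d - 4 / (((1 - 7 / (E : ℝ)) * n) / d ^ 29) - 2 / E - 2 / d ^ 29) * n)
  have heq := pr_hasCyc_equiv (ι := Fin m ⊕ Fin (d - m)) (ι' := Fin d)
    (Fintype.equivOfCardEq (by rw [Fintype.card_sum, Fintype.card_fin, Fintype.card_fin, Fintype.card_fin]; omega))
    (p := p) (h0 := h0) (h1 := h1)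
    (((1 - 7 / (E : ℝ)) - 4 / d - 4 / (((1 - 7 / (E : ℝ)) * n) / d ^ 29) - 2 / E - 2 / d ^ 29) * n)
  have hall := hst.trans (hun.trans heq)
  -- the length
  have hlen : (1 - 20 / (E : ℝ)) * 2 ^ d ≤
      ((1 - 7 / (E : ℝ)) - 4 / d - 4 / (((1 - 7 / (E : ℝ)) * n) / d ^ 29) - 2 / E - 2 / d ^ 29) * n := by
    rw [← hnr]
    apply mul_le_mul_of_nonneg_right _ hn0.le
    have e1 : (4 : ℝ) / d ≤ 4 * (1 / E) := by
      have : (4 : ℝ) / d = 4 * (1 / d) := by ring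
      rw [this]; linarith
    have e2 : (2 : ℝ) / d ^ 29 ≤ 2 * (1 / E) := by
      have e3 : (2 : ℝ) / d ^ 29 ≤ 2 / d := by
        apply div_le_div_of_nonneg_left (by norm_num) hd0
        calc (d : ℝ) = d ^ 1 := (pow_one _).symm
          _ ≤ d ^ 29 := pow_le_pow_right₀ hd1r (by norm_num)
      have : (2 : ℝ) / d = 2 * (1 / d) := by ring
      linarith
    have e3 : 4 / (((1 - 7 / (E : ℝ)) * n) / d ^ 29) ≤ 1 / E := by
      have e4 : 4 * (d : ℝ) ^ 29 * d ≤ (1 - 7 / (E : ℝ)) * n := by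
        have e5 : 8 * (d : ℝ) ^ 29 * d ≤ (d : ℝ) ^ 40 := by
          have : (d : ℝ) ^ 40 = d ^ 9 * d * (d ^ 29 * d) := by ring
          rw [this]
          have h9 : (1 : ℝ) ≤ d ^ 9 := one_le_pow₀ hd1r
          have h8 : (8 : ℝ) ≤ d ^ 9 * d := by nlinarith [show (8 : ℝ) ≤ d by linarith [show (8 : ℝ) ≤ 10 ^ 14 by norm_num]]
          have h7 : 0 ≤ (d : ℝ) ^ 29 * d := by positivity
          nlinarith
        rw [h7E]
        nlinarith
      have e6 : 4 / (((1 - 7 / (E : ℝ)) * n) / d ^ 29) = 4 * d ^ 29 / ((1 - 7 / (E : ℝ)) * n) := by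
        rw [div_div_eq_mul_div]
      rw [e6]
      have hpos : 0 < (1 - 7 / (E : ℝ)) * n := lt_of_lt_of_le (by positivity) hbig
      rw [div_le_div_iff₀ hpos hE0]
      have e7 : 4 * (d : ℝ) ^ 29 * E ≤ 4 * (d : ℝ) ^ 29 * d :=
        mul_le_mul_of_nonneg_left (by linarith) (by positivity)
      linarith
    have e8 : (2 : ℝ) / E = 2 * (1 / E) := by ring
    have e9 : (20 : ℝ) / E = 20 * (1 / E) := by ring
    rw [e8, e9, h7E]
    rw [h7E] at e3
    linarith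
  refine le_trans ?_ (hall.trans (FP.pr_mono _ fun ω h => h.mono (fun _ _ h => h) hlen))
  -- the errors
  have err1 := err1_bound (d := d) (E := E) (T := Nat.sqrt d + 1) (μ := d - m) (κ := m) hd (by omega) hEd rfl
    (by omega) (by omega)
  have err2 : (E : ℝ) ^ 2 / 2 ^ (d - m) ≤ 1 / (3 * d) := by
    have e1 : (d : ℝ) ^ 20 ≤ 2 ^ (d - m) := by
      have e2 : ((d : ℝ) ^ 20) ^ 2 ≤ ((2 : ℝ) ^ (d - m)) ^ 2 := by
        calc ((d : ℝ) ^ 20) ^ 2 = (d : ℝ) ^ 40 := by ring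
          _ ≤ (2 : ℝ) ^ d := hpow
          _ ≤ 2 ^ ((d - m) * 2) := pow_le_pow_right₀ (by norm_num) (by omega)
          _ = ((2 : ℝ) ^ (d - m)) ^ 2 := by rw [pow_mul]
      exact le_of_pow_le_pow_left₀ (by norm_num) (by positivity) e2
    rw [div_le_div_iff₀ (by positivity) (by positivity)]
    have e3 : (E : ℝ) ^ 2 * (3 * d) ≤ d ^ 20 := by
      have e4 : (E : ℝ) ^ 2 * (3 * d) ≤ d * (3 * d) := mul_le_mul_of_nonneg_right hEd2 (by positivity)
      have e5 : (d : ℝ) * (3 * d) ≤ d ^ 20 := by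
        have : (d : ℝ) ^ 20 = d ^ 17 * d * (d * d) := by ring
        rw [this]
        have h17 : (1 : ℝ) ≤ d ^ 17 := one_le_pow₀ hd1r
        have h3 : (3 : ℝ) ≤ d ^ 17 * d := by nlinarith [show (3 : ℝ) ≤ d by linarith [show (3 : ℝ) ≤ 10 ^ 14 by norm_num]]
        nlinarith [mul_pos hd0 hd0]
      linarith
    linarith
  have err3 : Real.exp (6 * (n / d ^ 10) - p / 2 * (n / d ^ 8)) ≤ 1 / (3 * d) := by
    have e1 : 6 * (n / d ^ 10) - p / 2 * (n / d ^ 8) ≤ -(d : ℝ) := by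
      have e2 : n / (d : ℝ) ^ 8 = (n / d ^ 10) * d ^ 2 := by field_simp
      rw [e2]
      have e3 : p / 2 * (n / d ^ 10 * d ^ 2) = (p * d) / 2 * (n / d ^ 10 * d) := by ring
      rw [e3]
      have e4 : (d : ℝ) ≤ n / d ^ 10 := by
        rw [le_div_iff₀ (by positivity)]
        calc (d : ℝ) * (d : ℝ) ^ 10 = (d : ℝ) ^ 11 := by ring
          _ ≤ (d : ℝ) ^ 40 := pow_le_pow_right₀ hd1r (by norm_num)
          _ ≤ n := hn40
      have e5 : 0 < n / (d : ℝ) ^ 10 := by positivity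
      have e6 : 50 * (n / d ^ 10 * d) ≤ (p * d) / 2 * (n / d ^ 10 * d) :=
        mul_le_mul_of_nonneg_right (by linarith) (by positivity)
      have e7 : n / (d : ℝ) ^ 10 * 1 ≤ n / d ^ 10 * d := mul_le_mul_of_nonneg_left hd1r e5.le
      linarith
    have e2 : Real.exp (-(d : ℝ)) ≤ 1 / (3 * d) := by
      rw [Real.exp_neg, ← one_div]
      apply div_le_div_of_nonneg_left (by norm_num) (by positivity)
      have h3 := Real.quadratic_le_exp_of_nonneg hd0.le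
      nlinarith [show (100 : ℝ) ≤ d by linarith [show (100 : ℝ) ≤ 10 ^ 14 by norm_num]]
    exact (Real.exp_le_exp.mpr e1).trans e2
  have hsum : (1 : ℝ) / d = 1 / (3 * d) + 1 / (3 * d) + 1 / (3 * d) := by field_simp; norm_num
  rw [Fintype.card_fin, Fintype.card_fin, hsum]
  linarith

/-- the result of section 6 (covering densities) -/
def IterRes : Prop :=
  ∃ c1 : ℝ, 0 < c1 ∧ ∃ E0 d0 : ℕ, ∀ (d E : ℕ) (p : ℝ) (h0 : 0 ≤ p) (h1 : p ≤ 1),
    d0 ≤ d → E0 ≤ E → E ^ 40 ≤ d → p ^ 10 * (d : ℝ) ^ 9 ≤ 1 → 7 * Real.log E + 6 ≤ c1 * (p * d) →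
    ∃ m L : ℕ, 2 * m ≤ d ∧ d ^ 31 ≤ L ∧ 1 - 4 / (E : ℝ) ≤ nu p h0 h1 m L

/-- the non-asymptotic core from the result of section 6 -/
theorem sparseCore_of_iter (hI : IterRes) : SparseCore := by
  obtain ⟨c1, hc1, E0, d0, hI⟩ := hI
  refine ⟨min (c1 / 2) (6 / 100), by positivity, max E0 20, max d0 (10 ^ 14), ?_⟩
  intro d E p h0 h1 hd hE hEd hp hlog
  have hd1 : 10 ^ 14 ≤ d := (le_max_right _ _).trans hd
  have hdr : (10 : ℝ) ^ 14 ≤ d := by exact_mod_cast hd1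
  have hd0 : (0 : ℝ) < d := by linarith [show (0 : ℝ) < 10 ^ 14 by norm_num]
  have hE1 : 20 ≤ E := (le_max_right _ _).trans hE
  have hlE : 0 ≤ Real.log E := Real.log_nonneg (by
    have : (20 : ℝ) ≤ E := by exact_mod_cast hE1
    linarith)
  have hpd : 0 ≤ p * d := by positivity
  have hc2 : 7 * Real.log E + 6 ≤ c1 * (p / 2 * d) := by
    have : min (c1 / 2) (6 / 100) * (p * d) ≤ c1 / 2 * (p * d) :=
      mul_le_mul_of_nonneg_right (min_le_left _ _) hpd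
    linarith
  have hp100 : 100 ≤ p * d := by
    have : min (c1 / 2) (6 / 100) * (p * d) ≤ 6 / 100 * (p * d) :=
      mul_le_mul_of_nonneg_right (min_le_right _ _) hpd
    linarith
  have hh0 : 0 ≤ p / 2 := by linarith
  have hh1 : p / 2 ≤ 1 := by linarith
  obtain ⟨m, L, hm, hL, hν⟩ := hI d E (p / 2) hh0 hh1 ((le_max_left _ _).trans hd)
    ((le_max_left _ _).trans hE) hEd (by
      have h2 : (p / 2) ^ 10 ≤ p ^ 10 := pow_le_pow_left₀ hh0 (by linarith) 10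
      have h3 : (p / 2) ^ 10 * (d : ℝ) ^ 9 ≤ p ^ 10 * (d : ℝ) ^ 9 :=
        mul_le_mul_of_nonneg_right h2 (by positivity)
      linarith) hc2
  refine (core_glue h0 h1 hh0 hh1 hd1 hE1 hEd hp100 hm hL hν).trans (FP.pr_mono _ fun ω h => ?_)
  obtain ⟨l, hl, a1, a2, a3, a4, a5⟩ := h
  exact ⟨l, hl, a1, a3, a4, a5, a2⟩

end Pool.Agent.LongCyc
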