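import Mathlib

/-!
# Random subsets of a finite set (finite weighted sums)
-/

set_option autoImplicit false

namespace Pool.Agent.LongCyc

open Finset

variable {V : Type*} [Fintype V] [DecidableEq V]

/-- the probability of the set `T` if every point is taken independently with probability `q` -/
def wt (q : ℝ) (T : Finset V) : ℝ := q ^ T.card * (1 - q) ^ Tᶜ.card

theorem wt_nonneg {q : ℝ} (h0 : 0 ≤ q) (h1 : q ≤ 1) (T : Finset V) : 0 ≤ wt q T :=
  mul_nonneg (pow_nonneg h0 _) (pow_nonneg (by linarith) _)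

/-- generating function -/
theorem wt_prod (q : ℝ) (f : V → ℝ) :
    ∑ T : Finset V, wt q T * ∏ v ∈ T, f v = ∏ v, (q * f v + (1 - q)) := by
  rw [Finset.prod_add]
  rw [Finset.powerset_univ]
  refine Finset.sum_congr rfl fun T _ => ?_
  rw [Finset.prod_mul_distrib, Finset.prod_const, Finset.prod_const, wt, Finset.compl_eq_univ_sdiff]
  ring

theorem wt_sum (q : ℝ) : ∑ T : Finset V, wt q T = 1 := by
  have := wt_prod (V := V) q (fun _ => 1)
  simpa using this

/-- expectation of a linear function -/
theorem wt_mem (q : ℝ) (v : V) : ∑ T : Finset V, wt q T * (if v ∈ T then 1 else 0) = q := by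
  have h1 := wt_prod (V := V) q (fun u => if u = v then 0 else 1)
  have h2 : ∀ T : Finset V, ∏ u ∈ T, (if u = v then (0 : ℝ) else 1) = if v ∈ T then 0 else 1 := by
    intro T
    split_ifs with h
    · exact Finset.prod_eq_zero h (by simp)
    · refine Finset.prod_eq_one fun u hu => ?_
      rw [if_neg]
      rintro rfl
      exact h hu
  simp only [h2] at h1
  have h3 : ∏ u : V, (q * (if u = v then (0 : ℝ) else 1) + (1 - q)) = 1 - q := by
    rw [Finset.prod_eq_single v]
    · simp
    · intro u _ hu
      simp [hu]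
    · intro h
      exact absurd (Finset.mem_univ v) h
  rw [h3] at h1
  have h4 := wt_sum (V := V) q
  have h5 : ∑ T : Finset V, wt q T * (if v ∈ T then (1 : ℝ) else 0) +
      ∑ T : Finset V, wt q T * (if v ∈ T then (0 : ℝ) else 1) = ∑ T : Finset V, wt q T := by
    rw [← Finset.sum_add_distrib]
    refine Finset.sum_congr rfl fun T _ => ?_
    split_ifs <;> ring
  linarith

theorem wt_inter (q : ℝ) (A : Finset V) :
    ∑ T : Finset V, wt q T * ((T ∩ A).card : ℝ) = q * A.card := by
  have h1 : ∀ T : Finset V, ((T ∩ A).card : ℝ) = ∑ v ∈ A, if v ∈ T then 1 else 0 := by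
    intro T
    rw [Finset.sum_ite_mem, Finset.sum_const, Finset.inter_comm]
    simp
  simp only [h1, Finset.mul_sum]
  rw [Finset.sum_comm]
  rw [Finset.sum_congr rfl fun v _ => wt_mem q v]
  rw [Finset.sum_const, nsmul_eq_mul, mul_comm]

/-- Markov's inequality -/
theorem wt_markov {q : ℝ} (h0 : 0 ≤ q) (h1 : q ≤ 1) (X : Finset V → ℝ) (hX : ∀ T, 0 ≤ X T)
    {μ c : ℝ} (hc : 0 < c) (hμ : ∑ T, wt q T * X T ≤ μ) :
    ∑ T, wt q T * (if c * μ < X T then 1 else 0) ≤ 1 / c := by
  have hμ0 : 0 ≤ μ := (Finset.sum_nonneg fun T _ => mul_nonneg (wt_nonneg h0 h1 T) (hX T)).trans hμ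
  rcases hμ0.eq_or_lt with rfl | hpos
  · have hz : ∀ T, wt q T * X T = 0 := by
      have := (Finset.sum_eq_zero_iff_of_nonneg
        (fun T _ => mul_nonneg (wt_nonneg h0 h1 T) (hX T))).mp
        (le_antisymm hμ (Finset.sum_nonneg fun T _ => mul_nonneg (wt_nonneg h0 h1 T) (hX T)))
      exact fun T => this T (Finset.mem_univ T)
    have : ∑ T : Finset V, wt q T * (if c * 0 < X T then (1 : ℝ) else 0) = 0 := by
      refine Finset.sum_eq_zero fun T _ => ?_
      rcases mul_eq_zero.mp (hz T) with h | h
      · rw [h, zero_mul]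
      · rw [h]; simp
    rw [this]
    positivity
  · have h2 : ∑ T, wt q T * (if c * μ < X T then 1 else 0) ≤ ∑ T, wt q T * (X T / (c * μ)) := by
      refine Finset.sum_le_sum fun T _ => mul_le_mul_of_nonneg_left ?_ (wt_nonneg h0 h1 T)
      split_ifs with h
      · rw [one_le_div (by positivity)]
        exact h.le
      · have := hX T
        positivity
    have h3 : ∑ T, wt q T * (X T / (c * μ)) = (∑ T, wt q T * X T) / (c * μ) := by
      rw [Finset.sum_div]
      refine Finset.sum_congr rfl fun T _ => ?_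
      ring
    rw [h3] at h2
    refine h2.trans ?_
    rw [div_le_div_iff₀ (by positivity) hc]
    nlinarith

/-- all points of `B` are absent -/
theorem wt_disjoint (q : ℝ) (B : Finset V) :
    ∑ T : Finset V, wt q T * (if Disjoint T B then 1 else 0) = (1 - q) ^ B.card := by
  have h1 := wt_prod (V := V) q (fun u => if u ∈ B then 0 else 1)
  have h2 : ∀ T : Finset V, ∏ u ∈ T, (if u ∈ B then (0 : ℝ) else 1) =
      if Disjoint T B then 1 else 0 := by
    intro T
    split_ifs with h
    · refine Finset.prod_eq_one fun u hu => ?_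
      rw [if_neg (Finset.disjoint_left.mp h hu)]
    · rw [Finset.not_disjoint_iff] at h
      obtain ⟨u, hu, huB⟩ := h
      exact Finset.prod_eq_zero hu (by simp [huB])
  simp only [h2] at h1
  rw [h1]
  have h3 : ∀ u : V, (q * (if u ∈ B then (0 : ℝ) else 1) + (1 - q)) =
      if u ∈ B then 1 - q else 1 := by
    intro u
    split_ifs <;> ring
  rw [Finset.prod_congr rfl fun u _ => h3 u, Finset.prod_ite_mem, Finset.prod_const,
    Finset.univ_inter]

/-- number of small subsets -/
theorem card_small (T : Finset V) {s n : ℝ} (hs : 0 < s) (hsn : s ≤ n) (ht : (T.card : ℝ) ≤ n) :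
    (((T.powerset.filter fun σ => (σ.card : ℝ) ≤ s).card : ℕ) : ℝ) ≤
      Real.exp (s * (1 + Real.log (n / s))) := by
  have hn : 0 < n := hs.trans_le hsn
  have hns : 1 ≤ n / s := (one_le_div hs).mpr hsn
  have h1 : (((T.powerset.filter fun σ => (σ.card : ℝ) ≤ s).card : ℕ) : ℝ) ≤
      ∑ σ ∈ T.powerset, (n / s) ^ s * (s / n) ^ σ.card := by
    rw [Finset.card_eq_sum_ones, Nat.cast_sum, Finset.sum_filter]
    refine Finset.sum_le_sum fun σ _ => ?_
    split_ifs with h
    · have : (n / s) ^ s * (s / n) ^ σ.card = (n / s) ^ (s - σ.card) := by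
        rw [Real.rpow_sub (by positivity), Real.rpow_natCast, ← inv_div n s, inv_pow]
        rfl
      rw [this]
      push_cast
      exact Real.one_le_rpow hns (by linarith)
    · positivity
  refine h1.trans ?_
  rw [← Finset.mul_sum]
  have h2 : ∑ σ ∈ T.powerset, (s / n) ^ σ.card = (s / n + 1) ^ T.card := by
    rw [← Finset.sum_pow_mul_eq_add_pow]
    simp
  rw [h2]
  have h3 : (s / n + 1) ^ T.card ≤ Real.exp s := by
    have h4 : s / n + 1 ≤ Real.exp (s / n) := Real.add_one_le_exp _
    calc (s / n + 1) ^ T.card ≤ Real.exp (s / n) ^ T.card :=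
          pow_le_pow_left₀ (by positivity) h4 _
      _ = Real.exp (s / n * T.card) := by rw [← Real.exp_nat_mul]; ring_nf
      _ ≤ Real.exp s := by
          apply Real.exp_le_exp.mpr
          calc s / n * T.card ≤ s / n * n := mul_le_mul_of_nonneg_left ht (by positivity)
            _ = s := by field_simp
  have h5 : (n / s) ^ s = Real.exp (s * Real.log (n / s)) := by
    rw [Real.rpow_def_of_pos (by positivity), mul_comm]
  rw [h5, mul_add, mul_one, Real.exp_add, mul_comm]
  exact mul_le_mul_of_nonneg_right h3 (Real.exp_pos _).le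

end Pool.Agent.LongCyc
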