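import Pool.Agent.LongCyc.Iso
import Pool.Agent.LongCyc.Wt

/-!
# Counting sets with small edge boundary in the cube
-/

set_option autoImplicit false

namespace Pool.Agent.LongCyc

open Finset

variable {ι : Type*} [DecidableEq ι] [Fintype ι]

/-- the neighbours of `x` -/
def nbr (x : Cube ι) : Finset (Cube ι) := Finset.univ.image fun i => flip i x

theorem card_nbr (x : Cube ι) : (nbr x).card = Fintype.card ι := by
  rw [nbr, Finset.card_image_of_injective _ (flip_dir_injective x), Finset.card_univ]

/-- the neighbours of `x` on the other side of `A` -/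
def oth (A : Finset (Cube ι)) (x : Cube ι) : Finset (Cube ι) :=
  if x ∈ A then nbr x \ A else nbr x ∩ A

/-- the neighbours of `x` on the same side of `A` -/
def sam (A : Finset (Cube ι)) (x : Cube ι) : Finset (Cube ι) :=
  if x ∈ A then nbr x ∩ A else nbr x \ A

theorem card_oth_add_sam (A : Finset (Cube ι)) (x : Cube ι) :
    (oth A x).card + (sam A x).card = Fintype.card ι := by
  rw [← card_nbr x, oth, sam]
  split_ifs
  · exact Finset.card_sdiff_add_card_inter _ _
  · rw [add_comm]; exact Finset.card_sdiff_add_card_inter _ _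

theorem disj_oth_sam (A : Finset (Cube ι)) (x : Cube ι) : Disjoint (oth A x) (sam A x) := by
  rw [oth, sam]
  split_ifs
  · exact Finset.disjoint_sdiff_inter _ _
  · exact (Finset.disjoint_sdiff_inter _ _).symm

theorem sum_sdiff_nbr (A : Finset (Cube ι)) : ∑ x ∈ A, (nbr x \ A).card = (bd A).card := by
  have h : ∀ x, (nbr x \ A).card = (Finset.univ.filter fun i => flip i x ∉ A).card := by
    intro x
    rw [← Finset.card_image_of_injective (Finset.univ.filter fun i => flip i x ∉ A)
      (flip_dir_injective x)]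
    congr 1
    ext y
    simp only [nbr, Finset.mem_sdiff, Finset.mem_image, Finset.mem_univ, true_and,
      Finset.mem_filter]
    constructor
    · rintro ⟨⟨i, rfl⟩, h⟩
      exact ⟨i, h, rfl⟩
    · rintro ⟨i, h, rfl⟩
      exact ⟨⟨i, rfl⟩, h⟩
  simp only [h]
  rw [bd, bdD, Finset.card_filter, Finset.sum_product]
  refine Finset.sum_congr rfl fun x _ => ?_
  rw [Finset.card_filter]

theorem sum_oth (A : Finset (Cube ι)) : ∑ x, (oth A x).card = 2 * (bd A).card := by
  rw [← Finset.sum_add_sum_compl A]
  have h1 : ∑ x ∈ A, (oth A x).card = (bd A).card := by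
    rw [← sum_sdiff_nbr]
    refine Finset.sum_congr rfl fun x hx => ?_
    rw [oth, if_pos hx]
  have h2 : ∑ x ∈ Aᶜ, (oth A x).card = (bd A).card := by
    rw [← bd_compl_card, ← sum_sdiff_nbr]
    refine Finset.sum_congr rfl fun x hx => ?_
    rw [oth, if_neg (Finset.mem_compl.mp hx)]
    congr 1
    ext y
    simp
  rw [h1, h2]
  ring

/-- reconstruction from a sample -/
def recon (T σ : Finset (Cube ι)) : Finset (Cube ι) :=
  Finset.univ.filter fun x => (nbr x ∩ (T \ σ)).card < (nbr x ∩ σ).card

/-- the vertices where the reconstruction fails -/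
def wrong (A T : Finset (Cube ι)) : Finset (Cube ι) := symmDiff A (recon T (T ∩ A))

theorem wrong_le {A T : Finset (Cube ι)} {x : Cube ι} (hx : x ∈ wrong A T) :
    (T ∩ sam A x).card ≤ (T ∩ oth A x).card := by
  have e1 : nbr x ∩ (T \ (T ∩ A)) = T ∩ (nbr x \ A) := by
    ext y; simp only [Finset.mem_inter, Finset.mem_sdiff]; tauto
  have e2 : nbr x ∩ (T ∩ A) = T ∩ (nbr x ∩ A) := by
    ext y; simp only [Finset.mem_inter]; tauto
  rw [wrong, Finset.mem_symmDiff, recon, Finset.mem_filter, e1, e2] at hx
  rcases hx with ⟨h1, h2⟩ | ⟨h1, h2⟩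
  · rw [sam, oth, if_pos h1, if_pos h1]
    simp only [Finset.mem_univ, true_and, not_lt] at h2
    exact h2
  · rw [sam, oth, if_neg h2, if_neg h2]
    exact h1.2.le

theorem wrong_prob {q : ℝ} (h0 : 0 ≤ q) (h1 : q ≤ 1) (A : Finset (Cube ι)) (x : Cube ι)
    (hx : 4 * (oth A x).card ≤ Fintype.card ι) :
    ∑ T : Finset (Cube ι), wt q T * (if x ∈ wrong A T then 1 else 0) ≤
      Real.exp (-(q * Fintype.card ι / 8)) := by
  set f : Cube ι → ℝ := fun v => if v ∈ oth A x then 2 else if v ∈ sam A x then 2⁻¹ else 1 with hf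
  have hprod : ∀ T : Finset (Cube ι), ∏ v ∈ T, f v =
      2 ^ (T ∩ oth A x).card * (2⁻¹) ^ (T ∩ sam A x).card := by
    intro T
    have : ∀ v, f v = (if v ∈ oth A x then 2 else 1) * (if v ∈ sam A x then 2⁻¹ else 1) := by
      intro v
      rw [hf]
      simp only
      by_cases h2 : v ∈ oth A x
      · have h3 : v ∉ sam A x := Finset.disjoint_left.mp (disj_oth_sam A x) h2
        simp [h2, h3]
      · simp [h2]
    rw [Finset.prod_congr rfl fun v _ => this v, Finset.prod_mul_distrib, Finset.prod_ite_mem,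
      Finset.prod_ite_mem, Finset.prod_const, Finset.prod_const]
  have hle : ∑ T : Finset (Cube ι), wt q T * (if x ∈ wrong A T then 1 else 0) ≤
      ∑ T : Finset (Cube ι), wt q T * ∏ v ∈ T, f v := by
    refine Finset.sum_le_sum fun T _ => mul_le_mul_of_nonneg_left ?_ (wt_nonneg h0 h1 T)
    rw [hprod]
    split_ifs with h
    · have h2 := wrong_le h
      rw [inv_pow, ← div_eq_mul_inv, one_le_div (by positivity)]
      exact pow_le_pow_right₀ (by norm_num) h2
    · positivity
  refine hle.trans ?_
  rw [wt_prod]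
  have hfac : ∀ v, q * f v + (1 - q) =
      (if v ∈ oth A x then 1 + q else 1) * (if v ∈ sam A x then 1 - q / 2 else 1) := by
    intro v
    rw [hf]
    simp only
    by_cases h2 : v ∈ oth A x
    · have h3 : v ∉ sam A x := Finset.disjoint_left.mp (disj_oth_sam A x) h2
      simp only [h2, h3, if_true, if_false]
      ring
    · by_cases h3 : v ∈ sam A x
      · simp only [h2, h3, if_true, if_false]
        ring
      · simp only [h2, h3, if_false]
        ring
  rw [Finset.prod_congr rfl fun v _ => hfac v, Finset.prod_mul_distrib, Finset.prod_ite_mem,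
    Finset.prod_ite_mem, Finset.prod_const, Finset.prod_const, Finset.univ_inter,
    Finset.univ_inter]
  have h2 : (1 + q) ^ (oth A x).card ≤ Real.exp (q * (oth A x).card) := by
    rw [mul_comm, Real.exp_nat_mul]
    exact pow_le_pow_left₀ (by linarith) (by linarith [Real.add_one_le_exp q]) _
  have h3 : (1 - q / 2) ^ (sam A x).card ≤ Real.exp (-(q / 2) * (sam A x).card) := by
    rw [mul_comm, Real.exp_nat_mul]
    exact pow_le_pow_left₀ (by linarith) (by linarith [Real.add_one_le_exp (-(q / 2))]) _
  calc (1 + q) ^ (oth A x).card * (1 - q / 2) ^ (sam A x).card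
      ≤ Real.exp (q * (oth A x).card) * Real.exp (-(q / 2) * (sam A x).card) :=
        mul_le_mul h2 h3 (pow_nonneg (by linarith) _) (Real.exp_pos _).le
    _ = Real.exp (q * (oth A x).card + -(q / 2) * (sam A x).card) := (Real.exp_add _ _).symm
    _ ≤ _ := by
        apply Real.exp_le_exp.mpr
        have h4 : ((oth A x).card : ℝ) + (sam A x).card = Fintype.card ι := by
          exact_mod_cast card_oth_add_sam A x
        have h5 : 4 * ((oth A x).card : ℝ) ≤ Fintype.card ι := by exact_mod_cast hx
        nlinarith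

/-- the expected number of errors -/
theorem wrong_card {q : ℝ} (h0 : 0 ≤ q) (h1 : q ≤ 1) (hι : 0 < Fintype.card ι)
    (A : Finset (Cube ι)) :
    ∑ T : Finset (Cube ι), wt q T * ((wrong A T).card : ℝ) ≤
      8 * (bd A).card / Fintype.card ι +
        2 ^ Fintype.card ι * Real.exp (-(q * Fintype.card ι / 8)) := by
  have hδ : (0 : ℝ) < Fintype.card ι := by exact_mod_cast hι
  set H := Finset.univ.filter fun x : Cube ι => Fintype.card ι < 4 * (oth A x).card with hH
  have hHcard : (H.card : ℝ) ≤ 8 * (bd A).card / Fintype.card ι := by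
    rw [le_div_iff₀ hδ]
    have : H.card * Fintype.card ι ≤ 8 * (bd A).card := by
      calc H.card * Fintype.card ι = ∑ x ∈ H, Fintype.card ι := by simp
        _ ≤ ∑ x ∈ H, 4 * (oth A x).card :=
            Finset.sum_le_sum fun x hx => (Finset.mem_filter.mp hx).2.le
        _ ≤ ∑ x, 4 * (oth A x).card :=
            Finset.sum_le_sum_of_subset (Finset.subset_univ _)
        _ = 8 * (bd A).card := by
            rw [← Finset.mul_sum, sum_oth]
            ring
    exact_mod_cast this
  have hc : ∀ T : Finset (Cube ι), ((wrong A T).card : ℝ) =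
      ∑ x, if x ∈ wrong A T then 1 else 0 := by
    intro T
    simp
  simp only [hc, Finset.mul_sum]
  rw [Finset.sum_comm, ← Finset.sum_add_sum_compl H]
  refine add_le_add ?_ ?_
  · refine le_trans ?_ hHcard
    rw [Finset.card_eq_sum_ones, Nat.cast_sum]
    refine Finset.sum_le_sum fun x _ => ?_
    have hle : ∑ T : Finset (Cube ι), wt q T * (if x ∈ wrong A T then (1 : ℝ) else 0) ≤
        ∑ T : Finset (Cube ι), wt q T := by
      refine Finset.sum_le_sum fun T _ => ?_
      refine mul_le_of_le_one_right (wt_nonneg h0 h1 T) ?_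
      split_ifs <;> norm_num
    rw [wt_sum] at hle
    simpa using hle
  · calc ∑ x ∈ Hᶜ, ∑ T : Finset (Cube ι), wt q T * (if x ∈ wrong A T then (1 : ℝ) else 0)
        ≤ ∑ x ∈ Hᶜ, Real.exp (-(q * Fintype.card ι / 8)) := by
          refine Finset.sum_le_sum fun x hx => wrong_prob h0 h1 A x ?_
          rw [Finset.mem_compl, hH, Finset.mem_filter] at hx
          simp only [Finset.mem_univ, true_and, not_lt] at hx
          exact hx
      _ = Hᶜ.card * Real.exp (-(q * Fintype.card ι / 8)) := by
          rw [Finset.sum_const, nsmul_eq_mul]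
      _ ≤ _ := by
          refine mul_le_mul_of_nonneg_right ?_ (Real.exp_pos _).le
          have : Hᶜ.card ≤ 2 ^ Fintype.card ι := by
            refine (Finset.card_le_univ _).trans ?_
            simp
          exact_mod_cast this

/-- counting sets by samples -/
theorem count_by_sample {q : ℝ} (h0 : 0 ≤ q) (h1 : q ≤ 1) (𝒜 : Finset (Finset (Cube ι)))
    {μ1 μ2 μ3 : ℝ} (hμ1 : q * 2 ^ Fintype.card ι ≤ μ1)
    (hμ2 : ∀ A ∈ 𝒜, q * A.card ≤ μ2)
    (hμ3 : ∀ A ∈ 𝒜, ∑ T : Finset (Cube ι), wt q T * ((wrong A T).card : ℝ) ≤ μ3) :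
    ∃ T : Finset (Cube ι), (T.card : ℝ) ≤ 4 * μ1 ∧ (𝒜.card : ℝ) ≤ 4 *
      ((T.powerset.filter fun σ => (σ.card : ℝ) ≤ 4 * μ2).card *
        ((Finset.univ : Finset (Cube ι)).powerset.filter fun σ => (σ.card : ℝ) ≤ 4 * μ3).card) := by
  classical
  set good : Finset (Cube ι) → Finset (Cube ι) → Prop := fun T A =>
    (T.card : ℝ) ≤ 4 * μ1 ∧ ((T ∩ A).card : ℝ) ≤ 4 * μ2 ∧ ((wrong A T).card : ℝ) ≤ 4 * μ3 with hgood
  -- each `A` is good for many `T`
  have hmany : ∀ A ∈ 𝒜, (1 : ℝ) / 4 ≤ ∑ T, wt q T * (if good T A then 1 else 0) := by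
    intro A hA
    have m1 := wt_markov (V := Cube ι) h0 h1 (fun T => (T.card : ℝ)) (fun T => by positivity)
      (μ := μ1) (c := 4) (by norm_num) (by
        have := wt_inter (V := Cube ι) q Finset.univ
        simp only [Finset.inter_univ, Finset.card_univ] at this
        rw [this]
        refine le_trans (le_of_eq ?_) hμ1
        simp)
    have m2 := wt_markov (V := Cube ι) h0 h1 (fun T => ((T ∩ A).card : ℝ)) (fun T => by positivity)
      (μ := μ2) (c := 4) (by norm_num) (by rw [wt_inter]; exact hμ2 A hA)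
    have m3 := wt_markov (V := Cube ι) h0 h1 (fun T => ((wrong A T).card : ℝ))
      (fun T => by positivity) (μ := μ3) (c := 4) (by norm_num) (hμ3 A hA)
    have hsum : ∑ T : Finset (Cube ι), wt q T ≤ ∑ T, wt q T * (if good T A then 1 else 0) +
        (∑ T : Finset (Cube ι), wt q T * (if 4 * μ1 < (T.card : ℝ) then 1 else 0) +
         ∑ T : Finset (Cube ι), wt q T * (if 4 * μ2 < ((T ∩ A).card : ℝ) then 1 else 0) +
         ∑ T : Finset (Cube ι), wt q T * (if 4 * μ3 < ((wrong A T).card : ℝ) then 1 else 0)) := by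
      rw [← Finset.sum_add_distrib, ← Finset.sum_add_distrib, ← Finset.sum_add_distrib]
      refine Finset.sum_le_sum fun T _ => ?_
      have hw := wt_nonneg h0 h1 T
      rw [← mul_add, ← mul_add, ← mul_add]
      refine le_mul_of_one_le_right hw ?_
      have p1 : (0 : ℝ) ≤ (if 4 * μ1 < (T.card : ℝ) then 1 else 0) := by split_ifs <;> norm_num
      have p2 : (0 : ℝ) ≤ (if 4 * μ2 < ((T ∩ A).card : ℝ) then 1 else 0) := by
        split_ifs <;> norm_num
      have p3 : (0 : ℝ) ≤ (if 4 * μ3 < ((wrong A T).card : ℝ) then 1 else 0) := by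
        split_ifs <;> norm_num
      have p4 : (0 : ℝ) ≤ (if good T A then 1 else 0) := by split_ifs <;> norm_num
      by_cases g : good T A
      · rw [if_pos g]; linarith
      · have : 4 * μ1 < (T.card : ℝ) ∨ 4 * μ2 < ((T ∩ A).card : ℝ) ∨
            4 * μ3 < ((wrong A T).card : ℝ) := by
          by_contra hcon
          push Not at hcon
          exact g hcon
        rcases this with h | h | h
        · rw [if_pos h] at p1 ⊢; linarith
        · rw [if_pos h] at p2 ⊢; linarith
        · rw [if_pos h] at p3 ⊢; linarith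
    rw [wt_sum] at hsum
    linarith
  -- averaging
  have havg : (𝒜.card : ℝ) / 4 ≤ ∑ T, wt q T * ((𝒜.filter fun A => good T A).card : ℝ) := by
    have e1 : ∀ T, ((𝒜.filter fun A => good T A).card : ℝ) = ∑ A ∈ 𝒜, if good T A then 1 else 0 := by
      intro T
      simp [Finset.card_filter]
    simp only [e1, Finset.mul_sum]
    rw [Finset.sum_comm]
    calc (𝒜.card : ℝ) / 4 = ∑ A ∈ 𝒜, (1 : ℝ) / 4 := by
          rw [Finset.sum_const, nsmul_eq_mul]
          ring
      _ ≤ _ := Finset.sum_le_sum fun A hA => hmany A hA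
  obtain ⟨T, hT⟩ : ∃ T : Finset (Cube ι), (T.card : ℝ) ≤ 4 * μ1 ∧
      (𝒜.card : ℝ) / 4 ≤ ((𝒜.filter fun A => good T A).card : ℝ) := by
    by_contra hcon
    push Not at hcon
    rcases 𝒜.eq_empty_or_nonempty with rfl | hne
    · have := hcon ∅ (by
        have : 0 ≤ q * 2 ^ Fintype.card ι := by positivity
        simp only [Finset.card_empty, Nat.cast_zero]
        linarith)
      simp at this
    · have hpos : (0 : ℝ) < (𝒜.card : ℝ) / 4 := by
        have : (0 : ℝ) < 𝒜.card := by exact_mod_cast hne.card_pos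
        positivity
      -- all T: the number is smaller
      have hlt : ∀ T : Finset (Cube ι), ((𝒜.filter fun A => good T A).card : ℝ) <
          (𝒜.card : ℝ) / 4 := by
        intro T
        by_cases hT : (T.card : ℝ) ≤ 4 * μ1
        · exact hcon T hT
        · have : (𝒜.filter fun A => good T A) = ∅ := by
            refine Finset.filter_eq_empty_iff.mpr fun A _ hg => hT hg.1
          rw [this]
          simpa using hpos
      have hstrict : ∑ T, wt q T * ((𝒜.filter fun A => good T A).card : ℝ) <
          ∑ T : Finset (Cube ι), wt q T * ((𝒜.card : ℝ) / 4) := by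
        apply Finset.sum_lt_sum
        · intro T _
          exact mul_le_mul_of_nonneg_left (hlt T).le (wt_nonneg h0 h1 T)
        · by_contra hno
          push Not at hno
          have hz : ∀ T : Finset (Cube ι), wt q T = 0 := by
            intro T
            by_contra hw
            have hw' : 0 < wt q T := lt_of_le_of_ne (wt_nonneg h0 h1 T) (Ne.symm hw)
            have := hno T (Finset.mem_univ T)
            have h2 := mul_lt_mul_of_pos_left (hlt T) hw'
            linarith
          have := wt_sum (V := Cube ι) q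
          simp [hz] at this
      rw [← Finset.sum_mul, wt_sum, one_mul] at hstrict
      linarith
  refine ⟨T, hT.1, ?_⟩
  have hinj : (𝒜.filter fun A => good T A).card ≤
      ((T.powerset.filter fun σ => (σ.card : ℝ) ≤ 4 * μ2) ×ˢ
        ((Finset.univ : Finset (Cube ι)).powerset.filter fun σ => (σ.card : ℝ) ≤ 4 * μ3)).card := by
    refine Finset.card_le_card_of_injOn (fun A => (T ∩ A, wrong A T)) ?_ ?_
    · intro A hA
      have hg := (Finset.mem_filter.mp (Finset.mem_coe.mp hA)).2
      simp only [Finset.coe_product, Set.mem_prod, Finset.mem_coe, Finset.mem_filter,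
        Finset.mem_powerset]
      exact ⟨⟨Finset.inter_subset_left, hg.2.1⟩, Finset.subset_univ _, hg.2.2⟩
    · intro A _ B _ h
      obtain ⟨h2, h3⟩ := Prod.mk.inj h
      simp only [wrong] at h3
      rw [h2] at h3
      exact symmDiff_left_injective _ h3
  rw [Finset.card_product] at hinj
  have hinj' : ((𝒜.filter fun A => good T A).card : ℝ) ≤
      ((T.powerset.filter fun σ => (σ.card : ℝ) ≤ 4 * μ2).card *
        ((Finset.univ : Finset (Cube ι)).powerset.filter fun σ => (σ.card : ℝ) ≤ 4 * μ3).card :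
          ℝ) := by
    exact_mod_cast hinj
  linarith [hT.2]

theorem half_count (hι : 0 < Fintype.card ι) {b : ℝ} (hb : 0 < b)
    (hb2 : 36 * b ≤ 2 ^ Fintype.card ι * Fintype.card ι) :
    (((Finset.univ : Finset (Finset (Cube ι))).filter fun A =>
      ((bd A).card : ℝ) ≤ b ∧ 2 * A.card ≤ 2 ^ Fintype.card ι).card : ℝ) ≤
      4 * Real.exp (100 * (b / Fintype.card ι) *
        Real.log (2 ^ Fintype.card ι * Fintype.card ι / b)) := by
  set δ : ℝ := (Fintype.card ι : ℝ) with hδdef
  have hδ : 0 < δ := by rw [hδdef]; exact_mod_cast hι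
  set N : ℝ := 2 ^ Fintype.card ι with hN
  have hN0 : 0 < N := by rw [hN]; positivity
  set L : ℝ := Real.log (N * δ / b) with hL
  have h36 : 36 ≤ N * δ / b := by rw [le_div_iff₀ hb]; exact hb2
  have hlog36 : 1 ≤ Real.log 36 := by
    rw [Real.le_log_iff_exp_le (by norm_num)]
    have := Real.exp_one_lt_d9
    linarith
  have hL36 : Real.log 36 ≤ L := Real.log_le_log (by norm_num) h36
  have hL1 : 1 ≤ L := hlog36.trans hL36
  set 𝒜 := (Finset.univ : Finset (Finset (Cube ι))).filter fun A =>
      ((bd A).card : ℝ) ≤ b ∧ 2 * A.card ≤ 2 ^ Fintype.card ι with h𝒜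
  have hempty : ∅ ∈ 𝒜 := by
    rw [h𝒜, Finset.mem_filter]
    refine ⟨Finset.mem_univ _, ?_, by simp⟩
    have : bd (∅ : Finset (Cube ι)) = ∅ := by
      ext p
      simp [mem_bd]
    rw [this]
    simpa using hb.le
  obtain ⟨A₀, hA₀, hmax⟩ := Finset.exists_max_image 𝒜 (fun A => A.card) ⟨∅, hempty⟩
  have hA₀' := (Finset.mem_filter.mp hA₀).2
  have hexp1 : 1 ≤ Real.exp (100 * (b / δ) * L) := Real.one_le_exp (by positivity)
  rcases Nat.eq_zero_or_pos A₀.card with h0 | hpos
  · have : 𝒜 ⊆ {∅} := by
      intro A hA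
      have := hmax A hA
      rw [h0] at this
      rw [Finset.mem_singleton, ← Finset.card_eq_zero]
      omega
    have h1 : (𝒜.card : ℝ) ≤ 1 := by exact_mod_cast Finset.card_le_card this
    linarith
  set a : ℝ := (A₀.card : ℝ) with ha
  have ha0 : 0 < a := by rw [ha]; exact_mod_cast hpos
  have hab : a ≤ b := by
    have : ((A₀.card : ℕ) : ℝ) ≤ (bd A₀).card := by exact_mod_cast card_le_bd A₀ hA₀'.2
    exact this.trans hA₀'.1
  have haN : 2 * a ≤ N := by
    rw [ha, hN]
    exact_mod_cast hA₀'.2
  have hlogN : 0 ≤ Real.log (N / a) := Real.log_nonneg (by rw [le_div_iff₀ ha0]; linarith)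
  have hiso : a * Real.log (N / a) ≤ b := by
    have h1 := edge_iso A₀
    have h2 : Real.log 2 ≤ 1 := by
      have := Real.log_two_lt_d9
      linarith
    have h3 : Real.log 2 * ((bd A₀).card : ℝ) ≤ 1 * b :=
      mul_le_mul h2 hA₀'.1 (by positivity) (by norm_num)
    linarith
  have hab2 : a * (1 + Real.log (N / a)) ≤ 2 * b := by linarith [mul_add a 1 (Real.log (N / a))]
  rcases le_or_gt (8 * L) δ with hcase | hcase
  · -- sampling
    set q : ℝ := 8 * L / δ with hq
    have hq0 : 0 < q := by rw [hq]; positivity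
    have hq1 : q ≤ 1 := by rw [hq, div_le_one hδ]; exact hcase
    have hmu3 : ∀ A ∈ 𝒜, ∑ T : Finset (Cube ι), wt q T * ((wrong A T).card : ℝ) ≤ 9 * b / δ := by
      intro A hA
      have h1 := wrong_card hq0.le hq1 hι A
      have hA' := (Finset.mem_filter.mp hA).2
      refine h1.trans ?_
      have e1 : q * δ / 8 = L := by rw [hq]; field_simp
      rw [← hδdef, e1, ← hN]
      have e2 : N * Real.exp (-L) = b / δ := by
        rw [Real.exp_neg, hL, Real.exp_log (by positivity)]
        field_simp
      rw [e2]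
      have h2 : 8 * ((bd A).card : ℝ) / δ ≤ 8 * b / δ :=
        div_le_div_of_nonneg_right (by linarith [hA'.1]) hδ.le
      have e3 : 9 * b / δ = 8 * b / δ + b / δ := by ring
      linarith
    obtain ⟨T, hT, hcount⟩ := count_by_sample hq0.le hq1 𝒜 (μ1 := q * N) (μ2 := q * a)
      (μ3 := 9 * b / δ) le_rfl (fun A hA => mul_le_mul_of_nonneg_left (by
        rw [ha]
        exact_mod_cast hmax A hA) hq0.le) hmu3
    have hs1 := card_small T (s := 4 * (q * a)) (n := 4 * (q * N)) (by positivity)
      (by nlinarith) hT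
    have hs2 := card_small (Finset.univ : Finset (Cube ι)) (s := 4 * (9 * b / δ)) (n := N)
      (by positivity) (by
        have : 4 * (9 * b / δ) = 36 * b / δ := by ring
        rw [this, div_le_iff₀ hδ]
        exact hb2) (by simp [hN])
    have e1 : 4 * (q * N) / (4 * (q * a)) = N / a := by field_simp
    rw [e1] at hs1
    have hs1' : 4 * (q * a) * (1 + Real.log (N / a)) ≤ 64 * (b / δ) * L := by
      have e : 64 * (b / δ) * L = 4 * q * (2 * b) := by rw [hq]; field_simp; ring
      rw [e]
      have := mul_le_mul_of_nonneg_left hab2 (show 0 ≤ 4 * q by positivity)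
      linarith
    have e2 : Real.log (N / (4 * (9 * b / δ))) = L - Real.log 36 := by
      rw [hL, ← Real.log_div (by positivity) (by norm_num)]
      congr 1
      field_simp
      ring
    rw [e2] at hs2
    have hs2' : 4 * (9 * b / δ) * (1 + (L - Real.log 36)) ≤ 36 * (b / δ) * L := by
      have e : 4 * (9 * b / δ) = 36 * (b / δ) := by ring
      rw [e]
      exact mul_le_mul_of_nonneg_left (by linarith) (by positivity)
    have h3 := mul_le_mul (hs1.trans (Real.exp_le_exp.mpr hs1'))
      (hs2.trans (Real.exp_le_exp.mpr hs2')) (by positivity) (Real.exp_pos _).le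
    rw [← Real.exp_add] at h3
    have e4 : 64 * (b / δ) * L + 36 * (b / δ) * L = 100 * (b / δ) * L := by ring
    rw [e4] at h3
    refine hcount.trans ?_
    exact mul_le_mul_of_nonneg_left h3 (by norm_num)
  · -- few directions
    have hsub : 𝒜 ⊆ (Finset.univ : Finset (Cube ι)).powerset.filter fun σ => (σ.card : ℝ) ≤ a := by
      intro A hA
      rw [Finset.mem_filter, Finset.mem_powerset]
      refine ⟨Finset.subset_univ _, ?_⟩
      rw [ha]
      exact_mod_cast hmax A hA
    have hs := card_small (Finset.univ : Finset (Cube ι)) (s := a) (n := N) ha0 (by linarith)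
      (by simp [hN])
    have h1 : (𝒜.card : ℝ) ≤ Real.exp (a * (1 + Real.log (N / a))) := by
      refine le_trans ?_ hs
      exact_mod_cast Finset.card_le_card hsub
    have h2 : a * (1 + Real.log (N / a)) ≤ 100 * (b / δ) * L := by
      refine hab2.trans ?_
      have e : 100 * (b / δ) * L = b * (100 * L / δ) := by ring
      rw [e, mul_comm 2 b]
      refine mul_le_mul_of_nonneg_left ?_ hb.le
      rw [le_div_iff₀ hδ]
      linarith
    have h3 := Real.exp_le_exp.mpr h2
    have h4 := Real.exp_pos (100 * (b / δ) * L)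
    linarith

/-- **Cut counting.** The number of sets with at most `b` boundary edges. -/
theorem cut_count (hι : 0 < Fintype.card ι) {b : ℝ} (hb : 0 < b)
    (hb2 : 36 * b ≤ 2 ^ Fintype.card ι * Fintype.card ι) :
    (((Finset.univ : Finset (Finset (Cube ι))).filter fun A =>
      ((bd A).card : ℝ) ≤ b).card : ℝ) ≤
      8 * Real.exp (100 * (b / Fintype.card ι) *
        Real.log (2 ^ Fintype.card ι * Fintype.card ι / b)) := by
  have h := half_count hι hb hb2
  set 𝒜 := (Finset.univ : Finset (Finset (Cube ι))).filter fun A =>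
      ((bd A).card : ℝ) ≤ b ∧ 2 * A.card ≤ 2 ^ Fintype.card ι with h𝒜
  have hsub : ((Finset.univ : Finset (Finset (Cube ι))).filter fun A =>
      ((bd A).card : ℝ) ≤ b) ⊆ 𝒜 ∪ 𝒜.image compl := by
    intro A hA
    have hA' := (Finset.mem_filter.mp hA).2
    by_cases h2 : 2 * A.card ≤ 2 ^ Fintype.card ι
    · exact Finset.mem_union_left _ (Finset.mem_filter.mpr ⟨Finset.mem_univ _, hA', h2⟩)
    · refine Finset.mem_union_right _ (Finset.mem_image.mpr ⟨Aᶜ, Finset.mem_filter.mpr
        ⟨Finset.mem_univ _, ?_, ?_⟩, compl_compl A⟩)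
      · rw [bd_compl_card]; exact hA'
      · rw [Finset.card_compl]
        have : Fintype.card (Cube ι) = 2 ^ Fintype.card ι := by simp
        rw [this]
        omega
  have h1 := (Finset.card_le_card hsub).trans (Finset.card_union_le _ _)
  have h2 : (𝒜.image compl).card ≤ 𝒜.card := Finset.card_image_le
  have h3 : ((((Finset.univ : Finset (Finset (Cube ι))).filter fun A =>
      ((bd A).card : ℝ) ≤ b).card : ℕ) : ℝ) ≤ 2 * 𝒜.card := by
    have : ((Finset.univ : Finset (Finset (Cube ι))).filter fun A =>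
      ((bd A).card : ℝ) ≤ b).card ≤ 2 * 𝒜.card := by omega
    exact_mod_cast this
  linarith

end Pool.Agent.LongCyc
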