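import Mathlib

/-!
# Bond percolation on a finite graph, the hypercube, long cycles: the definitions used in the
final statements
-/

set_option autoImplicit false

namespace Pool.Agent.LongCyc

/-- The `d`-dimensional hypercube `Q^d`: the vertices are the `0/1`-vectors of length `d`, two
vertices are adjacent exactly when they differ in exactly one coordinate. -/
def hypercube (d : ℕ) : SimpleGraph (Fin d → Bool) where
  Adj x y := ∃! i, x i ≠ y i
  symm := ⟨fun _ _ ⟨i, h1, h2⟩ => ⟨i, h1.symm, fun j hj => h2 j hj.symm⟩⟩
  loopless := ⟨fun _ ⟨_, h1, _⟩ => h1 rfl⟩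

open Classical in
/-- The probability that the random spanning subgraph of the finite graph `G`, in which every edge
of `G` is kept independently with probability `p`, has the property `A`: the sum of
`p ^ |F| (1 - p) ^ (|E(G)| - |F|)` over all sets `F` of edges of `G` such that the graph with
the set of edges `F` has the property `A`. -/
noncomputable def percProb {V : Type*} [Fintype V] (G : SimpleGraph V) (p : ℝ)
    (A : SimpleGraph V → Prop) : ℝ :=
  ∑ F ∈ G.edgeFinset.powerset, if A (SimpleGraph.fromEdgeSet (F : Set (Sym2 V)))
    then p ^ F.card * (1 - p) ^ (G.edgeFinset.card - F.card) else 0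

/-- The graph `H` has a cycle with at least `L` edges. -/
def HasCycleGe {V : Type*} (H : SimpleGraph V) (L : ℝ) : Prop :=
  ∃ (v : V) (w : H.Walk v v), w.IsCycle ∧ L ≤ (w.length : ℝ)

end Pool.Agent.LongCyc
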