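import Pool.Agent.LongCyc.Perc
import Pool.Agent.LongCyc.Stmt

/-!
# Links between the readable definitions (`Stmt`) and the probability layer (`bern`, `opn`)
-/

set_option autoImplicit false

namespace Pool.Agent.LongCyc

open Finset

/-! ### Monotonicity in `p` and unions -/

section pimap

variable {I : Type*} [Fintype I] [DecidableEq I]

/-- combining independent coordinates coordinate by coordinate -/
theorem pi_comb {A B C : Type*} [Fintype A] [Fintype B] [Fintype C] [DecidableEq C]
    (P : FP A) (Q : FP B) (R : FP C) (g : A → B → C)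
    (hg : ∀ c, R.w c = ∑ q : A × B, if g q.1 q.2 = c then P.w q.1 * Q.w q.2 else 0)
    (f : (I → C) → ℝ) :
    (FP.pi fun _ : I => P).E (fun a => (FP.pi fun _ : I => Q).E fun b => f fun i => g (a i) (b i)) =
      (FP.pi fun _ : I => R).E f := by
  classical
  have h1 : ∀ c : I → C, (FP.pi fun _ : I => R).w c = ∑ q : I → A × B,
      if (fun i => g (q i).1 (q i).2) = c then ∏ i, P.w (q i).1 * Q.w (q i).2 else 0 := by
    intro c
    rw [FP.pi_w]
    simp only [hg]
    rw [Finset.prod_univ_sum, Fintype.piFinset_univ]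
    refine Finset.sum_congr rfl fun q _ => ?_
    split_ifs with h
    · refine Finset.prod_congr rfl fun i _ => ?_
      rw [if_pos (congrFun h i)]
    · have : ∃ i, g (q i).1 (q i).2 ≠ c i := by
        by_contra hcon
        push Not at hcon
        exact h (funext hcon)
      obtain ⟨i, hi⟩ := this
      exact Finset.prod_eq_zero (Finset.mem_univ i) (if_neg hi)
  rw [FP.E, FP.E]
  simp only [h1, Finset.sum_mul]
  rw [Finset.sum_comm]
  have h2 : ∀ q : I → A × B, (∑ c : I → C, (if (fun i => g (q i).1 (q i).2) = c then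
      ∏ i, P.w (q i).1 * Q.w (q i).2 else 0) * f c) =
      (∏ i, P.w (q i).1 * Q.w (q i).2) * f fun i => g (q i).1 (q i).2 := by
    intro q
    rw [Finset.sum_eq_single (fun i => g (q i).1 (q i).2)]
    · rw [if_pos rfl]
    · intro c _ hc
      rw [if_neg (Ne.symm hc), zero_mul]
    · intro h
      exact absurd (Finset.mem_univ _) h
  simp only [h2]
  set e : (I → A) × (I → B) ≃ (I → A × B) := (Equiv.arrowProdEquivProdArrow I (fun _ => A) (fun _ => B)).symm with he
  rw [← Equiv.sum_comp e, Fintype.sum_prod_type]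
  refine Finset.sum_congr rfl fun a _ => ?_
  rw [FP.E, Finset.mul_sum]
  refine Finset.sum_congr rfl fun b _ => ?_
  rw [FP.pi_w, FP.pi_w, Finset.prod_mul_distrib]
  simp only [he, Equiv.arrowProdEquivProdArrow]
  simp only [Equiv.coe_fn_symm_mk]
  ring

variable {E : Type*} [Fintype E] [DecidableEq E]

/-- the union of two independent percolations is a percolation -/
theorem bern_or {p q r : ℝ} (hp0 : 0 ≤ p) (hp1 : p ≤ 1) (hq0 : 0 ≤ q) (hq1 : q ≤ 1)
    (hr0 : 0 ≤ r) (hr1 : r ≤ 1) (hr : 1 - r = (1 - p) * (1 - q)) (f : (E → Bool) → ℝ) :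
    (bern p hp0 hp1 E).E (fun a => (bern q hq0 hq1 E).E fun b => f fun e => a e || b e) =
      (bern r hr0 hr1 E).E f := by
  refine pi_comb _ _ _ (fun a b => a || b) ?_ f
  intro c
  rw [Fintype.sum_prod_type]
  cases c <;> simp [ber]
  · linarith
  · linarith

/-- monotonicity in `p` -/
theorem bern_mono {p r : ℝ} {hp0 : 0 ≤ p} {hp1 : p ≤ 1} {hr0 : 0 ≤ r} {hr1 : r ≤ 1}
    (hpr : p ≤ r) {f : (E → Bool) → ℝ}
    (hf : ∀ ω ω' : E → Bool, (∀ e, ω e = true → ω' e = true) → f ω ≤ f ω') :
    (bern p hp0 hp1 E).E f ≤ (bern r hr0 hr1 E).E f := by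
  rcases eq_or_lt_of_le hp1 with h | h
  · have : r = p := le_antisymm (by linarith) hpr
    subst this
    exact le_rfl
  · set q := (r - p) / (1 - p) with hq
    have hq0 : 0 ≤ q := div_nonneg (by linarith) (by linarith)
    have hq1 : q ≤ 1 := by
      rw [hq, div_le_one (by linarith)]
      linarith
    rw [← bern_or hp0 hp1 hq0 hq1 hr0 hr1 (by
      rw [hq]
      field_simp
      ring) f]
    refine FP.E_mono _ fun a => FP.le_E_of_le _ fun b => hf _ _ fun e he => ?_
    simp [he]

theorem bern_pr_mono {p r : ℝ} {hp0 : 0 ≤ p} {hp1 : p ≤ 1} {hr0 : 0 ≤ r} {hr1 : r ≤ 1}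
    (hpr : p ≤ r) {A : (E → Bool) → Prop}
    (hA : ∀ ω ω' : E → Bool, (∀ e, ω e = true → ω' e = true) → A ω → A ω') :
    (bern p hp0 hp1 E).pr A ≤ (bern r hr0 hr1 E).pr A := by
  classical
  rw [FP.pr_eq, FP.pr_eq]
  refine bern_mono hpr fun ω ω' h => ?_
  split_ifs with h1 h2
  · exact le_rfl
  · exact absurd (hA ω ω' h h1) h2
  · norm_num
  · exact le_rfl

end pimap

/-! ### The graph of the open edges -/

section graph

variable {d : ℕ}

theorem hypercube_adj {x y : Fin d → Bool} :
    (hypercube d).Adj x y ↔ ∃ i, y = flip i x := by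
  constructor
  · rintro ⟨i, h1, h2⟩
    refine ⟨i, ?_⟩
    funext j
    by_cases hj : j = i
    · subst hj
      rw [flip_same]
      cases hx : x j <;> cases hy : y j <;> simp_all
    · rw [flip_of_ne hj]
      by_contra hne
      exact hj (h2 j (Ne.symm hne))
  · rintro ⟨i, rfl⟩
    refine ⟨i, by simp, ?_⟩
    intro j hj
    by_contra hne
    exact hj (by rw [flip_of_ne hne])

/-- the open graph -/
def ogr (ω : CE (Fin d) → Bool) : SimpleGraph (Fin d → Bool) where
  Adj x y := opn (canE (Fin d)) ω x y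
  symm := ⟨fun _ _ h => opn_symm h⟩
  loopless := ⟨fun x ⟨i, h, _⟩ => flip_ne i x h.symm⟩

/-- the edge of a canonical label -/
def edg (q : CE (Fin d)) : Sym2 (Fin d → Bool) := s(q.1.1, flip q.1.2 q.1.1)

theorem edg_can (x : Cube (Fin d)) (i : Fin d) : edg ((canE (Fin d)).e x i) = s(x, flip i x) := by
  show s(Function.update x i false, flip i (Function.update x i false)) = s(x, flip i x)
  cases hx : x i with
  | false => rw [← hx, Function.update_eq_self]
  | true =>
    have h1 : Function.update x i false = flip i x := by rw [flip, hx]; rfl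
    rw [h1, flip_flip, Sym2.eq_swap]

theorem edg_injective : Function.Injective (edg : CE (Fin d) → Sym2 (Fin d → Bool)) := by
  rintro ⟨⟨x, i⟩, hx⟩ ⟨⟨y, j⟩, hy⟩ h
  simp only [edg, Sym2.eq_iff] at h
  dsimp only at hx hy
  rcases h with ⟨rfl, h2⟩ | ⟨h1, h2⟩
  · have := flip_dir_injective x h2
    subst this
    rfl
  · subst h1
    exfalso
    have hij : i = j := by
      by_contra hne
      have := congrFun h2 i
      rw [flip_same, flip_of_ne hne] at this
      simp at this
    subst hij
    rw [flip_same, hy] at hx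
    simp at hx

open Classical in
theorem edg_mem (q : CE (Fin d)) : edg q ∈ (hypercube d).edgeFinset := by
  rw [SimpleGraph.mem_edgeFinset, edg, SimpleGraph.mem_edgeSet, hypercube_adj]
  exact ⟨q.1.2, rfl⟩

open Classical in
theorem edg_surj {e : Sym2 (Fin d → Bool)} (he : e ∈ (hypercube d).edgeFinset) :
    ∃ q : CE (Fin d), edg q = e := by
  rw [SimpleGraph.mem_edgeFinset] at he
  induction e with | _ x y => ?_
  rw [SimpleGraph.mem_edgeSet, hypercube_adj] at he
  obtain ⟨i, rfl⟩ := he
  exact ⟨(canE (Fin d)).e x i, edg_can x i⟩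

open Classical in
theorem edg_image : (Finset.univ : Finset (CE (Fin d))).map ⟨edg, edg_injective⟩ =
    (hypercube d).edgeFinset := by
  ext e
  simp only [Finset.mem_map, Finset.mem_univ, true_and, Function.Embedding.coeFn_mk]
  exact ⟨fun ⟨q, h⟩ => h ▸ edg_mem q, edg_surj⟩

/-- the percolation probability as a probability of the layer `bern` -/
theorem percProb_eq {p : ℝ} (h0 : 0 ≤ p) (h1 : p ≤ 1) (A : SimpleGraph (Fin d → Bool) → Prop) :
    percProb (hypercube d) p A = (bern p h0 h1 (CE (Fin d))).pr fun ω => A (ogr ω) := by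
  classical
  have e1 : ∀ ω : CE (Fin d) → Bool, (if A (ogr ω) then (1 : ℝ) else 0) =
      (fun H : Finset (CE (Fin d)) => if A (SimpleGraph.fromEdgeSet
        ((H.map ⟨edg, edg_injective⟩ : Finset (Sym2 (Fin d → Bool))) : Set (Sym2 (Fin d → Bool))))
        then (1 : ℝ) else 0) (Finset.univ.filter fun e => ω e = true) := by
    intro ω
    have : ogr ω = SimpleGraph.fromEdgeSet
        (((Finset.univ.filter fun e => ω e = true).map ⟨edg, edg_injective⟩ :
          Finset (Sym2 (Fin d → Bool))) : Set (Sym2 (Fin d → Bool))) := by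
      ext x y
      rw [SimpleGraph.fromEdgeSet_adj]
      simp only [Finset.mem_coe, Finset.mem_map, Finset.mem_filter, Finset.mem_univ, true_and,
        Function.Embedding.coeFn_mk]
      constructor
      · rintro ⟨i, rfl, h⟩
        exact ⟨⟨_, h, edg_can x i⟩, (flip_ne i x).symm⟩
      · rintro ⟨⟨q, hq, he⟩, hne⟩
        have hmem := edg_mem q
        rw [he, SimpleGraph.mem_edgeFinset, SimpleGraph.mem_edgeSet, hypercube_adj] at hmem
        obtain ⟨i, rfl⟩ := hmem
        refine ⟨i, rfl, ?_⟩
        rw [← edg_can x i] at he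
        rw [← edg_injective he]
        exact hq
    simp only [← this]
  rw [FP.pr_eq, FP.E_congr _ e1]
  rw [bern_wt (p := p) (h0 := h0) (h1 := h1)
    (fun H : Finset (CE (Fin d)) => if A (SimpleGraph.fromEdgeSet
        ((H.map ⟨edg, edg_injective⟩ : Finset (Sym2 (Fin d → Bool))) : Set (Sym2 (Fin d → Bool))))
        then (1 : ℝ) else 0)]
  unfold percProb
  rw [← edg_image]
  symm
  refine Finset.sum_bij (fun (H : Finset (CE (Fin d))) _ => H.map ⟨edg, edg_injective⟩) ?_ ?_ ?_ ?_
  · intro H _
    rw [Finset.mem_powerset]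
    exact Finset.map_subset_map.2 (Finset.subset_univ H)
  · intro H _ H' _ h
    exact Finset.map_injective _ h
  · intro F hF
    rw [Finset.mem_powerset] at hF
    obtain ⟨H, -, hH⟩ := Finset.subset_map_iff.1 hF
    exact ⟨H, Finset.mem_univ _, hH.symm⟩
  · intro H _
    rw [Finset.card_map, Finset.card_map, Finset.card_univ, ← Finset.card_compl, wt]
    split_ifs <;> simp

/-! ### Cyclic lists and cycles -/

/-- a chain is a walk -/
theorem exists_walk {V : Type*} {G : SimpleGraph V} : ∀ (l : List V) (hl : l ≠ []),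
    l.IsChain G.Adj → ∃ w : G.Walk (l.head hl) (l.getLast hl), w.support = l := by
  intro l
  induction l with
  | nil => intro hl; exact absurd rfl hl
  | cons a l ih =>
    intro hl hc
    rcases l with _ | ⟨b, l⟩
    · exact ⟨SimpleGraph.Walk.nil, rfl⟩
    · rw [List.isChain_cons_cons] at hc
      obtain ⟨w, hw⟩ := ih (by simp) hc.2
      exact ⟨SimpleGraph.Walk.cons hc.1 w, by
        show a :: w.support = a :: b :: l
        rw [hw]⟩

/-- a nodup cyclic list is a cycle -/
theorem hasCycleGe_of_list {V : Type*} {G : SimpleGraph V} (l : List V) (hl : l ≠ [])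
    (hnd : l.Nodup) (h3 : 3 ≤ l.length) (hc : l.IsChain G.Adj)
    (hclose : G.Adj (l.getLast hl) (l.head hl)) {L : ℝ} (hL : L ≤ l.length) : HasCycleGe G L := by
  obtain ⟨w, hw⟩ := exists_walk l hl hc
  have hlen : w.length + 1 = l.length := by rw [← SimpleGraph.Walk.length_support, hw]
  have hpath : w.IsPath := by rw [SimpleGraph.Walk.isPath_def, hw]; exact hnd
  refine ⟨_, SimpleGraph.Walk.cons hclose w, ?_, ?_⟩
  · rw [SimpleGraph.Walk.cons_isCycle_iff]
    refine ⟨hpath, ?_⟩
    intro hmem
    -- the closing edge is not an edge of the path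
    have h4 := hpath.length_eq_one_of_mem_edges (by rw [Sym2.eq_swap]; exact hmem)
    omega
  · rw [SimpleGraph.Walk.length_cons, hlen]
    exact hL

end graph

end Pool.Agent.LongCyc
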