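import Mathlib

/-!
# Stage 6 (giant), 7.3: depth first search (abstract)
-/

set_option autoImplicit false

namespace Pool.Agent.LongCyc

open Finset

/-- The state of the search: the stack `Γ` (top first, each piece with its connector from the piece
below), dead pieces `S`, unvisited pieces `U`, used reservoir pieces `D`. -/
structure DfsState {MP RP : Type*} [Fintype MP] (Conn : MP → MP → List RP → Prop) (g : ℕ)
    (Γ : List (MP × List RP)) (S U : Finset MP) (D : Finset RP) : Prop where
  nodup : (Γ.map Prod.fst).Nodup
  notS : ∀ x ∈ Γ, x.1 ∉ S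
  notU : ∀ x ∈ Γ, x.1 ∉ U
  disj : Disjoint S U
  cover : ∀ P, P ∈ S ∨ P ∈ U ∨ P ∈ Γ.map Prod.fst
  chain : Γ.IsChain fun x y => Conn y.1 x.1 x.2
  used : ∀ x ∈ Γ, ∀ r ∈ x.2, r ∈ D
  pw : Γ.Pairwise fun x y => List.Disjoint x.2 y.2
  card_D : D.card ≤ (Fintype.card MP - U.card) * g
  dead : ∀ P ∈ S, ∀ P' ∈ U, ∀ W, Conn P P' W → W.length ≤ g → ¬ ∀ r ∈ W, r ∉ D

theorem DfsState.card {MP RP : Type*} [Fintype MP] [DecidableEq MP]
    {Conn : MP → MP → List RP → Prop} {g : ℕ}
    {Γ : List (MP × List RP)} {S U : Finset MP} {D : Finset RP} (h : DfsState Conn g Γ S U D) :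
    S.card + U.card + Γ.length = Fintype.card MP := by
  have h1 : (Γ.map Prod.fst).toFinset.card = Γ.length := by
    rw [List.toFinset_card_of_nodup h.nodup, List.length_map]
  have h2 : (S ∪ U) ∪ (Γ.map Prod.fst).toFinset = Finset.univ := by
    ext P
    simp only [Finset.mem_union, Finset.mem_univ, iff_true, List.mem_toFinset]
    rcases h.cover P with h | h | h
    · exact Or.inl (Or.inl h)
    · exact Or.inl (Or.inr h)
    · exact Or.inr h
  have h3 : Disjoint (S ∪ U) (Γ.map Prod.fst).toFinset := by
    rw [Finset.disjoint_right]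
    intro P hP
    rw [List.mem_toFinset, List.mem_map] at hP
    obtain ⟨x, hx, rfl⟩ := hP
    rw [Finset.mem_union, not_or]
    exact ⟨h.notS x hx, h.notU x hx⟩
  have h4 := Finset.card_union_of_disjoint h3
  rw [h2, Finset.card_union_of_disjoint h.disj, h1, Finset.card_univ] at h4
  exact h4.symm

theorem DfsState.exists {MP RP : Type*} [Fintype MP] [DecidableEq MP] [DecidableEq RP]
    (Conn : MP → MP → List RP → Prop) (g : ℕ) (t : ℕ) (ht : t ≤ Fintype.card MP) :
    ∃ (Γ : List (MP × List RP)) (S U : Finset MP) (D : Finset RP), DfsState Conn g Γ S U D ∧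
      S.card + Fintype.card MP = U.card + t := by
  induction t with
  | zero =>
    refine ⟨[], ∅, Finset.univ, ∅, ⟨by simp, by simp, by simp, by simp, by simp, by simp,
      by simp, by simp, by simp, by simp⟩, ?_⟩
    simp [Finset.card_univ]
  | succ t ih =>
    obtain ⟨Γ, S, U, D, h, hc⟩ := ih (by omega)
    have hcard := h.card
    have hUcard : U.card ≤ Fintype.card MP := Finset.card_le_univ U
    have hU : U.Nonempty := by
      rw [← Finset.card_pos]
      omega
    -- the general push
    have push : ∀ (P : MP) (W : List RP), P ∈ U → W.length ≤ g → (∀ r ∈ W, r ∉ D) →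
        (Γ = [] ∨ ∃ x Γ', Γ = x :: Γ' ∧ Conn x.1 P W) →
        ∃ (Γ : List (MP × List RP)) (S U : Finset MP) (D : Finset RP), DfsState Conn g Γ S U D ∧
          S.card + Fintype.card MP = U.card + (t + 1) := by
      intro P W hPU hWg hWD hchain
      refine ⟨(P, W) :: Γ, S, U.erase P, D ∪ W.toFinset, ⟨?_, ?_, ?_, ?_, ?_, ?_, ?_, ?_, ?_, ?_⟩, ?_⟩
      · rw [List.map_cons, List.nodup_cons]
        refine ⟨?_, h.nodup⟩
        intro hmem
        rw [List.mem_map] at hmem
        obtain ⟨x, hx, hx'⟩ := hmem
        exact h.notU x hx (by rw [hx']; exact hPU)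
      · intro x hx
        rw [List.mem_cons] at hx
        rcases hx with rfl | hx
        · intro hS
          exact (Finset.disjoint_left.1 h.disj) hS hPU
        · exact h.notS x hx
      · intro x hx
        rw [List.mem_cons] at hx
        rcases hx with rfl | hx
        · simp
        · intro hU'
          exact h.notU x hx (Finset.mem_of_mem_erase hU')
      · exact Finset.disjoint_of_subset_right (Finset.erase_subset _ _) h.disj
      · intro Q
        rcases h.cover Q with h' | h' | h'
        · exact Or.inl h'
        · by_cases hQ : Q = P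
          · right; right
            rw [hQ]; simp
          · right; left
            exact Finset.mem_erase.2 ⟨hQ, h'⟩
        · right; right
          rw [List.map_cons]
          exact List.mem_cons_of_mem _ h'
      · rcases hchain with h' | ⟨x, Γ', h', hconn⟩
        · rw [h']; simp
        · have := h.chain
          rw [h'] at this ⊢
          rw [List.isChain_cons_cons]
          exact ⟨hconn, this⟩
      · intro x hx r hr
        rw [List.mem_cons] at hx
        rcases hx with rfl | hx
        · exact Finset.mem_union_right _ (List.mem_toFinset.2 hr)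
        · exact Finset.mem_union_left _ (h.used x hx r hr)
      · rw [List.pairwise_cons]
        refine ⟨?_, h.pw⟩
        intro y hy r hr hr'
        exact hWD r hr (h.used y hy r hr')
      · have e1 : (D ∪ W.toFinset).card ≤ D.card + W.length :=
          le_trans (Finset.card_union_le _ _) (Nat.add_le_add_left (List.toFinset_card_le W) _)
        have e2 : (U.erase P).card = U.card - 1 := Finset.card_erase_of_mem hPU
        have e3 : 0 < U.card := Finset.card_pos.2 hU
        have e4 : Fintype.card MP - (U.erase P).card = (Fintype.card MP - U.card) + 1 := by omega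
        rw [e4, Nat.add_mul, one_mul]
        have := h.card_D
        omega
      · intro Q hQ Q' hQ' W' hc' hl' hav
        refine h.dead Q hQ Q' (Finset.mem_of_mem_erase hQ') W' hc' hl' fun r hr hrD => ?_
        exact hav r hr (Finset.mem_union_left _ hrD)
      · have e2 : (U.erase P).card = U.card - 1 := Finset.card_erase_of_mem hPU
        have e3 : 0 < U.card := Finset.card_pos.2 hU
        omega
    cases hΓ : Γ with
    | nil =>
      obtain ⟨P, hP⟩ := hU
      exact push P [] hP (by simp) (by simp) (Or.inl hΓ)
    | cons x Γ' =>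
      by_cases hex : ∃ P' ∈ U, ∃ W, Conn x.1 P' W ∧ W.length ≤ g ∧ ∀ r ∈ W, r ∉ D
      · obtain ⟨P', hP', W, h1, h2, h3⟩ := hex
        exact push P' W hP' h2 h3 (Or.inr ⟨x, Γ', hΓ, h1⟩)
      · -- pop
        subst hΓ
        have hxS : x.1 ∉ S := h.notS x (by simp)
        refine ⟨Γ', insert x.1 S, U, D, ⟨?_, ?_, ?_, ?_, ?_, ?_, ?_, ?_, ?_, ?_⟩, ?_⟩
        · have := h.nodup
          rw [List.map_cons, List.nodup_cons] at this
          exact this.2
        · intro y hy
          rw [Finset.mem_insert, not_or]
          refine ⟨?_, h.notS y (List.mem_cons_of_mem _ hy)⟩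
          have := h.nodup
          rw [List.map_cons, List.nodup_cons] at this
          intro hyx
          exact this.1 (List.mem_map.2 ⟨y, hy, hyx⟩)
        · intro y hy
          exact h.notU y (List.mem_cons_of_mem _ hy)
        · rw [Finset.disjoint_insert_left]
          exact ⟨h.notU x (by simp), h.disj⟩
        · intro Q
          rcases h.cover Q with h' | h' | h'
          · exact Or.inl (Finset.mem_insert_of_mem h')
          · exact Or.inr (Or.inl h')
          · rw [List.map_cons, List.mem_cons] at h'
            rcases h' with h' | h'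
            · left; rw [h']; exact Finset.mem_insert_self _ _
            · exact Or.inr (Or.inr h')
        · exact List.IsChain.tail h.chain
        · intro y hy
          exact h.used y (List.mem_cons_of_mem _ hy)
        · have := h.pw
          rw [List.pairwise_cons] at this
          exact this.2
        · exact h.card_D
        · intro Q hQ Q' hQ' W hc' hl' hav
          rw [Finset.mem_insert] at hQ
          rcases hQ with rfl | hQ
          · exact hex ⟨Q', hQ', W, hc', hl', hav⟩
          · exact h.dead Q hQ Q' hQ' W hc' hl' hav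
        · rw [Finset.card_insert_of_notMem hxS]
          omega

/-- **7.3** depth first search (abstract) -/
theorem dfs_lemma {MP RP : Type*} [Fintype MP] [DecidableEq MP] [DecidableEq RP]
    (Conn : MP → MP → List RP → Prop) (k0 g : ℕ) (hk0 : 0 < k0) (hN : 4 * k0 < Fintype.card MP)
    (hP : ∀ (D : Finset RP) (AA BB : Finset MP), D.card ≤ Fintype.card MP * g → k0 ≤ AA.card →
      k0 ≤ BB.card → Disjoint AA BB → ∃ P ∈ AA, ∃ P' ∈ BB, ∃ W : List RP, Conn P P' W ∧ W.length ≤ g ∧
        ∀ r ∈ W, r ∉ D) :
    ∃ (k : ℕ) (_ : NeZero k) (P : Fin k → MP) (W : Fin k → List RP), Fintype.card MP ≤ k + 4 * k0 ∧ 2 ≤ k ∧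
      Function.Injective P ∧ (∀ i, Conn (P i) (P (i + 1)) (W i)) ∧
      (∀ i j, i ≠ j → List.Disjoint (W i) (W j)) := by
  obtain ⟨Γ, S, U, D, h, hc⟩ := DfsState.exists Conn g (Fintype.card MP) le_rfl
  have hcard := h.card
  have hD : D.card ≤ Fintype.card MP * g :=
    le_trans h.card_D (Nat.mul_le_mul_right g (Nat.sub_le _ _))
  have hS : S.card < k0 := by
    by_contra hcon
    rw [not_lt] at hcon
    obtain ⟨P, hPS, P', hP'U, W, h1, h2, h3⟩ := hP D S U hD hcon (by omega) h.disj
    exact h.dead P hPS P' hP'U W h1 h2 h3
  set m := Γ.length with hm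
  have hmN : Fintype.card MP + 2 ≤ m + 2 * k0 := by omega
  -- the two ends of the path
  have hinj : ∀ (i j : ℕ) (hi : i < m) (hj : j < m), (Γ[i]'hi).1 = (Γ[j]'hj).1 → i = j := by
    intro i j hi hj hij
    have h1 := h.nodup
    have := (List.Nodup.getElem_inj_iff h1 (i := i) (j := j) (hi := by simpa using hi)
      (hj := by simpa using hj)).1 (by simpa using hij)
    exact this
  let AA : Finset MP := (Finset.univ : Finset (Fin k0)).image fun i => (Γ[i.1]'(by omega)).1
  let BB : Finset MP := (Finset.univ : Finset (Fin k0)).image fun i => (Γ[m - 1 - i.1]'(by omega)).1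
  have hAA : AA.card = k0 := by
    rw [Finset.card_image_of_injective, Finset.card_univ, Fintype.card_fin]
    intro a b hab
    exact Fin.ext (hinj _ _ (by omega) (by omega) hab)
  have hBB : BB.card = k0 := by
    rw [Finset.card_image_of_injective, Finset.card_univ, Fintype.card_fin]
    intro a b hab
    have := hinj _ _ (by omega) (by omega) hab
    exact Fin.ext (by omega)
  have hdisj : Disjoint AA BB := by
    rw [Finset.disjoint_left]
    intro Q hQ hQ'
    simp only [AA, BB, Finset.mem_image, Finset.mem_univ, true_and] at hQ hQ'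
    obtain ⟨a, ha⟩ := hQ
    obtain ⟨b, hb⟩ := hQ'
    have := hinj _ _ (by omega) (by omega) (ha.trans hb.symm)
    omega
  obtain ⟨P, hPA, P', hPB, Wc, hWc, hWg, hWD⟩ := hP D AA BB hD hAA.ge hBB.ge hdisj
  simp only [AA, BB, Finset.mem_image, Finset.mem_univ, true_and] at hPA hPB
  obtain ⟨a, ha⟩ := hPA
  obtain ⟨b, hb⟩ := hPB
  set i := a.1 with hi
  set j := m - 1 - b.1 with hj
  have hak : i < k0 := a.2
  have hbk : b.1 < k0 := b.2
  have hjm : j < m := by omega
  have hij : i < j := by omega
  -- chain facts
  have hch : ∀ (s : ℕ) (hs : s + 1 < m), Conn (Γ[s + 1]'hs).1 (Γ[s]'(by omega)).1 (Γ[s]'(by omega)).2 := by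
    intro s hs
    exact (List.isChain_iff_getElem.1 h.chain) s hs
  have hpw : ∀ (s t : ℕ) (hs : s < m) (ht : t < m), s ≠ t → List.Disjoint (Γ[s]'hs).2 (Γ[t]'ht).2 := by
    intro s t hs ht hst
    rcases lt_or_gt_of_ne hst with hlt | hlt
    · exact (List.pairwise_iff_getElem.1 h.pw) s t hs ht hlt
    · exact ((List.pairwise_iff_getElem.1 h.pw) t s ht hs hlt).symm
  let k := j - i + 1
  have hk : k = j - i + 1 := rfl
  have hk2 : 2 ≤ k := by omega
  have : NeZero k := ⟨by omega⟩
  refine ⟨k, inferInstance, fun c => (Γ[j - c.1]'(by omega)).1,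
    fun c => if hcc : c.1 + 1 < k then (Γ[j - c.1 - 1]'(by omega)).2 else Wc, ?_, hk2, ?_, ?_, ?_⟩
  · omega
  · intro c d hcd
    have hc' := c.2
    have hd' := d.2
    have := hinj _ _ (by omega) (by omega) hcd
    exact Fin.ext (by omega)
  · intro c
    have hc' := c.2
    by_cases hcc : c.1 + 1 < k
    · have hval : (c + 1 : Fin k).val = c.1 + 1 := by
        rw [Fin.val_add_one_of_lt' hcc]
      simp only [hcc, dif_pos, hval]
      have h1 := hch (j - c.1 - 1) (by omega)
      have e1 : j - c.1 - 1 + 1 = j - c.1 := by omega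
      have e2 : j - (c.1 + 1) = j - c.1 - 1 := by omega
      simp only [e1] at h1
      simp only [e2]
      exact h1
    · have hck : c.1 = k - 1 := by omega
      have hval : (c + 1 : Fin k).val = 0 := by
        rw [Fin.val_add, Fin.val_one', hck]
        have : (1 % k) = 1 := Nat.mod_eq_of_lt (by omega)
        rw [this, Nat.sub_add_cancel (by omega), Nat.mod_self]
      simp only [hcc, dif_neg, not_false_eq_true, hval, Nat.sub_zero]
      have e1 : j - c.1 = i := by omega
      simp only [e1]
      rw [ha, hb]
      exact hWc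
  · intro c d hcd
    have hc' := c.2
    have hd' := d.2
    have hne : c.1 ≠ d.1 := fun h => hcd (Fin.ext h)
    by_cases hcc : c.1 + 1 < k
    · by_cases hdd : d.1 + 1 < k
      · simp only [hcc, hdd, dif_pos]
        exact hpw _ _ (by omega) (by omega) (by omega)
      · simp only [hcc, hdd, dif_pos, dif_neg, not_false_eq_true]
        intro r hr hr'
        exact hWD r hr' (h.used _ (List.getElem_mem _) r hr)
    · by_cases hdd : d.1 + 1 < k
      · simp only [hcc, hdd, dif_pos, dif_neg, not_false_eq_true]
        intro r hr hr'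
        exact hWD r hr (h.used _ (List.getElem_mem _) r hr')
      · omega

end Pool.Agent.LongCyc
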