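import Mathlib
import Pool.Agent.LongCyc.Conn
import Pool.Agent.LongCyc.Dfs
import Pool.Agent.LongCyc.Assemble

/-!
# The giant cycle, deterministic statement
-/

set_option autoImplicit false

namespace Pool.Agent.LongCyc

open Finset

variable {ι : Type*} [DecidableEq ι] [Fintype ι]

/-- **Section 7**: deterministic giant theorem. `n = 2^d`. -/
theorem giant_det {G1 G2 : Cube ι → Cube ι → Prop} (hG1 : ∀ x y, G1 x y → G1 y x)
    (hG2 : ∀ x y, G2 x y → G2 y x) {RP MP : Type*} [Fintype RP] [DecidableEq RP]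
    [Fintype MP] [DecidableEq MP] (d n T h : ℕ) (hd : Fintype.card ι = d) (hn : n = 2 ^ d)
    (S : Blocks G1 RP MP (d ^ 10) (d ^ 29) h)
    (hd0 : 100 ≤ d) (hT : d ≤ T * T)
    (Zd : Finset ι) (hZd : d ≤ 2 * Zd.card) (Bad : Finset (Cube ι))
    (hBad : Bad.card * d ^ 8 ≤ n)
    (hgood : ∀ x, x ∉ Bad → GoodPt Zd T (Finset.univ.biUnion S.rset) x)
    (hsprinkle : ∀ X X' : Finset (RP ⊕ (MP ⊕ MP)), Disjoint X X' →
      n ≤ (mix (X.biUnion S.bset) (X'.biUnion S.bset)).card * d ^ 8 →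
      ∃ b ∈ X, ∃ b' ∈ X', Joined G2 (S.bset b) (S.bset b'))
    (hN1 : n ≤ Fintype.card MP * h * d) (hMP : 8 ≤ Fintype.card MP) :
    ∃ (l : List (Cube ι)) (hl : l ≠ []), l.Nodup ∧
      (Fintype.card MP - 4 * (Fintype.card MP / d + 1)) * (d ^ 29 - 2 * h) ≤ l.length ∧ 3 ≤ l.length ∧
      l.IsChain (fun x y => G1 x y ∨ G2 x y) ∧ G2 (l.getLast hl) (l.head hl) := by
  classical
  set N := Fintype.card MP with hN
  set k0 := N / d + 1 with hk0
  have hk0N : N ≤ k0 * d := by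
    have := Nat.div_add_mod N d
    have h2 := Nat.mod_lt N (show 0 < d by omega)
    rw [hk0]
    nlinarith
  have h4k0 : 4 * k0 < N := by
    have h1 : N / d ≤ N / 100 := Nat.div_le_div_left hd0 (by norm_num)
    have h2 : N / 100 * 100 ≤ N := Nat.div_mul_le_self N 100
    omega
  have hNL : N * d ^ 29 ≤ n := by
    have h1 := Fintype.card_le_of_injective _ S.mp_inj
    rw [Fintype.card_prod, Fintype.card_fin] at h1
    rw [hn, ← hd]
    simpa [Cube, hd] using h1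
  have hpow : (d ^ 9 + 1) * d ^ 10 * d ^ 9 ≤ d ^ 29 := by
    have h1 : (d ^ 9 + 1) * d ^ 10 * d ^ 9 = (d ^ 9 + 1) * d ^ 19 := by ring
    have h2 : d ^ 29 = (d ^ 9 * d) * d ^ 19 := by ring
    rw [h1, h2]
    apply Nat.mul_le_mul_right
    have h3 : 1 ≤ d ^ 9 := Nat.one_le_pow _ _ (by omega)
    nlinarith
  obtain ⟨k, hk, P, W, h1, h2, h3, h4, h5⟩ := dfs_lemma (Connector S G2) k0 (d ^ 9 + 1) (Nat.succ_pos _) h4k0
    (by
      intro D AA BB hD hAA hBB _
      refine connector_exists hG2 S d n T hd hn hd0 hT Zd hZd Bad hBad hgood hsprinkle hN1 D ?_ AA BB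
        (hk0N.trans (Nat.mul_le_mul_right _ hAA)) (hk0N.trans (Nat.mul_le_mul_right _ hBB))
      calc D.card * d ^ 10 * d ^ 9 ≤ (N * (d ^ 9 + 1)) * d ^ 10 * d ^ 9 := by gcongr
        _ = N * ((d ^ 9 + 1) * d ^ 10 * d ^ 9) := by ring
        _ ≤ N * d ^ 29 := Nat.mul_le_mul_left _ hpow
        _ ≤ n := hNL)
  obtain ⟨l, hl, e1, e2, e3, e4, e5⟩ := assemble hG1 S k h2 P W h3 h4 h5
  refine ⟨l, hl, e1, ?_, e3, e4, e5⟩
  refine le_trans (Nat.mul_le_mul_right _ ?_) e2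
  omega

end Pool.Agent.LongCyc
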