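import Pool.Agent.LongCyc.Stage2b

/-!
# Stage 2: the main theorem
-/

set_option autoImplicit false
set_option linter.unusedSectionVars false

namespace Pool.Agent.LongCyc

open Finset

/-! ### the blocks are pairwise disjoint -/

section disj

variable {ι : Type*} [DecidableEq ι] [Fintype ι] {G1 : Cube ι → Cube ι → Prop} {RP MP : Type*}
  {L2 L1 h : ℕ}

theorem mem_rset {S : Blocks G1 RP MP L2 L1 h} {r : RP} {x : Cube ι} :
    x ∈ S.rset r ↔ ∃ i, S.rp r i = x := by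
  simp [Blocks.rset]

theorem mem_sport {S : Blocks G1 RP MP L2 L1 h} {P : MP} {x : Cube ι} :
    x ∈ S.sport P ↔ ∃ i : Fin L1, i.val < h ∧ S.mp P i = x := by
  simp [Blocks.sport]

theorem mem_tport {S : Blocks G1 RP MP L2 L1 h} {P : MP} {x : Cube ι} :
    x ∈ S.tport P ↔ ∃ i : Fin L1, L1 ≤ i.val + h ∧ S.mp P i = x := by
  simp [Blocks.tport]

theorem bset_disj (S : Blocks G1 RP MP L2 L1 h) (b b' : RP ⊕ (MP ⊕ MP)) (hb : b ≠ b') :
    Disjoint (S.bset b) (S.bset b') := by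
  rw [Finset.disjoint_left]
  have hh := S.hhL1
  intro x hx hx'
  rcases b with r | P | P <;> rcases b' with r' | P' | P' <;>
    simp only [Blocks.bset, mem_rset, mem_sport, mem_tport] at hx hx'
  · obtain ⟨i, hi⟩ := hx
    obtain ⟨j, hj⟩ := hx'
    have := @S.rp_inj (r, i) (r', j) (hi.trans hj.symm)
    rw [Prod.mk.injEq] at this
    exact hb (by rw [this.1])
  · obtain ⟨i, hi⟩ := hx
    obtain ⟨j, _, hj⟩ := hx'
    exact S.disj _ _ _ _ (hi.trans hj.symm)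
  · obtain ⟨i, hi⟩ := hx
    obtain ⟨j, _, hj⟩ := hx'
    exact S.disj _ _ _ _ (hi.trans hj.symm)
  · obtain ⟨i, _, hi⟩ := hx
    obtain ⟨j, hj⟩ := hx'
    exact S.disj _ _ _ _ (hj.trans hi.symm)
  · obtain ⟨i, _, hi⟩ := hx
    obtain ⟨j, _, hj⟩ := hx'
    have := @S.mp_inj (P, i) (P', j) (hi.trans hj.symm)
    rw [Prod.mk.injEq] at this
    exact hb (by rw [this.1])
  · obtain ⟨i, h1, hi⟩ := hx
    obtain ⟨j, h2, hj⟩ := hx'
    have := @S.mp_inj (P, i) (P', j) (hi.trans hj.symm)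
    rw [Prod.mk.injEq] at this
    rw [this.2] at h1
    omega
  · obtain ⟨i, _, hi⟩ := hx
    obtain ⟨j, hj⟩ := hx'
    exact S.disj _ _ _ _ (hj.trans hi.symm)
  · obtain ⟨i, h1, hi⟩ := hx
    obtain ⟨j, h2, hj⟩ := hx'
    have := @S.mp_inj (P, i) (P', j) (hi.trans hj.symm)
    rw [Prod.mk.injEq] at this
    rw [this.2] at h1
    omega
  · obtain ⟨i, _, hi⟩ := hx
    obtain ⟨j, _, hj⟩ := hx'
    have := @S.mp_inj (P, i) (P', j) (hi.trans hj.symm)
    rw [Prod.mk.injEq] at this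
    exact hb (by rw [this.1])

end disj

section

variable {κ μ : Type*} [DecidableEq κ] [Fintype κ] [DecidableEq μ] [Fintype μ]

/-- numeric form of the length of the cycle -/
theorem length_bound {N d L h : ℕ} {n θ E : ℝ} (hd : 100 ≤ d) (hE : 10 ≤ E) (hn : 0 < n)
    (h1 : θ * n ≤ N * L) (h2 : (N : ℝ) * L ≤ n) (hN : (100 : ℝ) ≤ N) (hL : (100 : ℝ) ≤ L)
    (hh : (h : ℝ) ≤ L / E + 1) (hθ : 0 ≤ θ) (hθ1 : θ ≤ 1) :
    (θ - 4 / d - 4 / N - 2 / E - 2 / L) * n ≤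
      (((N - 4 * (N / d + 1)) * (L - 2 * h) : ℕ) : ℝ) := by
  have hdr : (100 : ℝ) ≤ d := by exact_mod_cast hd
  have hd0 : (0 : ℝ) < d := by linarith
  have hN0 : (0 : ℝ) < N := by linarith
  have hL0 : (0 : ℝ) < L := by linarith
  have hE0 : (0 : ℝ) < E := by linarith
  have e1 : (N : ℝ) * (1 - 4 / d - 4 / N) ≤ ((N - 4 * (N / d + 1) : ℕ) : ℝ) := by
    have h3 : ((N / d : ℕ) : ℝ) ≤ N / d := Nat.cast_div_le
    have h4 : (N : ℝ) - 4 * ((N / d : ℕ) + 1) ≤ ((N - 4 * (N / d + 1) : ℕ) : ℝ) := by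
      have : N ≤ (N - 4 * (N / d + 1)) + 4 * (N / d + 1) := by omega
      have : (N : ℝ) ≤ ((N - 4 * (N / d + 1) : ℕ) : ℝ) + 4 * ((N / d : ℕ) + 1) := by exact_mod_cast this
      linarith
    have h5 : (N : ℝ) * (1 - 4 / d - 4 / N) = N - 4 * (N / d + 1) := by
      field_simp
      ring
    rw [h5]
    linarith
  have e2 : (L : ℝ) * (1 - 2 / E - 2 / L) ≤ ((L - 2 * h : ℕ) : ℝ) := by
    have h4 : (L : ℝ) - 2 * h ≤ ((L - 2 * h : ℕ) : ℝ) := by
      have : L ≤ (L - 2 * h) + 2 * h := by omega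
      have : (L : ℝ) ≤ ((L - 2 * h : ℕ) : ℝ) + 2 * h := by exact_mod_cast this
      linarith
    have h5 : (L : ℝ) * (1 - 2 / E - 2 / L) = L - 2 * (L / E + 1) := by
      field_simp
      ring
    rw [h5]
    linarith
  push_cast
  set A : ℝ := 1 - 4 / d - 4 / N with hA
  set B : ℝ := 1 - 2 / E - 2 / L with hB
  have a1 : (4 : ℝ) / d ≤ 4 / 100 := div_le_div_of_nonneg_left (by norm_num) (by norm_num) hdr
  have a2 : (4 : ℝ) / N ≤ 4 / 100 := div_le_div_of_nonneg_left (by norm_num) (by norm_num) hN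
  have a3 : (2 : ℝ) / E ≤ 2 / 10 := div_le_div_of_nonneg_left (by norm_num) (by norm_num) hE
  have a4 : (2 : ℝ) / L ≤ 2 / 100 := div_le_div_of_nonneg_left (by norm_num) (by norm_num) hL
  have b1 : 0 < 4 / (d : ℝ) := by positivity
  have b2 : 0 < 4 / (N : ℝ) := by positivity
  have b3 : 0 < 2 / E := by positivity
  have b4 : 0 < 2 / (L : ℝ) := by positivity
  have hA0 : 0 ≤ A := by rw [hA]; linarith
  have hB0 : 0 ≤ B := by rw [hB]; linarith
  have hA1 : A ≤ 1 := by rw [hA]; linarith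
  have hB1 : B ≤ 1 := by rw [hB]; linarith
  have e3 : (N : ℝ) * A * (L * B) ≤ ((N - 4 * (N / d + 1) : ℕ) : ℝ) * ((L - 2 * h : ℕ) : ℝ) :=
    mul_le_mul e1 e2 (by positivity) (Nat.cast_nonneg _)
  refine le_trans ?_ e3
  have e4 : (N : ℝ) * A * (L * B) = (N * L) * (A * B) := by ring
  rw [e4]
  have e5 : θ * n * (A * B) ≤ (N * L) * (A * B) := mul_le_mul_of_nonneg_right h1 (by positivity)
  refine le_trans ?_ e5
  have e6 : (θ - 4 / d - 4 / N - 2 / E - 2 / L) ≤ θ * (A * B) := by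
    have h6 : A + B - 1 ≤ A * B := by nlinarith
    have h7 : θ * (A + B - 1) ≤ θ * (A * B) := mul_le_mul_of_nonneg_left h6 hθ
    have h8 : θ - (1 - (A + B - 1)) ≤ θ * (A + B - 1) := by nlinarith
    have h9 : 1 - (A + B - 1) = 4 / d + 4 / N + 2 / E + 2 / L := by rw [hA, hB]; ring
    linarith
  calc (θ - 4 / d - 4 / N - 2 / E - 2 / L) * n ≤ θ * (A * B) * n :=
        mul_le_mul_of_nonneg_right e6 hn.le
    _ = θ * n * (A * B) := by ring

/-- For good data of the fibres the sprinkled edges give a long cycle with large probability. -/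
theorem stage2_fixed (G1 : Cube (κ ⊕ μ) → Cube (κ ⊕ μ) → Prop) (hG1s : ∀ x y, G1 x y → G1 y x)
    (D : Cube μ → FibL κ)
    (hG1 : ∀ z a b, opn (canE κ) (D z).2.1 a b → G1 (jn (xr a (D z).2.2) z) (jn (xr b (D z).2.2) z))
    (d n T E : ℕ) (hd : Fintype.card κ + Fintype.card μ = d) (hn : n = 2 ^ d) (hd0 : 100 ≤ d)
    (hT : d ≤ T * T) (hμ : d ≤ 2 * Fintype.card μ) (hE : 10 ≤ E) (hEd : 2 * E ≤ d)
    (hbad : (badSet (Rs (d ^ 10)) T D).card * d ^ 8 ≤ n)
    {θ : ℝ} (hθ : 1 / 2 ≤ θ) (hθ1 : θ ≤ 1)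
    (hmain : θ * 2 ^ Fintype.card μ ≤ ∑ z, Xm (d ^ 29) (D z))
    (hbig : 100 * d ^ 29 ≤ θ * n)
    {p2 : ℝ} (h0 : 0 ≤ p2) (h1 : p2 ≤ 1) :
    (bern p2 h0 h1 (CE (κ ⊕ μ))).pr (fun ω => ¬ HasCyc (fun x y => G1 x y ∨ opn (canE (κ ⊕ μ)) ω x y)
        ((θ - 4 / d - 4 / ((θ * n) / d ^ 29) - 2 / E - 2 / d ^ 29) * n)) ≤
      Real.exp (6 * (n / d ^ 10) - p2 * (n / d ^ 8)) := by
  classical
  have hd1 : 0 < d := by omega
  have hdr : (100 : ℝ) ≤ d := by exact_mod_cast hd0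
  have hpow : 0 < d ^ 29 := by positivity
  set h := d ^ 29 / E + 1 with hh
  have hhE : d ^ 29 ≤ h * E := by
    have := Nat.lt_mul_div_succ (d ^ 29) (show 0 < E by omega)
    rw [hh]
    nlinarith
  have hhL : 2 * h ≤ d ^ 29 := by
    have e1 : d ^ 29 / E ≤ d ^ 29 / 10 := Nat.div_le_div_left hE (by norm_num)
    have e2 : 100 ≤ d ^ 29 := by
      calc 100 ≤ d := hd0
        _ = d ^ 1 := (pow_one d).symm
        _ ≤ d ^ 29 := Nat.pow_le_pow_right hd1 (by norm_num)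
    omega
  set S := mkBlocks G1 D hG1 (d ^ 10) (d ^ 29) h (by positivity) (Nat.succ_pos _) hhL with hS
  have hcard : Fintype.card (κ ⊕ μ) = d := by rw [Fintype.card_sum]; exact hd
  have hnr : (n : ℝ) = 2 ^ Fintype.card κ * 2 ^ Fintype.card μ := by
    rw [hn, ← pow_add, hd]; push_cast; rfl
  have hn0 : (0 : ℝ) < n := by rw [hnr]; positivity
  set N := Fintype.card (MPc (d ^ 29) D) with hN
  have hNL : (N : ℝ) * (d ^ 29 : ℕ) = 2 ^ Fintype.card κ * ∑ z, Xm (d ^ 29) (D z) := card_MPc _ D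
  have hNL1 : θ * n ≤ (N : ℝ) * (d ^ 29 : ℕ) := by
    rw [hNL, hnr]
    calc θ * (2 ^ Fintype.card κ * 2 ^ Fintype.card μ) = 2 ^ Fintype.card κ * (θ * 2 ^ Fintype.card μ) := by ring
      _ ≤ _ := mul_le_mul_of_nonneg_left hmain (by positivity)
  have hc2 : Fintype.card (Cube (κ ⊕ μ)) = n := by
    rw [hn, ← hcard]; simp
  have hRn : Fintype.card (RPc (d ^ 10) D) * d ^ 10 ≤ n := by
    have e1 := Fintype.card_le_of_injective _ S.rp_inj
    rw [Fintype.card_prod, Fintype.card_fin, hc2] at e1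
    exact e1
  have hMn : N * d ^ 29 ≤ n := by
    have e1 := Fintype.card_le_of_injective _ S.mp_inj
    rw [Fintype.card_prod, Fintype.card_fin, hc2] at e1
    exact e1
  have hN100 : (100 : ℝ) ≤ N := by
    have e1 : (100 : ℝ) * d ^ 29 ≤ N * d ^ 29 := by
      have : ((d ^ 29 : ℕ) : ℝ) = (d : ℝ) ^ 29 := by push_cast; rfl
      rw [this] at hNL1
      linarith
    exact le_of_mul_le_mul_right e1 (by positivity)
  have hN1 : n ≤ N * h * d := by
    have e1 : (n : ℝ) ≤ (N : ℝ) * h * d := by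
      have e2 : (n : ℝ) ≤ 2 * ((N : ℝ) * (d ^ 29 : ℕ)) := by nlinarith
      have e3 : ((d ^ 29 : ℕ) : ℝ) ≤ h * E := by exact_mod_cast hhE
      have e4 : (2 : ℝ) * E ≤ d := by exact_mod_cast hEd
      calc (n : ℝ) ≤ 2 * ((N : ℝ) * (d ^ 29 : ℕ)) := e2
        _ ≤ 2 * ((N : ℝ) * (h * E)) := by gcongr
        _ = (N : ℝ) * h * (2 * E) := by ring
        _ ≤ (N : ℝ) * h * d := by gcongr
    exact_mod_cast e1
  have hN8 : 8 ≤ N := by
    have : (8 : ℝ) ≤ N := by linarith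
    exact_mod_cast this
  have hsp := sprinkle_prob (p := p2) (h0 := h0) (h1 := h1) (canE (κ ⊕ μ)) S.bset (bset_disj S) n (d ^ 8)
    (by positivity)
  refine le_trans (FP.pr_mono _ fun ω hω => ?_) (hsp.trans ?_)
  · -- the giant theorem
    intro hspr
    apply hω
    obtain ⟨l, hl, c1, c2, c3, c4, c5⟩ := giant_det (G2 := opn (canE (κ ⊕ μ)) ω) hG1s (fun _ _ h => opn_symm h)
      d n T h hcard hn S hd0 hT (Zdir κ μ) (by rw [card_Zdir]; exact hμ) (badSet (Rs (d ^ 10)) T D) hbad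
      (by
        intro x hx
        have := not_mem_badSet (Rs (d ^ 10)) hx
        rw [hS, mkBlocks_R]
        exact this)
      hspr hN1 hN8
    · refine ⟨l, hl, c1, ?_, c3, c4, Or.inr c5⟩
      have hle : ((Fintype.card (MPc (d ^ 29) D) - 4 * (Fintype.card (MPc (d ^ 29) D) / d + 1)) *
          (d ^ 29 - 2 * h) : ℕ) ≤ l.length := c2
      have hle' : (((N - 4 * (N / d + 1)) * (d ^ 29 - 2 * h) : ℕ) : ℝ) ≤ l.length := by exact_mod_cast hle
      refine le_trans ?_ hle'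
      have hL100 : (100 : ℝ) ≤ ((d ^ 29 : ℕ) : ℝ) := by
        have : (100 : ℕ) ≤ d ^ 29 := by
          calc 100 ≤ d := hd0
            _ = d ^ 1 := (pow_one d).symm
            _ ≤ d ^ 29 := Nat.pow_le_pow_right hd1 (by norm_num)
        exact_mod_cast this
      have hhr : (h : ℝ) ≤ ((d ^ 29 : ℕ) : ℝ) / E + 1 := by
        rw [hh]
        push_cast
        have : ((d ^ 29 / E : ℕ) : ℝ) ≤ ((d ^ 29 : ℕ) : ℝ) / E := Nat.cast_div_le
        push_cast at this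
        linarith
      have hb := length_bound (N := N) (d := d) (L := d ^ 29) (h := h) (n := n) (θ := θ) (E := E) hd0
        (by exact_mod_cast hE) hn0 hNL1 (by exact_mod_cast hMn) hN100 hL100 hhr (by linarith) hθ1
      refine le_trans ?_ hb
      apply mul_le_mul_of_nonneg_right _ hn0.le
      push_cast
      have e1 : (4 : ℝ) / N ≤ 4 / (θ * n / d ^ 29) := by
        apply div_le_div_of_nonneg_left (by norm_num) (by positivity)
        rw [div_le_iff₀ (by positivity)]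
        push_cast at hNL1
        exact hNL1
      linarith
  · -- numerics
    have hB : (Fintype.card (RPc (d ^ 10) D ⊕ (MPc (d ^ 29) D ⊕ MPc (d ^ 29) D)) : ℝ) ≤ 3 * (n / d ^ 10) := by
      rw [Fintype.card_sum, Fintype.card_sum]
      have e1 : (Fintype.card (RPc (d ^ 10) D) : ℝ) ≤ n / d ^ 10 := by
        rw [le_div_iff₀ (by positivity)]
        exact_mod_cast hRn
      have e2 : (N : ℝ) ≤ n / d ^ 10 := by
        rw [le_div_iff₀ (by positivity)]
        have : N * d ^ 10 ≤ n := le_trans (Nat.mul_le_mul_left _ (Nat.pow_le_pow_right hd1 (by norm_num))) hMn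
        exact_mod_cast this
      push_cast
      linarith
    have h4 : (4 : ℝ) ≤ Real.exp 2 := by
      have := Real.add_one_le_exp (1 : ℝ)
      have e2 : Real.exp 2 = Real.exp 1 * Real.exp 1 := by rw [← Real.exp_add]; norm_num
      rw [e2]
      nlinarith
    have h5 : (4 : ℝ) ^ Fintype.card (RPc (d ^ 10) D ⊕ (MPc (d ^ 29) D ⊕ MPc (d ^ 29) D)) ≤
        Real.exp (6 * (n / d ^ 10)) := by
      calc (4 : ℝ) ^ Fintype.card (RPc (d ^ 10) D ⊕ (MPc (d ^ 29) D ⊕ MPc (d ^ 29) D)) ≤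
          (Real.exp 2) ^ Fintype.card (RPc (d ^ 10) D ⊕ (MPc (d ^ 29) D ⊕ MPc (d ^ 29) D)) :=
            pow_le_pow_left₀ (by norm_num) h4 _
        _ = Real.exp (Fintype.card (RPc (d ^ 10) D ⊕ (MPc (d ^ 29) D ⊕ MPc (d ^ 29) D)) * 2) := by
            rw [← Real.exp_nat_mul]
        _ ≤ _ := Real.exp_le_exp.mpr (by linarith)
    refine (mul_le_mul_of_nonneg_right h5 (Real.exp_pos _).le).trans ?_
    rw [← Real.exp_add]
    apply Real.exp_le_exp.mpr
    push_cast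
    linarith

end

end Pool.Agent.LongCyc
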