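import Pool.Agent.LongCyc.GoodProb

/-!
# Stage 2: number of bad points, concentration, sprinkling
-/

set_option autoImplicit false
set_option linter.unusedSectionVars false

namespace Pool.Agent.LongCyc

open Finset

/-! ### products of products -/

section piprod

variable {I : Type*} [Fintype I] [DecidableEq I] {Ω Ω' : Type*} [Fintype Ω] [Fintype Ω']

theorem E_pi_prod (P : FP Ω) (P' : FP Ω') (f : (I → Ω × Ω') → ℝ) :
    (FP.pi fun _ : I => P.prod P').E f =
      (FP.pi fun _ : I => P).E fun a => (FP.pi fun _ : I => P').E fun b => f fun i => (a i, b i) := by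
  rw [← FP.E_prod (FP.pi fun _ : I => P) (FP.pi fun _ : I => P') (fun q => f fun i => (q.1 i, q.2 i))]
  set e : ((I → Ω) × (I → Ω')) ≃ (I → Ω × Ω') :=
    { toFun := fun q i => (q.1 i, q.2 i)
      invFun := fun g => (fun i => (g i).1, fun i => (g i).2)
      left_inv := fun q => rfl
      right_inv := fun g => rfl } with he
  rw [FP.E, ← Equiv.sum_comp e, FP.E]
  refine Finset.sum_congr rfl fun q _ => ?_
  have h1 : (FP.pi fun _ : I => P.prod P').w (e q) =
      ((FP.pi fun _ : I => P).prod (FP.pi fun _ : I => P')).w q := by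
    show ∏ i, (P.w (q.1 i) * P'.w (q.2 i)) = (∏ i, P.w (q.1 i)) * ∏ i, P'.w (q.2 i)
    rw [Finset.prod_mul_distrib]
  rw [h1]
  rfl

end piprod

/-! ### concentration of sums of iid bounded variables -/

section conc

variable {I : Type*} [Fintype I] [DecidableEq I] {Ω : Type*} [Fintype Ω] (P : FP Ω)

/-- second moment of a centred sum of iid variables -/
theorem var_iid (X : Ω → ℝ) (hX0 : ∀ a, 0 ≤ X a) (hX1 : ∀ a, X a ≤ 1) :
    (FP.pi fun _ : I => P).E (fun ω => (∑ i, X (ω i) - Fintype.card I * P.E X) ^ 2) ≤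
      Fintype.card I := by
  classical
  set m := P.E X with hm
  have hm0 : 0 ≤ m := P.E_nonneg hX0
  have hm1 : m ≤ 1 := P.E_le_of_le hX1
  set Y : Ω → ℝ := fun a => X a - m with hY
  have hYE : P.E Y = 0 := by
    rw [hY, FP.E_sub, FP.E_const]; ring
  have hYsq : P.E (fun a => Y a * Y a) ≤ 1 := by
    refine P.E_le_of_le fun a => ?_
    have h1 : |Y a| ≤ 1 := by
      rw [abs_le]
      constructor
      · have := hX0 a; simp only [hY]; linarith
      · have := hX1 a; simp only [hY]; linarith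
    have := abs_le.mp h1
    nlinarith
  have h1 : ∀ ω : I → Ω, (∑ i, X (ω i) - Fintype.card I * m) ^ 2 = ∑ i, ∑ j, Y (ω i) * Y (ω j) := by
    intro ω
    have h2 : ∑ i, X (ω i) - Fintype.card I * m = ∑ i, Y (ω i) := by
      simp only [hY, Finset.sum_sub_distrib, Finset.sum_const, Finset.card_univ, nsmul_eq_mul]
    rw [h2, sq, Finset.sum_mul_sum]
  rw [FP.E_congr _ h1, FP.E_sum]
  have h3 : ∀ i ∈ (Finset.univ : Finset I), (FP.pi fun _ : I => P).E (fun ω => ∑ j, Y (ω i) * Y (ω j)) ≤ 1 := by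
    intro i _
    rw [FP.E_sum, Finset.sum_eq_single i]
    · rw [FP.E_pi_single (fun _ : I => P) i (fun a => Y a * Y a)]
      exact hYsq
    · intro j _ hj
      rw [FP.E_pi_pair (fun _ : I => P) (Ne.symm hj) Y Y, hYE, zero_mul]
    · intro h; exact absurd (Finset.mem_univ i) h
  refine (Finset.sum_le_sum h3).trans ?_
  rw [Finset.sum_const, Finset.card_univ, nsmul_eq_mul, mul_one]

/-- lower deviation of a sum of iid variables -/
theorem conc_iid [Nonempty I] (X : Ω → ℝ) (hX0 : ∀ a, 0 ≤ X a) (hX1 : ∀ a, X a ≤ 1) {ε : ℝ} (hε : 0 < ε) :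
    (FP.pi fun _ : I => P).pr (fun ω => ∑ i, X (ω i) ≤ Fintype.card I * (P.E X - ε)) ≤
      1 / (ε ^ 2 * Fintype.card I) := by
  have hI : (0 : ℝ) < Fintype.card I := by exact_mod_cast Fintype.card_pos
  have h1 := (FP.pi fun _ : I => P).chebyshev (fun ω => ∑ i, X (ω i)) (Fintype.card I * P.E X)
    (t := ε * Fintype.card I) (by positivity)
  have h2 := var_iid (I := I) P X hX0 hX1
  refine (FP.pr_mono _ fun ω h => ?_).trans (h1.trans ?_)
  · rw [abs_sub_comm, le_abs]
    left
    have : (Fintype.card I : ℝ) * (P.E X - ε) = Fintype.card I * P.E X - ε * Fintype.card I := by ring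
    linarith
  · rw [div_le_div_iff₀ (by positivity) (by positivity)]
    calc (FP.pi fun _ : I => P).E (fun ω => (∑ i, X (ω i) - Fintype.card I * P.E X) ^ 2) *
        (ε ^ 2 * Fintype.card I) ≤ Fintype.card I * (ε ^ 2 * Fintype.card I) :=
          mul_le_mul_of_nonneg_right h2 (by positivity)
      _ = 1 * (ε * Fintype.card I) ^ 2 := by ring

end conc

/-! ### number of bad points -/

section badcount

variable {κ μ : Type*} [DecidableEq κ] [Fintype κ] [DecidableEq μ] [Fintype μ]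
  {Ω : Type*} [Fintype Ω] (Q : FP Ω) (Rs : Ω → Finset (Cube κ))

/-- the bad points -/
noncomputable def badSet (Rs : Ω → Finset (Cube κ)) (T : ℕ) (ω : Cube μ → Ω) : Finset (Cube (κ ⊕ μ)) := by
  classical exact Finset.univ.filter fun x => ¬ GoodPt (Zdir κ μ) T (Rall Rs ω) x

theorem not_mem_badSet {T : ℕ} {ω : Cube μ → Ω} {x : Cube (κ ⊕ μ)} (h : x ∉ badSet Rs T ω) :
    GoodPt (Zdir κ μ) T (Rall Rs ω) x := by
  classical
  unfold badSet at h
  simpa using h

theorem bad_prob {q : ℝ} (hq0 : 0 ≤ q) (hq1 : q ≤ 1) (h1 : ∀ y, q ≤ Q.pr (fun ω => y ∈ Rs ω))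
    (h2 : ∀ y k, q ^ 3 ≤ Q.pr (fun ω => y ∈ Rs ω ∧ flip k y ∈ Rs ω)) (T : ℕ) {s : ℝ} (hs : 0 < s) :
    (FP.pi fun _ : Cube μ => Q).pr (fun ω => s * 2 ^ (Fintype.card κ + Fintype.card μ) <
        ((badSet Rs T ω).card : ℝ)) ≤
      ((Fintype.card μ : ℝ) ^ 2 + Fintype.card κ) *
        Real.exp (T - (1 - Real.exp (-1)) * q ^ 3 * (Fintype.card μ - 2)) / s := by
  classical
  set Pi := FP.pi fun _ : Cube μ => Q with hPi
  set b : ℝ := ((Fintype.card μ : ℝ) ^ 2 + Fintype.card κ) *
        Real.exp (T - (1 - Real.exp (-1)) * q ^ 3 * (Fintype.card μ - 2)) with hb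
  set n : ℝ := 2 ^ (Fintype.card κ + Fintype.card μ) with hn
  have hn0 : 0 < n := by positivity
  have hE : Pi.E (fun ω => ((badSet Rs T ω).card : ℝ)) ≤ n * b := by
    have h3 : ∀ ω : Cube μ → Ω, ((badSet Rs T ω).card : ℝ) =
        ∑ x : Cube (κ ⊕ μ), if ¬ GoodPt (Zdir κ μ) T (Rall Rs ω) x then (1 : ℝ) else 0 := by
      intro ω
      unfold badSet
      rw [Finset.card_filter]
      push_cast
      refine Finset.sum_congr rfl fun x _ => ?_
      congr
    rw [FP.E_congr _ h3, FP.E_sum]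
    have h4 : ∀ x ∈ (Finset.univ : Finset (Cube (κ ⊕ μ))),
        Pi.E (fun ω => if ¬ GoodPt (Zdir κ μ) T (Rall Rs ω) x then (1 : ℝ) else 0) ≤ b := by
      intro x _
      rw [← FP.pr_eq]
      exact good_prob Q Rs hq0 hq1 h1 h2 T x
    refine (Finset.sum_le_sum h4).trans ?_
    rw [Finset.sum_const, Finset.card_univ, nsmul_eq_mul]
    apply le_of_eq
    congr 1
    rw [hn, Fintype.card_fun, Fintype.card_bool, Fintype.card_sum]
    push_cast
    rfl
  have h5 := Pi.markov (f := fun ω => ((badSet Rs T ω).card : ℝ)) (fun ω => Nat.cast_nonneg _)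
    (t := s * n) (by positivity)
  refine (Pi.pr_mono fun ω h => h.le).trans (h5.trans ?_)
  rw [div_le_div_iff₀ (by positivity) hs]
  calc Pi.E (fun ω => ((badSet Rs T ω).card : ℝ)) * s ≤ (n * b) * s :=
        mul_le_mul_of_nonneg_right hE hs.le
    _ = b * (s * n) := by ring

end badcount

/-! ### sprinkling -/

section sprinkle

variable {ι : Type*} [DecidableEq ι] [Fintype ι] {E : Type*} [Fintype E] [DecidableEq E]

/-- all bits in `S` are `false` -/
theorem bern_none {p : ℝ} {h0 : 0 ≤ p} {h1 : p ≤ 1} (S : Finset E) :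
    (bern p h0 h1 E).pr (fun ω => ∀ e ∈ S, ω e = false) = (1 - p) ^ S.card := by
  classical
  have h2 : (bern p h0 h1 E).pr (fun ω => ∀ e ∈ S, ω e = false) =
      (bern p h0 h1 E).E (fun ω => ∏ e ∈ S, if ω e = false then 1 else 0) := by
    rw [FP.pr_eq]
    refine FP.E_congr _ fun ω => ?_
    split_ifs with h
    · exact (Finset.prod_eq_one fun z hz => if_pos (h z hz)).symm
    · push Not at h
      obtain ⟨z, hz, hzy⟩ := h
      exact (Finset.prod_eq_zero hz (if_neg hzy)).symm
  rw [h2, bern, FP.E_prod_indep (fun _ : E => ber p h0 h1) S (fun e => {e})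
    (fun a _ b _ hab => by simpa using hab) (fun e ω => if ω e = false then 1 else 0)
    (fun e _ ω ω' h => by rw [h e (by simp)])]
  rw [Finset.prod_congr rfl fun e _ => FP.E_pi_single (fun _ : E => ber p h0 h1) e
    (fun b => if b = false then 1 else 0)]
  simp [FP.E, ber]

/-- no open edge between two disjoint sets -/
theorem pr_no_edge {p : ℝ} {h0 : 0 ≤ p} {h1 : p ≤ 1} (ℓ : EdgeLab ι E) {U U' : Finset (Cube ι)}
    (hU : Disjoint U U') :
    (bern p h0 h1 E).pr (fun ω => ¬ Joined (opn ℓ ω) U U') ≤ (1 - p) ^ (mix U U').card := by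
  classical
  set S : Finset E := (mix U U').image fun q => ℓ.e q.1 q.2 with hS
  have hcard : S.card = (mix U U').card := by
    rw [hS, Finset.card_image_of_injOn]
    rintro ⟨x, i⟩ hx ⟨y, j⟩ hy h
    simp only [mix, Finset.coe_filter, Finset.mem_product, Finset.mem_univ, and_true,
      Set.mem_ofPred_eq] at hx hy
    obtain ⟨h2, h3⟩ := ℓ.inj x i y j h
    subst h2
    rcases h3 with h3 | h3
    · rw [h3]
    · exfalso
      have : flip i y ∈ U' := hy.2
      rw [← h3] at this
      exact Finset.disjoint_left.mp hU hx.1 this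
  rw [← hcard, ← bern_none (p := p) (h0 := h0) (h1 := h1) S]
  refine FP.pr_mono _ fun ω h e he => ?_
  obtain ⟨⟨x, i⟩, hx, rfl⟩ := Finset.mem_image.mp he
  simp only [mix, Finset.mem_filter, Finset.mem_product, Finset.mem_univ, and_true] at hx
  by_contra hcon
  rw [Bool.not_eq_false] at hcon
  exact h ⟨x, hx.1, flip i x, hx.2, i, rfl, hcon⟩

/-- **Sprinkling**: with large probability any two disjoint unions of blocks with many edges between
them are joined -/
theorem sprinkle_prob {p : ℝ} {h0 : 0 ≤ p} {h1 : p ≤ 1} (ℓ : EdgeLab ι E) {B : Type*} [Fintype B]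
    [DecidableEq B] (bs : B → Finset (Cube ι)) (hbs : ∀ b b', b ≠ b' → Disjoint (bs b) (bs b'))
    (n D : ℕ) (hD : 0 < D) :
    (bern p h0 h1 E).pr (fun ω => ¬ ∀ X X' : Finset B, Disjoint X X' →
        n ≤ (mix (X.biUnion bs) (X'.biUnion bs)).card * D →
        ∃ b ∈ X, ∃ b' ∈ X', Joined (opn ℓ ω) (bs b) (bs b')) ≤
      4 ^ Fintype.card B * Real.exp (-(p * (n / D))) := by
  classical
  have hDr : (0 : ℝ) < D := by exact_mod_cast hD
  set s : Finset (Finset B × Finset B) := Finset.univ.filter fun q =>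
    Disjoint q.1 q.2 ∧ n ≤ (mix (q.1.biUnion bs) (q.2.biUnion bs)).card * D with hs
  have hsub : ∀ ω : E → Bool, (¬ ∀ X X' : Finset B, Disjoint X X' →
        n ≤ (mix (X.biUnion bs) (X'.biUnion bs)).card * D →
        ∃ b ∈ X, ∃ b' ∈ X', Joined (opn ℓ ω) (bs b) (bs b')) →
      ∃ q ∈ s, ¬ Joined (opn ℓ ω) (q.1.biUnion bs) (q.2.biUnion bs) := by
    intro ω h
    push Not at h
    obtain ⟨X, X', h2, h3, h4⟩ := h
    refine ⟨(X, X'), ?_, ?_⟩
    · rw [hs, Finset.mem_filter]
      exact ⟨Finset.mem_univ _, h2, h3⟩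
    · rintro ⟨u, hu, v, hv, huv⟩
      obtain ⟨b, hb, hub⟩ := Finset.mem_biUnion.mp hu
      obtain ⟨b', hb', hvb⟩ := Finset.mem_biUnion.mp hv
      exact h4 b hb b' hb' ⟨u, hub, v, hvb, huv⟩
  refine (FP.pr_mono _ hsub).trans ((FP.pr_exists _ s _).trans ?_)
  have h5 : ∀ q ∈ s, (bern p h0 h1 E).pr (fun ω => ¬ Joined (opn ℓ ω) (q.1.biUnion bs) (q.2.biUnion bs)) ≤
      Real.exp (-(p * (n / D))) := by
    intro q hq
    rw [hs, Finset.mem_filter] at hq
    have hdis : Disjoint (q.1.biUnion bs) (q.2.biUnion bs) := by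
      rw [Finset.disjoint_left]
      intro x hx hx'
      obtain ⟨b, hb, hxb⟩ := Finset.mem_biUnion.mp hx
      obtain ⟨b', hb', hxb'⟩ := Finset.mem_biUnion.mp hx'
      by_cases hbb : b = b'
      · subst hbb
        exact Finset.disjoint_left.mp hq.2.1 hb hb'
      · exact Finset.disjoint_left.mp (hbs b b' hbb) hxb hxb'
    refine (pr_no_edge ℓ hdis).trans ?_
    set m := (mix (q.1.biUnion bs) (q.2.biUnion bs)).card with hm
    have h6 : (n : ℝ) / D ≤ m := by
      rw [div_le_iff₀ hDr]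
      exact_mod_cast hq.2.2
    have h7 : (1 - p) ^ m ≤ Real.exp (-p) ^ m := by
      apply pow_le_pow_left₀ (by linarith)
      have := Real.add_one_le_exp (-p)
      linarith
    refine h7.trans ?_
    rw [← Real.exp_nat_mul]
    apply Real.exp_le_exp.mpr
    have := mul_le_mul_of_nonneg_left h6 h0
    linarith
  refine (Finset.sum_le_sum h5).trans ?_
  rw [Finset.sum_const, nsmul_eq_mul]
  apply mul_le_mul_of_nonneg_right _ (Real.exp_pos _).le
  have h6 : s.card ≤ 4 ^ Fintype.card B := by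
    refine (Finset.card_le_univ s).trans ?_
    rw [Fintype.card_prod, Fintype.card_finset, ← pow_add, ← two_mul, pow_mul]
    norm_num
  exact_mod_cast h6

end sprinkle

end Pool.Agent.LongCyc
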