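import Pool.Agent.LongCyc.Perc
import Pool.Agent.LongCyc.Giant

/-!
# Stage 2, probability: most points are good

Independent fibres over `z`, with a random subset `Rs ω` of every fibre.
-/

set_option autoImplicit false
set_option linter.unusedSectionVars false

namespace Pool.Agent.LongCyc

open Finset

section tail

variable {I : Type*} [Fintype I] [DecidableEq I] {Ω : I → Type*} [∀ i, Fintype (Ω i)]
  (P : ∀ i, FP (Ω i))

/-- lower tail for sums of independent indicators -/
theorem tail_indep {κ' : Type*} (K : Finset κ') (S : κ' → Finset I)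
    (hS : (K : Set κ').PairwiseDisjoint S) (A : κ' → (∀ i, Ω i) → Prop)
    [∀ k ω, Decidable (A k ω)]
    (hA : ∀ k ∈ K, ∀ ω ω', (∀ i ∈ S k, ω i = ω' i) → (A k ω ↔ A k ω')) {q : ℝ} (hq0 : 0 ≤ q)
    (hq : ∀ k ∈ K, q ≤ (FP.pi P).pr (A k)) (T : ℕ) :
    (FP.pi P).pr (fun ω => (K.filter fun k => A k ω).card < T) ≤
      Real.exp (T - (1 - Real.exp (-1)) * q * K.card) := by
  have h1 := (FP.pi P).lower_tail (fun ω => ((K.filter fun k => A k ω).card : ℝ)) (T : ℝ)
  have h2 : (FP.pi P).pr (fun ω => (K.filter fun k => A k ω).card < T) ≤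
      (FP.pi P).pr (fun ω => ((K.filter fun k => A k ω).card : ℝ) < (T : ℝ)) :=
    (FP.pi P).pr_mono fun ω h => by exact_mod_cast h
  refine h2.trans (h1.trans ?_)
  have h3 : ∀ ω, Real.exp (-((K.filter fun k => A k ω).card : ℝ)) =
      ∏ k ∈ K, (if A k ω then Real.exp (-1) else 1) := by
    intro ω
    rw [Finset.prod_ite, Finset.prod_const, Finset.prod_const_one, mul_one, ← Real.exp_nat_mul]
    congr 1
    ring
  rw [(FP.pi P).E_congr h3, FP.E_prod_indep P K S hS (fun k ω => if A k ω then Real.exp (-1) else 1)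
    (fun k hk ω ω' h => by
      have := hA k hk ω ω' h
      by_cases h4 : A k ω
      · rw [if_pos h4, if_pos (this.mp h4)]
      · rw [if_neg h4, if_neg (fun h5 => h4 (this.mpr h5))])]
  have hc : 0 < 1 - Real.exp (-1) := by
    have : Real.exp (-1) < 1 := by rw [Real.exp_lt_one_iff]; norm_num
    linarith
  have h4 : ∀ k ∈ K, (FP.pi P).E (fun ω => if A k ω then Real.exp (-1) else 1) ≤
      Real.exp (-((1 - Real.exp (-1)) * q)) := by
    intro k hk
    have h5 : (FP.pi P).E (fun ω => if A k ω then Real.exp (-1) else 1) =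
        1 - (1 - Real.exp (-1)) * (FP.pi P).pr (A k) := by
      have h6 := FP.E_const (FP.pi P) (1 : ℝ)
      rw [FP.pr_eq, ← FP.E_mul_left]
      have h7 := FP.E_sub (FP.pi P) (fun _ => (1 : ℝ)) (fun ω => (1 - Real.exp (-1)) * if A k ω then 1 else 0)
      rw [h6] at h7
      rw [← h7]
      refine FP.E_congr _ fun ω => ?_
      split_ifs <;> ring
    rw [h5]
    have h6 := hq k hk
    have h7 := Real.add_one_le_exp (-((1 - Real.exp (-1)) * q))
    have h8 := mul_le_mul_of_nonneg_left h6 hc.le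
    linarith
  have h5 : ∏ k ∈ K, (FP.pi P).E (fun ω => if A k ω then Real.exp (-1) else 1) ≤
      ∏ _k ∈ K, Real.exp (-((1 - Real.exp (-1)) * q)) := by
    refine Finset.prod_le_prod (fun k _ => FP.E_nonneg _ fun ω => ?_) h4
    split_ifs
    · exact (Real.exp_pos _).le
    · norm_num
  rw [Finset.prod_const, ← Real.exp_nat_mul] at h5
  refine (mul_le_mul_of_nonneg_left h5 (Real.exp_pos _).le).trans ?_
  rw [← Real.exp_add]
  apply Real.exp_le_exp.mpr
  apply le_of_eq
  ring

end tail

section good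

variable {κ μ : Type*} [DecidableEq κ] [Fintype κ] [DecidableEq μ] [Fintype μ]
  {Ω : Type*} [Fintype Ω] (Q : FP Ω) (Rs : Ω → Finset (Cube κ))

/-- the reservoir: union of the sets `Rs (ω z)` in the fibres -/
noncomputable def Rall (ω : Cube μ → Ω) : Finset (Cube (κ ⊕ μ)) := by
  classical exact Finset.univ.filter fun x => x ∘ Sum.inl ∈ Rs (ω (x ∘ Sum.inr))

theorem mem_Rall {ω : Cube μ → Ω} {x : Cube (κ ⊕ μ)} :
    x ∈ Rall Rs ω ↔ x ∘ Sum.inl ∈ Rs (ω (x ∘ Sum.inr)) := by
  classical
  unfold Rall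
  simp

/-- the directions of the second factor -/
def Zdir (κ μ : Type*) [DecidableEq κ] [DecidableEq μ] [Fintype μ] : Finset (κ ⊕ μ) :=
  Finset.univ.image Sum.inr

theorem card_Zdir : (Zdir κ μ).card = Fintype.card μ := by
  rw [Zdir, Finset.card_image_of_injective _ Sum.inr_injective, Finset.card_univ]

theorem flip_inr_inl (i : μ) (x : Cube (κ ⊕ μ)) : flip (Sum.inr i) x ∘ Sum.inl = x ∘ Sum.inl := by
  rw [flip_inr, jn_inl]

theorem flip_inr_inr (i : μ) (x : Cube (κ ⊕ μ)) :
    flip (Sum.inr i) x ∘ Sum.inr = flip i (x ∘ Sum.inr) := by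
  rw [flip_inr, jn_inr]

theorem flip_inl_inl (i : κ) (x : Cube (κ ⊕ μ)) :
    flip (Sum.inl i) x ∘ Sum.inl = flip i (x ∘ Sum.inl) := by
  rw [flip_inl, jn_inl]

theorem flip_inl_inr (i : κ) (x : Cube (κ ⊕ μ)) : flip (Sum.inl i) x ∘ Sum.inr = x ∘ Sum.inr := by
  rw [flip_inl, jn_inr]

/-- all the fibres in `S` cover the point `y` -/
theorem pr_all_ge {q : ℝ} (hq0 : 0 ≤ q) (h1 : ∀ y, q ≤ Q.pr (fun ω => y ∈ Rs ω)) (y : Cube κ)
    (S : Finset (Cube μ)) :
    q ^ S.card ≤ (FP.pi fun _ : Cube μ => Q).pr (fun ω => ∀ z ∈ S, y ∈ Rs (ω z)) := by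
  classical
  have h2 : (FP.pi fun _ : Cube μ => Q).pr (fun ω => ∀ z ∈ S, y ∈ Rs (ω z)) =
      (FP.pi fun _ : Cube μ => Q).E (fun ω => ∏ z ∈ S, if y ∈ Rs (ω z) then 1 else 0) := by
    rw [FP.pr_eq]
    refine FP.E_congr _ fun ω => ?_
    split_ifs with h
    · exact (Finset.prod_eq_one fun z hz => if_pos (h z hz)).symm
    · push Not at h
      obtain ⟨z, hz, hzy⟩ := h
      exact (Finset.prod_eq_zero hz (if_neg hzy)).symm
  rw [h2, FP.E_prod_indep (fun _ : Cube μ => Q) S (fun z => {z})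
    (fun a _ b _ hab => by simpa using hab) (fun z ω => if y ∈ Rs (ω z) then 1 else 0)
    (fun z _ ω ω' h => by rw [h z (by simp)])]
  rw [← Finset.prod_const]
  refine Finset.prod_le_prod (fun _ _ => hq0) fun z _ => ?_
  rw [FP.E_pi_single (fun _ : Cube μ => Q) z (fun a => if y ∈ Rs a then 1 else 0), ← FP.pr_eq]
  exact h1 y

/-- two vertices of the cube which differ from `z` in small sets of coordinates -/
theorem flip2_ne {i k k' : μ} (z : Cube μ) (h : k ≠ i) (h' : k' ≠ i ) : 
    flip k z ≠ flip i (flip k' z) := by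
  intro he
  have := congrFun he i
  rw [flip_of_ne (Ne.symm h), flip_same, flip_of_ne (Ne.symm h')] at this
  simp at this

theorem flip2_ne' {i j k k' : μ} (z : Cube μ) (hk : k ≠ k') (h2 : k ≠ j) (h1 : k ≠ i) :
    flip i (flip k z) ≠ flip j (flip k' z) := by
  intro he
  have := congrFun he k
  rw [flip_of_ne h1, flip_same, flip_of_ne h2, flip_of_ne hk] at this
  simp at this

/-- a point is good with large probability -/
theorem good_prob {q : ℝ} (hq0 : 0 ≤ q) (hq1 : q ≤ 1) (h1 : ∀ y, q ≤ Q.pr (fun ω => y ∈ Rs ω))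
    (h2 : ∀ y k, q ^ 3 ≤ Q.pr (fun ω => y ∈ Rs ω ∧ flip k y ∈ Rs ω)) (T : ℕ) (x : Cube (κ ⊕ μ)) :
    (FP.pi fun _ : Cube μ => Q).pr (fun ω => ¬ GoodPt (Zdir κ μ) T (Rall Rs ω) x) ≤
      ((Fintype.card μ : ℝ) ^ 2 + Fintype.card κ) *
        Real.exp (T - (1 - Real.exp (-1)) * q ^ 3 * (Fintype.card μ - 2)) := by
  classical
  set y := x ∘ Sum.inl with hy
  set z := x ∘ Sum.inr with hz
  set Pi := FP.pi fun _ : Cube μ => Q with hPi
  have hq3 : 0 ≤ q ^ 3 := by positivity
  have hc : 0 ≤ 1 - Real.exp (-1) := by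
    have : Real.exp (-1) < 1 := by rw [Real.exp_lt_one_iff]; norm_num
    linarith
  -- the events of the first kind
  set A : μ × μ → (Cube μ → Ω) → Prop := fun ij ω =>
    ((Finset.univ \ {ij.1, ij.2}).filter fun k : μ => y ∈ Rs (ω (flip k z)) ∧
      y ∈ Rs (ω (flip ij.1 (flip k z))) ∧ y ∈ Rs (ω (flip ij.2 (flip k z)))).card < T with hA
  set B : κ → (Cube μ → Ω) → Prop := fun k ω =>
    ((Finset.univ : Finset μ).filter fun j : μ => y ∈ Rs (ω (flip j z)) ∧
      flip k y ∈ Rs (ω (flip j z))).card < T with hB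
  have hsub : ∀ ω, ¬ GoodPt (Zdir κ μ) T (Rall Rs ω) x →
      (∃ ij ∈ (Finset.univ : Finset (μ × μ)), A ij ω) ∨ (∃ k ∈ (Finset.univ : Finset κ), B k ω) := by
    intro ω hω
    by_contra hcon
    push Not at hcon
    obtain ⟨hc1, hc2⟩ := hcon
    apply hω
    have key : ∀ i j : μ, T ≤ ((Zdir κ μ).filter fun k =>
        flip k x ∈ Rall Rs ω ∧ flip (Sum.inr i) (flip k x) ∈ Rall Rs ω ∧
          flip (Sum.inr j) (flip k x) ∈ Rall Rs ω).card := by
      intro i j
      have h3 := hc1 (i, j) (Finset.mem_univ _)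
      simp only [hA, not_lt] at h3
      refine h3.trans ?_
      refine Finset.card_le_card_of_injOn (fun k : μ => (Sum.inr k : κ ⊕ μ)) ?_
        (Sum.inr_injective.injOn)
      intro k hk
      simp only [Finset.coe_filter, Set.mem_ofPred_eq, Finset.mem_sdiff] at hk
      simp only [Finset.coe_filter, Set.mem_ofPred_eq, Zdir, Finset.mem_image, Finset.mem_univ, true_and,
        mem_Rall, flip_inr_inl, flip_inr_inr]
      exact ⟨⟨k, rfl⟩, hk.2⟩
    constructor
    · intro i hi j hj
      simp only [Zdir, Finset.mem_image, Finset.mem_univ, true_and] at hi hj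
      obtain ⟨i, rfl⟩ := hi
      obtain ⟨j, rfl⟩ := hj
      exact key i j
    · intro k
      rcases k with k | k
      · have h3 := hc2 k (Finset.mem_univ _)
        simp only [hB, not_lt] at h3
        refine h3.trans ?_
        refine Finset.card_le_card_of_injOn (fun j : μ => (Sum.inr j : κ ⊕ μ)) ?_
          (Sum.inr_injective.injOn)
        intro j hj
        simp only [Finset.coe_filter, Set.mem_ofPred_eq, Finset.mem_univ, true_and] at hj
        simp only [Finset.coe_filter, Set.mem_ofPred_eq, Zdir, Finset.mem_image, Finset.mem_univ, true_and,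
          mem_Rall, flip_inr_inl, flip_inr_inr, flip_inl_inl, flip_inl_inr]
        exact ⟨⟨j, rfl⟩, hj⟩
      · refine (key k k).trans (Finset.card_le_card ?_)
        intro j hj
        simp only [Finset.mem_filter] at hj ⊢
        exact ⟨hj.1, hj.2.1, hj.2.2.1⟩
  have hA1 : ∀ ij : μ × μ, Pi.pr (A ij) ≤
      Real.exp (T - (1 - Real.exp (-1)) * q ^ 3 * (Fintype.card μ - 2)) := by
    rintro ⟨i, j⟩
    have h3 := tail_indep (fun _ : Cube μ => Q) (Finset.univ \ {i, j} : Finset μ)
      (fun k => {flip k z, flip i (flip k z), flip j (flip k z)}) ?_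
      (fun k ω => y ∈ Rs (ω (flip k z)) ∧ y ∈ Rs (ω (flip i (flip k z))) ∧
        y ∈ Rs (ω (flip j (flip k z)))) ?_ hq3 ?_ T
    · refine h3.trans (Real.exp_le_exp.mpr ?_)
      have h4 : (Fintype.card μ : ℝ) - 2 ≤ ((Finset.univ \ {i, j} : Finset μ).card : ℝ) := by
        have h5 : Fintype.card μ ≤ (Finset.univ \ {i, j} : Finset μ).card + 2 := by
          have h6 := Finset.le_card_sdiff ({i, j} : Finset μ) Finset.univ
          have h7 : ({i, j} : Finset μ).card ≤ 2 := Finset.card_le_two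
          rw [Finset.card_univ] at h6
          omega
        have : (Fintype.card μ : ℝ) ≤ ((Finset.univ \ {i, j} : Finset μ).card : ℝ) + 2 := by
          exact_mod_cast h5
        linarith
      have := mul_le_mul_of_nonneg_left h4 (mul_nonneg hc hq3)
      linarith
    · intro k hk k' hk' hkk
      simp only [Finset.coe_sdiff, Finset.coe_univ, Finset.coe_insert, Finset.coe_singleton, Set.mem_sdiff,
        Set.mem_univ, true_and, Set.mem_insert_iff, Set.mem_singleton_iff, not_or] at hk hk'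
      rw [Function.onFun, Finset.disjoint_left]
      intro w hw hw'
      simp only [Finset.mem_insert, Finset.mem_singleton] at hw hw'
      rcases hw with hw | hw | hw <;> rcases hw' with hw' | hw' | hw'
      · exact hkk (flip_dir_injective z (hw.symm.trans hw'))
      · exact flip2_ne z hk.1 hk'.1 (hw.symm.trans hw')
      · exact flip2_ne z hk.2 hk'.2 (hw.symm.trans hw')
      · exact flip2_ne z hk'.1 hk.1 (hw'.symm.trans hw)
      · exact flip2_ne' z hkk hk.1 hk.1 (hw.symm.trans hw')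
      · exact flip2_ne' z hkk hk.2 hk.1 (hw.symm.trans hw')
      · exact flip2_ne z hk'.2 hk.2 (hw'.symm.trans hw)
      · exact flip2_ne' z hkk hk.1 hk.2 (hw.symm.trans hw')
      · exact flip2_ne' z hkk hk.2 hk.2 (hw.symm.trans hw')
    · intro k _ ω ω' h
      rw [h (flip k z) (by simp), h (flip i (flip k z)) (by simp), h (flip j (flip k z)) (by simp)]
    · intro k _
      have h4 := pr_all_ge Q Rs hq0 h1 y ({flip k z, flip i (flip k z), flip j (flip k z)} : Finset (Cube μ))
      refine le_trans ?_ (h4.trans (FP.pr_mono _ fun ω h => ?_))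
      · exact pow_le_pow_of_le_one hq0 hq1 Finset.card_le_three
      · exact ⟨h _ (by simp), h _ (by simp), h _ (by simp)⟩
  have hB1 : ∀ k : κ, Pi.pr (B k) ≤
      Real.exp (T - (1 - Real.exp (-1)) * q ^ 3 * (Fintype.card μ - 2)) := by
    intro k
    have h3 := tail_indep (fun _ : Cube μ => Q) (Finset.univ : Finset μ)
      (fun j => {flip j z}) ?_
      (fun j ω => y ∈ Rs (ω (flip j z)) ∧ flip k y ∈ Rs (ω (flip j z))) ?_ hq3 ?_ T
    · refine h3.trans (Real.exp_le_exp.mpr ?_)
      rw [Finset.card_univ]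
      have : (1 - Real.exp (-1)) * q ^ 3 * ((Fintype.card μ : ℝ) - 2) ≤
          (1 - Real.exp (-1)) * q ^ 3 * (Fintype.card μ : ℝ) :=
        mul_le_mul_of_nonneg_left (by linarith) (mul_nonneg hc hq3)
      linarith
    · intro j _ j' _ hjj
      rw [Function.onFun, Finset.disjoint_singleton]
      exact fun h => hjj (flip_dir_injective z h)
    · intro j _ ω ω' h
      rw [h (flip j z) (by simp)]
    · intro j _
      have h4 : (FP.pi fun _ : Cube μ => Q).pr (fun ω => y ∈ Rs (ω (flip j z)) ∧ flip k y ∈ Rs (ω (flip j z))) =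
          Q.pr (fun ω => y ∈ Rs ω ∧ flip k y ∈ Rs ω) := by
        rw [FP.pr_eq, FP.pr_eq]
        exact FP.E_pi_single (fun _ : Cube μ => Q) (flip j z)
          (fun a => if y ∈ Rs a ∧ flip k y ∈ Rs a then 1 else 0)
      rw [h4]
      exact h2 y k
  refine (Pi.pr_mono hsub).trans ((Pi.pr_or _ _).trans ?_)
  refine (add_le_add (Pi.pr_exists _ A) (Pi.pr_exists _ B)).trans ?_
  refine (add_le_add (Finset.sum_le_sum fun ij _ => hA1 ij) (Finset.sum_le_sum fun k _ => hB1 k)).trans ?_
  rw [Finset.sum_const, Finset.sum_const, Finset.card_univ, Finset.card_univ, Fintype.card_prod,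
    nsmul_eq_mul, nsmul_eq_mul]
  apply le_of_eq
  push_cast
  ring

end good

end Pool.Agent.LongCyc
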