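import Mathlib

/-!
# Fractional matchings: normalisation and integral matchings
-/

set_option autoImplicit false

namespace Pool.Agent.LongCyc

open Finset

/-- Hall's theorem: a fractional matching of weight `W` gives a matching of size at least `W` in
its support -/
theorem exists_matching_of_frac {A B : Type*} [Fintype A] [Fintype B] (w : A → B → ℝ)
    (hw : ∀ a b, 0 ≤ w a b) (hA : ∀ a, ∑ b, w a b ≤ 1) (hB : ∀ b, ∑ a, w a b ≤ 1) :
    ∃ M : Finset (A × B), (∀ q ∈ M, 0 < w q.1 q.2) ∧
      (∀ q ∈ M, ∀ q' ∈ M, q.1 = q'.1 → q = q') ∧ (∀ q ∈ M, ∀ q' ∈ M, q.2 = q'.2 → q = q') ∧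
      ∑ a, ∑ b, w a b ≤ M.card := by
  classical
  set W := ∑ a, ∑ b, w a b with hW
  have hWA : W ≤ Fintype.card A := by
    calc W ≤ ∑ _a : A, (1 : ℝ) := Finset.sum_le_sum fun a _ => hA a
      _ = Fintype.card A := by simp
  set D := ⌊(Fintype.card A : ℝ) - W⌋₊ with hD
  set t : A → Finset (B ⊕ Fin D) := fun a =>
    ((Finset.univ.filter fun b => 0 < w a b).image Sum.inl) ∪ Finset.univ.image Sum.inr with ht
  have hall : ∀ s : Finset A, s.card ≤ (s.biUnion t).card := by
    intro s
    rcases s.eq_empty_or_nonempty with rfl | hs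
    · simp
    set N : Finset B := Finset.univ.filter fun b => ∃ a ∈ s, 0 < w a b with hN
    have h1 : s.biUnion t = N.image Sum.inl ∪ Finset.univ.image Sum.inr := by
      ext q
      rcases q with b | j
      · simp [ht, hN]
      · simp only [ht, Finset.mem_biUnion, Finset.mem_union, Finset.mem_image, Finset.mem_univ,
          true_and, Finset.mem_filter, reduceCtorEq, and_false, exists_false,
          Sum.inr.injEq, exists_eq, and_true, or_true, iff_true]
        exact hs
    have h2 : (s.biUnion t).card = N.card + D := by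
      rw [h1, Finset.card_union_of_disjoint, Finset.card_image_of_injective _ Sum.inl_injective,
        Finset.card_image_of_injective _ Sum.inr_injective, Finset.card_univ, Fintype.card_fin]
      rw [Finset.disjoint_left]
      rintro q hq hq'
      simp only [Finset.mem_image] at hq hq'
      obtain ⟨b, _, rfl⟩ := hq
      obtain ⟨j, _, h⟩ := hq'
      cases h
    rw [h2]
    -- `|s| ≤ |N| + (|A| - W)`
    have h3 : (s.card : ℝ) ≤ N.card + (Fintype.card A - W) := by
      have e1 : ∑ a ∈ s, ∑ b, w a b ≤ N.card := by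
        calc ∑ a ∈ s, ∑ b, w a b = ∑ a ∈ s, ∑ b ∈ N, w a b := by
              refine Finset.sum_congr rfl fun a ha => ?_
              symm
              refine Finset.sum_subset (Finset.subset_univ _) fun b _ hb => ?_
              by_contra hne
              exact hb (Finset.mem_filter.2 ⟨Finset.mem_univ _, a, ha,
                lt_of_le_of_ne (hw a b) (Ne.symm hne)⟩)
          _ = ∑ b ∈ N, ∑ a ∈ s, w a b := Finset.sum_comm
          _ ≤ ∑ b ∈ N, 1 := by
              refine Finset.sum_le_sum fun b _ => le_trans ?_ (hB b)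
              exact Finset.sum_le_sum_of_subset_of_nonneg (Finset.subset_univ _)
                fun a _ _ => hw a b
          _ = N.card := by simp
      have e2 : W = ∑ a ∈ s, ∑ b, w a b + ∑ a ∈ sᶜ, ∑ b, w a b :=
        (Finset.sum_add_sum_compl s _).symm
      have e3 : ∑ a ∈ sᶜ, ∑ b, w a b ≤ (sᶜ.card : ℝ) := by
        calc ∑ a ∈ sᶜ, ∑ b, w a b ≤ ∑ _a ∈ sᶜ, (1 : ℝ) := Finset.sum_le_sum fun a _ => hA a
          _ = sᶜ.card := by simp
      have e4 : (sᶜ.card : ℝ) = Fintype.card A - s.card := by
        rw [Finset.card_compl, Nat.cast_sub (Finset.card_le_univ s)]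
      linarith
    have h4 : ((s.card - N.card : ℕ) : ℝ) ≤ Fintype.card A - W := by
      rcases le_total N.card s.card with h | h
      · rw [Nat.cast_sub h]; linarith
      · rw [Nat.sub_eq_zero_of_le h]
        simpa using hWA
    have h5 : s.card - N.card ≤ D := Nat.le_floor h4
    omega
  obtain ⟨f, hf, hft⟩ := (Finset.all_card_le_biUnion_card_iff_exists_injective t).1 hall
  set M : Finset (A × B) := Finset.univ.filter fun q => f q.1 = Sum.inl q.2 with hM
  refine ⟨M, ?_, ?_, ?_, ?_⟩
  · rintro ⟨a, b⟩ h
    rw [hM, Finset.mem_filter] at h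
    have h2 := hft a
    rw [h.2] at h2
    simpa [ht] using h2
  · rintro ⟨a, b⟩ h ⟨a', b'⟩ h' hab
    rw [hM, Finset.mem_filter] at h h'
    dsimp only at hab h h'
    subst hab
    have : (Sum.inl b : B ⊕ Fin D) = Sum.inl b' := h.2.symm.trans h'.2
    rw [Sum.inl.inj this]
  · rintro ⟨a, b⟩ h ⟨a', b'⟩ h' hab
    rw [hM, Finset.mem_filter] at h h'
    dsimp only at hab h h'
    subst hab
    rw [hf (h.2.trans h'.2.symm)]
  · -- size
    have h1 : (Finset.univ.filter fun a => ∃ b, f a = Sum.inl b).card ≤ M.card := by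
      have : (Finset.univ.filter fun a => ∃ b, f a = Sum.inl b) ⊆ M.image Prod.fst := by
        intro a ha
        rw [Finset.mem_filter] at ha
        obtain ⟨_, b, hb⟩ := ha
        exact Finset.mem_image.2 ⟨(a, b), by simp [hM, hb], rfl⟩
      exact (Finset.card_le_card this).trans Finset.card_image_le
    have h2 : (Finset.univ.filter fun a => ¬ ∃ b, f a = Sum.inl b).card ≤ D := by
      have : ((Finset.univ.filter fun a => ¬ ∃ b, f a = Sum.inl b).image f) ⊆
          (Finset.univ : Finset (Fin D)).image Sum.inr := by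
        intro q hq
        rw [Finset.mem_image] at hq
        obtain ⟨a, ha, rfl⟩ := hq
        rw [Finset.mem_filter] at ha
        rcases hfa : f a with b | j
        · exact absurd ⟨b, hfa⟩ ha.2
        · simp
      have h3 := Finset.card_le_card this
      rw [Finset.card_image_of_injective _ hf,
        Finset.card_image_of_injective _ Sum.inr_injective] at h3
      simpa using h3
    have h3 := Finset.card_filter_add_card_filter_not (s := (Finset.univ : Finset A))
      (fun a => ∃ b, f a = Sum.inl b)
    rw [Finset.card_univ] at h3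
    have h4 : (D : ℝ) ≤ Fintype.card A - W := Nat.floor_le (by linarith)
    have h5 : (Fintype.card A : ℝ) ≤ M.card + D := by
      have : Fintype.card A ≤ M.card + D := by omega
      exact_mod_cast this
    linarith

/-- **Normalisation**: nonnegative weights with loads close to `1` give a large matching inside
their support -/
theorem exists_matching {A B : Type*} [Fintype A] [Fintype B] (w : A → B → ℝ)
    (hw : ∀ a b, 0 ≤ w a b) :
    ∃ M : Finset (A × B), (∀ q ∈ M, 0 < w q.1 q.2) ∧
      (∀ q ∈ M, ∀ q' ∈ M, q.1 = q'.1 → q = q') ∧ (∀ q ∈ M, ∀ q' ∈ M, q.2 = q'.2 → q = q') ∧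
      ∑ a, (1 - |1 - ∑ b, w a b|) + ∑ b, (1 - |1 - ∑ a, w a b|) ≤ 2 * M.card := by
  set LA : A → ℝ := fun a => ∑ b, w a b with hLA
  set LB : B → ℝ := fun b => ∑ a, w a b with hLB
  set MA : A → ℝ := fun a => max 1 (LA a) with hMA
  set MB : B → ℝ := fun b => max 1 (LB b) with hMB
  have hMA1 : ∀ a, 1 ≤ MA a := fun a => le_max_left _ _
  have hMB1 : ∀ b, 1 ≤ MB b := fun b => le_max_left _ _
  have hLA0 : ∀ a, 0 ≤ LA a := fun a => Finset.sum_nonneg fun b _ => hw a b
  have hLB0 : ∀ b, 0 ≤ LB b := fun b => Finset.sum_nonneg fun a _ => hw a b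
  have hinvA : ∀ a, 1 / MA a ≤ 1 := fun a => by
    rw [div_le_one (by linarith [hMA1 a])]; exact hMA1 a
  have hinvB : ∀ b, 1 / MB b ≤ 1 := fun b => by
    rw [div_le_one (by linarith [hMB1 b])]; exact hMB1 b
  set w' : A → B → ℝ := fun a b => w a b / (MA a * MB b) with hw'
  have hw'0 : ∀ a b, 0 ≤ w' a b := fun a b =>
    div_nonneg (hw a b) (mul_nonneg (by linarith [hMA1 a]) (by linarith [hMB1 b]))
  have hmin : ∀ {L : ℝ}, 0 ≤ L → L / max 1 L = min 1 L := by
    intro L hL
    rcases le_total 1 L with h | h
    · rw [max_eq_right h, min_eq_left h, div_self (by linarith)]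
    · rw [max_eq_left h, min_eq_right h, div_one]
  have hkey : ∀ {L : ℝ}, min 1 L - (L - min 1 L) = 1 - |1 - L| := by
    intro L
    rcases le_total 1 L with h | h
    · rw [min_eq_left h, abs_of_nonpos (by linarith)]; ring
    · rw [min_eq_right h, abs_of_nonneg (by linarith)]; ring
  have hrow : ∀ a, ∑ b, w' a b ≤ 1 := by
    intro a
    calc ∑ b, w' a b ≤ ∑ b, w a b / MA a := by
          refine Finset.sum_le_sum fun b _ => ?_
          rw [hw']
          dsimp only
          rw [← div_div]
          exact div_le_self (div_nonneg (hw a b) (by linarith [hMA1 a])) (hMB1 b)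
      _ = LA a / MA a := by rw [Finset.sum_div]
      _ ≤ 1 := by
          rw [hMA]
          dsimp only
          rw [hmin (hLA0 a)]
          exact min_le_left _ _
  have hcol : ∀ b, ∑ a, w' a b ≤ 1 := by
    intro b
    calc ∑ a, w' a b ≤ ∑ a, w a b / MB b := by
          refine Finset.sum_le_sum fun a _ => ?_
          rw [hw']
          dsimp only
          rw [mul_comm, ← div_div]
          exact div_le_self (div_nonneg (hw a b) (by linarith [hMB1 b])) (hMA1 a)
      _ = LB b / MB b := by rw [Finset.sum_div]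
      _ ≤ 1 := by
          rw [hMB]
          dsimp only
          rw [hmin (hLB0 b)]
          exact min_le_left _ _
  obtain ⟨M, h1, h2, h3, h4⟩ := exists_matching_of_frac w' hw'0 hrow hcol
  refine ⟨M, ?_, h2, h3, ?_⟩
  · intro q hq
    have h5 := h1 q hq
    by_contra h6
    have h7 : w q.1 q.2 = 0 := le_antisymm (not_lt.1 h6) (hw _ _)
    rw [hw'] at h5
    dsimp only at h5
    rw [h7, zero_div] at h5
    exact lt_irrefl _ h5
  -- total weight from both sides
  have hT1 : ∑ a, min 1 (LA a) - ∑ b, (LB b - min 1 (LB b)) ≤ ∑ a, ∑ b, w' a b := by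
    have e1 : ∀ a, ∑ b, w' a b = min 1 (LA a) - ∑ b, w a b / MA a * (1 - 1 / MB b) := by
      intro a
      rw [← hmin (hLA0 a)]
      have : LA a / max 1 (LA a) = ∑ b, w a b / MA a := by
        rw [← Finset.sum_div]
      rw [this, ← Finset.sum_sub_distrib]
      refine Finset.sum_congr rfl fun b _ => ?_
      rw [hw']
      dsimp only
      have hA := hMA1 a
      have hB := hMB1 b
      field_simp
      ring
    simp only [e1, Finset.sum_sub_distrib]
    have e2 : ∑ a, ∑ b, w a b / MA a * (1 - 1 / MB b) ≤ ∑ b, (LB b - min 1 (LB b)) := by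
      rw [Finset.sum_comm]
      refine Finset.sum_le_sum fun b _ => ?_
      calc ∑ a, w a b / MA a * (1 - 1 / MB b) ≤ ∑ a, w a b * (1 - 1 / MB b) := by
            refine Finset.sum_le_sum fun a _ => ?_
            refine mul_le_mul_of_nonneg_right ?_ (by linarith [hinvB b])
            exact div_le_self (hw a b) (hMA1 a)
        _ = LB b * (1 - 1 / MB b) := by rw [Finset.sum_mul]
        _ = LB b - min 1 (LB b) := by
            rw [← hmin (hLB0 b)]
            ring
    rw [Finset.sum_sub_distrib] at e2
    linarith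
  have hT2 : ∑ b, min 1 (LB b) - ∑ a, (LA a - min 1 (LA a)) ≤ ∑ a, ∑ b, w' a b := by
    rw [Finset.sum_comm]
    have e1 : ∀ b, ∑ a, w' a b = min 1 (LB b) - ∑ a, w a b / MB b * (1 - 1 / MA a) := by
      intro b
      rw [← hmin (hLB0 b)]
      have : LB b / max 1 (LB b) = ∑ a, w a b / MB b := by
        rw [← Finset.sum_div]
      rw [this, ← Finset.sum_sub_distrib]
      refine Finset.sum_congr rfl fun a _ => ?_
      rw [hw']
      dsimp only
      have hA := hMA1 a
      have hB := hMB1 b
      field_simp
      ring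
    simp only [e1, Finset.sum_sub_distrib]
    have e2 : ∑ b, ∑ a, w a b / MB b * (1 - 1 / MA a) ≤ ∑ a, (LA a - min 1 (LA a)) := by
      rw [Finset.sum_comm]
      refine Finset.sum_le_sum fun a _ => ?_
      calc ∑ b, w a b / MB b * (1 - 1 / MA a) ≤ ∑ b, w a b * (1 - 1 / MA a) := by
            refine Finset.sum_le_sum fun b _ => ?_
            refine mul_le_mul_of_nonneg_right ?_ (by linarith [hinvA a])
            exact div_le_self (hw a b) (hMB1 b)
        _ = LA a * (1 - 1 / MA a) := by rw [Finset.sum_mul]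
        _ = LA a - min 1 (LA a) := by
            rw [← hmin (hLA0 a)]
            ring
    rw [Finset.sum_sub_distrib] at e2
    linarith
  have hA : ∑ a, (1 - |1 - LA a|) = ∑ a, min 1 (LA a) - ∑ a, (LA a - min 1 (LA a)) := by
    rw [← Finset.sum_sub_distrib]
    exact Finset.sum_congr rfl fun a _ => hkey.symm
  have hB : ∑ b, (1 - |1 - LB b|) = ∑ b, min 1 (LB b) - ∑ b, (LB b - min 1 (LB b)) := by
    rw [← Finset.sum_sub_distrib]
    exact Finset.sum_congr rfl fun b _ => hkey.symm
  rw [hA, hB]
  linarith

end Pool.Agent.LongCyc
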