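import Pool.Agent.LongCyc.Perc
import Pool.Agent.LongCyc.Frac

/-!
# The doubling lemma

`nu p (m + δ) (2 (l - s)) ≥ nu p m l (1 - s / l) (1 - sqrt (1 / (s δ p w) + 1 / (δ w)))`,
`w = nu p m l * s / l`.
-/

set_option autoImplicit false
set_option synthInstance.maxSize 2000

namespace Pool.Agent.LongCyc

open Finset

/-! ### Moments -/

/-- second moment of a weighted sum of independent bits -/
theorem bern_sq_le {p : ℝ} {h0 : 0 ≤ p} {h1 : p ≤ 1} {E Q : Type*} [Fintype E] [DecidableEq E]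
    (S : Finset Q) (lb : Q → E) (hlb : Set.InjOn lb S) (c : Q → ℝ) :
    (bern p h0 h1 E).E (fun ω => (∑ q ∈ S, c q * if ω (lb q) then 1 else 0) ^ 2) ≤
      p * ∑ q ∈ S, c q ^ 2 + p ^ 2 * (∑ q ∈ S, c q) ^ 2 := by
  classical
  have h : ∀ ω : E → Bool, (∑ q ∈ S, c q * if ω (lb q) then (1 : ℝ) else 0) ^ 2 =
      ∑ q ∈ S, ∑ q' ∈ S, (c q * c q') *
        ((if ω (lb q) then 1 else 0) * (if ω (lb q') then 1 else 0)) := by
    intro ω
    rw [sq, Finset.sum_mul_sum]
    exact Finset.sum_congr rfl fun q _ => Finset.sum_congr rfl fun q' _ => by ring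
  simp only [h, FP.E_sum, FP.E_mul_left, bern_two]
  have h2 : ∀ q ∈ S, ∑ q' ∈ S, (c q * c q') * (if lb q = lb q' then p else p ^ 2) =
      c q ^ 2 * (p - p ^ 2) + p ^ 2 * (c q * ∑ q' ∈ S, c q') := by
    intro q hq
    have e1 : ∀ q' ∈ S, (c q * c q') * (if lb q = lb q' then p else p ^ 2) =
        (if q' = q then c q * c q' * (p - p ^ 2) else 0) + p ^ 2 * (c q * c q') := by
      intro q' hq'
      by_cases hqq : q' = q
      · subst hqq
        rw [if_pos rfl, if_pos rfl]
        ring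
      · rw [if_neg (fun h => hqq (hlb hq' hq h.symm)), if_neg hqq]
        ring
    rw [Finset.sum_congr rfl e1, Finset.sum_add_distrib, Finset.sum_ite_eq' S q, if_pos hq,
      ← Finset.mul_sum, ← Finset.mul_sum]
    ring
  rw [Finset.sum_congr rfl h2, Finset.sum_add_distrib, ← Finset.sum_mul, ← Finset.mul_sum,
    ← Finset.sum_mul]
  have h3 : 0 ≤ (∑ q ∈ S, c q ^ 2) * p ^ 2 :=
    mul_nonneg (Finset.sum_nonneg fun q _ => sq_nonneg _) (sq_nonneg p)
  nlinarith

theorem bern_lin {p : ℝ} {h0 : 0 ≤ p} {h1 : p ≤ 1} {E Q : Type*} [Fintype E] [DecidableEq E]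
    (S : Finset Q) (lb : Q → E) (c : Q → ℝ) :
    (bern p h0 h1 E).E (fun ω => ∑ q ∈ S, c q * if ω (lb q) then 1 else 0) =
      p * ∑ q ∈ S, c q := by
  simp only [FP.E_sum, FP.E_mul_left, bern_one]
  rw [Finset.mul_sum]
  exact Finset.sum_congr rfl fun q _ => mul_comm _ _

/-- second moment of a sum of independent variables with values in `[0, s]` -/
theorem pi_sq_le {I Ω J : Type*} [Fintype I] [DecidableEq I] [Fintype Ω] [Fintype J]
    [DecidableEq J] (P : FP Ω) (g : J → I) (hg : Function.Injective g) (N : J → Ω → ℝ)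
    {s a : ℝ} (hN0 : ∀ j ω, 0 ≤ N j ω) (hNs : ∀ j ω, N j ω ≤ s) (hE : ∀ j, P.E (N j) = a) :
    (FP.pi fun _ : I => P).E (fun φ => (∑ j, N j (φ (g j))) ^ 2) ≤
      Fintype.card J * (s * a) + (Fintype.card J * a) ^ 2 := by
  have h : ∀ φ : I → Ω, (∑ j, N j (φ (g j))) ^ 2 =
      ∑ j, ∑ j', N j (φ (g j)) * N j' (φ (g j')) := by
    intro φ
    rw [sq, Finset.sum_mul_sum]
  simp only [h, FP.E_sum]
  have h2 : ∀ j j', (FP.pi fun _ : I => P).E (fun φ => N j (φ (g j)) * N j' (φ (g j'))) ≤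
      (if j' = j then s * a else 0) + a ^ 2 := by
    intro j j'
    by_cases hj : j' = j
    · subst hj
      rw [if_pos rfl]
      have e1 := FP.E_pi_single (fun _ : I => P) (g j') (fun ω => N j' ω * N j' ω)
      rw [e1]
      have e2 : P.E (fun ω => N j' ω * N j' ω) ≤ P.E (fun ω => s * N j' ω) :=
        P.E_mono fun ω => mul_le_mul_of_nonneg_right (hNs _ _) (hN0 _ _)
      rw [P.E_mul_left, hE] at e2
      nlinarith [sq_nonneg a]
    · rw [if_neg hj, FP.E_pi_pair (fun _ : I => P) (fun h => hj (hg h).symm) (N j) (N j'), hE, hE]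
      nlinarith
  calc ∑ j, ∑ j', (FP.pi fun _ : I => P).E (fun φ => N j (φ (g j)) * N j' (φ (g j')))
      ≤ ∑ j, ∑ j', ((if j' = j then s * a else 0) + a ^ 2) :=
        Finset.sum_le_sum fun j _ => Finset.sum_le_sum fun j' _ => h2 j j'
    _ = _ := by
        simp only [Finset.sum_add_distrib, Finset.sum_ite_eq', Finset.mem_univ, if_true,
          Finset.sum_const, Finset.card_univ, nsmul_eq_mul]
        ring

/-! ### Fibres -/

section fibres

variable {κ μ : Type*} [DecidableEq κ] [Fintype κ] [DecidableEq μ] [Fintype μ]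

/-- state of one fibre: configuration and translation -/
abbrev Fib (κ : Type*) := (CE κ → Bool) × Cube κ

variable (κ) in
/-- law of the state of a fibre -/
noncomputable def fibP (p : ℝ) (h0 : 0 ≤ p) (h1 : p ≤ 1) : FP (Fib κ) :=
  (bern p h0 h1 (CE κ)).prod (FP.unif (Cube κ))

/-- the configuration of the product cube -/
def glue (φ : Cube μ → Fib κ) (b : Cube κ × CE μ → Bool) :
    (Cube μ × CE κ) ⊕ (Cube κ × CE μ) → Bool := Sum.elim (fun q => (φ q.1).1 q.2) b

/-- the open edges of the product cube -/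
def opnF (φ : Cube μ → Fib κ) (b : Cube κ × CE μ → Bool) :
    Cube (κ ⊕ μ) → Cube (κ ⊕ μ) → Prop :=
  opn (sumLab (canE κ) (canE μ) fun z => (φ z).2) (glue φ b)

theorem pi_prod {I A B : Type*} [Fintype I] [DecidableEq I] [Fintype A] [Fintype B]
    (P : FP A) (Q : FP B) (f : (I → A × B) → ℝ) :
    (FP.pi fun _ : I => P.prod Q).E f =
      (FP.pi fun _ : I => P).E fun a => (FP.pi fun _ : I => Q).E fun b =>
        f fun i => (a i, b i) := by
  rw [← FP.E_prod (FP.pi fun _ : I => P) (FP.pi fun _ : I => Q)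
    (fun q => f fun i => (q.1 i, q.2 i))]
  rw [FP.E, ← Equiv.sum_comp (Equiv.arrowProdEquivProdArrow I (fun _ => A) (fun _ => B)).symm,
    FP.E]
  refine Finset.sum_congr rfl fun q _ => ?_
  have e1 : (Equiv.arrowProdEquivProdArrow I (fun _ => A) (fun _ => B)).symm q =
      fun i => (q.1 i, q.2 i) := rfl
  rw [e1, FP.pi_w]
  simp only [FP.prod, Finset.prod_mul_distrib]
  rfl

/-- the percolated cube of dimension `κ ⊕ μ` as a product of independent translated fibres -/
theorem E_fibres {p : ℝ} {h0 : 0 ≤ p} {h1 : p ≤ 1}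
    (F : (Cube (κ ⊕ μ) → Cube (κ ⊕ μ) → Prop) → ℝ) :
    (bern p h0 h1 (CE (κ ⊕ μ))).E (fun ω => F (opn (canE (κ ⊕ μ)) ω)) =
      (FP.pi fun _ : Cube μ => fibP κ p h0 h1).E fun φ =>
        (bern p h0 h1 (Cube κ × CE μ)).E fun b => F (opnF φ b) := by
  rw [fibP, pi_prod, FP.E_swap]
  have h : ∀ τ : Cube μ → Cube κ,
      ((FP.pi fun _ : Cube μ => bern p h0 h1 (CE κ)).E fun ω =>
        (bern p h0 h1 (Cube κ × CE μ)).E fun b =>
          F (opnF (fun z => (ω z, τ z)) b)) =
      (bern p h0 h1 (CE (κ ⊕ μ))).E (fun ω => F (opn (canE (κ ⊕ μ)) ω)) := by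
    intro τ
    rw [← E_opn (sumLab (canE κ) (canE μ) τ) F, bern_sum, bern_curry]
    rfl
  rw [FP.E_congr _ h, FP.E_const]

variable (l s : ℕ)

/-- the vertices of the chosen paths in a fibre -/
noncomputable def pnt (a : Fib κ) (P : Fin (mx (opn (canE κ) a.1) l)) (i : Fin l) : Cube κ :=
  xr (fam (opn (canE κ) a.1) l P i) a.2

theorem pnt_inj {a : Fib κ} {P P' : Fin (mx (opn (canE κ) a.1) l)} {i i' : Fin l}
    (h : pnt l a P i = pnt l a P' i') : P = P' ∧ i = i' := by
  have h1 := (isFam_fam (opn (canE κ) a.1) l).inj (a₁ := (P, i)) (a₂ := (P', i'))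
    (xr_injective _ h)
  simpa using h1

/-- the zone at one end of a path: the last `s` vertices for `true`, the first `s` vertices for
`false` -/
def zn (bb : Bool) : Finset (Fin l) :=
  if bb then Finset.univ.filter fun i => l ≤ i.val + s else Finset.univ.filter fun i => i.val < s

theorem card_zn {l s : ℕ} (hsl : s ≤ l) (bb : Bool) : (zn l s bb).card = s := by
  cases bb with
  | false =>
    rw [zn, if_neg (by simp)]
    have : (Finset.univ.filter fun i : Fin l => i.val < s) =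
        (Finset.univ : Finset (Fin s)).map (Fin.castLEEmb hsl) := by
      ext i
      simp only [Finset.mem_filter, Finset.mem_univ, true_and, Finset.mem_map, Fin.castLEEmb_apply]
      constructor
      · intro h
        exact ⟨⟨i.val, h⟩, rfl⟩
      · rintro ⟨j, rfl⟩
        exact j.isLt
    rw [this, Finset.card_map, Finset.card_univ, Fintype.card_fin]
  | true =>
    rw [zn, if_pos rfl]
    have : (Finset.univ.filter fun i : Fin l => l ≤ i.val + s) =
        (Finset.univ : Finset (Fin s)).image fun j : Fin s =>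
          (⟨l - s + j.val, by have := j.isLt; omega⟩ : Fin l) := by
      ext i
      simp only [Finset.mem_filter, Finset.mem_univ, true_and, Finset.mem_image]
      constructor
      · intro h
        have := i.isLt
        exact ⟨⟨i.val - (l - s), by omega⟩, Fin.ext (by simp; omega)⟩
      · rintro ⟨j, rfl⟩
        simp only
        omega
    rw [this, Finset.card_image_of_injective, Finset.card_univ, Fintype.card_fin]
    intro j j' h
    simp only [Fin.mk.injEq] at h
    exact Fin.ext (by omega)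

/-- the zone vertices of all paths before the translation -/
noncomputable def zset (bb : Bool) (ω : CE κ → Bool) : Finset (Cube κ) :=
  ((Finset.univ : Finset (Fin (mx (opn (canE κ) ω) l))) ×ˢ zn l s bb).image
    fun q => fam (opn (canE κ) ω) l q.1 q.2

theorem card_zset {l s : ℕ} (hsl : s ≤ l) (bb : Bool) (ω : CE κ → Bool) :
    (zset l s bb ω).card = mx (opn (canE κ) ω) l * s := by
  rw [zset, Finset.card_image_of_injective _ (isFam_fam (opn (canE κ) ω) l).inj,
    Finset.card_product, card_zn hsl, Finset.card_univ, Fintype.card_fin]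

/-- indicator of the zones of a fibre -/
noncomputable def zeta (bb : Bool) (a : Fib κ) (y : Cube κ) : ℝ := by
  classical exact if ∃ u ∈ zset l s bb a.1, xr u a.2 = y then 1 else 0

theorem zeta_nonneg (bb : Bool) (a : Fib κ) (y : Cube κ) : 0 ≤ zeta l s bb a y := by
  unfold zeta
  split_ifs <;> norm_num

theorem zeta_le_one (bb : Bool) (a : Fib κ) (y : Cube κ) : zeta l s bb a y ≤ 1 := by
  unfold zeta
  split_ifs <;> norm_num

theorem zeta_sq (bb : Bool) (a : Fib κ) (y : Cube κ) :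
    zeta l s bb a y ^ 2 = zeta l s bb a y := by
  unfold zeta
  split_ifs <;> norm_num

/-- the zones of the fibre as a sum over the pieces -/
theorem zeta_eq_sum (bb : Bool) (a : Fib κ) (y : Cube κ) :
    zeta l s bb a y = ∑ P, ∑ i ∈ zn l s bb, if pnt l a P i = y then 1 else 0 := by
  classical
  rw [← Finset.sum_product' (f := fun P i => if pnt l a P i = y then (1 : ℝ) else 0)]
  unfold zeta
  by_cases h : ∃ u ∈ zset l s bb a.1, xr u a.2 = y
  · rw [if_pos h]
    obtain ⟨u, hu, huy⟩ := h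
    rw [zset, Finset.mem_image] at hu
    obtain ⟨⟨P, i⟩, hq, rfl⟩ := hu
    rw [Finset.sum_eq_single (P, i)]
    · rw [if_pos]
      exact huy
    · rintro ⟨P', i'⟩ _ hne
      rw [if_neg]
      intro h'
      apply hne
      have := pnt_inj l (h'.trans huy.symm : pnt l a P' i' = pnt l a P i)
      exact Prod.ext this.1 this.2
    · intro hn
      exact absurd hq hn
  · rw [if_neg h]
    symm
    refine Finset.sum_eq_zero ?_
    rintro ⟨P, i⟩ hq
    rw [if_neg]
    intro h'
    exact h ⟨fam (opn (canE κ) a.1) l P i, Finset.mem_image.2 ⟨(P, i), hq, rfl⟩, h'⟩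

theorem E_zeta {l s : ℕ} (hsl : s ≤ l) (p : ℝ) (h0 : 0 ≤ p) (h1 : p ≤ 1) (bb : Bool)
    (y : Cube κ) : (fibP κ p h0 h1).E (fun a => zeta l s bb a y) =
      Emx κ p h0 h1 l * s / 2 ^ Fintype.card κ := by
  classical
  rw [fibP, FP.E_prod, Emx, ← FP.E_mul_right, ← FP.E_div]
  refine FP.E_congr _ fun ω => ?_
  have h := unif_xr (zset l s bb ω) y
  rw [card_zset hsl] at h
  push_cast at h
  rw [← h]
  refine FP.E_congr _ fun t => ?_
  unfold zeta
  congr

/-! ### Loads -/

/-- open edges from the set `Y` in the fibre over `z` to the zones of the neighbouring fibres -/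
noncomputable def ldX (bb : Bool) (z : Cube μ) (Y : Finset (Cube κ)) (φ : Cube μ → Fib κ)
    (b : Cube κ × CE μ → Bool) : ℝ :=
  ∑ q ∈ (Finset.univ : Finset μ) ×ˢ Y,
    zeta l s bb (φ (flip q.1 z)) q.2 * if b (q.2, (canE μ).e z q.1) then 1 else 0

theorem ldX_update (bb : Bool) (z : Cube μ) (Y : Finset (Cube κ)) (φ : Cube μ → Fib κ)
    (a : Fib κ) (b : Cube κ × CE μ → Bool) :
    ldX l s bb z Y (Function.update φ z a) b = ldX l s bb z Y φ b := by
  unfold ldX
  refine Finset.sum_congr rfl fun q _ => ?_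
  rw [Function.update_of_ne (flip_ne q.1 z)]

omit [DecidableEq κ] [Fintype κ] in
theorem lab_injOn (z : Cube μ) (Y : Finset (Cube κ)) :
    Set.InjOn (fun q : μ × Cube κ => (q.2, (canE μ).e z q.1))
      (((Finset.univ : Finset μ) ×ˢ Y : Finset (μ × Cube κ)) : Set (μ × Cube κ)) := by
  rintro ⟨j, y⟩ _ ⟨j', y'⟩ _ h
  rw [Prod.mk.injEq] at h
  obtain ⟨h1, h2⟩ := h
  have := ((canE μ).inj _ _ _ _ h2).1
  exact Prod.ext this h1

variable {l s} {p : ℝ} {h0 : 0 ≤ p} {h1 : p ≤ 1}

theorem E_ldX (hsl : s ≤ l) (bb : Bool) (z : Cube μ) (Y : Finset (Cube κ)) {w : ℝ}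
    (hw : w = Emx κ p h0 h1 l * s / 2 ^ Fintype.card κ) :
    (FP.pi fun _ : Cube μ => fibP κ p h0 h1).E (fun φ =>
      (bern p h0 h1 (Cube κ × CE μ)).E fun b => ldX l s bb z Y φ b) =
      p * (Fintype.card μ * (Y.card * w)) := by
  unfold ldX
  have h2 : ∀ φ : Cube μ → Fib κ, ((bern p h0 h1 (Cube κ × CE μ)).E fun b =>
      ∑ q ∈ (Finset.univ : Finset μ) ×ˢ Y,
        zeta l s bb (φ (flip q.1 z)) q.2 * if b (q.2, (canE μ).e z q.1) then 1 else 0) =
      p * ∑ q ∈ (Finset.univ : Finset μ) ×ˢ Y, zeta l s bb (φ (flip q.1 z)) q.2 := fun φ =>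
    bern_lin _ (fun q : μ × Cube κ => (q.2, (canE μ).e z q.1)) _
  rw [FP.E_congr _ h2, FP.E_mul_left, FP.E_sum]
  congr 1
  have h3 : ∀ q ∈ (Finset.univ : Finset μ) ×ˢ Y, (FP.pi fun _ : Cube μ => fibP κ p h0 h1).E
      (fun φ => zeta l s bb (φ (flip q.1 z)) q.2) = w := by
    intro q _
    rw [FP.E_pi_single (fun _ : Cube μ => fibP κ p h0 h1) (flip q.1 z)
      (fun a => zeta l s bb a q.2), E_zeta hsl, hw]
  rw [Finset.sum_congr rfl h3, Finset.sum_const, Finset.card_product, Finset.card_univ,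
    nsmul_eq_mul]
  push_cast
  ring

theorem E_ldX_sq (hsl : s ≤ l) (bb : Bool) (z : Cube μ) (Y : Finset (Cube κ)) {w : ℝ}
    (hw : w = Emx κ p h0 h1 l * s / 2 ^ Fintype.card κ) :
    (FP.pi fun _ : Cube μ => fibP κ p h0 h1).E (fun φ =>
      (bern p h0 h1 (Cube κ × CE μ)).E fun b => ldX l s bb z Y φ b ^ 2) ≤
      p * (Fintype.card μ * (Y.card * w)) + p ^ 2 * (Fintype.card μ * (Y.card * (Y.card * w)) +
        (Fintype.card μ * (Y.card * w)) ^ 2) := by
  have h2 : ∀ φ : Cube μ → Fib κ, ((bern p h0 h1 (Cube κ × CE μ)).E fun b =>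
      ldX l s bb z Y φ b ^ 2) ≤
      p * ∑ q ∈ (Finset.univ : Finset μ) ×ˢ Y, zeta l s bb (φ (flip q.1 z)) q.2 +
        p ^ 2 * (∑ j : μ, ∑ y ∈ Y, zeta l s bb (φ (flip j z)) y) ^ 2 := by
    intro φ
    have h3 := bern_sq_le (p := p) (h0 := h0) (h1 := h1) ((Finset.univ : Finset μ) ×ˢ Y)
      (fun q : μ × Cube κ => (q.2, (canE μ).e z q.1)) (lab_injOn z Y)
      (fun q => zeta l s bb (φ (flip q.1 z)) q.2)
    simp only [zeta_sq] at h3
    rw [← Finset.sum_product' (f := fun j y => zeta l s bb (φ (flip j z)) y)]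
    exact h3
  refine (FP.E_mono _ h2).trans ?_
  rw [FP.E_add, FP.E_mul_left, FP.E_mul_left]
  have h4 := E_ldX (μ := μ) hsl bb z Y hw
  unfold ldX at h4
  have h5 : ∀ φ : Cube μ → Fib κ, ((bern p h0 h1 (Cube κ × CE μ)).E fun b =>
      ∑ q ∈ (Finset.univ : Finset μ) ×ˢ Y,
        zeta l s bb (φ (flip q.1 z)) q.2 * if b (q.2, (canE μ).e z q.1) then 1 else 0) =
      p * ∑ q ∈ (Finset.univ : Finset μ) ×ˢ Y, zeta l s bb (φ (flip q.1 z)) q.2 := fun φ =>
    bern_lin _ (fun q : μ × Cube κ => (q.2, (canE μ).e z q.1)) _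
  rw [FP.E_congr _ h5, FP.E_mul_left] at h4
  rw [h4]
  have h6 := pi_sq_le (I := Cube μ) (fibP κ p h0 h1) (fun j : μ => flip j z)
    (flip_dir_injective z) (fun _ a => ∑ y ∈ Y, zeta l s bb a y) (s := Y.card) (a := Y.card * w)
    (fun _ a => Finset.sum_nonneg fun y _ => zeta_nonneg _ _ _ _ _)
    (fun _ a => by
      calc ∑ y ∈ Y, zeta l s bb a y ≤ ∑ _y ∈ Y, (1 : ℝ) :=
            Finset.sum_le_sum fun y _ => zeta_le_one _ _ _ _ _
        _ = Y.card := by simp)
    (fun _ => by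
      rw [FP.E_sum, Finset.sum_congr rfl fun y _ => E_zeta hsl p h0 h1 bb y, ← hw]
      simp)
  have h7 := mul_le_mul_of_nonneg_left h6 (sq_nonneg p)
  linarith

/-- the normalised load is close to `1` -/
theorem E_load (hsl : s ≤ l) (hp : 0 < p) (bb : Bool) (z : Cube μ) (Y : Finset (Cube κ))
    (hY : Y.card = s) (hs : 0 < s) (hμ : 0 < Fintype.card μ) {w : ℝ}
    (hw : w = Emx κ p h0 h1 l * s / 2 ^ Fintype.card κ) (hw0 : 0 < w) :
    (FP.pi fun _ : Cube μ => fibP κ p h0 h1).E (fun φ =>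
      (bern p h0 h1 (Cube κ × CE μ)).E fun b =>
        |1 - ldX l s bb z Y φ b / (s * Fintype.card μ * p * w)|) ≤
      Real.sqrt (1 / (s * Fintype.card μ * p * w) + 1 / (Fintype.card μ * w)) := by
  set T := FP.pi fun _ : Cube μ => fibP κ p h0 h1
  set B := bern p h0 h1 (Cube κ × CE μ)
  set u : ℝ := s * Fintype.card μ * p * w with hu
  have hs' : (0 : ℝ) < s := by exact_mod_cast hs
  have hμ' : (0 : ℝ) < Fintype.card μ := by exact_mod_cast hμ
  have hu0 : 0 < u := by positivity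
  have e1 : T.E (fun φ => B.E fun b => |1 - ldX l s bb z Y φ b / u|) =
      (T.prod B).E fun q => |1 - ldX l s bb z Y q.1 q.2 / u| := by
    rw [FP.E_prod]
  rw [e1]
  refine (FP.E_abs_le _ _).trans (Real.sqrt_le_sqrt ?_)
  have e2 : (T.prod B).E (fun q => (1 - ldX l s bb z Y q.1 q.2 / u) ^ 2) =
      1 - 2 / u * (T.E fun φ => B.E fun b => ldX l s bb z Y φ b) +
        1 / u ^ 2 * T.E fun φ => B.E fun b => ldX l s bb z Y φ b ^ 2 := by
    rw [← FP.E_prod T B (fun q => ldX l s bb z Y q.1 q.2),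
      ← FP.E_prod T B (fun q => ldX l s bb z Y q.1 q.2 ^ 2), ← FP.E_mul_left, ← FP.E_mul_left]
    have e3 : ∀ q : (Cube μ → Fib κ) × (Cube κ × CE μ → Bool),
        (1 - ldX l s bb z Y q.1 q.2 / u) ^ 2 = 1 - 2 / u * ldX l s bb z Y q.1 q.2 +
          1 / u ^ 2 * ldX l s bb z Y q.1 q.2 ^ 2 := by
      intro q
      field_simp
      ring
    rw [FP.E_congr _ e3, FP.E_add, FP.E_sub, FP.E_const]
  rw [e2, E_ldX hsl bb z Y hw, hY]
  have h3 := E_ldX_sq (μ := μ) hsl bb z Y hw
  rw [hY] at h3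
  have h4 : 1 / u ^ 2 * (T.E fun φ => B.E fun b => ldX l s bb z Y φ b ^ 2) ≤
      1 / u ^ 2 * (p * (Fintype.card μ * (s * w)) +
        p ^ 2 * (Fintype.card μ * (s * (s * w)) + (Fintype.card μ * (s * w)) ^ 2)) :=
    mul_le_mul_of_nonneg_left h3 (by positivity)
  have h5 : 1 - 2 / u * (p * (Fintype.card μ * (s * w))) +
      1 / u ^ 2 * (p * (Fintype.card μ * (s * w)) +
        p ^ 2 * (Fintype.card μ * (s * (s * w)) + (Fintype.card μ * (s * w)) ^ 2)) =
      1 / u + 1 / (Fintype.card μ * w) := by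
    rw [hu]
    field_simp
    ring
  linarith

/-! ### The bipartite graph of the pieces -/

/-- the pieces of all fibres -/
abbrev Pc (l : ℕ) (φ : Cube μ → Fib κ) := Σ z : Cube μ, Fin (mx (opn (canE κ) (φ z).1) l)

/-- the vertices of a piece -/
noncomputable def vert {φ : Cube μ → Fib κ} (u : Pc l φ) (i : Fin l) : Cube (κ ⊕ μ) :=
  jn (pnt l (φ u.1) u.2 i) u.1

omit [DecidableEq μ] [Fintype μ] in
theorem vert_inj {φ : Cube μ → Fib κ} {u v : Pc l φ} {i j : Fin l}
    (h : vert u i = vert v j) : u = v ∧ i = j := by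
  obtain ⟨z, P⟩ := u
  obtain ⟨z', P'⟩ := v
  have h1 := (jn_inj h)
  have h2 : z = z' := h1.2
  subst h2
  have h3 := pnt_inj l h1.1
  dsimp only at h3
  exact ⟨by rw [h3.1], h3.2⟩

omit [Fintype μ] in
theorem vert_adj {φ : Cube μ → Fib κ} (b : Cube κ × CE μ → Bool) (u : Pc l φ) (i : ℕ)
    (hi : i + 1 < l) : opnF φ b (vert u ⟨i, by omega⟩) (vert u ⟨i + 1, hi⟩) := by
  unfold opnF vert pnt
  refine opn_fibre (τ := fun z => (φ z).2) u.1 ?_
  have := (isFam_fam (opn (canE κ) (φ u.1).1) l).adj u.2 i hi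
  exact this

/-- number of open edges between the zones of two pieces -/
noncomputable def kn (s : ℕ) (φ : Cube μ → Fib κ) (b : Cube κ × CE μ → Bool) (u v : Pc l φ) : ℝ :=
  ∑ i ∈ zn l s (par u.1), ∑ i' ∈ zn l s (par v.1), ∑ j : μ,
    if flip j u.1 = v.1 ∧ pnt l (φ u.1) u.2 i = pnt l (φ v.1) v.2 i' ∧
      b (pnt l (φ u.1) u.2 i, (canE μ).e u.1 j) = true then 1 else 0

theorem kn_symm (s : ℕ) (φ : Cube μ → Fib κ) (b : Cube κ × CE μ → Bool) (u v : Pc l φ) :
    kn s φ b u v = kn s φ b v u := by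
  unfold kn
  rw [Finset.sum_comm]
  refine Finset.sum_congr rfl fun i' _ => Finset.sum_congr rfl fun i _ =>
    Finset.sum_congr rfl fun j _ => ?_
  refine if_congr ?_ rfl rfl
  constructor
  · rintro ⟨h1, h2, h3⟩
    refine ⟨by rw [← h1, flip_flip], h2.symm, ?_⟩
    rw [← h2, ← h1, (canE μ).symm]
    exact h3
  · rintro ⟨h1, h2, h3⟩
    refine ⟨by rw [← h1, flip_flip], h2.symm, ?_⟩
    rw [← h2, ← h1, (canE μ).symm]
    exact h3

theorem kn_nonneg (s : ℕ) (φ : Cube μ → Fib κ) (b : Cube κ × CE μ → Bool) (u v : Pc l φ) :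
    0 ≤ kn s φ b u v :=
  Finset.sum_nonneg fun _ _ => Finset.sum_nonneg fun _ _ => Finset.sum_nonneg fun _ _ => by
    split_ifs <;> norm_num

/-- an open edge between the zones -/
theorem exists_of_kn_pos {s : ℕ} {φ : Cube μ → Fib κ} {b : Cube κ × CE μ → Bool} {u v : Pc l φ}
    (h : 0 < kn s φ b u v) : ∃ i ∈ zn l s (par u.1), ∃ i' ∈ zn l s (par v.1), ∃ j : μ,
      flip j u.1 = v.1 ∧ pnt l (φ u.1) u.2 i = pnt l (φ v.1) v.2 i' ∧
      b (pnt l (φ u.1) u.2 i, (canE μ).e u.1 j) = true := by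
  by_contra hn
  push Not at hn
  have : kn s φ b u v = 0 := by
    unfold kn
    refine Finset.sum_eq_zero fun i hi => Finset.sum_eq_zero fun i' hi' =>
      Finset.sum_eq_zero fun j _ => ?_
    rw [if_neg]
    rintro ⟨h1, h2, h3⟩
    exact hn i hi i' hi' j h1 h2 h3
  linarith

/-- the zone of a piece as a set of vertices of its fibre -/
noncomputable def pz (l s : ℕ) (bb : Bool) (a : Fib κ) (P : Fin (mx (opn (canE κ) a.1) l)) :
    Finset (Cube κ) := (zn l s bb).image (pnt l a P)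

theorem card_pz (hsl : s ≤ l) (bb : Bool) (a : Fib κ) (P : Fin (mx (opn (canE κ) a.1) l)) :
    (pz l s bb a P).card = s := by
  rw [pz, Finset.card_image_of_injective, card_zn hsl]
  intro i j h
  exact (pnt_inj l h).2

/-- the total number of open edges at the zone of a piece -/
theorem sum_kn (s : ℕ) (φ : Cube μ → Fib κ) (b : Cube κ × CE μ → Bool) (u : Pc l φ) :
    ∑ v, kn s φ b u v = ldX l s (!par u.1) u.1 (pz l s (par u.1) (φ u.1) u.2) φ b := by
  unfold kn ldX
  rw [Finset.sum_product, Fintype.sum_sigma]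
  -- reorganise the left side
  have h1 : ∀ z : Cube μ, ∑ P : Fin (mx (opn (canE κ) (φ z).1) l),
      ∑ i ∈ zn l s (par u.1), ∑ i' ∈ zn l s (par z), ∑ j : μ,
        (if flip j u.1 = z ∧ pnt l (φ u.1) u.2 i = pnt l (φ z) P i' ∧
          b (pnt l (φ u.1) u.2 i, (canE μ).e u.1 j) = true then (1 : ℝ) else 0) =
      ∑ j : μ, if flip j u.1 = z then ∑ i ∈ zn l s (par u.1),
        (∑ P : Fin (mx (opn (canE κ) (φ z).1) l), ∑ i' ∈ zn l s (par z),
          if pnt l (φ z) P i' = pnt l (φ u.1) u.2 i then (1 : ℝ) else 0) *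
          (if b (pnt l (φ u.1) u.2 i, (canE μ).e u.1 j) then 1 else 0) else 0 := by
    intro z
    have e1 : ∀ P : Fin (mx (opn (canE κ) (φ z).1) l), ∑ i ∈ zn l s (par u.1),
        ∑ i' ∈ zn l s (par z), ∑ j : μ,
        (if flip j u.1 = z ∧ pnt l (φ u.1) u.2 i = pnt l (φ z) P i' ∧
          b (pnt l (φ u.1) u.2 i, (canE μ).e u.1 j) = true then (1 : ℝ) else 0) =
        ∑ j : μ, ∑ i ∈ zn l s (par u.1), ∑ i' ∈ zn l s (par z),
        (if flip j u.1 = z ∧ pnt l (φ u.1) u.2 i = pnt l (φ z) P i' ∧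
          b (pnt l (φ u.1) u.2 i, (canE μ).e u.1 j) = true then (1 : ℝ) else 0) := by
      intro P
      rw [Finset.sum_comm]
      rw [Finset.sum_congr rfl fun i' _ => Finset.sum_comm]
      rw [Finset.sum_comm]
      exact Finset.sum_congr rfl fun j _ => Finset.sum_comm
    rw [Finset.sum_congr rfl fun P _ => e1 P, Finset.sum_comm]
    refine Finset.sum_congr rfl fun j _ => ?_
    split_ifs with hj
    · rw [Finset.sum_comm]
      refine Finset.sum_congr rfl fun i _ => ?_
      rw [Finset.sum_mul]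
      refine Finset.sum_congr rfl fun P _ => ?_
      rw [Finset.sum_mul]
      refine Finset.sum_congr rfl fun i' _ => ?_
      by_cases hb : b (pnt l (φ u.1) u.2 i, (canE μ).e u.1 j) = true
      · rw [if_pos hb, mul_one]
        refine if_congr ?_ rfl rfl
        exact ⟨fun h => h.2.1.symm, fun h => ⟨hj, h.symm, hb⟩⟩
      · rw [if_neg hb, mul_zero, if_neg]
        exact fun h => hb h.2.2
    · refine Finset.sum_eq_zero fun P _ => Finset.sum_eq_zero fun i _ =>
        Finset.sum_eq_zero fun i' _ => ?_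
      rw [if_neg]
      exact fun h => hj h.1
  rw [Finset.sum_congr rfl fun z _ => h1 z, Finset.sum_comm]
  refine Finset.sum_congr rfl fun j _ => ?_
  rw [Finset.sum_ite_eq Finset.univ (flip j u.1), if_pos (Finset.mem_univ _)]
  rw [pz, Finset.sum_image fun i _ i' _ h => (pnt_inj l h).2]
  refine Finset.sum_congr rfl fun i _ => ?_
  rw [zeta_eq_sum, par_flip]

/-- **many disjoint longer paths** -/
theorem pieces_le (hsl : s < l) {c : ℝ} (hc : 0 < c) (φ : Cube μ → Fib κ)
    (b : Cube κ × CE μ → Bool) :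
    ∑ z : Cube μ, ∑ P : Fin (mx (opn (canE κ) (φ z).1) l),
      (1 - |1 - ldX l s (!par z) z (pz l s (par z) (φ z) P) φ b / c|) ≤
      2 * (mx (opnF φ b) (2 * (l - s)) : ℝ) := by
  classical
  set w : Pc l φ → Pc l φ → ℝ := fun u v => if par u.1 = true then kn s φ b u v / c else 0
    with hw
  have hw0 : ∀ u v, 0 ≤ w u v := by
    intro u v
    rw [hw]
    dsimp only
    split_ifs
    · exact div_nonneg (kn_nonneg s φ b u v) hc.le
    · exact le_rfl
  obtain ⟨M, hM1, hM2, hM3, hM4⟩ := exists_matching w hw0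
  -- loads
  have hrow : ∀ u : Pc l φ, ∑ v, w u v = if par u.1 = true then
      ldX l s (!par u.1) u.1 (pz l s (par u.1) (φ u.1) u.2) φ b / c else 0 := by
    intro u
    rw [hw]
    dsimp only
    split_ifs
    · rw [← Finset.sum_div, sum_kn]
    · simp
  have hpar : ∀ u v : Pc l φ, kn s φ b u v ≠ 0 → par v.1 = !par u.1 := by
    intro u v h
    have h1 : 0 < kn s φ b u v := lt_of_le_of_ne (kn_nonneg s φ b u v) (Ne.symm h)
    obtain ⟨i, _, i', _, j, h2, _⟩ := exists_of_kn_pos h1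
    rw [← h2, par_flip]
  have hcol : ∀ v : Pc l φ, ∑ u, w u v = if par v.1 = true then 0 else
      ldX l s (!par v.1) v.1 (pz l s (par v.1) (φ v.1) v.2) φ b / c := by
    intro v
    have e1 : ∀ u, w u v = if par v.1 = true then 0 else kn s φ b v u / c := by
      intro u
      rw [hw]
      dsimp only
      by_cases hk : kn s φ b u v = 0
      · rw [hk, zero_div, ite_self, kn_symm, hk, zero_div, ite_self]
      · have h1 := hpar u v hk
        rw [h1, kn_symm]
        cases par u.1 <;> simp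
    rw [Finset.sum_congr rfl fun u _ => e1 u]
    split_ifs
    · simp
    · rw [← Finset.sum_div, sum_kn]
  have hsum : ∑ z : Cube μ, ∑ P : Fin (mx (opn (canE κ) (φ z).1) l),
      (1 - |1 - ldX l s (!par z) z (pz l s (par z) (φ z) P) φ b / c|) =
      ∑ u, (1 - |1 - ∑ v, w u v|) + ∑ v, (1 - |1 - ∑ u, w u v|) := by
    rw [← Finset.sum_add_distrib]
    rw [← Fintype.sum_sigma (fun u : Pc l φ =>
      1 - |1 - ldX l s (!par u.1) u.1 (pz l s (par u.1) (φ u.1) u.2) φ b / c|)]
    refine Finset.sum_congr rfl fun u _ => ?_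
    rw [hrow, hcol]
    split_ifs <;> simp
  rw [hsum]
  refine hM4.trans ?_
  -- the family of paths
  have hex : ∀ q : {q // q ∈ M}, ∃ i i' : Fin l, ∃ j : μ, l ≤ i.val + s ∧ i'.val < s ∧
      par q.1.1.1 = true ∧ par q.1.2.1 = false ∧
      flip j q.1.1.1 = q.1.2.1 ∧ pnt l (φ q.1.1.1) q.1.1.2 i = pnt l (φ q.1.2.1) q.1.2.2 i' ∧
      b (pnt l (φ q.1.1.1) q.1.1.2 i, (canE μ).e q.1.1.1 j) = true := by
    rintro ⟨⟨u, v⟩, hq⟩
    have h1 := hM1 _ hq
    rw [hw] at h1
    dsimp only at h1 ⊢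
    by_cases hu : par u.1 = true
    · rw [if_pos hu] at h1
      have h2 : 0 < kn s φ b u v := by
        by_contra h3
        have h4 : kn s φ b u v = 0 := le_antisymm (not_lt.1 h3) (kn_nonneg s φ b u v)
        rw [h4, zero_div] at h1
        exact lt_irrefl _ h1
      obtain ⟨i, hi, i', hi', j, h3, h4, h5⟩ := exists_of_kn_pos h2
      have hv : par v.1 = false := by rw [← h3, par_flip, hu]; rfl
      rw [hu, zn, if_pos rfl, Finset.mem_filter] at hi
      rw [hv, zn, if_neg (by simp), Finset.mem_filter] at hi'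
      exact ⟨i, i', j, hi.2, hi'.2, hu, hv, h3, h4, h5⟩
    · rw [if_neg hu] at h1
      exact absurd h1 (lt_irrefl _)
  choose i i' j hi hi' hpu hpv hj hpt hb using hex
  set pth : {q // q ∈ M} → Fin (2 * (l - s)) → Cube (κ ⊕ μ) := fun q n =>
    if h : n.val < l - s then
      vert q.1.1 ⟨(i q).val + 1 - (l - s) + n.val, by have := hi q; have := (i q).isLt; omega⟩
    else vert q.1.2 ⟨(i' q).val + (n.val - (l - s)), by
      have := hi' q; have := (i' q).isLt; have := n.isLt; omega⟩ with hpth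
  have hfam : IsFam (opnF φ b) pth := by
    constructor
    · rintro ⟨q, n⟩ ⟨q', n'⟩ h
      rw [hpth] at h
      dsimp only at h
      by_cases h1 : n.val < l - s
      · by_cases h2 : n'.val < l - s
        · rw [dif_pos h1, dif_pos h2] at h
          obtain ⟨h3, h4⟩ := vert_inj h
          have h5 : q = q' := Subtype.ext (hM2 _ q.2 _ q'.2 h3)
          subst h5
          rw [Fin.mk.injEq] at h4
          rw [Prod.mk.injEq]
          exact ⟨rfl, Fin.ext (by omega)⟩
        · rw [dif_pos h1, dif_neg h2] at h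
          obtain ⟨h3, h4⟩ := vert_inj h
          have h5 := hpu q
          have h6 := hpv q'
          rw [h3, h6] at h5
          cases h5
      · by_cases h2 : n'.val < l - s
        · rw [dif_neg h1, dif_pos h2] at h
          obtain ⟨h3, h4⟩ := vert_inj h
          have h5 := hpu q'
          have h6 := hpv q
          rw [← h3, h6] at h5
          cases h5
        · rw [dif_neg h1, dif_neg h2] at h
          obtain ⟨h3, h4⟩ := vert_inj h
          have h5 : q = q' := Subtype.ext (hM3 _ q.2 _ q'.2 h3)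
          subst h5
          rw [Fin.mk.injEq] at h4
          rw [Prod.mk.injEq]
          exact ⟨rfl, Fin.ext (by omega)⟩
    · intro q n hn
      rw [hpth]
      dsimp only
      have hiq := (i q).isLt
      have hi1 := hi q
      have hi2 := hi' q
      by_cases h1 : n + 1 < l - s
      · rw [dif_pos (by omega), dif_pos h1]
        have := vert_adj b q.1.1 ((i q).val + 1 - (l - s) + n) (by omega)
        exact this
      · by_cases h2 : n < l - s
        · rw [dif_pos h2, dif_neg h1]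
          have e1 : (⟨(i q).val + 1 - (l - s) + n, by omega⟩ : Fin l) = i q :=
            Fin.ext (by simp only; omega)
          have e2 : (⟨(i' q).val + (n + 1 - (l - s)), by omega⟩ : Fin l) = i' q :=
            Fin.ext (by simp only; omega)
          rw [e1, e2]
          unfold vert
          rw [← hpt q]
          refine opn_fresh (τ := fun z => (φ z).2) (pnt l (φ q.1.1.1) q.1.1.2 (i q)) ?_
          exact ⟨j q, (hj q).symm, hb q⟩
        · rw [dif_neg h2, dif_neg h1]
          have := vert_adj b q.1.2 ((i' q).val + (n - (l - s))) (by omega)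
          have e3 : (⟨(i' q).val + (n + 1 - (l - s)), by omega⟩ : Fin l) =
              ⟨(i' q).val + (n - (l - s)) + 1, by omega⟩ := Fin.ext (by simp only; omega)
          rw [e3]
          exact this
  have h7 := hfam.le_mx (by omega)
  rw [Fintype.card_coe] at h7
  have h8 : (M.card : ℝ) ≤ mx (opnF φ b) (2 * (l - s)) := by exact_mod_cast h7
  linarith

/-- sum over the pieces of one fibre of the deviations of the loads -/
theorem E_dev (hs : 0 < s) (hsl : s ≤ l) (hp : 0 < p) (hμ : 0 < Fintype.card μ) (z : Cube μ)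
    {w : ℝ} (hw : w = Emx κ p h0 h1 l * s / 2 ^ Fintype.card κ) (hw0 : 0 < w) :
    (FP.pi fun _ : Cube μ => fibP κ p h0 h1).E (fun φ =>
      (bern p h0 h1 (Cube κ × CE μ)).E fun b =>
        ∑ P : Fin (mx (opn (canE κ) (φ z).1) l),
          |1 - ldX l s (!par z) z (pz l s (par z) (φ z) P) φ b /
            (s * Fintype.card μ * p * w)|) ≤
      Emx κ p h0 h1 l *
        Real.sqrt (1 / (s * Fintype.card μ * p * w) + 1 / (Fintype.card μ * w)) := by
  set T := FP.pi fun _ : Cube μ => fibP κ p h0 h1 with hT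
  set B := bern p h0 h1 (Cube κ × CE μ) with hB
  set u : ℝ := s * Fintype.card μ * p * w with hu
  set v : ℝ := 1 / u + 1 / (Fintype.card μ * w) with hv
  set H : Fib κ → (Cube μ → Fib κ) → ℝ := fun a φ =>
    B.E fun b => ∑ P : Fin (mx (opn (canE κ) a.1) l),
      |1 - ldX l s (!par z) z (pz l s (par z) a P) φ b / u| with hH
  have h1 : T.E (fun φ => H (φ z) φ) = (fibP κ p h0 h1).E fun a => T.E fun φ => H a φ := by
    rw [hT, FP.E_pi_update (fun _ : Cube μ => fibP κ p h0 h1) z (fun φ => H (φ z) φ)]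
    refine FP.E_congr _ fun a => FP.E_congr _ fun φ => ?_
    rw [Function.update_self]
    rw [hH]
    dsimp only
    refine FP.E_congr _ fun b => Finset.sum_congr rfl fun P _ => ?_
    rw [ldX_update]
  have h2 : ∀ a : Fib κ, T.E (fun φ => H a φ) ≤ (mx (opn (canE κ) a.1) l : ℝ) * Real.sqrt v := by
    intro a
    rw [hH]
    dsimp only
    have e1 : (T.E fun φ => B.E fun b => ∑ P : Fin (mx (opn (canE κ) a.1) l),
        |1 - ldX l s (!par z) z (pz l s (par z) a P) φ b / u|) =
        ∑ P : Fin (mx (opn (canE κ) a.1) l), T.E fun φ => B.E fun b =>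
          |1 - ldX l s (!par z) z (pz l s (par z) a P) φ b / u| := by
      rw [← FP.E_sum]
      refine FP.E_congr _ fun φ => ?_
      rw [FP.E_sum]
    rw [e1]
    calc ∑ P : Fin (mx (opn (canE κ) a.1) l), T.E (fun φ => B.E fun b =>
          |1 - ldX l s (!par z) z (pz l s (par z) a P) φ b / u|)
        ≤ ∑ _P : Fin (mx (opn (canE κ) a.1) l), Real.sqrt v :=
          Finset.sum_le_sum fun P _ => E_load hsl hp _ z _ (card_pz hsl _ _ _) hs hμ hw hw0
      _ = _ := by simp
  have h3 : T.E (fun φ => H (φ z) φ) ≤ Emx κ p h0 (by assumption) l * Real.sqrt v := by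
    rw [h1]
    refine (FP.E_mono _ h2).trans (le_of_eq ?_)
    rw [FP.E_mul_right]
    congr 1
    rw [fibP, FP.E_prod, Emx]
    exact FP.E_congr _ fun ω =>
      FP.E_const (FP.unif (Cube κ)) ((mx (opn (canE κ) ω) l : ℕ) : ℝ)
  exact h3

/-- **The doubling lemma** for numbers of paths. -/
theorem Emx_double (hs : 0 < s) (hsl : s < l) (hp : 0 < p) (hμ : 0 < Fintype.card μ)
    {w : ℝ} (hw : w = Emx κ p h0 h1 l * s / 2 ^ Fintype.card κ) (hw0 : 0 < w) :
    2 ^ Fintype.card μ * Emx κ p h0 h1 l *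
      (1 - Real.sqrt (1 / (s * Fintype.card μ * p * w) + 1 / (Fintype.card μ * w))) ≤
      2 * Emx (κ ⊕ μ) p h0 h1 (2 * (l - s)) := by
  set T := FP.pi fun _ : Cube μ => fibP κ p h0 h1 with hT
  set B := bern p h0 h1 (Cube κ × CE μ) with hB
  set u : ℝ := s * Fintype.card μ * p * w with hu
  set v : ℝ := 1 / u + 1 / (Fintype.card μ * w) with hv
  have hs' : (0 : ℝ) < s := by exact_mod_cast hs
  have hμ' : (0 : ℝ) < Fintype.card μ := by exact_mod_cast hμ
  have hu0 : 0 < u := by positivity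
  have h1' : Emx (κ ⊕ μ) p h0 h1 (2 * (l - s)) =
      T.E fun φ => B.E fun b => (mx (opnF φ b) (2 * (l - s)) : ℝ) :=
    E_fibres fun G => (mx G (2 * (l - s)) : ℝ)
  have h2 : T.E (fun φ => B.E fun b => ∑ z : Cube μ,
      ∑ P : Fin (mx (opn (canE κ) (φ z).1) l),
        (1 - |1 - ldX l s (!par z) z (pz l s (par z) (φ z) P) φ b / u|)) ≤
      2 * Emx (κ ⊕ μ) p h0 h1 (2 * (l - s)) := by
    rw [h1', ← FP.E_mul_left]
    refine FP.E_mono _ fun φ => ?_
    rw [← FP.E_mul_left]
    exact FP.E_mono _ fun b => pieces_le hsl hu0 φ b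
  refine le_trans ?_ h2
  -- split the sum
  have h3 : T.E (fun φ => B.E fun b => ∑ z : Cube μ,
      ∑ P : Fin (mx (opn (canE κ) (φ z).1) l),
        (1 - |1 - ldX l s (!par z) z (pz l s (par z) (φ z) P) φ b / u|)) =
      ∑ z : Cube μ, (T.E (fun φ => (mx (opn (canE κ) (φ z).1) l : ℝ)) -
        T.E (fun φ => B.E fun b => ∑ P : Fin (mx (opn (canE κ) (φ z).1) l),
          |1 - ldX l s (!par z) z (pz l s (par z) (φ z) P) φ b / u|)) := by
    have e1 : ∀ φ : Cube μ → Fib κ, (B.E fun b => ∑ z : Cube μ,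
        ∑ P : Fin (mx (opn (canE κ) (φ z).1) l),
          (1 - |1 - ldX l s (!par z) z (pz l s (par z) (φ z) P) φ b / u|)) =
        ∑ z : Cube μ, ((mx (opn (canE κ) (φ z).1) l : ℝ) -
          B.E fun b => ∑ P : Fin (mx (opn (canE κ) (φ z).1) l),
            |1 - ldX l s (!par z) z (pz l s (par z) (φ z) P) φ b / u|) := by
      intro φ
      rw [FP.E_sum]
      refine Finset.sum_congr rfl fun z _ => ?_
      have e2 : ((mx (opn (canE κ) (φ z).1) l : ℝ)) =
          B.E fun _ => (mx (opn (canE κ) (φ z).1) l : ℝ) := (B.E_const _).symm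
      rw [e2, ← FP.E_sub]
      refine FP.E_congr _ fun b => ?_
      rw [Finset.sum_sub_distrib]
      simp
    rw [FP.E_congr _ e1, FP.E_sum]
    exact Finset.sum_congr rfl fun z _ => by rw [FP.E_sub]
  rw [h3]
  have h4 : ∀ z : Cube μ, T.E (fun φ => (mx (opn (canE κ) (φ z).1) l : ℝ)) =
      Emx κ p h0 h1 l := by
    intro z
    rw [hT, FP.E_pi_single (fun _ : Cube μ => fibP κ p h0 h1) z
      (fun a => (mx (opn (canE κ) a.1) l : ℝ)), fibP, FP.E_prod, Emx]
    exact FP.E_congr _ fun ω =>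
      FP.E_const (FP.unif (Cube κ)) ((mx (opn (canE κ) ω) l : ℕ) : ℝ)
  have h5 : ∀ z : Cube μ, Emx κ p h0 h1 l * (1 - Real.sqrt v) ≤
      T.E (fun φ => (mx (opn (canE κ) (φ z).1) l : ℝ)) -
        T.E (fun φ => B.E fun b => ∑ P : Fin (mx (opn (canE κ) (φ z).1) l),
          |1 - ldX l s (!par z) z (pz l s (par z) (φ z) P) φ b / u|) := by
    intro z
    have h6 := E_dev (κ := κ) (μ := μ) hs hsl.le hp hμ z hw hw0
    rw [h4]
    have h7 : Emx κ p h0 h1 l * (1 - Real.sqrt v) =
        Emx κ p h0 h1 l - Emx κ p h0 h1 l * Real.sqrt v := by ring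
    rw [h7]
    exact sub_le_sub_left h6 _
  calc 2 ^ Fintype.card μ * Emx κ p h0 h1 l * (1 - Real.sqrt v)
      = ∑ _z : Cube μ, Emx κ p h0 h1 l * (1 - Real.sqrt v) := by
        rw [Finset.sum_const, Finset.card_univ, nsmul_eq_mul]
        have : Fintype.card (Cube μ) = 2 ^ Fintype.card μ := by simp
        rw [this]
        push_cast
        ring
    _ ≤ _ := Finset.sum_le_sum fun z _ => h5 z

end fibres

/-- **The doubling lemma.** -/
theorem nu_double {p : ℝ} {h0 : 0 ≤ p} {h1 : p ≤ 1} (hp : 0 < p) {m δ l s : ℕ} (hs : 0 < s)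
    (hsl : s < l) (hδ : 0 < δ) {ν w : ℝ} (hν : ν = nu p h0 h1 m l) (hν0 : 0 < ν)
    (hw : w = ν * s / l) :
    ν * (1 - s / l) * (1 - Real.sqrt (1 / (s * δ * p * w) + 1 / (δ * w))) ≤
      nu p h0 h1 (m + δ) (2 * (l - s)) := by
  have hl : (0 : ℝ) < l := by exact_mod_cast hs.trans hsl
  have hs' : (0 : ℝ) < s := by exact_mod_cast hs
  have hw1 : w = Emx (Fin m) p h0 h1 l * s / 2 ^ Fintype.card (Fin m) := by
    rw [hw, hν, nu, nuI]
    field_simp
  have hw0 : 0 < w := by rw [hw]; positivity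
  have h := Emx_double (κ := Fin m) (μ := Fin δ) (h0 := h0) (h1 := h1) hs hsl hp
    (by simpa using hδ) hw1 hw0
  have h2 : nu p h0 h1 (m + δ) (2 * (l - s)) =
      Emx (Fin m ⊕ Fin δ) p h0 h1 (2 * (l - s)) * (2 * (l - s) : ℕ) / 2 ^ (m + δ) := by
    have h3 := nuI_eq_nu (ι := Fin m ⊕ Fin δ) (p := p) (h0 := h0) (h1 := h1)
      (L := 2 * (l - s)) (by omega)
    rw [Fintype.card_sum, Fintype.card_fin, Fintype.card_fin] at h3
    rw [← h3, nuI, Fintype.card_sum, Fintype.card_fin, Fintype.card_fin]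
  rw [h2]
  simp only [Fintype.card_fin] at h
  set v : ℝ := 1 / (s * δ * p * w) + 1 / (δ * w) with hv
  have h4 : ν * (1 - s / l) * (1 - Real.sqrt v) =
      (2 ^ δ * Emx (Fin m) p h0 h1 l * (1 - Real.sqrt v)) * (l - s) / 2 ^ (m + δ) := by
    rw [hν, nu, nuI, Fintype.card_fin, pow_add]
    field_simp
  have h5 : ((2 * (l - s) : ℕ) : ℝ) = 2 * (l - s) := by
    rw [Nat.cast_mul, Nat.cast_sub hsl.le]
    norm_num
  rw [h4, h5]
  refine div_le_div_of_nonneg_right ?_ (by positivity)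
  have h6 : (0 : ℝ) ≤ l - s := by
    have : (s : ℝ) ≤ l := by exact_mod_cast hsl.le
    linarith
  calc 2 ^ δ * Emx (Fin m) p h0 h1 l * (1 - Real.sqrt v) * (l - s)
      ≤ 2 * Emx (Fin m ⊕ Fin δ) p h0 h1 (2 * (l - s)) * (l - s) :=
        mul_le_mul_of_nonneg_right h h6
    _ = _ := by ring

end Pool.Agent.LongCyc
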