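import Pool.Agent.LongCyc.Final2

/-!
# From the cores of the two regimes to the full theorem
-/

set_option autoImplicit false

namespace Pool.Agent.LongCyc

open Finset Filter Topology

/-- the uniform form, all `p` -/
theorem full_uniform (hcore : SparseCore)
    (hdense : ∃ (c K : ℝ) (d0 : ℕ), 0 < c ∧ ∀ (d : ℕ) (p : ℝ) (h0 : 0 ≤ p) (h1 : p ≤ 1), d0 ≤ d →
      K * Real.log d ≤ p * d → p ≤ 1 / 10 →
      1 - 1 / (d : ℝ) ≤ (bern p h0 h1 (CE (Fin d))).pr fun ω =>
        LCyc ω ((1 - Real.exp (-c * (p * d))) * 2 ^ d)) :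
    ∃ c0 : ℝ, 0 < c0 ∧ ∃ C0 : ℝ, 0 < C0 ∧ ∃ d1 : ℕ,
    ∀ d : ℕ, d1 ≤ d → ∀ p : ℝ, 0 ≤ p → p ≤ 1 → C0 ≤ p * d →
      1 - 1 / (d : ℝ) ≤ percProb (hypercube d) p fun H =>
        HasCycleGe H ((1 - Real.exp (-c0 * (p * d))) * 2 ^ d) := by
  obtain ⟨cs, hcs, C0, hC0, d1, hS⟩ := sparse_uniform hcore
  obtain ⟨c, K', d0, hc, hD⟩ := hdense
  set K : ℝ := max K' 1 with hK
  have hK1 : 1 ≤ K := le_max_right _ _
  have hKK : K' ≤ K := le_max_left _ _
  have hK0 : 0 < K := by linarith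
  -- `K log d ≤ d / 10` eventually
  have hlog : ∀ᶠ d : ℕ in atTop, K * Real.log d ≤ (1 / 10) * (d : ℝ) := by
    have h1 : (fun x : ℝ => Real.log x ^ 1) =o[atTop] id := Real.isLittleO_pow_log_id_atTop
    have h2 := h1.bound (show (0 : ℝ) < 1 / (10 * K) by positivity)
    have h3 := tendsto_natCast_atTop_atTop (R := ℝ) |>.eventually h2
    filter_upwards [h3, eventually_ge_atTop 1] with d hd hd1
    have hl : 0 ≤ Real.log d := Real.log_natCast_nonneg d
    have h4 : Real.log d ≤ 1 / (10 * K) * d := by simpa [abs_of_nonneg hl] using hd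
    have h5 : K * Real.log d ≤ K * (1 / (10 * K) * d) := mul_le_mul_of_nonneg_left h4 hK0.le
    have h6 : K * (1 / (10 * K) * d) = (1 / 10) * (d : ℝ) := by
      field_simp
    rw [h6] at h5
    exact h5
  obtain ⟨d2, hd2⟩ := eventually_atTop.1
    (hlog.and ((eventually_ge_atTop d0).and ((eventually_ge_atTop d1).and (eventually_ge_atTop 1))))
  refine ⟨min (cs / K) (c / 10), lt_min (by positivity) (by positivity), C0, hC0, d2, ?_⟩
  intro d hd p hp0 hp1 hpC
  obtain ⟨e1, e2, e3, e4⟩ := hd2 d hd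
  have hdpos : (0 : ℝ) < d := by exact_mod_cast e4
  have hl : 0 ≤ Real.log d := Real.log_natCast_nonneg d
  have hpd : 0 < p * d := hC0.trans_le hpC
  set c0 : ℝ := min (cs / K) (c / 10) with hc0
  have hc0s : c0 ≤ cs / K := min_le_left _ _
  have hc0d : c0 ≤ c / 10 := min_le_right _ _
  have hc0pos : 0 < c0 := lt_min (by positivity) (by positivity)
  by_cases hA : p * d ≤ K * Real.log d
  · -- sparse
    have hS' := hS d e3 p hp0 hp1 hpC
    refine hS'.trans ?_
    rw [percProb_eq hp0 hp1, percProb_eq hp0 hp1]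
    refine FP.pr_mono _ fun ω h => ?_
    obtain ⟨v, w, hw, hlen⟩ := h
    refine ⟨v, w, hw, le_trans ?_ hlen⟩
    refine mul_le_mul_of_nonneg_right ?_ (by positivity)
    have h1 : c0 * (p * d) ≤ cs * min (p * d) (Real.log d) := by
      have h2 : p * d / K ≤ min (p * d) (Real.log d) := by
        refine le_min ?_ ?_
        · rw [div_le_iff₀ hK0]
          nlinarith
        · rw [div_le_iff₀ hK0]
          linarith
      calc c0 * (p * d) ≤ cs / K * (p * d) := mul_le_mul_of_nonneg_right hc0s hpd.le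
        _ = cs * (p * d / K) := by ring
        _ ≤ cs * min (p * d) (Real.log d) := mul_le_mul_of_nonneg_left h2 hcs.le
    have h3 : Real.exp (-cs * min (p * d) (Real.log d)) ≤ Real.exp (-c0 * (p * d)) :=
      Real.exp_le_exp.2 (by linarith)
    linarith
  · push Not at hA
    by_cases hB : p ≤ 1 / 10
    · have hK' : K' * Real.log d ≤ p * d :=
        (mul_le_mul_of_nonneg_right hKK hl).trans hA.le
      refine (hD d p hp0 hp1 e2 hK' hB).trans ?_
      rw [percProb_eq hp0 hp1]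
      refine FP.pr_mono _ fun ω h => LCyc.hasCycleGe (h.mono (fun _ h => h) ?_)
      refine mul_le_mul_of_nonneg_right ?_ (by positivity)
      have h1 : c0 * (p * d) ≤ c * (p * d) := mul_le_mul_of_nonneg_right (by linarith) hpd.le
      have h3 : Real.exp (-c * (p * d)) ≤ Real.exp (-c0 * (p * d)) := Real.exp_le_exp.2 (by linarith)
      linarith
    · push Not at hB
      have hq0 : (0 : ℝ) ≤ 1 / 10 := by norm_num
      have hq1 : (1 / 10 : ℝ) ≤ 1 := by norm_num
      have hK' : K' * Real.log d ≤ 1 / 10 * d :=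
        (mul_le_mul_of_nonneg_right hKK hl).trans e1
      refine (hD d (1 / 10) hq0 hq1 e2 hK' le_rfl).trans ?_
      rw [percProb_eq hp0 hp1]
      refine (bern_pr_mono (hp0 := hq0) (hp1 := hq1) (hr0 := hp0) (hr1 := hp1) hB.le
        fun ω ω' h hA => hA.mono h le_rfl).trans ?_
      refine FP.pr_mono _ fun ω h => LCyc.hasCycleGe (h.mono (fun _ h => h) ?_)
      refine mul_le_mul_of_nonneg_right ?_ (by positivity)
      have h1 : c0 * (p * d) ≤ c * (1 / 10 * d) := by
        have h2 : p * d ≤ 1 * d := mul_le_mul_of_nonneg_right hp1 hdpos.le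
        calc c0 * (p * d) ≤ c0 * (1 * d) := mul_le_mul_of_nonneg_left h2 hc0pos.le
          _ = c0 * d := by ring
          _ ≤ c / 10 * d := mul_le_mul_of_nonneg_right hc0d hdpos.le
          _ = c * (1 / 10 * d) := by ring
      have h3 : Real.exp (-c * (1 / 10 * d)) ≤ Real.exp (-c0 * (p * d)) := Real.exp_le_exp.2 (by linarith)
      linarith

/-- the sequence form, all `p` -/
theorem full_final (hcore : SparseCore)
    (hdense : ∃ (c K : ℝ) (d0 : ℕ), 0 < c ∧ ∀ (d : ℕ) (p : ℝ) (h0 : 0 ≤ p) (h1 : p ≤ 1), d0 ≤ d →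
      K * Real.log d ≤ p * d → p ≤ 1 / 10 →
      1 - 1 / (d : ℝ) ≤ (bern p h0 h1 (CE (Fin d))).pr fun ω =>
        LCyc ω ((1 - Real.exp (-c * (p * d))) * 2 ^ d)) :
    ∃ c0 : ℝ, 0 < c0 ∧ ∃ C0 : ℝ, 0 < C0 ∧
    ∀ p : ℕ → ℝ, (∀ d, 0 ≤ p d ∧ p d ≤ 1) → (∀ᶠ d in atTop, C0 ≤ p d * d) →
      Tendsto (fun d => percProb (hypercube d) (p d) fun H =>
        HasCycleGe H ((1 - Real.exp (-c0 * (p d * d))) * 2 ^ d)) atTop (𝓝 1) := by
  obtain ⟨c0, hc0, C0, hC0, d1, h⟩ := full_uniform hcore hdense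
  refine ⟨c0, hc0, C0, hC0, fun p hp hpC => ?_⟩
  have h1 : Tendsto (fun d : ℕ => 1 - 1 / (d : ℝ)) atTop (𝓝 1) := by
    have := tendsto_one_div_atTop_nhds_zero_nat (𝕜 := ℝ)
    simpa using this.const_sub 1
  refine tendsto_of_tendsto_of_tendsto_of_le_of_le' h1 tendsto_const_nhds ?_ ?_
  · filter_upwards [hpC, eventually_ge_atTop d1] with d hd hdd
    exact h d hdd (p d) (hp d).1 (hp d).2 hd
  · filter_upwards with d
    rw [percProb_eq (hp d).1 (hp d).2]
    exact FP.pr_le_one _ _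

end Pool.Agent.LongCyc
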