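import Pool.Agent.LongCyc.Double
import Pool.Agent.LongCyc.Base

/-!
# Iteration of the doubling lemma: very long disjoint paths
-/

set_option autoImplicit false

namespace Pool.Agent.LongCyc

open Finset

/-! ### Numerical facts -/

theorem num_pow (k : ℕ) : 64 * ((k + 1) * (k + 2)) ^ 5 * 2 ^ k ≤ 10 ^ 12 * 3 ^ k := by
  rcases Nat.lt_or_ge k 30 with h | h
  · interval_cases k <;> norm_num
  · induction k, h using Nat.le_induction with
    | base => norm_num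
    | succ k hk ih =>
      have h1 : ((k + 1 + 1) * (k + 1 + 2)) ^ 5 * 2 ≤ 3 * ((k + 1) * (k + 2)) ^ 5 := by
        -- `(k + 3) ^ 5 * 2 ≤ 3 * (k + 1) ^ 5`
        have h2 : 31 * (k + 3) ≤ 33 * (k + 1) := by omega
        have h3 : (31 * (k + 3)) ^ 5 ≤ (33 * (k + 1)) ^ 5 := Nat.pow_le_pow_left h2 5
        have h4 : (k + 3) ^ 5 * 2 ≤ 3 * (k + 1) ^ 5 := by
          rw [mul_pow, mul_pow] at h3
          have e1 : 33 ^ 5 * 2 ≤ 3 * 31 ^ 5 := by norm_num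
          have e2 : 31 ^ 5 * ((k + 3) ^ 5 * 2) ≤ 31 ^ 5 * (3 * (k + 1) ^ 5) := by
            calc 31 ^ 5 * ((k + 3) ^ 5 * 2) = (31 ^ 5 * (k + 3) ^ 5) * 2 := by ring
              _ ≤ (33 ^ 5 * (k + 1) ^ 5) * 2 := Nat.mul_le_mul_right _ h3
              _ = (33 ^ 5 * 2) * (k + 1) ^ 5 := by ring
              _ ≤ (3 * 31 ^ 5) * (k + 1) ^ 5 := Nat.mul_le_mul_right _ e1
              _ = 31 ^ 5 * (3 * (k + 1) ^ 5) := by ring
          exact Nat.le_of_mul_le_mul_left e2 (by norm_num)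
        calc ((k + 1 + 1) * (k + 1 + 2)) ^ 5 * 2 = (k + 2) ^ 5 * ((k + 3) ^ 5 * 2) := by ring
          _ ≤ (k + 2) ^ 5 * (3 * (k + 1) ^ 5) := Nat.mul_le_mul_left _ h4
          _ = 3 * ((k + 1) * (k + 2)) ^ 5 := by ring
      calc 64 * ((k + 1 + 1) * (k + 1 + 2)) ^ 5 * 2 ^ (k + 1)
          = 64 * (((k + 1 + 1) * (k + 1 + 2)) ^ 5 * 2) * 2 ^ k := by ring
        _ ≤ 64 * (3 * ((k + 1) * (k + 2)) ^ 5) * 2 ^ k :=
            Nat.mul_le_mul_right _ (Nat.mul_le_mul_left _ h1)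
        _ = 3 * (64 * ((k + 1) * (k + 2)) ^ 5 * 2 ^ k) := by ring
        _ ≤ 3 * (10 ^ 12 * 3 ^ k) := Nat.mul_le_mul_left _ ih
        _ = 10 ^ 12 * 3 ^ (k + 1) := by ring

theorem num_pow_ten (c : ℕ) (hc : 100 ≤ c) : c ^ 10 ≤ 2 ^ c := by
  induction c, hc using Nat.le_induction with
  | base => norm_num
  | succ c hc ih =>
    have h1 : 100 * (c + 1) ≤ 101 * c := by omega
    have h2 : (100 * (c + 1)) ^ 10 ≤ (101 * c) ^ 10 := Nat.pow_le_pow_left h1 10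
    rw [mul_pow, mul_pow] at h2
    have h3 : 100 ^ 10 * (c + 1) ^ 10 ≤ 100 ^ 10 * (2 * c ^ 10) := by
      calc 100 ^ 10 * (c + 1) ^ 10 ≤ 101 ^ 10 * c ^ 10 := h2
        _ ≤ (2 * 100 ^ 10) * c ^ 10 := Nat.mul_le_mul_right _ (by norm_num)
        _ = 100 ^ 10 * (2 * c ^ 10) := by ring
    have h4 := Nat.le_of_mul_le_mul_left h3 (by norm_num)
    calc (c + 1) ^ 10 ≤ 2 * c ^ 10 := h4
      _ ≤ 2 * 2 ^ c := Nat.mul_le_mul_left _ ih
      _ = 2 ^ (c + 1) := by ring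

set_option exponentiation.threshold 2000 in
/-- the number of rounds is small compared to `d` -/
theorem num_rounds {E d : ℕ} (hE : 10 ^ 6 ≤ E) (hd : E ^ 40 ≤ d) (k : ℕ)
    (hk : k ≤ 62 * Nat.clog 2 d) : 64 * E ^ 3 * ((k + 1) * (k + 2)) ^ 4 ≤ d := by
  set c := Nat.clog 2 d with hc
  have hd0 : (10 ^ 6) ^ 40 ≤ d := (Nat.pow_le_pow_left hE 40).trans hd
  have hd1 : 1 < d := lt_of_lt_of_le (by norm_num) hd0
  have hc1 : d ≤ 2 ^ c := Nat.le_pow_clog (by norm_num) d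
  have hc2 : 2 ^ (c - 1) < d := Nat.pow_pred_clog_lt_self (by norm_num) hd1
  have hc3 : 790 ≤ c := by
    by_contra h
    have h1 : 2 ^ c ≤ 2 ^ 790 := Nat.pow_le_pow_right (by norm_num) (by omega)
    have h2 : (2 : ℕ) ^ 790 < (10 ^ 6) ^ 40 := by norm_num
    omega
  have h10 := num_pow_ten c (by omega)
  -- compare the 13th powers
  have hq : (k + 1) * (k + 2) ≤ (64 * c) * (64 * c) :=
    Nat.mul_le_mul (by omega) (by omega)
  have key : (64 * E ^ 3 * ((k + 1) * (k + 2)) ^ 4) ^ 13 ≤ d ^ 13 := by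
    calc (64 * E ^ 3 * ((k + 1) * (k + 2)) ^ 4) ^ 13
        ≤ (64 * E ^ 3 * ((64 * c) * (64 * c)) ^ 4) ^ 13 :=
          Nat.pow_le_pow_left (Nat.mul_le_mul_left _ (Nat.pow_le_pow_left hq 4)) 13
      _ = E ^ 39 * ((64 ^ 13 * 64 ^ 104) * c ^ 104) := by ring
      _ = E ^ 39 * (2 ^ 702 * c ^ 104) := by
          rw [← pow_add, show (64 : ℕ) = 2 ^ 6 by norm_num, ← pow_mul]
      _ ≤ E ^ 40 * (2 ^ 702 * (c ^ 10) ^ 11) := by
          refine Nat.mul_le_mul (Nat.pow_le_pow_right (by omega) (by norm_num)) ?_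
          refine Nat.mul_le_mul_left _ ?_
          rw [← pow_mul]
          exact Nat.pow_le_pow_right (by omega) (by norm_num)
      _ ≤ d * (2 ^ 702 * (2 ^ c) ^ 11) :=
          Nat.mul_le_mul hd (Nat.mul_le_mul_left _ (Nat.pow_le_pow_left h10 11))
      _ = d * 2 ^ (702 + 11 * c) := by rw [← pow_mul, pow_add, mul_comm c 11]
      _ ≤ d * 2 ^ ((c - 1) * 12) :=
          Nat.mul_le_mul_left _ (Nat.pow_le_pow_right (by norm_num) (by omega))
      _ = d * (2 ^ (c - 1)) ^ 12 := by rw [← pow_mul]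
      _ ≤ d * d ^ 12 := Nat.mul_le_mul_left _ (Nat.pow_le_pow_left hc2.le 12)
      _ = d ^ 13 := by ring
  exact le_of_not_gt fun h => absurd key (not_le.2 (Nat.pow_lt_pow_left h (by norm_num)))

/-! ### One step -/

theorem nu_step {p : ℝ} {h0 : 0 ≤ p} {h1 : p ≤ 1} (hp : 0 < p) {d : ℕ} (hpd : 1 ≤ p * d)
    {E : ℕ} (hE : 10 ^ 6 ≤ E) (k : ℕ) (hd : 64 * E ^ 3 * ((k + 1) * (k + 2)) ^ 4 ≤ d)
    {m l : ℕ} {B : ℝ} (hm : (m : ℝ) ≤ B + d / 8 * (1 - 1 / ((k : ℝ) + 1)))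
    (hl : (3 / 2 : ℝ) ^ k * (E : ℝ) ^ 6 ≤ l)
    (hν : 1 - (4 - 3 / ((k : ℝ) + 1)) / E ≤ nu p h0 h1 m l) :
    ∃ m' l' : ℕ, (m' : ℝ) ≤ B + d / 8 * (1 - 1 / ((k : ℝ) + 1 + 1)) ∧
      (3 / 2 : ℝ) ^ (k + 1) * (E : ℝ) ^ 6 ≤ l' ∧
      1 - (4 - 3 / ((k : ℝ) + 1 + 1)) / E ≤ nu p h0 h1 m' l' := by
  set q : ℝ := ((k : ℝ) + 1) * ((k : ℝ) + 2) with hq
  have hk0 : (0 : ℝ) ≤ k := Nat.cast_nonneg k
  have hq2 : 2 ≤ q := by nlinarith
  have hq0 : 0 < q := by linarith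
  have hER : (10 : ℝ) ^ 6 ≤ E := by exact_mod_cast hE
  have hE0 : (0 : ℝ) < E := lt_of_lt_of_le (by norm_num) hER
  have hdR : 64 * (E : ℝ) ^ 3 * q ^ 4 ≤ d := by
    rw [hq]
    exact_mod_cast hd
  have hnum : 64 * q ^ 5 ≤ (10 : ℝ) ^ 12 * (3 / 2) ^ k := by
    have h := num_pow k
    have h' : (64 : ℝ) * q ^ 5 * 2 ^ k ≤ 10 ^ 12 * 3 ^ k := by
      rw [hq]
      exact_mod_cast h
    rw [div_pow, ← mul_div_assoc, le_div_iff₀ (by positivity)]
    exact h'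
  have h32 : (0 : ℝ) < (3 / 2) ^ k := by positivity
  -- size of `l`
  have hl1 : 64 * q ^ 5 * (E : ℝ) ^ 4 ≤ l := by
    calc 64 * q ^ 5 * (E : ℝ) ^ 4 ≤ (10 : ℝ) ^ 12 * (3 / 2) ^ k * (E : ℝ) ^ 4 :=
          mul_le_mul_of_nonneg_right hnum (by positivity)
      _ ≤ (E : ℝ) ^ 2 * (3 / 2) ^ k * (E : ℝ) ^ 4 := by
          have : (10 : ℝ) ^ 12 ≤ (E : ℝ) ^ 2 := by
            calc (10 : ℝ) ^ 12 = (10 ^ 6) ^ 2 := by norm_num
              _ ≤ (E : ℝ) ^ 2 := pow_le_pow_left₀ (by norm_num) hER 2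
          have h2 : (10 : ℝ) ^ 12 * (3 / 2) ^ k ≤ (E : ℝ) ^ 2 * (3 / 2) ^ k :=
            mul_le_mul_of_nonneg_right this h32.le
          exact mul_le_mul_of_nonneg_right h2 (by positivity)
      _ = (3 / 2 : ℝ) ^ k * (E : ℝ) ^ 6 := by ring
      _ ≤ l := hl
  have hEq : (1 : ℝ) ≤ E * q := by nlinarith
  have hl2 : (E : ℝ) * q * 1 ≤ l := by
    refine le_trans ?_ hl1
    have e1 : (1 : ℝ) ≤ q ^ 4 := one_le_pow₀ (by linarith)
    have e2 : (1 : ℝ) ≤ (E : ℝ) ^ 3 := one_le_pow₀ (by linarith [show (1 : ℝ) ≤ 10 ^ 6 by norm_num])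
    have e3 : (1 : ℝ) ≤ 64 * q ^ 4 * (E : ℝ) ^ 3 := by nlinarith
    calc (E : ℝ) * q * 1 ≤ (E : ℝ) * q * (64 * q ^ 4 * (E : ℝ) ^ 3) :=
          mul_le_mul_of_nonneg_left e3 (by positivity)
      _ = 64 * q ^ 5 * (E : ℝ) ^ 4 := by ring
  have hl0 : (0 : ℝ) < l := by nlinarith
  -- the parameters
  set s := ⌈(l : ℝ) / (E * q)⌉₊ with hs
  have hs1 : (l : ℝ) / (E * q) ≤ s := Nat.le_ceil _
  have hs2 : (s : ℝ) < l / (E * q) + 1 := Nat.ceil_lt_add_one (by positivity)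
  have hs3 : (s : ℝ) ≤ 2 * (l / (E * q)) := by
    have : (1 : ℝ) ≤ l / (E * q) := by
      rw [le_div_iff₀ (by positivity)]
      linarith
    linarith
  have hs0 : 0 < s := Nat.ceil_pos.2 (by positivity)
  have hEq6 : (10 : ℝ) ^ 6 ≤ E * q := by nlinarith
  have hs4 : (s : ℝ) ≤ l / 4 := by
    refine hs3.trans ?_
    rw [← mul_div_assoc, div_le_div_iff₀ (by positivity) (by norm_num)]
    nlinarith
  have hsl : s < l := by
    have : (s : ℝ) < l := by linarith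
    exact_mod_cast this
  set δ := ⌊(d : ℝ) / (8 * q)⌋₊ with hδ
  have hd8 : (1 : ℝ) ≤ d / (8 * q) := by
    rw [le_div_iff₀ (by positivity)]
    refine le_trans ?_ hdR
    have e1 : (1 : ℝ) ≤ q ^ 3 := one_le_pow₀ (by linarith)
    have e2 : (1 : ℝ) ≤ (E : ℝ) ^ 3 := one_le_pow₀ (by linarith [show (1 : ℝ) ≤ 10 ^ 6 by norm_num])
    have e3 : (1 : ℝ) ≤ (E : ℝ) ^ 3 * q ^ 3 := by nlinarith
    calc 1 * (8 * q) ≤ ((E : ℝ) ^ 3 * q ^ 3) * (64 * q) := by nlinarith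
      _ = 64 * (E : ℝ) ^ 3 * q ^ 4 := by ring
  have hδ1 : (δ : ℝ) ≤ d / (8 * q) := Nat.floor_le (by positivity)
  have hδ2 : (d : ℝ) / (8 * q) < δ + 1 := Nat.lt_floor_add_one _
  have hδ0 : 0 < δ := Nat.floor_pos.2 hd8
  have hδR : (1 : ℝ) ≤ δ := by exact_mod_cast hδ0
  have hδ3 : (d : ℝ) / (16 * q) ≤ δ := by
    have : (d : ℝ) / (16 * q) = d / (8 * q) / 2 := by field_simp; ring
    rw [this]
    linarith
  -- the density
  set ν := nu p h0 h1 m l with hνdef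
  have hν1 : 1 / 2 ≤ ν := by
    refine le_trans ?_ hν
    have h3 : (4 - 3 / ((k : ℝ) + 1)) / E ≤ 4 / 10 ^ 6 := by
      have e1 : (4 - 3 / ((k : ℝ) + 1)) ≤ 4 := by
        have : 0 ≤ 3 / ((k : ℝ) + 1) := by positivity
        linarith
      calc (4 - 3 / ((k : ℝ) + 1)) / E ≤ 4 / E := div_le_div_of_nonneg_right e1 hE0.le
        _ ≤ 4 / 10 ^ 6 := div_le_div_of_nonneg_left (by norm_num) (by norm_num) hER
    linarith
  have hν0 : 0 < ν := by linarith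
  have hν2 : ν ≤ 1 := nu_le_one m l
  set w := ν * s / l with hw
  have hw1 : 1 / (2 * (E * q)) ≤ w := by
    rw [hw, div_le_div_iff₀ (by positivity) hl0]
    rw [div_le_iff₀ (by positivity)] at hs1
    nlinarith
  have hw0 : 0 < w := lt_of_lt_of_le (by positivity) hw1
  -- first variance term
  have hv1 : 1 / (s * δ * p * w) ≤ 1 / (2 * (E * q) ^ 2) := by
    apply div_le_div_of_nonneg_left (by norm_num) (by positivity)
    calc 2 * (E * q) ^ 2 ≤ ((l : ℝ) / (E * q)) * (d / (16 * q)) * p * (1 / (2 * (E * q))) := by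
          have e1 : ((l : ℝ) / (E * q)) * (d / (16 * q)) * p * (1 / (2 * (E * q))) =
              (l * (p * d)) / (32 * (E : ℝ) ^ 2 * q ^ 3) := by
            field_simp
            ring
          rw [e1, le_div_iff₀ (by positivity)]
          calc 2 * (E * q) ^ 2 * (32 * (E : ℝ) ^ 2 * q ^ 3) = 64 * q ^ 5 * (E : ℝ) ^ 4 := by ring
            _ ≤ (l : ℝ) := hl1
            _ = (l : ℝ) * 1 := by ring
            _ ≤ (l : ℝ) * (p * d) := mul_le_mul_of_nonneg_left hpd hl0.le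
      _ ≤ s * δ * p * w := by
          have e2 : (l / (E * q)) * (d / (16 * q)) ≤ s * δ :=
            mul_le_mul hs1 hδ3 (by positivity) (by positivity)
          have e3 : (l / (E * q)) * (d / (16 * q)) * p ≤ s * δ * p :=
            mul_le_mul_of_nonneg_right e2 hp.le
          exact mul_le_mul e3 hw1 (by positivity) (by positivity)
  have hv2 : 1 / (δ * w) ≤ 1 / (2 * (E * q) ^ 2) := by
    apply div_le_div_of_nonneg_left (by norm_num) (by positivity)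
    calc 2 * (E * q) ^ 2 ≤ ((d : ℝ) / (16 * q)) * (1 / (2 * (E * q))) := by
          have e1 : ((d : ℝ) / (16 * q)) * (1 / (2 * (E * q))) = d / (32 * (E : ℝ) * q ^ 2) := by
            field_simp
            ring
          rw [e1, le_div_iff₀ (by positivity)]
          calc 2 * (E * q) ^ 2 * (32 * (E : ℝ) * q ^ 2) = 64 * (E : ℝ) ^ 3 * q ^ 4 := by ring
            _ ≤ (d : ℝ) := hdR
      _ ≤ δ * w := mul_le_mul hδ3 hw1 (by positivity) (by positivity)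
  have hsq : Real.sqrt (1 / (s * δ * p * w) + 1 / (δ * w)) ≤ 1 / (E * q) := by
    apply Real.sqrt_le_iff.2
    refine ⟨by positivity, ?_⟩
    have : (1 / (E * q)) ^ 2 = 1 / (2 * (E * q) ^ 2) + 1 / (2 * (E * q) ^ 2) := by
      field_simp
      norm_num
    rw [this]
    linarith
  have hmain := nu_double (h0 := h0) (h1 := h1) hp hs0 hsl hδ0 hνdef hν0 hw
  refine ⟨m + δ, 2 * (l - s), ?_, ?_, ?_⟩
  · push_cast
    have e1 : (1 : ℝ) - 1 / ((k : ℝ) + 1 + 1) = (1 - 1 / ((k : ℝ) + 1)) + 1 / q := by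
      rw [hq]
      field_simp
      ring
    rw [e1, mul_add]
    have e2 : (d : ℝ) / 8 * (1 / q) = d / (8 * q) := by field_simp
    rw [e2]
    linarith
  · have e1 : ((2 * (l - s) : ℕ) : ℝ) = 2 * (l - s) := by
      rw [Nat.cast_mul, Nat.cast_sub hsl.le]
      norm_num
    rw [e1, pow_succ]
    nlinarith
  · -- the loss
    have e1 : (s : ℝ) / l ≤ 2 / (E * q) := by
      rw [div_le_iff₀ hl0]
      calc (s : ℝ) ≤ 2 * (l / (E * q)) := hs3
        _ = 2 / (E * q) * l := by ring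
    have e2 : 0 ≤ (s : ℝ) / l := by positivity
    set σ := Real.sqrt (1 / (s * δ * p * w) + 1 / (δ * w)) with hσ
    have e3 : 0 ≤ σ := Real.sqrt_nonneg _
    have e4 : ν - 3 / (E * q) ≤ ν * (1 - s / l) * (1 - σ) := by
      have e5 : ν * (1 - s / l) * (1 - σ) = ν - ν * (s / l) - ν * σ + ν * (s / l) * σ := by ring
      have e6 : ν * (s / l) ≤ s / l := by nlinarith
      have e7 : ν * σ ≤ σ := by nlinarith
      have e8 : 0 ≤ ν * (s / l) * σ := by positivity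
      have e9 : (3 : ℝ) / (E * q) = 2 / (E * q) + 1 / (E * q) := by ring
      rw [e5, e9]
      linarith
    have e5 : (4 - 3 / ((k : ℝ) + 1 + 1)) / E = (4 - 3 / ((k : ℝ) + 1)) / E + 3 / (E * q) := by
      rw [hq]
      field_simp
      ring
    rw [e5]
    linarith

end Pool.Agent.LongCyc
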