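import Pool.Agent.LongCyc.Iter

set_option autoImplicit false

namespace Pool.Agent.LongCyc

open Finset

/-- the base pieces -/
theorem nu_start {p : ℝ} {h0 : 0 ≤ p} {h1 : p ≤ 1} {E d : ℕ} (hE : 10 ^ 6 ≤ E)
    (hd : E ^ 40 ≤ d) (hpp : p ^ 10 * (d : ℝ) ^ 9 ≤ 1) {a : ℕ} (ha : 8 * a ≤ d)
    (hα : Eun (Fin a) p h0 h1 / 2 ^ a ≤ 1 / (12 * (E : ℝ) ^ 7)) :
    1 - 1 / (E : ℝ) ≤ nu p h0 h1 (a + a) (E ^ 6) := by
  have hER : (10 : ℝ) ^ 6 ≤ E := by exact_mod_cast hE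
  have hE0 : (0 : ℝ) < E := lt_of_lt_of_le (by norm_num) hER
  have hE1 : (1 : ℝ) ≤ E := le_trans (by norm_num) hER
  have hEpos : 0 < E := lt_of_lt_of_le (by norm_num) hE
  have h := nu_base h0 h1 (a := a) (b := a) (l := E ^ 6) (L := 6 * E ^ 7) (by positivity)
    (by positivity)
  refine le_trans ?_ h
  set α := Eun (Fin a) p h0 h1 / 2 ^ a with hαdef
  -- `d p ^ 2 E ^ 32 ≤ 1`
  have hdR : (E : ℝ) ^ 40 ≤ d := by exact_mod_cast hd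
  have hd0 : (0 : ℝ) < d := lt_of_lt_of_le (by positivity) hdR
  have hdp : (d : ℝ) * p ^ 2 * (E : ℝ) ^ 32 ≤ 1 := by
    have h5 : ((d : ℝ) * p ^ 2 * (E : ℝ) ^ 32) ^ 5 ≤ 1 := by
      have e1 : ((d : ℝ) * p ^ 2 * (E : ℝ) ^ 32) ^ 5 =
          (d : ℝ) ^ 5 * p ^ 10 * ((E : ℝ) ^ 40) ^ 4 := by ring
      rw [e1]
      calc (d : ℝ) ^ 5 * p ^ 10 * ((E : ℝ) ^ 40) ^ 4 ≤ (d : ℝ) ^ 5 * p ^ 10 * (d : ℝ) ^ 4 :=
            mul_le_mul_of_nonneg_left (pow_le_pow_left₀ (by positivity) hdR 4) (by positivity)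
        _ = p ^ 10 * (d : ℝ) ^ 9 := by ring
        _ ≤ 1 := hpp
    exact (pow_le_one_iff_of_nonneg (by positivity) (by norm_num)).1 h5
  have hterm : ∀ k ∈ Finset.Icc (2 : ℕ) (6 * E ^ 7 / 2),
      (((a + a : ℕ) : ℝ) * (k : ℝ) ^ 2 * p ^ 2) ^ k ≤ 1 / (E : ℝ) ^ 34 := by
    intro k hk
    rw [Finset.mem_Icc] at hk
    have hk1 : (k : ℝ) ≤ 3 * (E : ℝ) ^ 7 := by
      have : k ≤ 3 * E ^ 7 := by omega
      exact_mod_cast this
    have hx : ((a + a : ℕ) : ℝ) * (k : ℝ) ^ 2 * p ^ 2 ≤ 1 / (E : ℝ) ^ 17 := by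
      have ha' : ((a + a : ℕ) : ℝ) ≤ d := by
        have : a + a ≤ d := by omega
        exact_mod_cast this
      rw [le_div_iff₀ (by positivity)]
      calc ((a + a : ℕ) : ℝ) * (k : ℝ) ^ 2 * p ^ 2 * (E : ℝ) ^ 17
          ≤ (d : ℝ) * (3 * (E : ℝ) ^ 7) ^ 2 * p ^ 2 * (E : ℝ) ^ 17 := by
            have e1 : (k : ℝ) ^ 2 ≤ (3 * (E : ℝ) ^ 7) ^ 2 :=
              pow_le_pow_left₀ (Nat.cast_nonneg k) hk1 2
            have e2 : ((a + a : ℕ) : ℝ) * (k : ℝ) ^ 2 ≤ (d : ℝ) * (3 * (E : ℝ) ^ 7) ^ 2 :=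
              mul_le_mul ha' e1 (by positivity) hd0.le
            have e3 := mul_le_mul_of_nonneg_right e2 (sq_nonneg p)
            exact mul_le_mul_of_nonneg_right e3 (by positivity)
        _ = 9 * ((d : ℝ) * p ^ 2 * (E : ℝ) ^ 31) := by ring
        _ ≤ E * ((d : ℝ) * p ^ 2 * (E : ℝ) ^ 31) := by
            refine mul_le_mul_of_nonneg_right ?_ (by positivity)
            linarith [show (9 : ℝ) ≤ 10 ^ 6 by norm_num]
        _ = (d : ℝ) * p ^ 2 * (E : ℝ) ^ 32 := by ring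
        _ ≤ 1 := hdp
    have hx0 : 0 ≤ ((a + a : ℕ) : ℝ) * (k : ℝ) ^ 2 * p ^ 2 := by positivity
    have hx1 : ((a + a : ℕ) : ℝ) * (k : ℝ) ^ 2 * p ^ 2 ≤ 1 := by
      refine hx.trans ?_
      rw [div_le_one (by positivity)]
      exact one_le_pow₀ hE1
    calc (((a + a : ℕ) : ℝ) * (k : ℝ) ^ 2 * p ^ 2) ^ k
        ≤ (((a + a : ℕ) : ℝ) * (k : ℝ) ^ 2 * p ^ 2) ^ 2 :=
          pow_le_pow_of_le_one hx0 hx1 hk.1
      _ ≤ (1 / (E : ℝ) ^ 17) ^ 2 := pow_le_pow_left₀ hx0 hx 2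
      _ = 1 / (E : ℝ) ^ 34 := by rw [div_pow, one_pow, ← pow_mul]
  have hψ : ∑ k ∈ Finset.Icc (2 : ℕ) (6 * E ^ 7 / 2), (((a + a : ℕ) : ℝ) * (k : ℝ) ^ 2 * p ^ 2) ^ k ≤
      3 * (E : ℝ) ^ 7 * (1 / (E : ℝ) ^ 34) := by
    refine (Finset.sum_le_sum hterm).trans ?_
    rw [Finset.sum_const, nsmul_eq_mul]
    refine mul_le_mul_of_nonneg_right ?_ (by positivity)
    have : (Finset.Icc (2 : ℕ) (6 * E ^ 7 / 2)).card ≤ 3 * E ^ 7 := by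
      rw [Nat.card_Icc]
      omega
    exact_mod_cast this
  generalize ∑ k ∈ Finset.Icc (2 : ℕ) (6 * E ^ 7 / 2), (((a + a : ℕ) : ℝ) * (k : ℝ) ^ 2 * p ^ 2) ^ k =
    ψ at hψ
  have e1 : ((E ^ 6 : ℕ) : ℝ) * (2 * (α + α) + ψ + 1 / ((6 * E ^ 7 : ℕ) : ℝ)) ≤ 1 / E := by
    push_cast
    have e2 : 2 * (α + α) ≤ 4 * (1 / (12 * (E : ℝ) ^ 7)) := by linarith
    have e3 : (E : ℝ) ^ 6 * (2 * (α + α) + ψ + 1 / (6 * (E : ℝ) ^ 7)) ≤
        (E : ℝ) ^ 6 * (4 * (1 / (12 * (E : ℝ) ^ 7)) + 3 * (E : ℝ) ^ 7 * (1 / (E : ℝ) ^ 34) +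
          1 / (6 * (E : ℝ) ^ 7)) :=
      mul_le_mul_of_nonneg_left (by linarith) (by positivity)
    refine e3.trans ?_
    have e4 : (E : ℝ) ^ 6 * (4 * (1 / (12 * (E : ℝ) ^ 7)) + 3 * (E : ℝ) ^ 7 * (1 / (E : ℝ) ^ 34) +
          1 / (6 * (E : ℝ) ^ 7)) = 1 / (2 * E) + 3 / (E : ℝ) ^ 21 := by
      field_simp
      ring
    rw [e4]
    have e5 : 3 / (E : ℝ) ^ 21 ≤ 1 / (2 * E) := by
      rw [div_le_div_iff₀ (by positivity) (by positivity)]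
      calc 3 * (2 * (E : ℝ)) = 6 * E := by ring
        _ ≤ E ^ 20 * E := by
            refine mul_le_mul_of_nonneg_right ?_ hE0.le
            calc (6 : ℝ) ≤ E := by linarith [show (6 : ℝ) ≤ 10 ^ 6 by norm_num]
              _ = E ^ 1 := (pow_one _).symm
              _ ≤ E ^ 20 := pow_le_pow_right₀ hE1 (by norm_num)
        _ = 1 * (E : ℝ) ^ 21 := by ring
    have e6 : 1 / (2 * (E : ℝ)) + 1 / (2 * E) = 1 / E := by
      field_simp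
      norm_num
    linarith
  linarith

/-- **Result of the iteration**: disjoint open paths with at least `d ^ 31` vertices each cover
a fraction `1 - 4 / E` of a cube of dimension at most `3 d / 8`, in expectation -/
theorem nu_iter {p : ℝ} {h0 : 0 ≤ p} {h1 : p ≤ 1} (hp : 0 < p) {E d : ℕ} (hE : 10 ^ 6 ≤ E)
    (hd : E ^ 40 ≤ d) (hpd : 1 ≤ p * d) (hpp : p ^ 10 * (d : ℝ) ^ 9 ≤ 1)
    (hα : Eun (Fin (d / 8)) p h0 h1 / 2 ^ (d / 8) ≤ 1 / (12 * (E : ℝ) ^ 7)) :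
    ∃ m l : ℕ, 8 * m ≤ 3 * d ∧ d ^ 31 ≤ l ∧ 1 - 4 / (E : ℝ) ≤ nu p h0 h1 m l := by
  have hER : (10 : ℝ) ^ 6 ≤ E := by exact_mod_cast hE
  have hE0 : (0 : ℝ) < E := lt_of_lt_of_le (by norm_num) hER
  set a := d / 8 with ha
  have ha8 : 8 * a ≤ d := Nat.mul_div_le d 8
  have hstart := nu_start (h0 := h0) (h1 := h1) hE hd hpp ha8 hα
  -- the induction
  have hind : ∀ k : ℕ, k ≤ 62 * Nat.clog 2 d → ∃ m l : ℕ,
      (m : ℝ) ≤ ((a + a : ℕ) : ℝ) + d / 8 * (1 - 1 / ((k : ℝ) + 1)) ∧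
      (3 / 2 : ℝ) ^ k * (E : ℝ) ^ 6 ≤ l ∧
      1 - (4 - 3 / ((k : ℝ) + 1)) / E ≤ nu p h0 h1 m l := by
    intro k
    induction k with
    | zero =>
      intro _
      refine ⟨a + a, E ^ 6, ?_, ?_, ?_⟩
      · push_cast
        norm_num
      · push_cast
        simp
      · have : (4 - 3 / (((0 : ℕ) : ℝ) + 1)) / (E : ℝ) = 1 / E := by norm_num
        rw [this]
        exact hstart
    | succ k ih =>
      intro hk
      obtain ⟨m, l, h2, h3, h4⟩ := ih (by omega)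
      obtain ⟨m', l', h5, h6, h7⟩ := nu_step hp hpd hE k
        (num_rounds hE hd k (by omega)) h2 h3 h4
      refine ⟨m', l', ?_, h6, ?_⟩
      · push_cast
        push_cast at h5
        exact h5
      · push_cast
        exact h7
  obtain ⟨m, l, h2, h3, h4⟩ := hind (62 * Nat.clog 2 d) le_rfl
  refine ⟨m, l, ?_, ?_, ?_⟩
  · have h5 : (m : ℝ) ≤ ((a + a : ℕ) : ℝ) + d / 8 := by
      refine h2.trans ?_
      have : (d : ℝ) / 8 * (1 - 1 / (((62 * Nat.clog 2 d : ℕ) : ℝ) + 1)) ≤ d / 8 * 1 := by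
        refine mul_le_mul_of_nonneg_left ?_ (by positivity)
        have : (0 : ℝ) ≤ 1 / (((62 * Nat.clog 2 d : ℕ) : ℝ) + 1) := by positivity
        linarith
      linarith
    have h6 : ((8 * m : ℕ) : ℝ) ≤ ((3 * d : ℕ) : ℝ) := by
      have h7 : ((8 * a : ℕ) : ℝ) ≤ d := by exact_mod_cast ha8
      push_cast at h5 h7 ⊢
      linarith
    exact_mod_cast h6
  · -- `(3/2)^(62 c) ≥ d ^ 31`
    set c := Nat.clog 2 d with hc
    have hc1 : d ≤ 2 ^ c := Nat.le_pow_clog (by norm_num) d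
    have h5 : ((d : ℝ)) ^ 31 ≤ (3 / 2 : ℝ) ^ (62 * c) := by
      have hc1' : (d : ℝ) ≤ 2 ^ c := by exact_mod_cast hc1
      calc (d : ℝ) ^ 31 ≤ ((2 : ℝ) ^ c) ^ 31 := pow_le_pow_left₀ (Nat.cast_nonneg d) hc1' 31
        _ = 2 ^ (31 * c) := by rw [← pow_mul, mul_comm]
        _ ≤ ((3 / 2 : ℝ) ^ 2) ^ (31 * c) := pow_le_pow_left₀ (by norm_num) (by norm_num) _
        _ = (3 / 2 : ℝ) ^ (62 * c) := by rw [← pow_mul]; ring_nf
    have h6 : (1 : ℝ) ≤ (E : ℝ) ^ 6 := one_le_pow₀ (le_trans (by norm_num) hER)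
    have h7 : ((d ^ 31 : ℕ) : ℝ) ≤ l := by
      push_cast
      calc (d : ℝ) ^ 31 ≤ (3 / 2 : ℝ) ^ (62 * c) := h5
        _ = (3 / 2 : ℝ) ^ (62 * c) * 1 := (mul_one _).symm
        _ ≤ (3 / 2 : ℝ) ^ (62 * c) * (E : ℝ) ^ 6 :=
            mul_le_mul_of_nonneg_left h6 (by positivity)
        _ ≤ l := h3
    exact_mod_cast h7
  · refine le_trans ?_ h4
    have h5 : (4 - 3 / (((62 * Nat.clog 2 d : ℕ) : ℝ) + 1)) / (E : ℝ) ≤ 4 / E := by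
      refine div_le_div_of_nonneg_right ?_ hE0.le
      have : (0 : ℝ) ≤ 3 / (((62 * Nat.clog 2 d : ℕ) : ℝ) + 1) := by positivity
      linarith
    linarith

end Pool.Agent.LongCyc
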