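import Pool.Agent.LongCyc.Iter2
import Pool.Agent.LongCyc.CoreGlue

/-!
# The result of section 6 in final form
-/

set_option autoImplicit false
set_option exponentiation.threshold 2000

namespace Pool.Agent.LongCyc

open Finset

/-- few unmatched vertices -/
theorem Eun_small {p : ℝ} (h0 : 0 ≤ p) (h1 : p ≤ 1) {E d : ℕ} (hE : 10 ^ 6 ≤ E)
    (hd : E ^ 40 ≤ d) (hlog : 7 * Real.log E + 6 ≤ 1 / 6400 * (p * d)) :
    Eun (Fin (d / 8)) p h0 h1 / 2 ^ (d / 8) ≤ 1 / (12 * (E : ℝ) ^ 7) := by
  set n := d / 8 with hn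
  have hER : (10 : ℝ) ^ 6 ≤ E := by exact_mod_cast hE
  have hE1 : (1 : ℝ) ≤ E := le_trans (by norm_num) hER
  have hE0 : (0 : ℝ) < E := by linarith
  have hlogE : 0 ≤ Real.log E := Real.log_nonneg hE1
  have hd1 : 10 ^ 40 ≤ d := by
    refine le_trans ?_ hd
    exact Nat.pow_le_pow_left (le_trans (by norm_num) hE) 40
  have hn1 : 10 ^ 30 ≤ n := by omega
  have hdn : d ≤ 16 * n := by omega
  have hnR : (10 : ℝ) ^ 30 ≤ n := by exact_mod_cast hn1
  have hn0 : (0 : ℝ) < n := lt_of_lt_of_le (by norm_num) hnR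
  have hdnR : (d : ℝ) ≤ 16 * n := by exact_mod_cast hdn
  have hpd : 38400 ≤ p * d := by linarith
  have hpn : p * d ≤ 16 * (p * n) := by
    calc p * d ≤ p * (16 * n) := mul_le_mul_of_nonneg_left hdnR h0
      _ = 16 * (p * n) := by ring
  -- sizes
  set X : ℝ := 2 ^ n with hX
  have hX0 : 0 < X := by positivity
  set F : ℝ := 48 * (E : ℝ) ^ 7 with hF
  have hE7 : (E : ℝ) ^ 7 ≤ 16 * n := by
    have h2 : E ^ 7 ≤ d := (Nat.pow_le_pow_right (by omega) (by norm_num)).trans hd
    have h3 : (E : ℝ) ^ 7 ≤ d := by exact_mod_cast h2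
    exact h3.trans hdnR
  have hE71 : (1 : ℝ) ≤ (E : ℝ) ^ 7 := one_le_pow₀ hE1
  have hF1 : 48 ≤ F := by rw [hF]; linarith
  have hF2 : F ≤ 768 * n := by rw [hF]; linarith
  have hXn : (n : ℝ) ^ 10 ≤ X := by
    have := num_pow_ten n (by omega)
    rw [hX]
    exact_mod_cast this
  have hXF : 2 * (n : ℝ) + 2 ≤ X / F := by
    rw [le_div_iff₀ (by linarith)]
    calc (2 * (n : ℝ) + 2) * F ≤ (4 * n) * (768 * n) := by
          refine mul_le_mul (by linarith [show (1 : ℝ) ≤ 10 ^ 30 by norm_num]) hF2 (by linarith) (by linarith)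
      _ = 3072 * (n : ℝ) ^ 2 := by ring
      _ ≤ (n : ℝ) ^ 8 * (n : ℝ) ^ 2 := by
          refine mul_le_mul_of_nonneg_right ?_ (by positivity)
          calc (3072 : ℝ) ≤ n := by linarith [show (3072 : ℝ) ≤ 10 ^ 30 by norm_num]
            _ = (n : ℝ) ^ 1 := (pow_one _).symm
            _ ≤ (n : ℝ) ^ 8 := pow_le_pow_right₀
                (by linarith [show (1 : ℝ) ≤ 10 ^ 30 by norm_num]) (by norm_num)
      _ = (n : ℝ) ^ 10 := by ring
      _ ≤ X := hXn
  set D := ⌊X / F⌋₊ with hD
  have hD1 : (D : ℝ) ≤ X / F := Nat.floor_le (by positivity)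
  have hD2 : X / F < D + 1 := Nat.lt_floor_add_one _
  have hDn : (n : ℝ) ≤ D := by linarith
  have hD3 : X / F ≤ 2 * D := by linarith
  have hD0 : 0 < D := by
    have : (0 : ℝ) < D := lt_of_lt_of_le hn0 hDn
    exact_mod_cast this
  have hD0R : (0 : ℝ) < D := by exact_mod_cast hD0
  have h36 : 36 * D ≤ 2 ^ Fintype.card (Fin n) := by
    rw [Fintype.card_fin]
    have h2 : (36 * (D : ℝ)) ≤ 2 ^ n := by
      calc 36 * (D : ℝ) ≤ 36 * (X / F) := by linarith
        _ ≤ F * (X / F) := mul_le_mul_of_nonneg_right (by linarith) (by positivity)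
        _ = X := by field_simp
    exact_mod_cast h2
  have hΛ : 144 ≤ p * (Fintype.card (Fin n) : ℕ) := by
    rw [Fintype.card_fin]
    linarith
  have hlog2 : 400 * Real.log (2 ^ Fintype.card (Fin n) / D) ≤ p * (Fintype.card (Fin n) : ℕ) := by
    rw [Fintype.card_fin]
    have h2 : (2 : ℝ) ^ n / D ≤ 96 * (E : ℝ) ^ 7 := by
      rw [div_le_iff₀ hD0R]
      have h3 : X ≤ 2 * D * F := by
        rw [div_le_iff₀ (by linarith)] at hD3
        exact hD3
      calc (2 : ℝ) ^ n = X := rfl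
        _ ≤ 2 * D * F := h3
        _ = 96 * (E : ℝ) ^ 7 * D := by rw [hF]; ring
    have h3 : Real.log (2 ^ n / D) ≤ 6 + 7 * Real.log E := by
      refine (Real.log_le_log (by positivity) h2).trans ?_
      rw [Real.log_mul (by norm_num) (by positivity), Real.log_pow]
      have h4 : Real.log 96 ≤ 6 := by
        have h5 : Real.log 96 ≤ Real.log (2 ^ 7) := Real.log_le_log (by norm_num) (by norm_num)
        rw [Real.log_pow] at h5
        have := Real.log_two_lt_d9
        push_cast at h5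
        linarith
      push_cast
      linarith
    linarith
  have hEun := Eun_le (ι := Fin n) h0 h1 hD0 h36 hΛ hlog2
  rw [Fintype.card_fin] at hEun
  -- the exponential term
  have hexp : 25 * (X * n) * Real.exp (-(p * n * D / 4)) ≤ 1 / (24 * (E : ℝ) ^ 7) := by
    rw [le_div_iff₀ (by positivity)]
    have hpn2 : 2400 ≤ p * n := by linarith
    have h2 : Real.exp (-(p * n * D / 4)) ≤ Real.exp (-(4 * n)) := by
      apply Real.exp_le_exp.2
      have : 4 * (n : ℝ) ≤ p * n * D / 4 := by nlinarith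
      linarith
    have hen : (n : ℝ) ≤ Real.exp n := by
      have := Real.add_one_le_exp (n : ℝ)
      linarith
    have hX2 : X ≤ Real.exp n := by
      have h3 : (2 : ℝ) ≤ Real.exp 1 := by
        have := Real.exp_one_gt_d9
        linarith
      calc X = (2 : ℝ) ^ n := rfl
        _ ≤ Real.exp 1 ^ n := pow_le_pow_left₀ (by norm_num) h3 n
        _ = Real.exp n := by rw [← Real.exp_nat_mul]; ring_nf
    have h600 : 600 * (16 : ℝ) ≤ Real.exp n := by
      linarith [show (600 * 16 : ℝ) ≤ 10 ^ 30 by norm_num]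
    have hpos : 0 ≤ Real.exp (-(p * n * D / 4)) := (Real.exp_pos _).le
    calc 25 * (X * n) * Real.exp (-(p * n * D / 4)) * (24 * (E : ℝ) ^ 7)
        = 600 * X * n * (E : ℝ) ^ 7 * Real.exp (-(p * n * D / 4)) := by ring
      _ ≤ 600 * X * n * (16 * n) * Real.exp (-(4 * n)) := by
          refine mul_le_mul ?_ h2 hpos (by positivity)
          exact mul_le_mul_of_nonneg_left hE7 (by positivity)
      _ = (600 * 16) * X * (n * n) * Real.exp (-(4 * n)) := by ring
      _ ≤ Real.exp n * Real.exp n * (Real.exp n * Real.exp n) * Real.exp (-(4 * n)) := by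
          refine mul_le_mul_of_nonneg_right ?_ (Real.exp_pos _).le
          refine mul_le_mul ?_ ?_ (by positivity) (by positivity)
          · exact mul_le_mul h600 hX2 (by positivity) (by positivity)
          · exact mul_le_mul hen hen (by positivity) (by positivity)
      _ = 1 := by
          rw [← Real.exp_add, ← Real.exp_add, ← Real.exp_add]
          rw [show (n : ℝ) + n + (n + n) + -(4 * n) = 0 by ring, Real.exp_zero]
  rw [div_le_iff₀ (by positivity)]
  calc Eun (Fin n) p h0 h1 ≤ 2 * D + 2 ^ n * (25 * (2 ^ n * n) * Real.exp (-(p * n * D / 4))) :=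
        hEun
    _ ≤ 2 * (X / F) + X * (1 / (24 * (E : ℝ) ^ 7)) :=
        add_le_add (by linarith) (mul_le_mul_of_nonneg_left hexp hX0.le)
    _ = 1 / (12 * (E : ℝ) ^ 7) * X := by
        rw [hF]
        field_simp
        norm_num

/-- **the result of section 6** -/
theorem iterRes : IterRes := by
  refine ⟨1 / 6400, by norm_num, 10 ^ 6, 0, ?_⟩
  intro d E p h0 h1 _ hE hd hpp hlog
  have hER : (10 : ℝ) ^ 6 ≤ E := by exact_mod_cast hE
  have hE1 : (1 : ℝ) ≤ E := le_trans (by norm_num) hER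
  have hlogE : 0 ≤ Real.log E := Real.log_nonneg hE1
  have hpd : 38400 ≤ p * d := by linarith
  have hp : 0 < p := by
    by_contra h
    have : p = 0 := le_antisymm (not_lt.1 h) h0
    rw [this, zero_mul] at hpd
    linarith
  obtain ⟨m, l, h2, h3, h4⟩ := nu_iter (h0 := h0) (h1 := h1) hp hE hd (by linarith) hpp
    (Eun_small h0 h1 hE hd hlog)
  exact ⟨m, l, by omega, h3, h4⟩

end Pool.Agent.LongCyc
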