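import Pool.Agent.LongCyc.Cut

/-!
# Near-perfect matchings in the percolated cube
-/

set_option autoImplicit false

namespace Pool.Agent.LongCyc

open Finset

variable {ι : Type*} [DecidableEq ι] [Fintype ι]

/-- the parity of a vertex (`true` if the number of coordinates `true` is even) -/
def par (x : Cube ι) : Bool := decide (Even (Finset.univ.filter fun i => x i = true).card)

theorem par_flip (i : ι) (x : Cube ι) : par (flip i x) = !par x := by
  unfold par
  cases hx : x i with
  | false =>
    have : (Finset.univ.filter fun j => flip i x j = true) =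
        insert i (Finset.univ.filter fun j => x j = true) := by
      ext j
      by_cases h : j = i
      · subst h; simp [hx]
      · simp [h]
    rw [this, Finset.card_insert_of_notMem (by simp [hx])]
    simp only [Nat.even_add_one, decide_not]
  | true =>
    have : (Finset.univ.filter fun j => x j = true) =
        insert i (Finset.univ.filter fun j => flip i x j = true) := by
      ext j
      by_cases h : j = i
      · subst h; simp [hx]
      · simp [h]
    rw [this, Finset.card_insert_of_notMem (by simp [hx])]
    simp only [Nat.even_add_one, decide_not, Bool.not_not]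

/-- edges of the cube, labelled in a set `E` of edges of a larger graph -/
structure EdgeLab (ι E : Type*) [DecidableEq ι] where
  e : Cube ι → ι → E
  symm : ∀ x i, e (flip i x) i = e x i
  inj : ∀ x i y j, e x i = e y j → i = j ∧ (x = y ∨ x = flip i y)

/-- the edges from the even vertices of `A` to the odd vertices outside `A` -/
def evenBd (A : Finset (Cube ι)) : Finset (Cube ι × ι) := (bd A).filter fun p => par p.1 = true

theorem mem_evenBd {A : Finset (Cube ι)} {p : Cube ι × ι} :
    p ∈ evenBd A ↔ (p.1 ∈ A ∧ flip p.2 p.1 ∉ A) ∧ par p.1 = true := by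
  rw [evenBd, Finset.mem_filter, mem_bd]

/-- `2 |evenBd A| = |bd A| + δ (|S| - |T|)` -/
theorem two_evenBd (A : Finset (Cube ι)) :
    2 * (evenBd A).card + Fintype.card ι * (A.filter fun x => par x = false).card =
      (bd A).card + Fintype.card ι * (A.filter fun x => par x = true).card := by
  set S := A.filter fun x => par x = true with hS
  set T := A.filter fun x => par x = false with hT
  -- edges inside `A`
  set IS := (S ×ˢ (Finset.univ : Finset ι)).filter fun p => flip p.2 p.1 ∈ A with hIS
  set IT := (T ×ˢ (Finset.univ : Finset ι)).filter fun p => flip p.2 p.1 ∈ A with hIT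
  have h1 : IS.card = IT.card := by
    refine Finset.card_bij (fun p _ => (flip p.2 p.1, p.2)) ?_ ?_ ?_
    · intro p hp
      simp only [hIS, hS, Finset.mem_filter, Finset.mem_product, Finset.mem_univ, and_true] at hp
      simp only [hIT, hT, Finset.mem_filter, Finset.mem_product, Finset.mem_univ, and_true,
        flip_flip, par_flip]
      exact ⟨⟨hp.2, by rw [hp.1.2]; rfl⟩, hp.1.1⟩
    · rintro ⟨x, i⟩ _ ⟨y, j⟩ _ h
      obtain ⟨h1, h2⟩ := Prod.mk.inj h
      simp only at h1 h2
      subst h2
      rw [flip_injective i h1]
    · rintro ⟨x, i⟩ hp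
      simp only [hIT, hT, Finset.mem_filter, Finset.mem_product, Finset.mem_univ, and_true] at hp
      refine ⟨(flip i x, i), ?_, ?_⟩
      · simp only [hIS, hS, Finset.mem_filter, Finset.mem_product, Finset.mem_univ, and_true,
          flip_flip, par_flip]
        exact ⟨⟨hp.2, by rw [hp.1.2]; rfl⟩, hp.1.1⟩
      · simp
  have h2 : S.card * Fintype.card ι = IS.card + (evenBd A).card := by
    have e1 : S.card * Fintype.card ι = (S ×ˢ (Finset.univ : Finset ι)).card := by
      rw [Finset.card_product, Finset.card_univ]
    rw [e1, ← Finset.card_filter_add_card_filter_not (s := S ×ˢ (Finset.univ : Finset ι))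
      (fun p => flip p.2 p.1 ∈ A)]
    congr 2
    ext p
    simp only [Finset.mem_filter, Finset.mem_product, hS, Finset.mem_univ, and_true, mem_evenBd]
    tauto
  have h3 : T.card * Fintype.card ι = IT.card + ((bd A).filter fun p => par p.1 = false).card := by
    have e1 : T.card * Fintype.card ι = (T ×ˢ (Finset.univ : Finset ι)).card := by
      rw [Finset.card_product, Finset.card_univ]
    rw [e1, ← Finset.card_filter_add_card_filter_not (s := T ×ˢ (Finset.univ : Finset ι))
      (fun p => flip p.2 p.1 ∈ A)]
    congr 2
    ext p
    simp only [Finset.mem_filter, Finset.mem_product, hT, Finset.mem_univ, and_true, mem_bd]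
    tauto
  have h4 : (bd A).card = (evenBd A).card + ((bd A).filter fun p => par p.1 = false).card := by
    rw [evenBd, ← Finset.card_filter_add_card_filter_not (s := bd A) (fun p => par p.1 = true)]
    congr 2
    ext p
    simp
  rw [mul_comm (Fintype.card ι), mul_comm (Fintype.card ι)]
  omega

variable {E : Type*} [Fintype E] [DecidableEq E]

/-- the labels of the edges in `evenBd A` -/
def lab (ℓ : EdgeLab ι E) (A : Finset (Cube ι)) : Finset E :=
  (evenBd A).image fun p => ℓ.e p.1 p.2

omit [Fintype E] in
theorem card_lab (ℓ : EdgeLab ι E) (A : Finset (Cube ι)) : (lab ℓ A).card = (evenBd A).card := by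
  refine Finset.card_image_of_injOn ?_
  rintro ⟨x, i⟩ hx ⟨y, j⟩ hy h
  obtain ⟨h1, h2⟩ := ℓ.inj x i y j h
  have hx' := (mem_evenBd.mp (Finset.mem_coe.mp hx)).2
  have hy' := (mem_evenBd.mp (Finset.mem_coe.mp hy)).2
  simp only at h1 h2 hx' hy'
  subst h1
  rcases h2 with h2 | h2
  · rw [h2]
  · rw [h2, par_flip, hy'] at hx'
    exact absurd hx' (by decide)

/-- a matching that uses only edges of `H`, as an involution; unmatched vertices are fixed -/
structure IsMatch (ℓ : EdgeLab ι E) (H : Finset E) (m : Cube ι → Cube ι) : Prop where
  invol : ∀ x, m (m x) = x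
  edge : ∀ x, m x = x ∨ ∃ i, m x = flip i x ∧ ℓ.e x i ∈ H

omit [Fintype E] in
/-- Hall's theorem with deficiency -/
theorem exists_match (ℓ : EdgeLab ι E) (H : Finset E) (D : ℕ)
    (h : ∀ A : Finset (Cube ι), Disjoint H (lab ℓ A) →
      (A.filter fun x => par x = true).card ≤ (A.filter fun x => par x = false).card + D) :
    ∃ m : Cube ι → Cube ι, IsMatch ℓ H m ∧ (Finset.univ.filter fun x => m x = x).card ≤ 2 * D := by
  classical
  set Ev := {x : Cube ι // par x = true} with hEv
  set t : Ev → Finset (Cube ι ⊕ Fin D) := fun x =>
    ((Finset.univ.filter fun y => ∃ i, y = flip i x.1 ∧ ℓ.e x.1 i ∈ H).image Sum.inl) ∪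
      Finset.univ.image Sum.inr with ht
  have hall : ∀ s : Finset Ev, s.card ≤ (s.biUnion t).card := by
    intro s
    rcases s.eq_empty_or_nonempty with rfl | hne
    · simp
    set S : Finset (Cube ι) := s.image Subtype.val with hS
    set T : Finset (Cube ι) := Finset.univ.filter fun y => ∃ x ∈ s, ∃ i, y = flip i x.1 ∧
      ℓ.e x.1 i ∈ H with hT
    have hSeven : ∀ x ∈ S, par x = true := by
      intro x hx
      obtain ⟨y, _, rfl⟩ := Finset.mem_image.mp hx
      exact y.2
    have hTodd : ∀ x ∈ T, par x = false := by
      intro y hy
      obtain ⟨x, _, i, rfl, _⟩ := (Finset.mem_filter.mp hy).2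
      rw [par_flip, x.2]
      rfl
    have hb := h (S ∪ T) (by
      rw [Finset.disjoint_left]
      intro a haH ha
      obtain ⟨⟨x, i⟩, hp, rfl⟩ := Finset.mem_image.mp ha
      rw [mem_evenBd] at hp
      simp only at hp haH
      obtain ⟨⟨h1, h2⟩, h3⟩ := hp
      apply h2
      refine Finset.mem_union_right _ (Finset.mem_filter.mpr ⟨Finset.mem_univ _, ?_⟩)
      have hxS : x ∈ S := by
        rcases Finset.mem_union.mp h1 with h1 | h1
        · exact h1
        · rw [hTodd x h1] at h3
          exact absurd h3 (by decide)
      obtain ⟨y, hy, rfl⟩ := Finset.mem_image.mp hxS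
      exact ⟨y, hy, i, rfl, haH⟩)
    have e1 : (S ∪ T).filter (fun x => par x = true) = S := by
      ext x
      simp only [Finset.mem_filter, Finset.mem_union]
      constructor
      · rintro ⟨h1 | h1, h2⟩
        · exact h1
        · rw [hTodd x h1] at h2
          exact absurd h2 (by decide)
      · intro h1
        exact ⟨Or.inl h1, hSeven x h1⟩
    have e2 : (S ∪ T).filter (fun x => par x = false) = T := by
      ext x
      simp only [Finset.mem_filter, Finset.mem_union]
      constructor
      · rintro ⟨h1 | h1, h2⟩
        · rw [hSeven x h1] at h2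
          exact absurd h2 (by decide)
        · exact h1
      · intro h1
        exact ⟨Or.inr h1, hTodd x h1⟩
    rw [e1, e2] at hb
    have hScard : S.card = s.card := Finset.card_image_of_injective _ Subtype.val_injective
    have hsub : T.image (Sum.inl : Cube ι → Cube ι ⊕ Fin D) ∪
        (Finset.univ : Finset (Fin D)).image Sum.inr ⊆ s.biUnion t := by
      intro a ha
      rcases Finset.mem_union.mp ha with ha | ha
      · obtain ⟨y, hy, rfl⟩ := Finset.mem_image.mp ha
        obtain ⟨x, hx, i, h1, h2⟩ := (Finset.mem_filter.mp hy).2
        refine Finset.mem_biUnion.mpr ⟨x, hx, Finset.mem_union_left _ (Finset.mem_image.mpr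
          ⟨y, Finset.mem_filter.mpr ⟨Finset.mem_univ _, i, h1, h2⟩, rfl⟩)⟩
      · obtain ⟨x, hx⟩ := hne
        exact Finset.mem_biUnion.mpr ⟨x, hx, Finset.mem_union_right _ ha⟩
    have hle := Finset.card_le_card hsub
    rw [Finset.card_union_of_disjoint, Finset.card_image_of_injective _ Sum.inl_injective,
      Finset.card_image_of_injective _ Sum.inr_injective, Finset.card_univ, Fintype.card_fin] at hle
    · omega
    · rw [Finset.disjoint_left]
      intro a ha hb
      obtain ⟨y, _, rfl⟩ := Finset.mem_image.mp ha
      obtain ⟨z, _, hz⟩ := Finset.mem_image.mp hb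
      exact absurd hz (by simp)
  obtain ⟨f, hf, hft⟩ := (Finset.all_card_le_biUnion_card_iff_exists_injective t).mp hall
  -- the real part of `f`
  have hreal : ∀ (x : Ev) (y : Cube ι), f x = Sum.inl y → ∃ i, y = flip i x.1 ∧ ℓ.e x.1 i ∈ H := by
    intro x y hxy
    have := hft x
    rw [hxy, ht] at this
    simp only [Finset.mem_union, Finset.mem_image, Finset.mem_filter, Finset.mem_univ, true_and]
      at this
    rcases this with ⟨z, hz, hzy⟩ | ⟨z, hz⟩
    · rw [← Sum.inl_injective hzy]
      exact hz
    · exact absurd hz (by simp)
  -- the relation `x ~ y`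
  set R : Cube ι → Cube ι → Prop := fun x y =>
    (∃ hx : par x = true, f ⟨x, hx⟩ = Sum.inl y) ∨ (∃ hy : par y = true, f ⟨y, hy⟩ = Sum.inl x)
    with hR
  have hRpar : ∀ x y, R x y → par y = !par x := by
    rintro x y (⟨hx, h1⟩ | ⟨hy, h1⟩)
    · obtain ⟨i, rfl, _⟩ := hreal _ _ h1
      exact par_flip i x
    · obtain ⟨i, rfl, _⟩ := hreal _ _ h1
      rw [par_flip]
      simp
  have hRuniq : ∀ x y z, R x y → R x z → y = z := by
    intro x y z h1 h2
    cases hx : par x with
    | true =>
      rcases h1 with ⟨_, h1⟩ | ⟨hy, h1⟩
      · rcases h2 with ⟨_, h2⟩ | ⟨hz, h2⟩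
        · rw [h1] at h2
          exact Sum.inl_injective h2
        · have := hRpar z x (Or.inl ⟨hz, h2⟩)
          rw [hx, hz] at this
          exact absurd this (by decide)
      · have := hRpar y x (Or.inl ⟨hy, h1⟩)
        rw [hx, hy] at this
        exact absurd this (by decide)
    | false =>
      rcases h1 with ⟨h, _⟩ | ⟨hy, h1⟩
      · rw [hx] at h
        exact absurd h (by decide)
      · rcases h2 with ⟨h, _⟩ | ⟨hz, h2⟩
        · rw [hx] at h
          exact absurd h (by decide)
        · have := hf (h1.trans h2.symm)
          exact congrArg Subtype.val this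
  have hRsymm : ∀ x y, R x y → R y x := fun x y h => h.symm
  set m : Cube ι → Cube ι := fun x => if h : ∃ y, R x y then h.choose else x with hm
  have hm1 : ∀ x y, R x y → m x = y := by
    intro x y hxy
    have hex : ∃ y, R x y := ⟨y, hxy⟩
    rw [hm]
    simp only [dif_pos hex]
    exact hRuniq x _ _ hex.choose_spec hxy
  have hm2 : ∀ x, (¬ ∃ y, R x y) → m x = x := by
    intro x h
    rw [hm]
    simp only [dif_neg h]
  refine ⟨m, ⟨?_, ?_⟩, ?_⟩
  · intro x
    by_cases h : ∃ y, R x y
    · obtain ⟨y, hy⟩ := h
      rw [hm1 x y hy, hm1 y x (hRsymm x y hy)]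
    · rw [hm2 x h, hm2 x h]
  · intro x
    by_cases h : ∃ y, R x y
    · obtain ⟨y, hy⟩ := h
      right
      rw [hm1 x y hy]
      rcases hy with ⟨_, h1⟩ | ⟨_, h1⟩
      · exact hreal _ _ h1
      · obtain ⟨i, h2, h3⟩ := hreal _ _ h1
        simp only at h2 h3
        refine ⟨i, ?_, ?_⟩
        · rw [h2, flip_flip]
        · rw [h2, ℓ.symm]; exact h3
    · left
      exact hm2 x h
  · -- counting
    have hfix : ∀ x, m x = x → ¬ ∃ y, R x y := by
      rintro x hx ⟨y, hy⟩
      have h1 := hm1 x y hy
      have h2 := hRpar x y hy
      rw [← h1, hx] at h2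
      cases h3 : par x <;> rw [h3] at h2 <;> exact absurd h2 (by decide)
    -- fixed even vertices go to dummies
    set FE := Finset.univ.filter fun x : Ev => m x.1 = x.1 with hFE
    have hFEdummy : ∀ x ∈ FE, ∃ k, f x = Sum.inr k := by
      intro x hx
      have h1 := hfix x.1 (Finset.mem_filter.mp hx).2
      cases hfx : f x with
      | inl y => exact absurd ⟨y, Or.inl ⟨x.2, hfx⟩⟩ h1
      | inr k => exact ⟨k, rfl⟩
    have hFEcard : FE.card ≤ D := by
      have hsub : FE.image f ⊆ (Finset.univ : Finset (Fin D)).image Sum.inr := by
        intro a ha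
        obtain ⟨x, hx, rfl⟩ := Finset.mem_image.mp ha
        obtain ⟨k, hk⟩ := hFEdummy x hx
        rw [hk]
        exact Finset.mem_image_of_mem _ (Finset.mem_univ k)
      have := Finset.card_le_card hsub
      rw [Finset.card_image_of_injective _ hf, Finset.card_image_of_injective _ Sum.inr_injective,
        Finset.card_univ, Fintype.card_fin] at this
      exact this
    -- `m` exchanges the matched even and odd vertices, so the numbers of fixed ones agree
    have hinvol : ∀ x, m (m x) = x := by
      intro x
      by_cases h : ∃ y, R x y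
      · obtain ⟨y, hy⟩ := h
        rw [hm1 x y hy, hm1 y x (hRsymm x y hy)]
      · rw [hm2 x h, hm2 x h]
    have hmpar : ∀ x, m x ≠ x → par (m x) = !par x := by
      intro x hx
      by_cases h : ∃ y, R x y
      · obtain ⟨y, hy⟩ := h
        rw [hm1 x y hy]
        exact hRpar x y hy
      · exact absurd (hm2 x h) hx
    rcases isEmpty_or_nonempty ι with hι | hι
    · -- one vertex only
      have hcard1 : Fintype.card (Cube ι) = 1 := by simp
      have h1 : (Finset.univ.filter fun x : Cube ι => m x = x).card ≤ 1 := by
        refine (Finset.card_le_univ _).trans (le_of_eq hcard1)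
      have hD : 1 ≤ D := by
        have h2 := h Finset.univ (by
          rw [Finset.disjoint_left]
          intro a _ ha
          obtain ⟨⟨x, i⟩, _, _⟩ := Finset.mem_image.mp ha
          exact hι.elim i)
        have h3 : (Finset.univ.filter fun x : Cube ι => par x = true).card = 1 := by
          rw [Finset.filter_true_of_mem, Finset.card_univ, hcard1]
          intro x _
          simp [par, Finset.univ_eq_empty]
        have h4 : (Finset.univ.filter fun x : Cube ι => par x = false).card = 0 := by
          rw [Finset.card_eq_zero, Finset.filter_eq_empty_iff]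
          intro x _
          simp [par, Finset.univ_eq_empty]
        omega
      omega
    · obtain ⟨i₀⟩ := hι
      set M1 := Finset.univ.filter fun x : Cube ι => m x ≠ x ∧ par x = true with hM1
      set M0 := Finset.univ.filter fun x : Cube ι => m x ≠ x ∧ par x = false with hM0
      set F1 := Finset.univ.filter fun x : Cube ι => m x = x ∧ par x = true with hF1
      set F0 := Finset.univ.filter fun x : Cube ι => m x = x ∧ par x = false with hF0
      have hM : M1.card = M0.card := by
        refine Finset.card_bij (fun x _ => m x) ?_ ?_ ?_
        · intro x hx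
          have hx' := (Finset.mem_filter.mp hx).2
          refine Finset.mem_filter.mpr ⟨Finset.mem_univ _, ?_, ?_⟩
          · rw [hinvol]
            exact Ne.symm hx'.1
          · rw [hmpar x hx'.1, hx'.2]
            rfl
        · intro x _ y _ hxy
          rw [← hinvol x, hxy, hinvol]
        · intro x hx
          have hx' := (Finset.mem_filter.mp hx).2
          refine ⟨m x, Finset.mem_filter.mpr ⟨Finset.mem_univ _, ?_, ?_⟩, hinvol x⟩
          · rw [hinvol]
            exact Ne.symm hx'.1
          · rw [hmpar x hx'.1, hx'.2]
            rfl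
      have hPar : (Finset.univ.filter fun x : Cube ι => par x = true).card =
          (Finset.univ.filter fun x : Cube ι => par x = false).card := by
        refine Finset.card_bij (fun x _ => flip i₀ x) ?_ ?_ ?_
        · intro x hx
          have hx' := (Finset.mem_filter.mp hx).2
          refine Finset.mem_filter.mpr ⟨Finset.mem_univ _, ?_⟩
          rw [par_flip, hx']
          rfl
        · intro x _ y _ hxy
          exact flip_injective i₀ hxy
        · intro x hx
          have hx' := (Finset.mem_filter.mp hx).2
          refine ⟨flip i₀ x, Finset.mem_filter.mpr ⟨Finset.mem_univ _, ?_⟩, flip_flip i₀ x⟩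
          rw [par_flip, hx']
          rfl
      have s1 : (Finset.univ.filter fun x : Cube ι => par x = true).card = F1.card + M1.card := by
        rw [← Finset.card_filter_add_card_filter_not
          (s := Finset.univ.filter fun x : Cube ι => par x = true) (fun x => m x = x),
          Finset.filter_filter, Finset.filter_filter]
        congr 2
        · ext x; simp only [hF1, Finset.mem_filter, Finset.mem_univ, true_and]; tauto
        · ext x; simp only [hM1, Finset.mem_filter, Finset.mem_univ, true_and]; tauto
      have s0 : (Finset.univ.filter fun x : Cube ι => par x = false).card = F0.card + M0.card := by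
        rw [← Finset.card_filter_add_card_filter_not
          (s := Finset.univ.filter fun x : Cube ι => par x = false) (fun x => m x = x),
          Finset.filter_filter, Finset.filter_filter]
        congr 2
        · ext x; simp only [hF0, Finset.mem_filter, Finset.mem_univ, true_and]; tauto
        · ext x; simp only [hM0, Finset.mem_filter, Finset.mem_univ, true_and]; tauto
      have s2 : (Finset.univ.filter fun x : Cube ι => m x = x).card = F1.card + F0.card := by
        rw [← Finset.card_filter_add_card_filter_not
          (s := Finset.univ.filter fun x : Cube ι => m x = x) (fun x => par x = true),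
          Finset.filter_filter, Finset.filter_filter]
        congr 2
        ext x
        simp only [hF0, Finset.mem_filter, Finset.mem_univ, true_and, Bool.not_eq_true]
      have s3 : F1.card = FE.card := by
        rw [← Finset.card_image_of_injective FE Subtype.val_injective]
        congr 1
        ext x
        simp only [hF1, hFE, Finset.mem_filter, Finset.mem_univ, true_and, Finset.mem_image]
        constructor
        · rintro ⟨h1, h2⟩
          exact ⟨⟨x, h2⟩, h1, rfl⟩
        · rintro ⟨y, h1, rfl⟩
          exact ⟨h1, y.2⟩
      omega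

end Pool.Agent.LongCyc
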