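import Pool.Agent.LongCyc.Prob
import Pool.Agent.LongCyc.Match

/-!
# Percolation on the cube: families of disjoint paths, label independence

`opn ℓ ω` is the relation `joined by an open edge` (edges labelled by `ℓ`, states `ω`),
`mx G L` is the largest number of disjoint `G`-paths with exactly `L` vertices.
-/

set_option autoImplicit false

namespace Pool.Agent.LongCyc

open Finset

/-! ### Families of disjoint paths -/

section fam

variable {V : Type*}

/-- `pt k` are disjoint `G`-paths with exactly `L` vertices -/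
structure IsFam {κ : Type*} (G : V → V → Prop) {L : ℕ} (pt : κ → Fin L → V) : Prop where
  inj : Function.Injective fun q : κ × Fin L => pt q.1 q.2
  adj : ∀ k (i : ℕ) (hi : i + 1 < L), G (pt k ⟨i, by omega⟩) (pt k ⟨i + 1, hi⟩)

/-- there are `K` disjoint `G`-paths with exactly `L` vertices -/
def HasFam (G : V → V → Prop) (L K : ℕ) : Prop := ∃ pt : Fin K → Fin L → V, IsFam G pt

/-- the largest number of disjoint `G`-paths with exactly `L` vertices -/
noncomputable def mx [Fintype V] (G : V → V → Prop) (L : ℕ) : ℕ := by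
  classical exact Nat.findGreatest (HasFam G L) (Fintype.card V)

theorem IsFam.card_le {κ : Type*} [Fintype κ] [Fintype V] {G : V → V → Prop} {L : ℕ}
    {pt : κ → Fin L → V} (h : IsFam G pt) : Fintype.card κ * L ≤ Fintype.card V := by
  have := Fintype.card_le_of_injective _ h.inj
  simpa using this

theorem IsFam.reindex {κ κ' : Type*} {G : V → V → Prop} {L : ℕ} {pt : κ → Fin L → V}
    (h : IsFam G pt) {f : κ' → κ} (hf : Function.Injective f) : IsFam G fun k => pt (f k) where
  inj := by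
    rintro ⟨a, i⟩ ⟨b, j⟩ hab
    have := h.inj (a₁ := (f a, i)) (a₂ := (f b, j)) hab
    simp only [Prod.mk.injEq] at this
    rw [Prod.mk.injEq]
    exact ⟨hf this.1, this.2⟩
  adj k i hi := h.adj (f k) i hi

theorem IsFam.map {κ V' : Type*} {G : V → V → Prop} {G' : V' → V' → Prop} {L : ℕ}
    {pt : κ → Fin L → V} (h : IsFam G pt) {f : V → V'} (hf : Function.Injective f)
    (hG : ∀ x y, G x y → G' (f x) (f y)) : IsFam G' fun k i => f (pt k i) where
  inj := by
    rintro ⟨a, i⟩ ⟨b, j⟩ hab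
    exact h.inj (a₁ := (a, i)) (a₂ := (b, j)) (hf hab)
  adj k i hi := hG _ _ (h.adj k i hi)

theorem hasFam_zero (G : V → V → Prop) (L : ℕ) : HasFam G L 0 :=
  ⟨fun k => k.elim0, ⟨fun q => q.1.elim0, fun k => k.elim0⟩⟩

variable [Fintype V]

theorem hasFam_mx (G : V → V → Prop) (L : ℕ) : HasFam G L (mx G L) := by
  classical
  unfold mx
  exact Nat.findGreatest_spec (P := HasFam G L) (Nat.zero_le _) (hasFam_zero G L)

theorem le_mx {G : V → V → Prop} {L K : ℕ} (hL : 0 < L) (h : HasFam G L K) : K ≤ mx G L := by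
  classical
  unfold mx
  obtain ⟨pt, hpt⟩ := h
  have := hpt.card_le
  rw [Fintype.card_fin] at this
  exact Nat.le_findGreatest (by nlinarith) ⟨pt, hpt⟩

theorem IsFam.le_mx {κ : Type*} [Fintype κ] {G : V → V → Prop} {L : ℕ} (hL : 0 < L)
    {pt : κ → Fin L → V} (h : IsFam G pt) : Fintype.card κ ≤ mx G L :=
  Pool.Agent.LongCyc.le_mx hL ⟨_, h.reindex (Fintype.equivFin κ).symm.injective⟩

theorem mx_mul_le (G : V → V → Prop) (L : ℕ) : mx G L * L ≤ Fintype.card V := by
  obtain ⟨pt, hpt⟩ := hasFam_mx G L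
  simpa using hpt.card_le

/-- a largest family -/
noncomputable def fam (G : V → V → Prop) (L : ℕ) : Fin (mx G L) → Fin L → V :=
  (hasFam_mx G L).choose

theorem isFam_fam (G : V → V → Prop) (L : ℕ) : IsFam G (fam G L) := (hasFam_mx G L).choose_spec

theorem mx_mono {G G' : V → V → Prop} {L : ℕ} (hL : 0 < L) (h : ∀ x y, G x y → G' x y) :
    mx G L ≤ mx G' L := by
  have h1 := ((isFam_fam G L).map Function.injective_id h).le_mx hL
  simpa using h1

theorem mx_le_of_equiv {V' : Type*} [Fintype V'] {G : V → V → Prop} {G' : V' → V' → Prop} {L : ℕ}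
    (hL : 0 < L) (e : V ≃ V') (h : ∀ x y, G x y → G' (e x) (e y)) : mx G L ≤ mx G' L := by
  have h1 := ((isFam_fam G L).map e.injective h).le_mx hL
  simpa using h1

theorem mx_equiv {V' : Type*} [Fintype V'] {G : V → V → Prop} {G' : V' → V' → Prop} {L : ℕ}
    (hL : 0 < L) (e : V ≃ V') (h : ∀ x y, G x y ↔ G' (e x) (e y)) : mx G L = mx G' L := by
  refine le_antisymm (mx_le_of_equiv hL e fun x y => (h x y).1) ?_
  refine mx_le_of_equiv hL e.symm fun x y hxy => ?_
  rw [h]
  simpa using hxy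

/-- cutting the paths of a family into pieces with exactly `L'` vertices -/
theorem mx_cut {G : V → V → Prop} {L L' : ℕ} (hL' : 0 < L') :
    mx G L * (L / L') ≤ mx G L' := by
  have hf := isFam_fam G L
  have hb : ∀ (b : Fin (L / L')) (i : Fin L'), b.val * L' + i.val < L := by
    intro b i
    have h1 : (b.val + 1) * L' ≤ L / L' * L' := Nat.mul_le_mul_right _ b.isLt
    have h2 : L / L' * L' ≤ L := Nat.div_mul_le_self _ _
    have := i.isLt
    nlinarith
  have h : IsFam G (fun (q : Fin (mx G L) × Fin (L / L')) (i : Fin L') =>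
      fam G L q.1 ⟨q.2.val * L' + i.val, hb q.2 i⟩) := by
    constructor
    · rintro ⟨⟨a, b⟩, i⟩ ⟨⟨a', b'⟩, i'⟩ hab
      have h1 := hf.inj (a₁ := (a, ⟨b.val * L' + i.val, hb b i⟩))
        (a₂ := (a', ⟨b'.val * L' + i'.val, hb b' i'⟩)) hab
      simp only [Prod.mk.injEq, Fin.mk.injEq] at h1
      have h2 := i.isLt
      have h3 := i'.isLt
      have hbb : b.val = b'.val := by
        have e1 : (b.val * L' + i.val) / L' = b.val := by
          rw [mul_comm, Nat.mul_add_div hL', Nat.div_eq_of_lt h2, add_zero]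
        have e2 : (b'.val * L' + i'.val) / L' = b'.val := by
          rw [mul_comm, Nat.mul_add_div hL', Nat.div_eq_of_lt h3, add_zero]
        rw [← e1, ← e2, h1.2]
      have hii : i.val = i'.val := by
        have := h1.2
        rw [hbb] at this
        omega
      simp only [Prod.mk.injEq]
      exact ⟨⟨h1.1, Fin.ext hbb⟩, Fin.ext hii⟩
    · rintro ⟨a, b⟩ i hi
      exact hf.adj a (b.val * L' + i) (hb b ⟨i + 1, hi⟩)
  have h1 := h.le_mx hL'
  simpa using h1

end fam

/-! ### Open edges and labels -/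

section opn

variable {ι : Type*} [DecidableEq ι] {E : Type*}

/-- joined by an open edge -/
def opn (ℓ : EdgeLab ι E) (ω : E → Bool) (x y : Cube ι) : Prop :=
  ∃ i, y = flip i x ∧ ω (ℓ.e x i) = true

theorem opn_symm {ℓ : EdgeLab ι E} {ω : E → Bool} {x y : Cube ι} (h : opn ℓ ω x y) :
    opn ℓ ω y x := by
  obtain ⟨i, rfl, h⟩ := h
  exact ⟨i, by simp, by rw [ℓ.symm]; exact h⟩

theorem opn_mono {ℓ : EdgeLab ι E} {ω ω' : E → Bool} (h : ∀ e, ω e = true → ω' e = true)
    {x y : Cube ι} (hxy : opn ℓ ω x y) : opn ℓ ω' x y := by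
  obtain ⟨i, h1, h2⟩ := hxy
  exact ⟨i, h1, h _ h2⟩

/-- canonical labels of the edges -/
abbrev CE (ι : Type*) := {q : Cube ι × ι // q.1 q.2 = false}

/-- canonical labelling -/
def canE (ι : Type*) [DecidableEq ι] : EdgeLab ι (CE ι) where
  e x i := ⟨(Function.update x i false, i), by simp⟩
  symm x i := by
    apply Subtype.ext
    simp [flip]
  inj x i y j h := by
    rw [Subtype.mk.injEq, Prod.mk.injEq] at h
    obtain ⟨h1, rfl⟩ := h
    refine ⟨rfl, ?_⟩
    by_cases hxy : x i = y i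
    · left
      funext k
      by_cases hk : k = i
      · rw [hk, hxy]
      · have := congrFun h1 k
        simpa [hk] using this
    · right
      funext k
      by_cases hk : k = i
      · subst hk
        rw [flip_same]
        cases hx : x k <;> cases hy : y k <;> simp_all
      · have := congrFun h1 k
        simpa [hk] using this

/-- the canonical label is a label for every labelling -/
def EdgeLab.phi (ℓ : EdgeLab ι E) (q : CE ι) : E := ℓ.e q.1.1 q.1.2

theorem EdgeLab.phi_injective (ℓ : EdgeLab ι E) : Function.Injective ℓ.phi := by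
  rintro ⟨⟨x, i⟩, hx⟩ ⟨⟨y, j⟩, hy⟩ h
  obtain ⟨h1, h2⟩ := ℓ.inj x i y j h
  dsimp only at h1 hx hy
  subst h1
  rcases h2 with rfl | rfl
  · rfl
  · rw [flip_same, hy] at hx
    cases hx

theorem EdgeLab.phi_can (ℓ : EdgeLab ι E) (x : Cube ι) (i : ι) :
    ℓ.phi ((canE ι).e x i) = ℓ.e x i := by
  show ℓ.e (Function.update x i false) i = ℓ.e x i
  cases hx : x i with
  | false =>
    rw [← hx, Function.update_eq_self]
  | true =>
    rw [← ℓ.symm x i, flip, hx]
    rfl

theorem opn_can (ℓ : EdgeLab ι E) (ω : E → Bool) : opn ℓ ω = opn (canE ι) (ω ∘ ℓ.phi) := by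
  funext x y
  simp only [opn, Function.comp, ℓ.phi_can]

end opn

/-! ### Bernoulli on sums, products and injections -/

section bern

variable {p : ℝ} {h0 : 0 ≤ p} {h1 : p ≤ 1}

theorem bern_sum {A B : Type*} [Fintype A] [DecidableEq A] [Fintype B] [DecidableEq B]
    (f : (A ⊕ B → Bool) → ℝ) : (bern p h0 h1 (A ⊕ B)).E f =
      (bern p h0 h1 A).E fun a => (bern p h0 h1 B).E fun b => f (Sum.elim a b) := by
  rw [← FP.E_prod (bern p h0 h1 A) (bern p h0 h1 B) (fun q => f (Sum.elim q.1 q.2))]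
  rw [FP.E, ← Equiv.sum_comp (Equiv.sumArrowEquivProdArrow A B Bool).symm, FP.E]
  refine Finset.sum_congr rfl fun q _ => ?_
  have e1 : (Equiv.sumArrowEquivProdArrow A B Bool).symm q = Sum.elim q.1 q.2 := rfl
  rw [e1, bern_w, Fintype.prod_sum_type]
  rfl

theorem bern_curry {Z A : Type*} [Fintype Z] [DecidableEq Z] [Fintype A] [DecidableEq A]
    (f : (Z × A → Bool) → ℝ) : (bern p h0 h1 (Z × A)).E f =
      (FP.pi fun _ : Z => bern p h0 h1 A).E fun ω => f fun q => ω q.1 q.2 := by
  rw [FP.E, ← Equiv.sum_comp (Equiv.curry Z A Bool).symm, FP.E]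
  refine Finset.sum_congr rfl fun ω _ => ?_
  have e1 : (Equiv.curry Z A Bool).symm ω = fun q => ω q.1 q.2 := rfl
  rw [e1, bern_w, Fintype.prod_prod_type]
  rfl

theorem bern_equiv {A B : Type*} [Fintype A] [DecidableEq A] [Fintype B] [DecidableEq B]
    (e : A ≃ B) (f : (A → Bool) → ℝ) : (bern p h0 h1 A).E f =
      (bern p h0 h1 B).E fun ω => f (ω ∘ e) := by
  rw [FP.E, ← Equiv.sum_comp (Equiv.arrowCongr e (Equiv.refl Bool)).symm, FP.E]
  refine Finset.sum_congr rfl fun ω _ => ?_
  have e1 : (Equiv.arrowCongr e (Equiv.refl Bool)).symm ω = ω ∘ e := rfl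
  rw [e1, bern_w, bern_w]
  congr 1
  rw [← Equiv.prod_comp e]
  rfl

/-- marginals -/
theorem bern_comap {A B : Type*} [Fintype A] [DecidableEq A] [Fintype B] [DecidableEq B]
    (φ : A → B) (hφ : Function.Injective φ) (f : (A → Bool) → ℝ) :
    (bern p h0 h1 B).E (fun ω => f (ω ∘ φ)) = (bern p h0 h1 A).E f := by
  classical
  set e : A ⊕ {b // b ∉ Set.range φ} ≃ B :=
    (Equiv.sumCongr (Equiv.ofInjective φ hφ) (Equiv.refl _)).trans
      (Equiv.sumCompl (fun b => b ∈ Set.range φ)) with he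
  have h := bern_equiv (p := p) (h0 := h0) (h1 := h1) e.symm (fun ω => f (ω ∘ φ))
  rw [h, bern_sum]
  refine FP.E_congr _ fun a => ?_
  have h2 : ∀ b : {b // b ∉ Set.range φ} → Bool, (Sum.elim a b ∘ e.symm) ∘ φ = a := by
    intro b
    funext x
    have : e.symm (φ x) = Sum.inl x := by
      rw [Equiv.symm_apply_eq]
      rfl
    simp [Function.comp, this]
  simp only [h2, FP.E_const]

/-- **Label independence** -/
theorem E_opn {ι E : Type*} [DecidableEq ι] [Fintype ι] [Fintype E] [DecidableEq E]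
    (ℓ : EdgeLab ι E) (F : (Cube ι → Cube ι → Prop) → ℝ) :
    (bern p h0 h1 E).E (fun ω => F (opn ℓ ω)) =
      (bern p h0 h1 (CE ι)).E (fun ω => F (opn (canE ι) ω)) := by
  rw [← bern_comap ℓ.phi ℓ.phi_injective (fun ω => F (opn (canE ι) ω))]
  exact FP.E_congr _ fun ω => by rw [opn_can]

end bern

/-! ### The covering densities -/

section nu

variable (ι : Type*) [DecidableEq ι] [Fintype ι] (p : ℝ) (h0 : 0 ≤ p) (h1 : p ≤ 1)

/-- expected largest number of disjoint open paths with exactly `L` vertices -/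
noncomputable def Emx (L : ℕ) : ℝ :=
  (bern p h0 h1 (CE ι)).E fun ω => (mx (opn (canE ι) ω) L : ℝ)

/-- expected largest fraction of the vertices covered by disjoint open paths with exactly `L`
vertices -/
noncomputable def nuI (L : ℕ) : ℝ := Emx ι p h0 h1 L * L / 2 ^ Fintype.card ι

/-- the covering density of the cube of dimension `m` -/
noncomputable def nu (m : ℕ) (L : ℕ) : ℝ := nuI (Fin m) p h0 h1 L

variable {ι p h0 h1}

theorem Emx_eq {E : Type*} [Fintype E] [DecidableEq E] (ℓ : EdgeLab ι E) (L : ℕ) :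
    (bern p h0 h1 E).E (fun ω => (mx (opn ℓ ω) L : ℝ)) = Emx ι p h0 h1 L :=
  E_opn ℓ fun G => (mx G L : ℝ)

/-- transport of a labelling -/
def EdgeLab.trans {ι' E : Type*} [DecidableEq ι'] (ℓ : EdgeLab ι' E) (e : ι ≃ ι') :
    EdgeLab ι E where
  e x i := ℓ.e (x ∘ e.symm) (e i)
  symm x i := by
    have : flip i x ∘ e.symm = flip (e i) (x ∘ e.symm) := by
      funext j
      by_cases h : j = e i
      · subst h; simp
      · have h' : e.symm j ≠ i := fun h2 => h (by rw [← h2]; simp)
        simp [h, h']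
    rw [this, ℓ.symm]
  inj x i y j h := by
    obtain ⟨h2, h3⟩ := ℓ.inj _ _ _ _ h
    have hij : i = j := e.injective h2
    subst hij
    refine ⟨rfl, ?_⟩
    rcases h3 with h3 | h3
    · left
      funext k
      have := congrFun h3 (e k)
      simpa using this
    · right
      funext k
      have := congrFun h3 (e k)
      by_cases hk : k = i
      · subst hk
        simpa using this
      · have hk' : e k ≠ e i := fun h4 => hk (e.injective h4)
        simpa [hk, hk'] using this

omit [Fintype ι] in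
theorem flip_comp_symm {ι' : Type*} [DecidableEq ι'] (e : ι ≃ ι') (i : ι) (x : Cube ι) :
    flip i x ∘ e.symm = flip (e i) (x ∘ e.symm) := by
  funext j
  by_cases h : j = e i
  · subst h; simp
  · have h' : e.symm j ≠ i := fun h2 => h (by rw [← h2]; simp)
    simp [h, h']

omit [Fintype ι] in
theorem opn_trans {ι' E : Type*} [DecidableEq ι'] (ℓ : EdgeLab ι' E) (e : ι ≃ ι')
    (ω : E → Bool) (x y : Cube ι) :
    opn (ℓ.trans e) ω x y ↔ opn ℓ ω (x ∘ e.symm) (y ∘ e.symm) := by
  constructor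
  · rintro ⟨i, rfl, h⟩
    exact ⟨e i, flip_comp_symm e i x, h⟩
  · rintro ⟨j, hj, h⟩
    refine ⟨e.symm j, ?_, ?_⟩
    · have h2 := flip_comp_symm e (e.symm j) x
      rw [Equiv.apply_symm_apply, ← hj] at h2
      funext k
      have := congrFun h2 (e k)
      simpa using this.symm
    · show ω (ℓ.e (x ∘ e.symm) (e (e.symm j))) = true
      rw [Equiv.apply_symm_apply]
      exact h

theorem Emx_equiv {ι' : Type*} [DecidableEq ι'] [Fintype ι'] (e : ι ≃ ι') {L : ℕ} (hL : 0 < L) :
    Emx ι p h0 h1 L = Emx ι' p h0 h1 L := by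
  rw [← Emx_eq ((canE ι').trans e), Emx]
  refine FP.E_congr _ fun ω => ?_
  rw [mx_equiv hL (Equiv.arrowCongr e (Equiv.refl Bool)) fun x y => opn_trans (canE ι') e ω x y]

theorem nuI_eq_nu {L : ℕ} (hL : 0 < L) :
    nuI ι p h0 h1 L = nu p h0 h1 (Fintype.card ι) L := by
  rw [nu, nuI, nuI, Emx_equiv (Fintype.equivFin ι) hL, Fintype.card_fin]

theorem Emx_nonneg (L : ℕ) : 0 ≤ Emx ι p h0 h1 L := FP.E_nonneg _ fun _ => Nat.cast_nonneg _

theorem nuI_nonneg (L : ℕ) : 0 ≤ nuI ι p h0 h1 L := by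
  have := Emx_nonneg (ι := ι) (p := p) (h0 := h0) (h1 := h1) L
  unfold nuI
  positivity

theorem nu_nonneg (m L : ℕ) : 0 ≤ nu p h0 h1 m L := nuI_nonneg L

theorem nuI_le_one (L : ℕ) : nuI ι p h0 h1 L ≤ 1 := by
  unfold nuI Emx
  rw [← FP.E_mul_right, ← FP.E_div]
  refine FP.E_le_of_le _ fun ω => ?_
  rw [div_le_one (by positivity)]
  have := mx_mul_le (opn (canE ι) ω) L
  have h2 : Fintype.card (Cube ι) = 2 ^ Fintype.card ι := by simp
  rw [h2] at this
  exact_mod_cast this

theorem nu_le_one (m L : ℕ) : nu p h0 h1 m L ≤ 1 := nuI_le_one L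

/-- (N1) cutting -/
theorem nu_cut (m : ℕ) {L L' : ℕ} (hL' : 0 < L') (hLL : L' ≤ L) :
    nu p h0 h1 m L * (1 - (L' : ℝ) / L) ≤ nu p h0 h1 m L' := by
  have hL : 0 < L := hL'.trans_le hLL
  have hL0 : (0 : ℝ) < L := by exact_mod_cast hL
  have hL1 : (0 : ℝ) < L' := by exact_mod_cast hL'
  have key : Emx (Fin m) p h0 h1 L * (L - L') ≤ Emx (Fin m) p h0 h1 L' * L' := by
    unfold Emx
    rw [← FP.E_mul_right, ← FP.E_mul_right]
    refine FP.E_mono _ fun ω => ?_
    have h2 := mx_cut (G := opn (canE (Fin m)) ω) (L := L) hL'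
    have h3 : (L : ℝ) - L' ≤ ((L / L' : ℕ) : ℝ) * L' := by
      have h4 : L < (L / L' + 1) * L' := by
        rw [mul_comm]
        exact Nat.lt_mul_div_succ L hL'
      have h5 : (L : ℝ) < ((L / L' : ℕ) + 1) * L' := by exact_mod_cast h4
      linarith
    have h6 : (mx (opn (canE (Fin m)) ω) L : ℝ) * ((L / L' : ℕ) : ℝ) ≤
        (mx (opn (canE (Fin m)) ω) L' : ℝ) := by exact_mod_cast h2
    calc (mx (opn (canE (Fin m)) ω) L : ℝ) * (L - L')
        ≤ (mx (opn (canE (Fin m)) ω) L : ℝ) * (((L / L' : ℕ) : ℝ) * L') :=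
          mul_le_mul_of_nonneg_left h3 (Nat.cast_nonneg _)
      _ = (mx (opn (canE (Fin m)) ω) L : ℝ) * ((L / L' : ℕ) : ℝ) * L' := by ring
      _ ≤ _ := mul_le_mul_of_nonneg_right h6 hL1.le
  unfold nu nuI
  rw [show Emx (Fin m) p h0 h1 L * L / 2 ^ Fintype.card (Fin m) * (1 - (L' : ℝ) / L) =
    Emx (Fin m) p h0 h1 L * (L - L') / 2 ^ Fintype.card (Fin m) by field_simp]
  exact div_le_div_of_nonneg_right key (by positivity)

end nu

/-! ### Products of cubes: independent fibres, translated labels -/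

section fibre

/-- translation in the cube -/
def xr {ι : Type*} (x t : Cube ι) : Cube ι := fun i => xor (x i) (t i)

@[simp] theorem xr_apply {ι : Type*} (x t : Cube ι) (i : ι) : xr x t i = xor (x i) (t i) := rfl

@[simp] theorem xr_xr {ι : Type*} (x t : Cube ι) : xr (xr x t) t = x := by
  funext i
  simp

theorem xr_injective {ι : Type*} (t : Cube ι) : Function.Injective fun x : Cube ι => xr x t := by
  intro x y h
  have : xr (xr x t) t = xr (xr y t) t := congrArg (fun u => xr u t) h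
  simpa using this

theorem xr_comm {ι : Type*} (x t : Cube ι) : xr x t = xr t x := by
  funext i
  simp [Bool.xor_comm]

theorem xr_eq_iff {ι : Type*} (x t y : Cube ι) : xr x t = y ↔ t = xr x y := by
  constructor
  · rintro rfl
    funext i
    simp
  · rintro rfl
    funext i
    simp

theorem xr_flip {ι : Type*} [DecidableEq ι] (x t : Cube ι) (i : ι) :
    xr (flip i x) t = flip i (xr x t) := by
  funext j
  by_cases h : j = i
  · subst h; simp
  · simp [h]

variable {κ μ E E' : Type*} [DecidableEq κ] [DecidableEq μ]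

/-- the point of the product cube -/
def jn (y : Cube κ) (z : Cube μ) : Cube (κ ⊕ μ) := Sum.elim y z

omit [DecidableEq κ] [DecidableEq μ] in
theorem jn_injective : Function.Injective fun q : Cube κ × Cube μ => jn q.1 q.2 := by
  rintro ⟨y, z⟩ ⟨y', z'⟩ h
  rw [Prod.mk.injEq]
  constructor
  · funext i
    exact congrFun h (Sum.inl i)
  · funext i
    exact congrFun h (Sum.inr i)

omit [DecidableEq κ] [DecidableEq μ] in
theorem jn_inj {y y' : Cube κ} {z z' : Cube μ} (h : jn y z = jn y' z') : y = y' ∧ z = z' := by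
  have := jn_injective (a₁ := (y, z)) (a₂ := (y', z')) h
  simpa using this

theorem flip_inl (i : κ) (x : Cube (κ ⊕ μ)) :
    flip (Sum.inl i) x = jn (flip i (x ∘ Sum.inl)) (x ∘ Sum.inr) := by
  funext j
  rcases j with j | j
  · by_cases h : j = i
    · subst h; simp [jn]
    · simp [jn, h]
  · simp [jn]

theorem flip_inr (i : μ) (x : Cube (κ ⊕ μ)) :
    flip (Sum.inr i) x = jn (x ∘ Sum.inl) (flip i (x ∘ Sum.inr)) := by
  funext j
  rcases j with j | j
  · simp [jn]
  · by_cases h : j = i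
    · subst h; simp [jn]
    · simp [jn, h]

omit [DecidableEq κ] [DecidableEq μ] in
@[simp] theorem jn_inl (y : Cube κ) (z : Cube μ) : jn y z ∘ Sum.inl = y := rfl
omit [DecidableEq κ] [DecidableEq μ] in
@[simp] theorem jn_inr (y : Cube κ) (z : Cube μ) : jn y z ∘ Sum.inr = z := rfl

omit [DecidableEq κ] [DecidableEq μ] in
theorem jn_self (x : Cube (κ ⊕ μ)) : jn (x ∘ Sum.inl) (x ∘ Sum.inr) = x := by
  funext j
  rcases j with j | j <;> rfl

/-- labels of the product cube: the fibre over `z` has its own copy of the labels `E`, translated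
by `τ z`, the fibre over `y` its own copy of the labels `E'` -/
def sumLab (ℓ : EdgeLab κ E) (ℓ' : EdgeLab μ E') (τ : Cube μ → Cube κ) :
    EdgeLab (κ ⊕ μ) ((Cube μ × E) ⊕ (Cube κ × E')) where
  e x i := match i with
    | Sum.inl i => Sum.inl (x ∘ Sum.inr, ℓ.e (xr (x ∘ Sum.inl) (τ (x ∘ Sum.inr))) i)
    | Sum.inr j => Sum.inr (x ∘ Sum.inl, ℓ'.e (x ∘ Sum.inr) j)
  symm x i := by
    rcases i with i | j
    · simp only [flip_inl, jn_inl, jn_inr, xr_flip, ℓ.symm]
    · simp only [flip_inr, jn_inl, jn_inr, ℓ'.symm]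
  inj x i y j h := by
    rcases i with i | i <;> rcases j with j | j
    · simp only [Sum.inl.injEq, Prod.mk.injEq] at h
      obtain ⟨h1, h2⟩ := h
      obtain ⟨h3, h4⟩ := ℓ.inj _ _ _ _ h2
      subst h3
      rw [← h1] at h4
      refine ⟨rfl, ?_⟩
      rcases h4 with h4 | h4
      · left
        rw [← jn_self x, ← jn_self y, h1, xr_injective _ h4]
      · right
        rw [← xr_flip] at h4
        rw [flip_inl, ← xr_injective _ h4, ← h1, jn_self]
    · simp at h
    · simp at h
    · simp only [Sum.inr.injEq, Prod.mk.injEq] at h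
      obtain ⟨h1, h2⟩ := h
      obtain ⟨h3, h4⟩ := ℓ'.inj _ _ _ _ h2
      subst h3
      refine ⟨rfl, ?_⟩
      rcases h4 with h4 | h4
      · left
        rw [← jn_self x, ← jn_self y, h1, h4]
      · right
        rw [flip_inr, ← h4, ← h1, jn_self]

/-- open edges inside a fibre -/
theorem opn_fibre {ℓ : EdgeLab κ E} {ℓ' : EdgeLab μ E'} {τ : Cube μ → Cube κ}
    {ω : (Cube μ × E) ⊕ (Cube κ × E') → Bool} (z : Cube μ) {a b : Cube κ}
    (h : opn ℓ (fun e => ω (Sum.inl (z, e))) a b) :
    opn (sumLab ℓ ℓ' τ) ω (jn (xr a (τ z)) z) (jn (xr b (τ z)) z) := by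
  obtain ⟨i, rfl, h⟩ := h
  refine ⟨Sum.inl i, ?_, ?_⟩
  · rw [flip_inl, jn_inl, jn_inr, xr_flip]
  · show ω (Sum.inl (z, ℓ.e (xr (xr a (τ z)) (τ z)) i)) = true
    rw [xr_xr]
    exact h

/-- open edges between fibres -/
theorem opn_fresh {ℓ : EdgeLab κ E} {ℓ' : EdgeLab μ E'} {τ : Cube μ → Cube κ}
    {ω : (Cube μ × E) ⊕ (Cube κ × E') → Bool} (y : Cube κ) {z z' : Cube μ}
    (h : opn ℓ' (fun e => ω (Sum.inr (y, e))) z z') :
    opn (sumLab ℓ ℓ' τ) ω (jn y z) (jn y z') := by
  obtain ⟨i, rfl, h⟩ := h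
  exact ⟨Sum.inr i, by rw [flip_inr, jn_inl, jn_inr], h⟩

/-- a uniform translation of a set covers every point with the same probability -/
theorem unif_xr [Fintype κ] (A : Finset (Cube κ)) (x : Cube κ) :
    (FP.unif (Cube κ)).E (fun t => if ∃ a ∈ A, xr a t = x then 1 else 0) =
      A.card / 2 ^ Fintype.card κ := by
  rw [FP.E_unif]
  have h : Fintype.card (Cube κ) = 2 ^ Fintype.card κ := by simp
  rw [h]
  push_cast
  congr 1
  rw [Finset.sum_boole]
  congr 1
  have : (Finset.univ.filter fun t : Cube κ => ∃ a ∈ A, xr a t = x) =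
      A.image fun a => xr a x := by
    ext t
    simp only [Finset.mem_filter, Finset.mem_univ, true_and, Finset.mem_image]
    exact ⟨fun ⟨a, ha, h⟩ => ⟨a, ha, ((xr_eq_iff _ _ _).1 h).symm⟩,
      fun ⟨a, ha, h⟩ => ⟨a, ha, (xr_eq_iff _ _ _).2 h.symm⟩⟩
  rw [this, Finset.card_image_of_injective _ (xr_injective x)]

end fibre

end Pool.Agent.LongCyc
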