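import Pool.Agent.LongCyc.Wt

/-!
# Finite probability spaces (finite weighted sums)

`FP Ω` is a probability on the finite type `Ω`, `P.E f` is the expectation, `P.pr A` is the
probability of `A`; `P.prod Q`, `FP.pi P` are products; `bern p E` is the law of independent bits
(`true` with probability `p`) indexed by `E`.
-/

set_option autoImplicit false

namespace Pool.Agent.LongCyc

open Finset

/-- a probability on a finite type -/
structure FP (Ω : Type*) [Fintype Ω] where
  w : Ω → ℝ
  nonneg : ∀ ω, 0 ≤ w ω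
  sum_one : ∑ ω, w ω = 1

namespace FP

section basic

variable {Ω Ω' : Type*} [Fintype Ω] [Fintype Ω'] (P : FP Ω) (Q : FP Ω')

/-- expectation -/
def E (f : Ω → ℝ) : ℝ := ∑ ω, P.w ω * f ω

/-- probability of an event -/
noncomputable def pr (A : Ω → Prop) : ℝ := by
  classical exact P.E fun ω => if A ω then 1 else 0

@[simp] theorem E_const (c : ℝ) : P.E (fun _ => c) = c := by
  rw [E, ← Finset.sum_mul, P.sum_one, one_mul]

theorem E_congr {f g : Ω → ℝ} (h : ∀ ω, f ω = g ω) : P.E f = P.E g := by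
  rw [show f = g from funext h]

theorem E_add (f g : Ω → ℝ) : P.E (fun ω => f ω + g ω) = P.E f + P.E g := by
  simp only [E, mul_add, Finset.sum_add_distrib]

theorem E_sub (f g : Ω → ℝ) : P.E (fun ω => f ω - g ω) = P.E f - P.E g := by
  simp only [E, mul_sub, Finset.sum_sub_distrib]

theorem E_neg (f : Ω → ℝ) : P.E (fun ω => - f ω) = - P.E f := by
  simp only [E, mul_neg, Finset.sum_neg_distrib]

theorem E_mul_left (c : ℝ) (f : Ω → ℝ) : P.E (fun ω => c * f ω) = c * P.E f := by
  simp only [E, Finset.mul_sum]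
  exact Finset.sum_congr rfl fun ω _ => by ring

theorem E_mul_right (c : ℝ) (f : Ω → ℝ) : P.E (fun ω => f ω * c) = P.E f * c := by
  rw [mul_comm, ← E_mul_left]
  exact P.E_congr fun ω => mul_comm _ _

theorem E_div (c : ℝ) (f : Ω → ℝ) : P.E (fun ω => f ω / c) = P.E f / c := by
  simp only [div_eq_mul_inv]
  exact P.E_mul_right _ _

theorem E_sum {κ : Type*} (s : Finset κ) (f : κ → Ω → ℝ) :
    P.E (fun ω => ∑ k ∈ s, f k ω) = ∑ k ∈ s, P.E (f k) := by
  simp only [E, Finset.mul_sum]
  exact Finset.sum_comm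

theorem E_mono {f g : Ω → ℝ} (h : ∀ ω, f ω ≤ g ω) : P.E f ≤ P.E g :=
  Finset.sum_le_sum fun ω _ => mul_le_mul_of_nonneg_left (h ω) (P.nonneg ω)

theorem E_nonneg {f : Ω → ℝ} (h : ∀ ω, 0 ≤ f ω) : 0 ≤ P.E f :=
  Finset.sum_nonneg fun ω _ => mul_nonneg (P.nonneg ω) (h ω)

theorem E_le_of_le {f : Ω → ℝ} {c : ℝ} (h : ∀ ω, f ω ≤ c) : P.E f ≤ c := by
  rw [← P.E_const c]
  exact P.E_mono h

theorem le_E_of_le {f : Ω → ℝ} {c : ℝ} (h : ∀ ω, c ≤ f ω) : c ≤ P.E f := by
  rw [← P.E_const c]
  exact P.E_mono h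

/-- some value is at least the expectation -/
theorem exists_ge (f : Ω → ℝ) : ∃ ω, P.E f ≤ f ω := by
  by_contra h
  push Not at h
  have hne : ∃ ω, 0 < P.w ω := by
    by_contra h'
    push Not at h'
    have : ∑ ω, P.w ω ≤ 0 := Finset.sum_nonpos fun ω _ => h' ω
    rw [P.sum_one] at this
    linarith
  obtain ⟨ω₀, h₀⟩ := hne
  have h1 : P.E f < P.E fun _ => P.E f := by
    refine Finset.sum_lt_sum (fun ω _ => mul_le_mul_of_nonneg_left (h ω).le (P.nonneg ω))
      ⟨ω₀, Finset.mem_univ _, ?_⟩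
    exact mul_lt_mul_of_pos_left (h ω₀) h₀
  rw [E_const] at h1
  exact lt_irrefl _ h1

theorem E_swap (f : Ω → Ω' → ℝ) :
    P.E (fun a => Q.E fun b => f a b) = Q.E fun b => P.E fun a => f a b := by
  simp only [E, Finset.mul_sum]
  rw [Finset.sum_comm]
  exact Finset.sum_congr rfl fun b _ => Finset.sum_congr rfl fun a _ => by ring

/-- `E |X| ≤ sqrt (E X ^ 2)` -/
theorem E_abs_le (f : Ω → ℝ) : P.E (fun ω => |f ω|) ≤ Real.sqrt (P.E fun ω => f ω ^ 2) := by
  apply Real.le_sqrt_of_sq_le
  set m := P.E fun ω => |f ω| with hm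
  have h1 : 0 ≤ P.E fun ω => (|f ω| - m) ^ 2 := P.E_nonneg fun ω => sq_nonneg _
  have h2 : P.E (fun ω => (|f ω| - m) ^ 2) = P.E (fun ω => f ω ^ 2) - m ^ 2 := by
    have : ∀ ω, (|f ω| - m) ^ 2 = f ω ^ 2 - 2 * m * |f ω| + m ^ 2 := fun ω => by
      rw [sub_sq, sq_abs]; ring
    rw [P.E_congr this, E_add, E_sub, E_mul_left, E_const, ← hm]
    ring
  linarith

theorem pr_eq (A : Ω → Prop) [DecidablePred A] : P.pr A = P.E fun ω => if A ω then 1 else 0 := by
  unfold pr
  exact P.E_congr fun ω => by congr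

theorem pr_nonneg (A : Ω → Prop) : 0 ≤ P.pr A := by
  classical
  rw [pr_eq]
  exact P.E_nonneg fun ω => by split_ifs <;> norm_num

theorem pr_le_one (A : Ω → Prop) : P.pr A ≤ 1 := by
  classical
  rw [pr_eq]
  exact P.E_le_of_le fun ω => by split_ifs <;> norm_num

theorem pr_mono {A B : Ω → Prop} (h : ∀ ω, A ω → B ω) : P.pr A ≤ P.pr B := by
  classical
  rw [pr_eq, pr_eq]
  refine P.E_mono fun ω => ?_
  split_ifs with h1 h2
  · exact le_rfl
  · exact absurd (h ω h1) h2
  · norm_num
  · exact le_rfl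

theorem pr_compl (A : Ω → Prop) : P.pr (fun ω => ¬ A ω) = 1 - P.pr A := by
  classical
  rw [pr_eq, pr_eq, ← P.E_const 1, ← E_sub]
  refine P.E_congr fun ω => ?_
  by_cases h : A ω <;> simp [h]

theorem pr_or (A B : Ω → Prop) : P.pr (fun ω => A ω ∨ B ω) ≤ P.pr A + P.pr B := by
  classical
  rw [pr_eq, pr_eq, pr_eq, ← E_add]
  refine P.E_mono fun ω => ?_
  by_cases h1 : A ω <;> by_cases h2 : B ω <;> simp [h1, h2]

/-- union bound -/
theorem pr_exists {κ : Type*} (s : Finset κ) (A : κ → Ω → Prop) :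
    P.pr (fun ω => ∃ k ∈ s, A k ω) ≤ ∑ k ∈ s, P.pr (A k) := by
  classical
  have h : ∀ k, P.pr (A k) = P.E fun ω => if A k ω then 1 else 0 := fun k => P.pr_eq _
  simp only [h]
  rw [pr_eq, ← E_sum]
  refine P.E_mono fun ω => ?_
  split_ifs with h1
  · obtain ⟨k, hk, hA⟩ := h1
    have h2 : (if A k ω then (1 : ℝ) else 0) ≤ ∑ k ∈ s, if A k ω then (1 : ℝ) else 0 :=
      Finset.single_le_sum (f := fun k => if A k ω then (1 : ℝ) else 0)
        (fun k _ => by split_ifs <;> norm_num) hk
    rwa [if_pos hA] at h2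
  · exact Finset.sum_nonneg fun k _ => by split_ifs <;> norm_num

/-- Markov's inequality -/
theorem markov {f : Ω → ℝ} (hf : ∀ ω, 0 ≤ f ω) {t : ℝ} (ht : 0 < t) :
    P.pr (fun ω => t ≤ f ω) ≤ P.E f / t := by
  classical
  rw [pr_eq, le_div_iff₀ ht, ← E_mul_right]
  refine P.E_mono fun ω => ?_
  split_ifs with h
  · linarith
  · simpa using hf ω

/-- Chebyshev's inequality around any point `m` -/
theorem chebyshev (f : Ω → ℝ) (m : ℝ) {t : ℝ} (ht : 0 < t) :
    P.pr (fun ω => t ≤ |f ω - m|) ≤ P.E (fun ω => (f ω - m) ^ 2) / t ^ 2 := by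
  refine le_trans (P.pr_mono fun ω h => ?_) (P.markov (fun ω => sq_nonneg _) (pow_pos ht 2))
  rw [← sq_abs (f ω - m)]
  exact pow_le_pow_left₀ ht.le h 2

/-- exponential Markov inequality for the lower tail -/
theorem lower_tail (f : Ω → ℝ) (t : ℝ) :
    P.pr (fun ω => f ω < t) ≤ Real.exp t * P.E fun ω => Real.exp (-f ω) := by
  classical
  rw [pr_eq, ← E_mul_left]
  refine P.E_mono fun ω => ?_
  rw [← Real.exp_add]
  split_ifs with h
  · exact Real.one_le_exp (by linarith)
  · exact (Real.exp_pos _).le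

/-- product of two probabilities -/
def prod : FP (Ω × Ω') where
  w q := P.w q.1 * Q.w q.2
  nonneg q := mul_nonneg (P.nonneg _) (Q.nonneg _)
  sum_one := by
    rw [Fintype.sum_prod_type]
    simp only [← Finset.mul_sum, Q.sum_one, mul_one, P.sum_one]

theorem E_prod (f : Ω × Ω' → ℝ) : (P.prod Q).E f = P.E fun a => Q.E fun b => f (a, b) := by
  simp only [E, prod, Finset.mul_sum]
  rw [Fintype.sum_prod_type]
  exact Finset.sum_congr rfl fun a _ => Finset.sum_congr rfl fun b _ => by ring

/-- transport along an equivalence -/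
def map (e : Ω ≃ Ω') : FP Ω' where
  w ω' := P.w (e.symm ω')
  nonneg _ := P.nonneg _
  sum_one := by rw [Equiv.sum_comp e.symm]; exact P.sum_one

theorem E_map (e : Ω ≃ Ω') (f : Ω' → ℝ) : (P.map e).E f = P.E fun ω => f (e ω) := by
  simp only [E, map]
  rw [← Equiv.sum_comp e]
  simp

/-- the uniform probability -/
noncomputable def unif (Ω : Type*) [Fintype Ω] [Nonempty Ω] : FP Ω where
  w _ := 1 / Fintype.card Ω
  nonneg _ := by positivity
  sum_one := by
    rw [Finset.sum_const, Finset.card_univ, nsmul_eq_mul]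
    have : (Fintype.card Ω : ℝ) ≠ 0 := by
      exact_mod_cast Fintype.card_ne_zero
    field_simp

theorem E_unif [Nonempty Ω] (f : Ω → ℝ) : (unif Ω).E f = (∑ ω, f ω) / Fintype.card Ω := by
  simp only [E, unif, ← Finset.mul_sum]
  ring

end basic

section pi

variable {I : Type*} [Fintype I] [DecidableEq I] {Ω : I → Type*} [∀ i, Fintype (Ω i)]
  (P : ∀ i, FP (Ω i))

/-- product of a family of probabilities -/
def pi : FP (∀ i, Ω i) where
  w ω := ∏ i, (P i).w (ω i)
  nonneg ω := Finset.prod_nonneg fun i _ => (P i).nonneg _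
  sum_one := by
    have h := Finset.prod_univ_sum (fun i => (Finset.univ : Finset (Ω i))) (fun i a => (P i).w a)
    rw [Fintype.piFinset_univ] at h
    rw [← h]
    exact Finset.prod_eq_one fun i _ => (P i).sum_one

theorem pi_w (ω : ∀ i, Ω i) : (pi P).w ω = ∏ i, (P i).w (ω i) := rfl

/-- exchange the coordinates outside `S` of two points -/
private def swp (S : Finset I) : Equiv.Perm ((∀ i, Ω i) × (∀ i, Ω i)) :=
  Function.Involutive.toPerm (fun q => (S.piecewise q.1 q.2, S.piecewise q.2 q.1)) (by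
    rintro ⟨a, b⟩
    refine Prod.ext ?_ ?_
    · funext i
      by_cases h : i ∈ S <;> simp [h]
    · funext i
      by_cases h : i ∈ S <;> simp [h])

private theorem swp_w (S : Finset I) (q : (∀ i, Ω i) × (∀ i, Ω i)) :
    (pi P).w (swp S q).1 * (pi P).w (swp S q).2 = (pi P).w q.1 * (pi P).w q.2 := by
  simp only [pi_w, ← Finset.prod_mul_distrib]
  refine Finset.prod_congr rfl fun i _ => ?_
  by_cases h : i ∈ S
  · simp [swp, Function.Involutive.toPerm, h]
  · simp [swp, Function.Involutive.toPerm, h, mul_comm]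

/-- functions of disjoint sets of coordinates are independent -/
theorem E_mul_indep {S T : Finset I} (hST : Disjoint S T) {f g : (∀ i, Ω i) → ℝ}
    (hf : ∀ ω ω', (∀ i ∈ S, ω i = ω' i) → f ω = f ω')
    (hg : ∀ ω ω', (∀ i ∈ T, ω i = ω' i) → g ω = g ω') :
    (pi P).E (fun ω => f ω * g ω) = (pi P).E f * (pi P).E g := by
  have h1 : (pi P).E f * (pi P).E g =
      ∑ q : (∀ i, Ω i) × (∀ i, Ω i), ((pi P).w q.1 * (pi P).w q.2) * (f q.1 * g q.2) := by
    rw [E, E, Fintype.sum_prod_type, Finset.sum_mul_sum]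
    exact Finset.sum_congr rfl fun a _ => Finset.sum_congr rfl fun b _ => by ring
  have h2 : ∀ q : (∀ i, Ω i) × (∀ i, Ω i), f q.1 * g q.2 = f (swp S q).1 * g (swp S q).1 := by
    intro q
    have e1 : f q.1 = f (swp S q).1 := hf _ _ fun i hi => by
      simp [swp, Function.Involutive.toPerm, hi]
    have e2 : g q.2 = g (swp S q).1 := hg _ _ fun i hi => by
      have : i ∉ S := fun h => Finset.disjoint_left.1 hST h hi
      simp [swp, Function.Involutive.toPerm, this]
    rw [e1, e2]
  rw [h1]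
  have h3 : ∑ q : (∀ i, Ω i) × (∀ i, Ω i), ((pi P).w q.1 * (pi P).w q.2) * (f q.1 * g q.2) =
      ∑ q : (∀ i, Ω i) × (∀ i, Ω i), ((pi P).w (swp S q).1 * (pi P).w (swp S q).2) *
        (f (swp S q).1 * g (swp S q).1) := by
    refine Finset.sum_congr rfl fun q _ => ?_
    rw [swp_w, ← h2]
  rw [h3, Equiv.sum_comp (swp S) (fun q : (∀ i, Ω i) × (∀ i, Ω i) =>
    ((pi P).w q.1 * (pi P).w q.2) * (f q.1 * g q.1)), Fintype.sum_prod_type]
  rw [E]
  refine Finset.sum_congr rfl fun a _ => ?_
  rw [show ∑ b, ((pi P).w (a, b).1 * (pi P).w (a, b).2) * (f (a, b).1 * g (a, b).1) =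
    ((pi P).w a * (f a * g a)) * ∑ b, (pi P).w b from by
      rw [Finset.mul_sum]
      exact Finset.sum_congr rfl fun b _ => by ring, (pi P).sum_one]
  ring

/-- functions of pairwise disjoint sets of coordinates are independent -/
theorem E_prod_indep {κ : Type*} (K : Finset κ) (S : κ → Finset I)
    (hS : (K : Set κ).PairwiseDisjoint S) (f : κ → (∀ i, Ω i) → ℝ)
    (hf : ∀ k ∈ K, ∀ ω ω', (∀ i ∈ S k, ω i = ω' i) → f k ω = f k ω') :
    (pi P).E (fun ω => ∏ k ∈ K, f k ω) = ∏ k ∈ K, (pi P).E (f k) := by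
  classical
  induction K using Finset.induction_on with
  | empty => simp
  | insert a K ha ih =>
    rw [Finset.prod_insert ha]
    have hS' : (K : Set κ).PairwiseDisjoint S := hS.subset (by simp)
    rw [← ih hS' (fun k hk => hf k (Finset.mem_insert_of_mem hk))]
    have hd : Disjoint (S a) (K.biUnion S) := by
      rw [Finset.disjoint_biUnion_right]
      intro k hk
      exact hS (by simp) (by simp [hk]) (by rintro rfl; exact ha hk)
    rw [← E_mul_indep P hd (f := f a) (g := fun ω => ∏ k ∈ K, f k ω)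
      (hf a (Finset.mem_insert_self _ _)) (fun ω ω' h => Finset.prod_congr rfl fun k hk =>
        hf k (Finset.mem_insert_of_mem hk) ω ω' fun i hi => h i (Finset.mem_biUnion.2 ⟨k, hk, hi⟩))]
    exact (pi P).E_congr fun ω => Finset.prod_insert ha

/-- law of one coordinate -/
theorem E_pi_single (i : I) (f : Ω i → ℝ) : (pi P).E (fun ω => f (ω i)) = (P i).E f := by
  have h := Finset.prod_univ_sum (fun j => (Finset.univ : Finset (Ω j)))
    (fun j a => (P j).w a * if h : j = i then f (h ▸ a) else 1)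
  rw [Fintype.piFinset_univ] at h
  have h1 : ∏ j, ∑ a, ((P j).w a * if h : j = i then f (h ▸ a) else 1) = (P i).E f := by
    rw [Finset.prod_eq_single i]
    · simp [E]
    · intro j _ hj
      simp only [dif_neg hj, mul_one]
      exact (P j).sum_one
    · intro hi
      exact absurd (Finset.mem_univ i) hi
  rw [h1] at h
  rw [h, E]
  refine Finset.sum_congr rfl fun ω _ => ?_
  rw [Finset.prod_mul_distrib, pi_w]
  congr 1
  rw [Finset.prod_eq_single i]
  · simp
  · intro j _ hj
    simp [hj]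
  · intro hi
    exact absurd (Finset.mem_univ i) hi

/-- two different coordinates are independent -/
theorem E_pi_pair {i j : I} (hij : i ≠ j) (f : Ω i → ℝ) (g : Ω j → ℝ) :
    (pi P).E (fun ω => f (ω i) * g (ω j)) = (P i).E f * (P j).E g := by
  rw [E_mul_indep P (S := {i}) (T := {j}) (by simpa using hij) (f := fun ω => f (ω i))
    (g := fun ω => g (ω j)) (fun ω ω' h => by rw [h i (by simp)])
    (fun ω ω' h => by rw [h j (by simp)]), E_pi_single, E_pi_single]

/-- resampling one coordinate -/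
theorem E_pi_update (i : I) (f : (∀ i, Ω i) → ℝ) :
    (pi P).E f = (P i).E fun a => (pi P).E fun ω => f (Function.update ω i a) := by
  have h1 : ∀ a, (pi P).E (fun ω => f (Function.update ω i a)) =
      (pi P).E (fun ω => f (Function.update ω i a)) := fun a => rfl
  have h2 : (P i).E (fun a => (pi P).E fun ω => f (Function.update ω i a)) =
      (pi P).E fun ω' => (pi P).E fun ω => f (Function.update ω i (ω' i)) := by
    rw [E_pi_single P i (fun a => (pi P).E fun ω => f (Function.update ω i a))]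
  rw [h2, E]
  have h3 : ((pi P).E fun ω' => (pi P).E fun ω => f (Function.update ω i (ω' i))) =
      ∑ q : (∀ i, Ω i) × (∀ i, Ω i), ((pi P).w q.1 * (pi P).w q.2) *
        f (Function.update q.2 i (q.1 i)) := by
    rw [E, Fintype.sum_prod_type]
    refine Finset.sum_congr rfl fun a _ => ?_
    rw [E, Finset.mul_sum]
    exact Finset.sum_congr rfl fun b _ => by ring
  rw [h3, ← Equiv.sum_comp (swp {i}), Fintype.sum_prod_type]
  have h4 : ∀ a b : (∀ i, Ω i), ((pi P).w ((swp {i}) (a, b)).1 * (pi P).w ((swp {i}) (a, b)).2) *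
      f (Function.update ((swp {i}) (a, b)).2 i (((swp {i}) (a, b)).1 i)) =
      ((pi P).w a * (pi P).w b) * f a := by
    intro a b
    rw [swp_w]
    congr 2
    funext j
    by_cases h : j = i
    · subst h
      simp [swp, Function.Involutive.toPerm]
    · simp [swp, Function.Involutive.toPerm, h]
  simp only [h4]
  refine Finset.sum_congr rfl fun a _ => ?_
  rw [show ∑ b, (pi P).w a * (pi P).w b * f a = ((pi P).w a * f a) * ∑ b, (pi P).w b from by
    rw [Finset.mul_sum]
    exact Finset.sum_congr rfl fun b _ => by ring, (pi P).sum_one, mul_one]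

end pi

end FP

/-! ### Bernoulli -/

/-- one bit, `true` with probability `p` -/
def ber (p : ℝ) (h0 : 0 ≤ p) (h1 : p ≤ 1) : FP Bool where
  w b := if b then p else 1 - p
  nonneg b := by cases b <;> simp <;> linarith
  sum_one := by simp

/-- independent bits indexed by `E` -/
def bern (p : ℝ) (h0 : 0 ≤ p) (h1 : p ≤ 1) (E : Type*) [Fintype E] [DecidableEq E] :
    FP (E → Bool) := FP.pi fun _ => ber p h0 h1

section bern

variable {p : ℝ} {h0 : 0 ≤ p} {h1 : p ≤ 1} {E : Type*} [Fintype E] [DecidableEq E]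

theorem bern_w (ω : E → Bool) : (bern p h0 h1 E).w ω = ∏ e, if ω e then p else 1 - p := rfl

/-- all bits in `S` are `true` -/
theorem bern_all (S : Finset E) :
    (bern p h0 h1 E).E (fun ω => ∏ e ∈ S, if ω e then 1 else 0) = p ^ S.card := by
  have h := FP.E_prod_indep (fun _ : E => ber p h0 h1) S (fun e => {e})
    (fun a _ b _ hab => by simpa using hab) (fun e ω => if ω e then 1 else 0)
    (fun e _ ω ω' h => by rw [h e (by simp)])
  rw [bern, h]
  rw [Finset.prod_congr rfl fun e _ => FP.E_pi_single (fun _ : E => ber p h0 h1) e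
    (fun b => if b then 1 else 0)]
  simp [FP.E, ber]

/-- one bit -/
theorem bern_one (e : E) : (bern p h0 h1 E).E (fun ω => if ω e then 1 else 0) = p := by
  have := bern_all (p := p) (h0 := h0) (h1 := h1) {e}
  simpa using this

/-- two bits -/
theorem bern_two (e e' : E) : (bern p h0 h1 E).E (fun ω => (if ω e then 1 else 0) *
    (if ω e' then 1 else 0)) = if e = e' then p else p ^ 2 := by
  split_ifs with h
  · subst h
    refine Eq.trans (FP.E_congr _ fun ω => ?_) (bern_one (p := p) (h0 := h0) (h1 := h1) e)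
    split_ifs <;> norm_num
  · have := bern_all (p := p) (h0 := h0) (h1 := h1) {e, e'}
    rw [Finset.card_pair h] at this
    rw [← this]
    refine FP.E_congr _ fun ω => ?_
    rw [Finset.prod_pair h]

/-- the set of the `true` bits has the weight `wt p` -/
theorem bern_wt (f : Finset E → ℝ) :
    (bern p h0 h1 E).E (fun ω => f (Finset.univ.filter fun e => ω e = true)) =
      ∑ H : Finset E, wt p H * f H := by
  set φ : (E → Bool) ≃ Finset E :=
    { toFun := fun ω => Finset.univ.filter fun e => ω e = true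
      invFun := fun H e => decide (e ∈ H)
      left_inv := fun ω => by funext e; simp
      right_inv := fun H => by ext e; simp } with hφ
  rw [FP.E, ← Equiv.sum_comp φ]
  refine Finset.sum_congr rfl fun ω _ => ?_
  have h2 : (bern p h0 h1 E).w ω = wt p (φ ω) := by
    rw [bern_w, Finset.prod_ite, Finset.prod_const, Finset.prod_const, wt]
    congr 3
    ext e
    simp [hφ]
  rw [h2]
  rfl

end bern

end Pool.Agent.LongCyc
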