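import Pool.Agent.LongCyc.Stage2c
import Pool.Agent.LongCyc.Double

/-!
# Stage 2: the long cycle of the percolated cube, given the covering densities
-/

set_option autoImplicit false
set_option linter.unusedSectionVars false

namespace Pool.Agent.LongCyc

open Finset

section

variable {κ μ : Type*} [DecidableEq κ] [Fintype κ] [DecidableEq μ] [Fintype μ]

/-- the percolated product cube can be generated by the data of the fibres and fresh bits -/
theorem E_glueL {ρ : ℝ} {r0 : 0 ≤ ρ} {r1 : ρ ≤ 1} {p : ℝ} {h0 : 0 ≤ p} {h1 : p ≤ 1}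
    (F : (Cube (κ ⊕ μ) → Cube (κ ⊕ μ) → Prop) → ℝ) :
    (bern p h0 h1 (CE (κ ⊕ μ))).E (fun ω => F (opn (canE (κ ⊕ μ)) ω)) =
      (FP.pi fun _ : Cube μ => fibLaw κ ρ r0 r1 p h0 h1).E fun D =>
        (bern p h0 h1 (Cube κ × CE μ)).E fun φ => F (opnF (fun z => (D z).2) φ) := by
  symm
  unfold fibLaw
  rw [E_pi_prod]
  refine (FP.E_congr _ (g := fun _ => (bern p h0 h1 (CE (κ ⊕ μ))).E (fun ω => F (opn (canE (κ ⊕ μ)) ω)))
    fun b => ?_).trans (FP.E_const _ _)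
  rw [E_fibres F]
  rfl

/-- **Section 8**: given the covering densities of the fibres, the percolated cube has a long cycle with
large probability. -/
theorem stage2 (d n T E : ℕ) (hd : Fintype.card κ + Fintype.card μ = d) (hn : n = 2 ^ d) (hd0 : 100 ≤ d)
    (hT : d ≤ T * T) (hμ : d ≤ 2 * Fintype.card μ) (hE : 20 ≤ E) (hEd : 2 * E ≤ d)
    {p1 : ℝ} (h0 : 0 ≤ p1) (h1 : p1 ≤ 1) {p2 : ℝ} (h02 : 0 ≤ p2) (h12 : p2 ≤ 1)
    (hν1 : 1 - 5 / (E : ℝ) ≤ nuI κ p1 h0 h1 (d ^ 29)) (hν2 : 3 / 4 ≤ nuI κ p1 h0 h1 (d ^ 10))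
    (hbig : 100 * (d : ℝ) ^ 29 ≤ (1 - 7 / (E : ℝ)) * n) :
    1 - (((Fintype.card μ : ℝ) ^ 2 + Fintype.card κ) *
        Real.exp (T - (1 - Real.exp (-1)) * (1 / (2 * E)) ^ 3 * (Fintype.card μ - 2)) * d ^ 8 +
        E ^ 2 / 2 ^ Fintype.card μ + Real.exp (6 * (n / d ^ 10) - p2 * (n / d ^ 8))) ≤
      (bern p1 h0 h1 (CE (κ ⊕ μ))).E fun ω1 => (bern p2 h02 h12 (CE (κ ⊕ μ))).pr fun ω2 =>
        HasCyc (fun x y => opn (canE (κ ⊕ μ)) ω1 x y ∨ opn (canE (κ ⊕ μ)) ω2 x y)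
        (((1 - 7 / (E : ℝ)) - 4 / d - 4 / (((1 - 7 / (E : ℝ)) * n) / d ^ 29) - 2 / E - 2 / d ^ 29) * n) := by
  classical
  have hEr : (20 : ℝ) ≤ E := by exact_mod_cast hE
  have hE0 : (0 : ℝ) < E := by linarith
  have hdr : (100 : ℝ) ≤ d := by exact_mod_cast hd0
  have hd00 : (0 : ℝ) < d := by linarith
  have hinv : (1 : ℝ) / E ≤ 1 / 20 := div_le_div_of_nonneg_left (by norm_num) (by norm_num) hEr
  have hinv0 : (0 : ℝ) < 1 / E := by positivity
  have r0 : (0 : ℝ) ≤ 1 / E := hinv0.le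
  have r1 : (1 : ℝ) / E ≤ 1 := by linarith
  have e5 : (5 : ℝ) / E = 5 * (1 / E) := by ring
  have e7 : (7 : ℝ) / E = 7 * (1 / E) := by ring
  set θ : ℝ := 1 - 7 / (E : ℝ) with hθ
  set Nn : ℝ := (θ - 4 / d - 4 / ((θ * n) / d ^ 29) - 2 / E - 2 / d ^ 29) * n with hNn
  set ε2 : ℝ := Real.exp (6 * (n / d ^ 10) - p2 * (n / d ^ 8)) with hε2
  set F : (Cube (κ ⊕ μ) → Cube (κ ⊕ μ) → Prop) → ℝ := fun G =>
    (bern p2 h02 h12 (CE (κ ⊕ μ))).pr fun ω2 =>
      HasCyc (fun x y => G x y ∨ opn (canE (κ ⊕ μ)) ω2 x y) Nn with hF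
  have hglue := E_glueL (κ := κ) (μ := μ) (ρ := 1 / (E : ℝ)) (r0 := r0) (r1 := r1) (p := p1) (h0 := h0)
    (h1 := h1) F
  have hgoal : (bern p1 h0 h1 (CE (κ ⊕ μ))).E (fun ω1 => (bern p2 h02 h12 (CE (κ ⊕ μ))).pr fun ω2 =>
        HasCyc (fun x y => opn (canE (κ ⊕ μ)) ω1 x y ∨ opn (canE (κ ⊕ μ)) ω2 x y) Nn) =
      (bern p1 h0 h1 (CE (κ ⊕ μ))).E (fun ω => F (opn (canE (κ ⊕ μ)) ω)) := rfl
  rw [hgoal, hglue]
  set Q := fibLaw κ (1 / (E : ℝ)) r0 r1 p1 h0 h1 with hQ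
  set good : (Cube μ → FibL κ) → Prop := fun D => (badSet (Rs (d ^ 10)) T D).card * d ^ 8 ≤ n ∧
    θ * 2 ^ Fintype.card μ ≤ ∑ z, Xm (d ^ 29) (D z) with hgood
  have hθ12 : 1 / 2 ≤ θ := by rw [hθ, e7]; linarith
  have hθ1 : θ ≤ 1 := by rw [hθ, e7]; linarith
  -- good data
  have hg : ∀ D, good D → 1 - ε2 ≤ (bern p1 h0 h1 (Cube κ × CE μ)).E fun φ => F (opnF (fun z => (D z).2) φ) := by
    intro D hD
    refine FP.le_E_of_le _ fun φ => ?_
    have h3 := stage2_fixed (opnF (fun z => (D z).2) φ) (fun _ _ h => opn_symm h) D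
      (by
        intro z a b hab
        exact opn_fibre (ℓ := canE κ) (ℓ' := canE μ) (τ := fun z => (D z).2.2) (ω := glue (fun z => (D z).2) φ) z hab)
      d n T E hd hn hd0 hT hμ (by omega) hEd hD.1 hθ12 hθ1 hD.2 hbig h02 h12
    rw [FP.pr_compl] at h3
    have h3' : 1 - F (opnF (fun z => (D z).2) φ) ≤ ε2 := h3
    linarith
  have h4 : (1 - ε2) * (FP.pi fun _ : Cube μ => Q).pr good ≤
      (FP.pi fun _ : Cube μ => Q).E fun D =>
        (bern p1 h0 h1 (Cube κ × CE μ)).E fun φ => F (opnF (fun z => (D z).2) φ) := by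
    rw [FP.pr_eq, ← FP.E_mul_left]
    refine FP.E_mono _ fun D => ?_
    split_ifs with hD
    · rw [mul_one]; exact hg D hD
    · rw [mul_zero]
      exact FP.E_nonneg _ fun φ => FP.pr_nonneg _ _
  refine le_trans ?_ h4
  -- probability of bad data
  have hb := bad_prob (μ := μ) Q (Rs (d ^ 10)) (q := 1 / (2 * E)) (by positivity) (by
      rw [div_le_one (by positivity)]; linarith) (by
      intro y
      rw [hQ, pr_Rs]
      have : (1 : ℝ) / (2 * E) = 1 / E * (1 / 2) := by field_simp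
      rw [this]
      exact mul_le_mul_of_nonneg_left (by linarith) hinv0.le) (by
      intro y k
      refine le_trans ?_ (pr_Rs_two (r0 := r0) (r1 := r1) (h0 := h0) (h1 := h1) (d ^ 10) y (flip k y))
      have e1 : (1 / (2 * (E : ℝ))) ^ 3 ≤ 1 / E * (1 / 2) := by
        have e2 : (1 : ℝ) / (2 * E) = 1 / E * (1 / 2) := by field_simp
        rw [e2]
        have e3 : (1 / (E : ℝ) * (1 / 2)) ^ 3 = (1 / E * (1 / 2)) * (1 / E * (1 / 2)) ^ 2 := by ring
        rw [e3]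
        have e4 : (1 / (E : ℝ) * (1 / 2)) ^ 2 ≤ 1 := by
          apply pow_le_one₀ (by positivity)
          linarith
        nlinarith [show (0 : ℝ) ≤ 1 / E * (1 / 2) by positivity]
      refine e1.trans (mul_le_mul_of_nonneg_left (by linarith) hinv0.le)) T (s := 1 / (d : ℝ) ^ 8)
      (by positivity)
  have hc := conc_iid (I := Cube μ) Q (Xm (d ^ 29)) (Xm_nonneg _) (Xm_le_one _) (ε := 1 / (E : ℝ)) hinv0
  have hcardμ : (Fintype.card (Cube μ) : ℝ) = 2 ^ Fintype.card μ := by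
    rw [Fintype.card_fun, Fintype.card_bool]; push_cast; rfl
  rw [hcardμ, hQ, E_Xm] at hc
  have h5 : (FP.pi fun _ : Cube μ => Q).pr (fun D => ¬ good D) ≤
      ((Fintype.card μ : ℝ) ^ 2 + Fintype.card κ) *
        Real.exp (T - (1 - Real.exp (-1)) * (1 / (2 * E)) ^ 3 * (Fintype.card μ - 2)) * d ^ 8 +
        E ^ 2 / 2 ^ Fintype.card μ := by
    refine (FP.pr_mono _ (B := fun D => (1 / (d : ℝ) ^ 8 * 2 ^ (Fintype.card κ + Fintype.card μ) <
        ((badSet (Rs (d ^ 10)) T D).card : ℝ)) ∨ (∑ z, Xm (d ^ 29) (D z) ≤ 2 ^ Fintype.card μ *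
          ((1 - 1 / (E : ℝ)) * nuI κ p1 h0 h1 (d ^ 29) - 1 / E))) fun D hD => ?_).trans
      ((FP.pr_or _ _ _).trans (add_le_add (hb.trans (le_of_eq ?_)) (hc.trans (le_of_eq ?_))))
    · by_contra hcon
      push Not at hcon
      apply hD
      constructor
      · have h6 := hcon.1
        rw [hd] at h6
        have h7 : ((badSet (Rs (d ^ 10)) T D).card : ℝ) * d ^ 8 ≤ n := by
          rw [hn]
          push_cast
          calc ((badSet (Rs (d ^ 10)) T D).card : ℝ) * d ^ 8 ≤ (1 / (d : ℝ) ^ 8 * 2 ^ d) * d ^ 8 :=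
                mul_le_mul_of_nonneg_right h6 (by positivity)
            _ = 2 ^ d := by field_simp
        exact_mod_cast h7
      · have h6 := hcon.2.le
        refine le_trans ?_ h6
        rw [mul_comm]
        apply mul_le_mul_of_nonneg_left _ (by positivity)
        have h7 : (1 - 1 / (E : ℝ)) * (1 - 5 / E) ≤ (1 - 1 / (E : ℝ)) * nuI κ p1 h0 h1 (d ^ 29) :=
          mul_le_mul_of_nonneg_left hν1 (by linarith)
        rw [hθ, e7]
        rw [e5] at h7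
        nlinarith
    · rw [div_div_eq_mul_div, div_one]
    · rw [one_div_pow]
      field_simp
  rw [FP.pr_compl] at h5
  have hpr1 : (FP.pi fun _ : Cube μ => Q).pr good ≤ 1 := FP.pr_le_one _ _
  have hpr0 : 0 ≤ (FP.pi fun _ : Cube μ => Q).pr good := FP.pr_nonneg _ _
  have hε20 : 0 ≤ ε2 := (Real.exp_pos _).le
  nlinarith

end

end Pool.Agent.LongCyc
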