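import Pool.Agent.LongCyc.Stage2a

/-!
# Stage 2: the blocks of a percolated cube, and the long cycle
-/

set_option autoImplicit false
set_option linter.unusedSectionVars false

namespace Pool.Agent.LongCyc

open Finset

/-- a cycle with at least `N` vertices, as a list -/
def HasCyc {V : Type*} (G : V → V → Prop) (N : ℝ) : Prop :=
  ∃ (l : List V) (hl : l ≠ []), l.Nodup ∧ N ≤ (l.length : ℝ) ∧ 3 ≤ l.length ∧ l.IsChain G ∧
    G (l.getLast hl) (l.head hl)

theorem HasCyc.mono {V : Type*} {G G' : V → V → Prop} {N N' : ℝ} (h : HasCyc G N)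
    (hG : ∀ x y, G x y → G' x y) (hN : N' ≤ N) : HasCyc G' N' := by
  obtain ⟨l, hl, h1, h2, h3, h4, h5⟩ := h
  exact ⟨l, hl, h1, hN.trans h2, h3, h4.imp hG, hG _ _ h5⟩

section

variable {κ μ : Type*} [DecidableEq κ] [Fintype κ] [DecidableEq μ] [Fintype μ]

/-- the data of one fibre: label (`true` = reservoir), states of the edges, translation -/
abbrev FibL (κ : Type*) [DecidableEq κ] := Bool × ((CE κ → Bool) × Cube κ)

/-- law of the data of one fibre -/
noncomputable def fibLaw (κ : Type*) [DecidableEq κ] [Fintype κ] (ρ : ℝ) (r0 : 0 ≤ ρ) (r1 : ρ ≤ 1)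
    (p : ℝ) (h0 : 0 ≤ p) (h1 : p ≤ 1) : FP (FibL κ) :=
  (ber ρ r0 r1).prod ((bern p h0 h1 (CE κ)).prod (FP.unif (Cube κ)))

/-- the vertices covered by the largest family of disjoint paths with `L` vertices -/
noncomputable def cov (G : Cube κ → Cube κ → Prop) (L : ℕ) : Finset (Cube κ) :=
  Finset.univ.image fun q : Fin (mx G L) × Fin L => fam G L q.1 q.2

theorem card_cov (G : Cube κ → Cube κ → Prop) (L : ℕ) : (cov G L).card = mx G L * L := by
  unfold cov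
  rw [Finset.card_image_of_injective _ (isFam_fam G L).inj, Finset.card_univ, Fintype.card_prod,
    Fintype.card_fin, Fintype.card_fin]

/-- the reservoir part of a fibre -/
noncomputable def Rs (L : ℕ) (a : FibL κ) : Finset (Cube κ) :=
  if a.1 = true then (cov (opn (canE κ) a.2.1) L).image (fun x => xr x a.2.2) else ∅

variable {ρ : ℝ} {r0 : 0 ≤ ρ} {r1 : ρ ≤ 1} {p : ℝ} {h0 : 0 ≤ p} {h1 : p ≤ 1}

theorem pr_Rs (L : ℕ) (y : Cube κ) :
    (fibLaw κ ρ r0 r1 p h0 h1).pr (fun a => y ∈ Rs L a) = ρ * nuI κ p h0 h1 L := by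
  classical
  rw [FP.pr_eq, fibLaw, FP.E_prod]
  have h2 : ∀ b : Bool, ((bern p h0 h1 (CE κ)).prod (FP.unif (Cube κ))).E
      (fun c => if y ∈ Rs L (b, c) then (1 : ℝ) else 0) = if b = true then nuI κ p h0 h1 L else 0 := by
    intro b
    rw [FP.E_prod]
    split_ifs with hb
    · have h3 : ∀ ω : CE κ → Bool, (FP.unif (Cube κ)).E (fun t => if y ∈ Rs L (b, (ω, t)) then (1 : ℝ) else 0) =
          (mx (opn (canE κ) ω) L : ℝ) * L / 2 ^ Fintype.card κ := by
        intro ω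
        have h4 := unif_xr (cov (opn (canE κ) ω) L) y
        rw [card_cov] at h4
        push_cast at h4
        rw [← h4]
        refine FP.E_congr _ fun t => ?_
        simp only [Rs, hb, if_true, Finset.mem_image]
      rw [FP.E_congr _ h3, nuI, Emx, ← FP.E_mul_right, ← FP.E_div]
    · refine (FP.E_congr _ (g := fun _ => 0) fun ω => ?_).trans (FP.E_const _ 0)
      refine (FP.E_congr _ (g := fun _ => 0) fun t => ?_).trans (FP.E_const _ 0)
      simp only [Rs, hb, if_false, Finset.notMem_empty, Bool.false_eq_true]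
  rw [FP.E_congr _ h2]
  simp [FP.E, ber]

theorem pr_Rs_two (L : ℕ) (y y' : Cube κ) :
    ρ * (2 * nuI κ p h0 h1 L - 1) ≤
      (fibLaw κ ρ r0 r1 p h0 h1).pr (fun a => y ∈ Rs L a ∧ y' ∈ Rs L a) := by
  classical
  have h2 := pr_Rs (r0 := r0) (r1 := r1) (h0 := h0) (h1 := h1) L y
  have h3 := pr_Rs (r0 := r0) (r1 := r1) (h0 := h0) (h1 := h1) L y'
  have h4 : (fibLaw κ ρ r0 r1 p h0 h1).E (fun a => if a.1 = true then (1 : ℝ) else 0) = ρ := by
    rw [fibLaw, FP.E_prod]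
    have : ∀ b : Bool, ((bern p h0 h1 (CE κ)).prod (FP.unif (Cube κ))).E
        (fun _ => if b = true then (1 : ℝ) else 0) = if b = true then 1 else 0 := fun b => FP.E_const _ _
    rw [FP.E_congr _ this]
    simp [FP.E, ber]
  have h5 : (fibLaw κ ρ r0 r1 p h0 h1).E (fun a => (if y ∈ Rs L a then (1 : ℝ) else 0) +
      (if y' ∈ Rs L a then (1 : ℝ) else 0) - (if a.1 = true then (1 : ℝ) else 0)) ≤
      (fibLaw κ ρ r0 r1 p h0 h1).pr (fun a => y ∈ Rs L a ∧ y' ∈ Rs L a) := by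
    rw [FP.pr_eq]
    refine FP.E_mono _ fun a => ?_
    by_cases hb : a.1 = true
    · by_cases hy : y ∈ Rs L a <;> by_cases hy' : y' ∈ Rs L a <;> simp [hb, hy, hy']
    · have e1 : Rs L a = ∅ := by simp [Rs, hb]
      simp [hb, e1]
  rw [FP.E_sub, FP.E_add, ← FP.pr_eq, ← FP.pr_eq, h2, h3, h4] at h5
  linarith

/-- normalised number of main pieces of a fibre -/
noncomputable def Xm (L : ℕ) (a : FibL κ) : ℝ :=
  if a.1 = false then (mx (opn (canE κ) a.2.1) L : ℝ) * L / 2 ^ Fintype.card κ else 0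

theorem Xm_nonneg (L : ℕ) (a : FibL κ) : 0 ≤ Xm L a := by
  unfold Xm
  split_ifs
  · positivity
  · exact le_rfl

theorem Xm_le_one (L : ℕ) (a : FibL κ) : Xm L a ≤ 1 := by
  unfold Xm
  split_ifs
  · rw [div_le_one (by positivity)]
    have := mx_mul_le (opn (canE κ) a.2.1) L
    have h2 : Fintype.card (Cube κ) = 2 ^ Fintype.card κ := by simp
    rw [h2] at this
    exact_mod_cast this
  · norm_num

theorem E_Xm (L : ℕ) : (fibLaw κ ρ r0 r1 p h0 h1).E (Xm L) = (1 - ρ) * nuI κ p h0 h1 L := by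
  rw [fibLaw, FP.E_prod]
  have h2 : ∀ b : Bool, ((bern p h0 h1 (CE κ)).prod (FP.unif (Cube κ))).E
      (fun c => Xm L (b, c)) = if b = false then nuI κ p h0 h1 L else 0 := by
    intro b
    rw [FP.E_prod]
    split_ifs with hb
    · have h3 : ∀ ω : CE κ → Bool, (FP.unif (Cube κ)).E (fun t => Xm L (b, (ω, t))) =
          (mx (opn (canE κ) ω) L : ℝ) * L / 2 ^ Fintype.card κ := by
        intro ω
        refine (FP.E_congr _ (g := fun _ => (mx (opn (canE κ) ω) L : ℝ) * L / 2 ^ Fintype.card κ)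
          fun t => ?_).trans (FP.E_const _ _)
        simp only [Xm, hb, if_true]
      rw [FP.E_congr _ h3, nuI, Emx, ← FP.E_mul_right, ← FP.E_div]
    · refine (FP.E_congr _ (g := fun _ => 0) fun ω => ?_).trans (FP.E_const _ 0)
      refine (FP.E_congr _ (g := fun _ => 0) fun t => ?_).trans (FP.E_const _ 0)
      simp [Xm, hb]
  rw [FP.E_congr _ h2]
  simp [FP.E, ber]

/-! ### the blocks -/

/-- reservoir pieces -/
abbrev RPc (L2 : ℕ) (D : Cube μ → FibL κ) :=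
  {q : Σ z : Cube μ, Fin (mx (opn (canE κ) (D z).2.1) L2) // (D q.1).1 = true}

/-- main pieces -/
abbrev MPc (L1 : ℕ) (D : Cube μ → FibL κ) :=
  {q : Σ z : Cube μ, Fin (mx (opn (canE κ) (D z).2.1) L1) // (D q.1).1 = false}

/-- the vertex number `i` of the path number `k` of the fibre `z` -/
noncomputable def pv (D : Cube μ → FibL κ) (L : ℕ) (z : Cube μ)
    (k : Fin (mx (opn (canE κ) (D z).2.1) L)) (i : Fin L) : Cube (κ ⊕ μ) :=
  jn (xr (fam (opn (canE κ) (D z).2.1) L k i) (D z).2.2) z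

theorem pv_inj {D : Cube μ → FibL κ} {L : ℕ} {z z' : Cube μ}
    {k : Fin (mx (opn (canE κ) (D z).2.1) L)} {k' : Fin (mx (opn (canE κ) (D z').2.1) L)}
    {i i' : Fin L} (h : pv D L z k i = pv D L z' k' i') :
    (⟨z, k⟩ : Σ z : Cube μ, Fin (mx (opn (canE κ) (D z).2.1) L)) = ⟨z', k'⟩ ∧ i = i' := by
  obtain ⟨h2, h3⟩ := jn_inj h
  subst h3
  have h4 := xr_injective _ h2
  have h5 := (isFam_fam (opn (canE κ) (D z).2.1) L).inj (a₁ := (k, i)) (a₂ := (k', i')) h4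
  rw [Prod.mk.injEq] at h5
  obtain ⟨h6, h7⟩ := h5
  subst h6
  exact ⟨rfl, h7⟩

theorem pv_inr (D : Cube μ → FibL κ) (L : ℕ) (z : Cube μ)
    (k : Fin (mx (opn (canE κ) (D z).2.1) L)) (i : Fin L) : pv D L z k i ∘ Sum.inr = z := by
  rw [pv, jn_inr]

/-- the system of blocks given by the data of the fibres -/
noncomputable def mkBlocks (G1 : Cube (κ ⊕ μ) → Cube (κ ⊕ μ) → Prop) (D : Cube μ → FibL κ)
    (hG1 : ∀ z a b, opn (canE κ) (D z).2.1 a b → G1 (jn (xr a (D z).2.2) z) (jn (xr b (D z).2.2) z))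
    (L2 L1 h : ℕ) (hL2 : 0 < L2) (hh : 0 < h) (hhL : 2 * h ≤ L1) :
    Blocks G1 (RPc L2 D) (MPc L1 D) L2 L1 h where
  rp r i := pv D L2 r.1.1 r.1.2 i
  mp P i := pv D L1 P.1.1 P.1.2 i
  rp_inj := by
    rintro ⟨r, i⟩ ⟨r', i'⟩ h
    obtain ⟨h2, h3⟩ := pv_inj h
    rw [Prod.mk.injEq]
    exact ⟨Subtype.ext h2, h3⟩
  mp_inj := by
    rintro ⟨r, i⟩ ⟨r', i'⟩ h
    obtain ⟨h2, h3⟩ := pv_inj h
    rw [Prod.mk.injEq]
    exact ⟨Subtype.ext h2, h3⟩
  disj := by
    rintro ⟨⟨z, k⟩, hz⟩ i ⟨⟨z', k'⟩, hz'⟩ j h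
    have h2 := congrArg (fun x : Cube (κ ⊕ μ) => x ∘ Sum.inr) h
    simp only [pv_inr] at h2
    subst h2
    simp only at hz hz'
    rw [hz] at hz'
    cases hz'
  rp_adj := by
    rintro ⟨⟨z, k⟩, hz⟩ i hi
    exact hG1 z _ _ ((isFam_fam (opn (canE κ) (D z).2.1) L2).adj k i hi)
  mp_adj := by
    rintro ⟨⟨z, k⟩, hz⟩ i hi
    exact hG1 z _ _ ((isFam_fam (opn (canE κ) (D z).2.1) L1).adj k i hi)
  hL2 := hL2
  hh := hh
  hhL1 := hhL

theorem mkBlocks_R (G1 : Cube (κ ⊕ μ) → Cube (κ ⊕ μ) → Prop) (D : Cube μ → FibL κ)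
    (hG1 : ∀ z a b, opn (canE κ) (D z).2.1 a b → G1 (jn (xr a (D z).2.2) z) (jn (xr b (D z).2.2) z))
    (L2 L1 h : ℕ) (hL2 : 0 < L2) (hh : 0 < h) (hhL : 2 * h ≤ L1) :
    (Finset.univ : Finset (RPc L2 D)).biUnion (mkBlocks G1 D hG1 L2 L1 h hL2 hh hhL).rset =
      Rall (Rs L2) D := by
  classical
  ext x
  rw [mem_Rall]
  simp only [Finset.mem_biUnion, Finset.mem_univ, true_and, Blocks.rset, Finset.mem_image]
  constructor
  · rintro ⟨⟨⟨z, k⟩, hz⟩, i, rfl⟩
    show pv D L2 z k i ∘ Sum.inl ∈ Rs L2 (D (pv D L2 z k i ∘ Sum.inr))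
    rw [pv_inr, pv, jn_inl]
    simp only at hz
    simp only [Rs, hz, if_true, Finset.mem_image, cov, Finset.mem_univ, true_and]
    exact ⟨_, ⟨(k, i), rfl⟩, rfl⟩
  · intro hx
    by_cases hz : (D (x ∘ Sum.inr)).1 = true
    · simp only [Rs, hz, if_true, Finset.mem_image, cov, Finset.mem_univ, true_and] at hx
      obtain ⟨y, ⟨⟨k, i⟩, rfl⟩, hy⟩ := hx
      refine ⟨⟨⟨x ∘ Sum.inr, k⟩, hz⟩, i, ?_⟩
      show pv D L2 (x ∘ Sum.inr) k i = x
      rw [pv, hy, jn_self]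
    · simp [Rs, hz] at hx

theorem card_MPc (L1 : ℕ) (D : Cube μ → FibL κ) :
    (Fintype.card (MPc L1 D) : ℝ) * L1 = 2 ^ Fintype.card κ * ∑ z, Xm L1 (D z) := by
  classical
  have h2 : Fintype.card (MPc L1 D) =
      ∑ z, if (D z).1 = false then mx (opn (canE κ) (D z).2.1) L1 else 0 := by
    rw [Fintype.card_subtype, Finset.card_filter, Fintype.sum_sigma]
    refine Finset.sum_congr rfl fun z _ => ?_
    split_ifs with hz
    · simp
    · simp
  rw [h2, Finset.mul_sum]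
  push_cast
  rw [Finset.sum_mul]
  refine Finset.sum_congr rfl fun z _ => ?_
  unfold Xm
  split_ifs
  · field_simp
  · simp

end

end Pool.Agent.LongCyc
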